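import Pool.Agent.Y113.W.Alg

/-!
# Infinite tensor products

Sequences of finite families of numbers such that all products are linearly independent over given spaces.
-/

set_option autoImplicit false
set_option linter.unusedSectionVars false

namespace Pool.Agent.U534.Tens

/-- a nontrivial linear relation with coefficients in `V` -/
def Related {β : Type} [Fintype β] (V : Submodule ℚ ℂ) (x : β → ℂ) : Prop :=
  ∃ v : β → ℂ, (∀ b, v b ∈ V) ∧ v ≠ 0 ∧ ∑ b, v b * x b = 0

/-- recursive choice -/
theorem exists_seq {α : Type*} [Inhabited α] (P : ℕ → (ℕ → α) → α → Prop)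
    (hP : ∀ j t t' x, (∀ i < j, t i = t' i) → P j t x → P j t' x) (h : ∀ j t, ∃ x, P j t x) :
    ∃ t : ℕ → α, ∀ j, P j t (t j) := by
  classical
  set F : ℕ → (ℕ → α) := fun j => Nat.rec (fun _ => default) (fun j t => Function.update t j (h j t).choose) j with hF
  have hFs : ∀ j, F (j + 1) = Function.update (F j) j (h j (F j)).choose := fun j => rfl
  have h1 : ∀ i j, i < j → F j i = F (i + 1) i := by
    intro i j hij
    induction j with
    | zero => omega
    | succ j ih =>
      by_cases hj : i = j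
      · rw [hj]
      · rw [hFs, Function.update_of_ne hj]
        exact ih (by omega)
  refine ⟨fun j => F (j + 1) j, fun j => ?_⟩
  have h2 : F (j + 1) j = (h j (F j)).choose := by
    rw [hFs, Function.update_self]
  refine hP j (F j) _ _ (fun i hi => h1 i j hi) ?_
  show P j (F j) (F (j + 1) j)
  rw [h2]
  exact (h j (F j)).choose_spec

section
variable {τ : Type} {β : ℕ → Type} [∀ j, Fintype (β j)]

/-- the spaces of the products of the numbers before `j` -/
noncomputable def PP (x : ∀ j, τ → β j → ℂ) (t : ℕ → τ) : ℕ → Submodule ℚ ℂ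
  | 0 => 1
  | j + 1 => PP x t j * Submodule.span ℚ (Set.range (x j (t j)))

variable {x : ∀ j, τ → β j → ℂ} {t : ℕ → τ}

theorem PP_congr {t' : ℕ → τ} {j : ℕ} (h : ∀ i < j, t i = t' i) : PP x t j = PP x t' j := by
  induction j with
  | zero => rfl
  | succ j ih =>
    show PP x t j * _ = PP x t' j * _
    rw [ih fun i hi => h i (by omega), h j (Nat.lt_succ_self j)]

theorem PP_fin (j : ℕ) : Module.Finite ℚ (PP x t j) := by
  induction j with
  | zero =>
    show Module.Finite ℚ (1 : Submodule ℚ ℂ)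
    rw [Submodule.one_eq_span]
    infer_instance
  | succ j ih =>
    have h2 : Module.Finite ℚ (Submodule.span ℚ (Set.range (x j (t j)))) :=
      Module.Finite.span_of_finite ℚ (Set.finite_range _)
    exact (Pool.Agent.Y113.finrank_mul_le _ _).1

theorem PP_one {o : ∀ j, β j} (ho : ∀ j s, x j s (o j) = 1) (j : ℕ) : (1 : ℂ) ∈ PP x t j := by
  induction j with
  | zero => exact Submodule.one_le.1 le_rfl
  | succ j ih =>
    have h1 : (1 : ℂ) ∈ Submodule.span ℚ (Set.range (x j (t j))) := by
      rw [← ho j (t j)]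
      exact Submodule.subset_span ⟨_, rfl⟩
    have h2 := Submodule.mul_mem_mul ih h1
    rw [mul_one] at h2
    exact h2

theorem prod_mem {o : ∀ j, β j} (ho : ∀ j s, x j s (o j) = 1) (l N : ℕ) (b : (i : Fin N) → β (l + i)) :
    ∏ i : Fin N, x (l + i) (t (l + i)) (b i) ∈ PP x t (l + N) := by
  induction N with
  | zero =>
    rw [Fin.prod_univ_zero]
    exact PP_one ho l
  | succ N ih =>
    rw [Fin.prod_univ_castSucc]
    refine Submodule.mul_mem_mul (ih fun i => b i.castSucc) ?_
    exact Submodule.subset_span ⟨_, rfl⟩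

/-- **Independence of the products.** -/
theorem products {o : ∀ j, β j} (ho : ∀ j s, x j s (o j) = 1) {V : ℕ → Submodule ℚ ℂ} (hV : Monotone V)
    (h : ∀ j, ¬ Related (V j * PP x t j) (x j (t j))) (l N : ℕ) :
    ¬ Related (V l) (fun b : (i : Fin N) → β (l + i) => ∏ i : Fin N, x (l + i) (t (l + i)) (b i)) := by
  induction N with
  | zero =>
    rintro ⟨v, -, h2, h3⟩
    apply h2
    funext b
    rw [Fintype.sum_unique] at h3
    beta_reduce at h3
    rw [Fin.prod_univ_zero, mul_one] at h3
    rw [Subsingleton.elim b default, h3]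
    rfl
  | succ N ih =>
    rintro ⟨v, h1, h2, h3⟩
    set e := Fin.snocEquiv (fun i : Fin (N + 1) => β (l + i)) with he
    have h4 : ∑ c : β (l + N), (∑ b : (i : Fin N) → β (l + i), v (e (c, b)) *
        ∏ i : Fin N, x (l + i) (t (l + i)) (b i)) * x (l + N) (t (l + N)) c = 0 := by
      rw [← h3, ← e.sum_comp, Fintype.sum_prod_type]
      refine Finset.sum_congr rfl fun c _ => ?_
      rw [Finset.sum_mul]
      refine Finset.sum_congr rfl fun b _ => ?_
      beta_reduce
      rw [Fin.prod_univ_castSucc, mul_assoc]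
      congr 2
      · refine Finset.prod_congr rfl fun i _ => ?_
        congr 1
        rw [he]
        simp [Fin.snocEquiv]
      · have : e (c, b) (Fin.last N) = c := by
          rw [he]
          simp [Fin.snocEquiv]
        rw [this]
        rfl
    have h5 : ∀ c : β (l + N), ∑ b : (i : Fin N) → β (l + i), v (e (c, b)) *
        ∏ i : Fin N, x (l + i) (t (l + i)) (b i) = 0 := by
      by_contra hne
      push Not at hne
      obtain ⟨c, hc⟩ := hne
      refine h (l + N) ⟨fun c => ∑ b : (i : Fin N) → β (l + i), v (e (c, b)) *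
        ∏ i : Fin N, x (l + i) (t (l + i)) (b i), fun c => ?_, fun h0 => hc (congrFun h0 c), h4⟩
      exact Submodule.sum_mem _ fun b _ => Submodule.mul_mem_mul (hV (Nat.le_add_right l N) (h1 _))
        (prod_mem ho l N b)
    apply h2
    funext b
    obtain ⟨⟨c, b'⟩, rfl⟩ := e.surjective b
    by_contra hne
    exact ih ⟨fun b => v (e (c, b)), fun b => h1 _, fun h0 => hne (congrFun h0 b'), h5 c⟩

end

section clust
variable {β : ℕ → Type} [∀ j, Fintype (β j)] {x : ∀ j, ℕ → β j → ℂ}

/-- `A` is clustered: for all `E`, `M`, `N` there is a window `[t - H, t]` with `t ≥ (H + 2) ^ E` and `t - H > N` which contains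
more than `M` elements of `A` -/
def Clustered (A : Set ℕ) : Prop :=
  ∀ E M N : ℕ, ∃ H t : ℕ, (H + 2) ^ E ≤ t ∧ N + H < t ∧ M < (A ∩ Set.Icc (t - H) t).ncard

/-- few exceptions in short windows -/
def WinH {β : Type} [Fintype β] (y : ℕ → β → ℂ) : Prop :=
  ∀ D : ℕ, ∃ E M : ℕ, ∀ H t : ℕ, (H + 2) ^ E ≤ t → ∀ V : Submodule ℚ ℂ, Module.Finite ℚ V → Module.finrank ℚ V ≤ D →
    ∀ S : Finset ℕ, (∀ u ∈ S, t ≤ u + H ∧ u ≤ t ∧ Related V (y u)) → S.card ≤ M

/-- **Main theorem** -/
theorem main {o : ∀ j, β j} (ho : ∀ j s, x j s (o j) = 1) (hx : ∀ j, WinH (x j)) {A : ℕ → Set ℕ}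
    (hA : ∀ j, Clustered (A j)) {V : ℕ → Submodule ℚ ℂ} (hVf : ∀ j, Module.Finite ℚ (V j)) (hV : Monotone V) :
    ∃ t : ℕ → ℕ, StrictMono t ∧ (∀ j, t j ∈ A j) ∧ ∀ l N : ℕ,
      ¬ Related (V l) (fun b : (i : Fin N) → β (l + i) => ∏ i : Fin N, x (l + i) (t (l + i)) (b i)) := by
  classical
  obtain ⟨t, ht⟩ := exists_seq (α := ℕ) (fun j t s => s ∈ A j ∧ (∀ i < j, t i < s) ∧
      ¬ Related (V j * PP x t j) (x j s))
    (by
      rintro j t t' s htt ⟨h3, h4, h6⟩
      refine ⟨h3, fun i hi => ?_, ?_⟩
      · rw [← htt i hi]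
        exact h4 i hi
      · rw [← PP_congr htt]
        exact h6)
    (by
      intro j t
      have h1 := hVf j
      have h2 := PP_fin (x := x) (t := t) j
      have h3 := (Pool.Agent.Y113.finrank_mul_le (V j) (PP x t j)).1
      obtain ⟨E, M, hEM⟩ := hx j (Module.finrank ℚ ↥(V j * PP x t j))
      set X0 := ∑ i ∈ Finset.range j, t i with hX0
      obtain ⟨H, s, hs1, hs2, hs3⟩ := hA j E M X0
      have hfin : (A j ∩ Set.Icc (s - H) s).Finite := (Set.finite_Icc _ _).subset Set.inter_subset_right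
      have hex : ∃ u ∈ A j ∩ Set.Icc (s - H) s, ¬ Related (V j * PP x t j) (x j u) := by
        by_contra hcon
        push Not at hcon
        have h4 := hEM H s hs1 _ h3 le_rfl hfin.toFinset fun u hu => by
          have hu' := hfin.mem_toFinset.1 hu
          refine ⟨?_, hu'.2.2, hcon u hu'⟩
          have := hu'.2.1
          omega
        rw [← Set.ncard_eq_toFinset_card _ hfin] at h4
        omega
      obtain ⟨u, ⟨huA, hu1, hu2⟩, hu3⟩ := hex
      refine ⟨u, huA, fun i hi => ?_, hu3⟩
      have h1 : t i ≤ X0 := Finset.single_le_sum (f := t) (fun _ _ => Nat.zero_le _) (Finset.mem_range.2 hi)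
      omega)
  exact ⟨t, strictMono_nat_of_lt_succ fun j => (ht (j + 1)).2.1 j (Nat.lt_succ_self j), fun j => (ht j).1,
    fun l N => products ho hV (fun j => (ht j).2.2) l N⟩

end clust

end Pool.Agent.U534.Tens
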