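import Pool.Agent.H327R2.SC.ExpLat

/-!
# All but one of the exponentials of linearly independent algebraic numbers are algebraically independent over `ℚ(π)`

Copied from `Pool.Agent.U543.CnTr` (helper543), with fewer imports.
-/

set_option autoImplicit false
set_option linter.unusedSectionVars false

namespace Pool.Agent.U534.Exch

open IntermediateField

open scoped IntermediateField.algebraAdjoinAdjoin in
/-- from the ring to the field -/
theorem to_field {W : Type} {w : W → ℂ} {v : ℂ} (h : AlgebraicIndependent (Algebra.adjoin ℚ {v}) w) :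
    AlgebraicIndependent (IntermediateField.adjoin ℚ {v}) w := by
  have : Algebra.IsAlgebraic (Algebra.adjoin ℚ {v}) (IntermediateField.adjoin ℚ {v}) :=
    IsLocalization.isAlgebraic _ (nonZeroDivisors (Algebra.adjoin ℚ {v}))
  exact h.extendScalars _

/-- exchange -/
theorem exchange {k : ℕ} (hk : 0 < k) {z : Fin k → ℂ} (hz : AlgebraicIndependent ℚ z) {v : ℂ}
    (hv : Transcendental ℚ v) : ∃ a₀ : Fin k, AlgebraicIndependent (IntermediateField.adjoin ℚ {v})
      (fun a : {a : Fin k // a ≠ a₀} => z a) := by
  classical
  by_cases hvz : ∃ a, z a = v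
  · obtain ⟨a₀, ha₀⟩ := hvz
    refine ⟨a₀, to_field ?_⟩
    have h1 := ((AlgebraicIndependent.iff_adjoin_image (R := ℚ) (x := z) {a₀}).1 hz).2
    rw [Set.image_singleton, ha₀] at h1
    exact h1
  · push Not at hvz
    set M := AlgebraicIndependent.matroid ℚ ℂ with hM
    have hinj := hz.injective
    have hI1 : M.Indep (Set.range z) := by
      rw [hM, AlgebraicIndependent.matroid_indep_iff]
      exact hz.to_subtype_range
    have hI2 : M.Indep {v} := by
      rw [hM, AlgebraicIndependent.matroid_indep_iff]
      exact algebraicIndependent_unique_type_iff.2 hv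
    set E : Set ℂ := insert v (Set.range z) with hE
    obtain ⟨J, hJ, hvJ⟩ := hI2.subset_isBasis_of_subset (X := E) (by
      rw [Set.singleton_subset_iff]; exact Set.mem_insert _ _) (Set.subset_univ _)
    obtain ⟨B, hB, hzB⟩ := hI1.subset_isBasis_of_subset (X := E) (Set.subset_insert _ _) (Set.subset_univ _)
    have hfin : E.Finite := (Set.finite_range z).insert v
    have hcard : (k : ℕ∞) ≤ J.encard := by
      rw [hJ.encard_eq_encard hB]
      refine le_trans ?_ (Set.encard_le_encard hzB)
      rw [← Set.image_univ, hinj.encard_image, Set.encard_univ]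
      simp
    have hex : ∃ a₀ : Fin k, ∀ a, a ≠ a₀ → z a ∈ J := by
      by_cases h : ∃ a₀, z a₀ ∉ J
      · obtain ⟨a₀, ha₀⟩ := h
        refine ⟨a₀, fun a ha => ?_⟩
        by_contra hna
        have h1 : J ⊆ insert v (z '' ({a₀, a} : Set (Fin k))ᶜ) := by
          intro y hy
          rcases hJ.subset hy with rfl | ⟨b, rfl⟩
          · exact Set.mem_insert _ _
          · refine Set.mem_insert_of_mem _ ⟨b, ?_, rfl⟩
            intro hb
            rcases hb with rfl | rfl
            · exact ha₀ hy
            · exact hna hy
        have h2 := Set.encard_le_encard h1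
        have h3 : (insert v (z '' ({a₀, a} : Set (Fin k))ᶜ)).encard ≤ (k - 2 : ℕ) + 1 := by
          refine (Set.encard_insert_le _ _).trans ?_
          rw [hinj.encard_image]
          refine add_le_add_left ?_ 1
          rw [← Set.coe_toFinset (({a₀, a} : Set (Fin k))ᶜ), Set.encard_coe_eq_coe_finsetCard]
          have h4 : (({a₀, a} : Set (Fin k))ᶜ).toFinset.card = k - 2 := by
            rw [Set.toFinset_compl, Finset.card_compl, Fintype.card_fin]
            congr 1
            have : ({a₀, a} : Set (Fin k)).toFinset = {a₀, a} := by ext; simp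
            rw [this, Finset.card_pair (Ne.symm ha)]
          rw [h4]
        have h5 : (k : ℕ∞) ≤ (k - 2 : ℕ) + 1 := (hcard.trans h2).trans h3
        have h6 : k ≤ (k - 2) + 1 := by exact_mod_cast h5
        have h7 : 2 ≤ k := by
          have h8 : (({a₀, a} : Finset (Fin k))).card ≤ k := by
            simpa using Finset.card_le_univ ({a₀, a} : Finset (Fin k))
          rwa [Finset.card_pair (Ne.symm ha)] at h8
        omega
      · push Not at h
        exact ⟨⟨0, hk⟩, fun a _ => h a⟩
    obtain ⟨a₀, ha₀⟩ := hex
    refine ⟨a₀, to_field ?_⟩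
    set f : {a : Fin k // a ≠ a₀} ⊕ Unit → ℂ := Sum.elim (fun a => z a) (fun _ => v) with hf
    have hfi : Function.Injective f := by
      rintro (a | _) (b | _) hab
      · exact congrArg Sum.inl (Subtype.ext (hinj hab))
      · exact absurd hab (hvz a)
      · exact absurd hab.symm (hvz b)
      · rfl
    have h1 : AlgebraicIndependent ℚ f := by
      rw [← algebraicIndependent_subtype_range hfi]
      have h2 : M.Indep (Set.range f) := by
        refine hJ.indep.subset ?_
        rintro _ ⟨a | _, rfl⟩
        · exact ha₀ a a.2
        · exact hvJ rfl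
      rw [hM, AlgebraicIndependent.matroid_indep_iff] at h2
      exact h2
    have h2 := (AlgebraicIndependent.sumElim_iff.1 h1).2
    rw [Set.range_const] at h2
    exact h2

end Pool.Agent.U534.Exch
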