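import Pool.Agent.U534.UnivInt

/-!
# Countable sets of constants
-/

set_option autoImplicit false
set_option linter.unusedSectionVars false

namespace Pool.Agent.U534.Tens

/-- every countable set is covered by an increasing sequence of spaces of finite dimension -/
theorem exhaust (K : Set ℂ) (hK : K.Countable) : ∃ V : ℕ → Submodule ℚ ℂ, (∀ j, Module.Finite ℚ (V j)) ∧ Monotone V ∧
    ∀ U : Submodule ℚ ℂ, U ≤ Submodule.span ℚ K → Module.Finite ℚ U → ∃ j, U ≤ V j := by
  classical
  obtain ⟨f, hf⟩ : ∃ f : ℕ → ℂ, K ⊆ Set.range f := by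
    rcases K.eq_empty_or_nonempty with h | h
    · exact ⟨fun _ => 0, by rw [h]; exact Set.empty_subset _⟩
    · obtain ⟨f, hf⟩ := hK.exists_eq_range h
      exact ⟨f, hf.le⟩
  set V : ℕ → Submodule ℚ ℂ := fun j => Submodule.span ℚ (f '' Set.Iio j) with hV
  have hmono : Monotone V := fun a b hab => Submodule.span_mono (Set.image_mono (Set.Iio_subset_Iio hab))
  refine ⟨V, fun j => Module.Finite.span_of_finite ℚ ((Set.finite_Iio j).image f), hmono, fun U hU hUf => ?_⟩
  have h1 : ∀ z ∈ Submodule.span ℚ K, ∃ j, z ∈ V j := by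
    intro z hz
    induction hz using Submodule.span_induction with
    | mem z hz =>
      obtain ⟨i, rfl⟩ := hf hz
      exact ⟨i + 1, Submodule.subset_span ⟨i, Nat.lt_succ_self i, rfl⟩⟩
    | zero => exact ⟨0, Submodule.zero_mem _⟩
    | add a b _ _ ha hb =>
      obtain ⟨i, hi⟩ := ha
      obtain ⟨j, hj⟩ := hb
      exact ⟨max i j, Submodule.add_mem _ (hmono (le_max_left i j) hi) (hmono (le_max_right i j) hj)⟩
    | smul q a _ ha =>
      obtain ⟨i, hi⟩ := ha
      exact ⟨i, Submodule.smul_mem _ q hi⟩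
  obtain ⟨s, hs⟩ := (Module.Finite.iff_fg.1 hUf)
  subst hs
  have h2 : ∀ z ∈ s, ∃ j, z ∈ V j := fun z hz => h1 z (hU (Submodule.subset_span hz))
  choose! g hg using h2
  refine ⟨s.sup g, ?_⟩
  rw [Submodule.span_le]
  intro z hz
  exact hmono (Finset.le_sup hz) (hg z hz)

/-- **Polynomials over a countable set of constants.** -/
theorem countable_form {ι α : Type} {Y : ι → Set (α → ℂ)} {G : (ℕ → Finset ι) → Prop}
    (hmain : ∀ V : ℕ → Submodule ℚ ℂ, (∀ j, Module.Finite ℚ (V j)) → Monotone V → ∀ δ : ℕ → ℕ, Monotone δ →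
      ∃ T : ℕ → Finset ι, G T ∧ ∀ y : ι → α → ℂ, (∀ j, ∀ t ∈ T j, y t ∈ Y t) →
      ∀ (l : ℕ) (K : IntermediateField ℚ ℂ), FiniteDimensional ℚ K → Module.finrank ℚ K ≤ δ l →
      ∀ P : MvPolynomial (ι × α) ℂ, P ≠ 0 → (∀ v ∈ P.vars, ∃ j ≥ l, v.1 ∈ T j) →
        (∀ v, P.degreeOf v ≤ δ l) → (∀ s, P.coeff s ∈ Submodule.span K (V l : Set ℂ)) →
        MvPolynomial.eval (fun v => y v.1 v.2) P ≠ 0) (F : Set ℂ) (hF : F.Countable) :
    ∃ T : ℕ → Finset ι, G T ∧ ∀ (n : ℕ) (P : MvPolynomial (Fin n × α) ℂ), P ≠ 0 → (∀ s, P.coeff s ∈ F) →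
      ∃ l : ℕ, ∀ y : ι → α → ℂ, (∀ j, ∀ t ∈ T j, y t ∈ Y t) → ∀ t : Fin n → ι, Function.Injective t →
        (∀ i, ∃ j ≥ l, t i ∈ T j) → MvPolynomial.eval (fun v => y (t v.1) v.2) P ≠ 0 := by
  classical
  obtain ⟨V, hVf, hV, hVF⟩ := exhaust F hF
  obtain ⟨T, hG, hT⟩ := hmain V hVf hV (fun j => j + 1) (fun a b hab => Nat.succ_le_succ hab)
  refine ⟨T, hG, fun n P hP hPc => ?_⟩
  obtain ⟨j₀, hj₀⟩ := hVF (Submodule.span ℚ (P.support.image fun s => P.coeff s : Finset ℂ)) (by
    rw [Submodule.span_le]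
    intro z hz
    obtain ⟨s, -, rfl⟩ := Finset.mem_image.1 (Finset.mem_coe.1 hz)
    exact Submodule.subset_span (hPc s)) (Module.Finite.span_of_finite ℚ (Finset.finite_toSet _))
  refine ⟨max j₀ P.totalDegree, fun y hy t ht htT => ?_⟩
  set l := max j₀ P.totalDegree with hl
  set f : Fin n × α → ι × α := fun v => (t v.1, v.2) with hf
  have hfinj : Function.Injective f := by
    intro v w hvw
    have h1 : t v.1 = t w.1 := (Prod.ext_iff.1 hvw).1
    have h2 : v.2 = w.2 := (Prod.ext_iff.1 hvw).2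
    exact Prod.ext (ht h1) h2
  have h1 := hT y hy l ⊥ inferInstance (by
    rw [IntermediateField.finrank_bot]
    omega) (MvPolynomial.rename f P) (fun h0 => hP (MvPolynomial.rename_injective f hfinj (by rw [h0, map_zero])))
    (fun v hv => by
      obtain ⟨w, -, hw⟩ := Finset.mem_image.1 (MvPolynomial.vars_rename f P hv)
      rw [← hw]
      exact htT w.1)
    (fun v => by
      have h2 := (MvPolynomial.degreeOf_le_totalDegree (MvPolynomial.rename f P) v).trans (MvPolynomial.totalDegree_rename_le f P)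
      have h3 : P.totalDegree ≤ l := le_max_right _ _
      omega)
    (fun s => by
      by_cases hs : ∃ u : Fin n × α →₀ ℕ, u.mapDomain f = s
      · obtain ⟨u, rfl⟩ := hs
        rw [MvPolynomial.coeff_rename_mapDomain f hfinj]
        by_cases hu : P.coeff u = 0
        · rw [hu]
          exact Submodule.zero_mem _
        · refine Submodule.subset_span (hV (le_max_left j₀ _) (hj₀ (Submodule.subset_span ?_)))
          exact Finset.mem_coe.2 (Finset.mem_image_of_mem _ (MvPolynomial.mem_support_iff.2 hu))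
      · push Not at hs
        rw [MvPolynomial.coeff_rename_eq_zero f P s fun u hu => absurd hu (hs u)]
        exact Submodule.zero_mem _)
  rw [MvPolynomial.eval_rename] at h1
  exact h1

end Pool.Agent.U534.Tens
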