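import Pool.Agent.U534.HypBlk

/-!
# Sequences of Kummer motives and symplectic motives outside of predictable exceptional sets
-/

set_option autoImplicit false
set_option linter.unusedSectionVars false

open Matrix Module

namespace Pool.Agent.U534.HypU

open Pool.Agent.TH127.PT Pool.Agent.Y123.ST Pool.Agent.Y123.SR Pool.Agent.Y123.GN
open Pool.Agent.Y119.HY (QD Jm cm)

theorem tot_unit {B₀ : Type} [Fintype B₀] [DecidableEq B₀] {k : ℕ} {n : Fin k → ℕ} {Q : Fin k → Polynomial ℚ}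
    (hQ : ∀ i, QD (n i) (Q i)) {Ω : ∀ i, Matrix (Fin (n i)) (Fin (n i)) ℂ} (hΩ : ∀ i, IsUnit (Ω i)) {t : Fin k → ℕ}
    (ht : ∀ i, 2 ≤ t i) {c₀ : Matrix B₀ B₀ ℂ} (hc₀ : IsUnit c₀) : IsUnit (tot c₀ Q Ω t) :=
  EM_isUnit hc₀ (fun _ => kum_unit tpi_ne) (cM_unit hQ hΩ ht)

/-- the exceptional set for the next parameter, given the first `j` parameters -/
def Ex (n : ℕ → ℕ) (Q : ℕ → Polynomial ℚ) (Ω : ∀ j, Matrix (Fin (n j)) (Fin (n j)) ℂ) {ρ : ℕ → ℕ}
    (cc : ∀ i, Matrix (Fin (ρ i) ⊕ Unit) (Fin (ρ i) ⊕ Unit) ℂ) (j : ℕ) (τ : Fin j → ℕ) : Set ℕ :=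
  {x | ∃ (i k : Fin (j + 1)) (s : Fin (k : ℕ) → Fin j), (∀ l, 2 ≤ τ (s l)) ∧
    ¬ ∀ K : Subfield ℂ, FiniteDimensional ℚ K → finrank ℚ K ≤ j →
      Sta K (tot (cc i) (n := fun l => n (s l)) (fun l => Q (s l)) (fun l => Ω (s l)) fun l => τ (s l))
        (fun _ : Fin 1 => Q j) (fun _ => Ω j) fun _ => x}

theorem ex_count (n : ℕ → ℕ) (Q : ℕ → Polynomial ℚ) (hQ : ∀ j, QD (n j) (Q j))
    (hH : ∀ j a b, Pool.Agent.Y113.SDc (Pool.Agent.Y119.HZ.Hp (n j) (Q j) a b)) (ρ : ℕ → ℕ) :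
    ∃ c M : ℕ → ℝ, (∀ j, 0 < c j) ∧ ∀ Ω : (∀ j, Matrix (Fin (n j)) (Fin (n j)) ℂ), (∀ j, IsUnit (Ω j)) →
      ∀ cc : (∀ i, Matrix (Fin (ρ i) ⊕ Unit) (Fin (ρ i) ⊕ Unit) ℂ), (∀ i, IsUnit (cc i)) →
      ∀ (j : ℕ) (τ : Fin j → ℕ) (x N : ℕ), 1 ≤ x → 1 ≤ N →
      ((Ex n Q Ω cc j τ ∩ Set.Ioc x (x + N)).ncard : ℝ) ≤ M j * (1 + N / ((x : ℝ) + N) ^ c j) := by
  classical
  have h0 := fun j : ℕ => hyp_stabU 1 j ((∑ i ∈ Finset.range (j + 1), (ρ i + 1)) + j * ∑ l ∈ Finset.range j, (2 + n l))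
    (fun _ => n j) (fun _ => Q j) (fun _ => hQ j) (fun _ => hH j)
  choose c C hc hC hmain using h0
  refine ⟨c, fun j => (Fintype.card (Fin (j + 1) × (Σ k : Fin (j + 1), (Fin (k : ℕ) → Fin j))) : ℝ) * C j, hc, ?_⟩
  intro Ω hΩ cc hcc j τ x N hx hN
  have hcond : ∀ q : Fin (j + 1) × (Σ k : Fin (j + 1), (Fin (k : ℕ) → Fin j)), ∃ S : Finset ℕ,
      (S.card : ℝ) ≤ C j * (1 + N / ((x : ℝ) + N) ^ c j) ∧ ∀ y, x < y → y ≤ x + N → (∀ l, 2 ≤ τ (q.2.2 l)) →
      (¬ ∀ K : Subfield ℂ, FiniteDimensional ℚ K → finrank ℚ K ≤ j →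
        Sta K (tot (cc q.1) (n := fun l => n (q.2.2 l)) (fun l => Q (q.2.2 l)) (fun l => Ω (q.2.2 l))
          fun l => τ (q.2.2 l)) (fun _ : Fin 1 => Q j) (fun _ => Ω j) fun _ => y) → y ∈ S := by
    rintro ⟨i, k, s⟩
    by_cases hgood : ∀ l, 2 ≤ τ (s l)
    · set A : Set (Fin 1 → ℕ) := {t | (∀ i, x < t i ∧ t i ≤ x + N) ∧
        ¬ ∀ K : Subfield ℂ, FiniteDimensional ℚ K → finrank ℚ K ≤ j →
          Sta K (tot (cc i) (n := fun l => n (s l)) (fun l => Q (s l)) (fun l => Ω (s l)) fun l => τ (s l))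
            (fun _ : Fin 1 => Q j) (fun _ => Ω j) t} with hA
      have hfin : A.Finite := by
        refine (Set.finite_Iic (fun _ : Fin 1 => x + N)).subset ?_
        intro t ht l
        exact (ht.1 l).2
      refine ⟨hfin.toFinset.image fun t => t 0, ?_, fun y hy1 hy2 _ hy3 => ?_⟩
      · have h1 : ((hfin.toFinset.image fun t => t 0).card : ℝ) ≤ hfin.toFinset.card := by
          exact_mod_cast Finset.card_image_le
        refine h1.trans ?_
        have h2 := hmain j (IM (Fin (ρ i) ⊕ Unit) (fun l : Fin (k : ℕ) => n (s l)))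
          (tot (cc i) (n := fun l => n (s l)) (fun l => Q (s l)) (fun l => Ω (s l)) fun l => τ (s l)) (by
            rw [card_IM, Fintype.card_sum, Fintype.card_fin, Fintype.card_unit]
            have h2 : ρ i + 1 ≤ ∑ i ∈ Finset.range (j + 1), (ρ i + 1) :=
              Finset.single_le_sum (f := fun i => ρ i + 1) (fun _ _ => Nat.zero_le _) (Finset.mem_range.2 i.2)
            have h3 : ∑ l : Fin (k : ℕ), (2 + n (s l)) ≤ j * ∑ l ∈ Finset.range j, (2 + n l) := by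
              calc ∑ l : Fin (k : ℕ), (2 + n (s l)) ≤ ∑ _l : Fin (k : ℕ), ∑ l ∈ Finset.range j, (2 + n l) := by
                    refine Finset.sum_le_sum fun l _ => ?_
                    exact Finset.single_le_sum (f := fun l => 2 + n l) (fun _ _ => Nat.zero_le _)
                      (Finset.mem_range.2 (s l).2)
                _ = k * ∑ l ∈ Finset.range j, (2 + n l) := by
                    rw [Finset.sum_const, Finset.card_univ, Fintype.card_fin, smul_eq_mul]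
                _ ≤ _ := Nat.mul_le_mul_right _ (Nat.lt_succ_iff.1 k.2)
            exact Nat.add_le_add h2 h3)
          (tot_unit (n := fun l => n (s l)) (fun l => hQ _) (fun l => hΩ _) hgood (hcc i)) (fun _ => Ω j) (fun _ => hΩ j)
          (fun _ => x) N (fun _ => hx) hN hfin.toFinset (fun t ht => hfin.mem_toFinset.1 ht)
        refine h2.trans (le_of_eq ?_)
        rw [Nat.sub_self, pow_zero, mul_one, Fin.sum_univ_one]
      · exact Finset.mem_image.2 ⟨fun _ => y, hfin.mem_toFinset.2 ⟨fun _ => ⟨hy1, hy2⟩, hy3⟩, rfl⟩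
    · refine ⟨∅, ?_, fun y _ _ h _ => absurd h hgood⟩
      rw [Finset.card_empty, Nat.cast_zero]
      have h1 : (0 : ℝ) ≤ N / ((x : ℝ) + N) ^ c j := by positivity
      exact mul_nonneg (hC j) (by linarith)
  choose S hS1 hS2 using hcond
  have hsub : Ex n Q Ω cc j τ ∩ Set.Ioc x (x + N) ⊆ ((Finset.univ.biUnion S : Finset ℕ) : Set ℕ) := by
    rintro y ⟨⟨i, k, s, hg, hn⟩, hy1, hy2⟩
    exact Finset.mem_coe.2 (Finset.mem_biUnion.2 ⟨(i, ⟨k, s⟩), Finset.mem_univ _, hS2 (i, ⟨k, s⟩) y hy1 hy2 hg hn⟩)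
  have h1 : (Ex n Q Ω cc j τ ∩ Set.Ioc x (x + N)).ncard ≤ (Finset.univ.biUnion S).card := by
    rw [← Set.ncard_coe_finset]
    exact Set.ncard_le_ncard hsub (Finset.finite_toSet _)
  calc ((Ex n Q Ω cc j τ ∩ Set.Ioc x (x + N)).ncard : ℝ) ≤ ((Finset.univ.biUnion S).card : ℝ) := by exact_mod_cast h1
    _ ≤ ∑ q, ((S q).card : ℝ) := by exact_mod_cast Finset.card_biUnion_le
    _ ≤ ∑ _q : Fin (j + 1) × (Σ k : Fin (j + 1), (Fin (k : ℕ) → Fin j)), C j * (1 + N / ((x : ℝ) + N) ^ c j) :=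
        Finset.sum_le_sum fun q _ => hS1 q
    _ = _ := by rw [Finset.sum_const, Finset.card_univ, nsmul_eq_mul, mul_assoc]

/-- every sequence outside of the exceptional sets -/
theorem seqW {n : ℕ → ℕ} {Q : ℕ → Polynomial ℚ} (hQ : ∀ j, QD (n j) (Q j))
    {Ω : ∀ j, Matrix (Fin (n j)) (Fin (n j)) ℂ} (hΩ : ∀ j, IsUnit (Ω j)) {ρ : ℕ → ℕ}
    {cc : ∀ i, Matrix (Fin (ρ i) ⊕ Unit) (Fin (ρ i) ⊕ Unit) ℂ} {t : ℕ → ℕ} {j₀ : ℕ}
    (ht : ∀ j, j₀ ≤ j → 2 ≤ t j) (hE : ∀ j, j₀ ≤ j → t j ∉ Ex n Q Ω cc j fun i => t i) {K : Subfield ℂ} (hK : FiniteDimensional ℚ K) (i : ℕ) :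
    ∀ (k : ℕ) (s : Fin k → ℕ), StrictMono s → (∀ l, j₀ ≤ s l) → (∀ l, finrank ℚ K ≤ s l) → (∀ l, i ≤ s l) →
      AllW K (Sum.inr ()) (cc i) (n := fun l => n (s l)) (fun l => Q (s l)) (fun l => Ω (s l)) fun l => t (s l) := by
  intro k
  induction k with
  | zero =>
    intro s _ _ _ _
    exact allW_zero _ _ _ _ _ _
  | succ k ih =>
    intro s hs h0 hd hi
    refine allW_succ (n := fun l => n (s l)) (fun l => hQ _) (fun l => hΩ _)
      (fun l => ht _ (h0 _)) ?_ ?_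
    · exact ih (fun l => s l.castSucc) (fun l l' h => hs (Fin.castSucc_lt_castSucc_iff.2 h)) (fun l => h0 _)
        (fun l => hd _) (fun l => hi _)
    · set j := s (Fin.last k) with hj
      have hlt : ∀ l : Fin k, s l.castSucc < j := fun l => hs (Fin.castSucc_lt_last l)
      have hkj : k ≤ j := by
        have h1 : Function.Injective (fun l : Fin k => (⟨s l.castSucc, hlt l⟩ : Fin j)) := by
          intro l l' h
          have h2 : s l.castSucc = s l'.castSucc := congrArg Fin.val h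
          exact Fin.castSucc_injective _ (hs.injective h2)
        have h2 := Fintype.card_le_of_injective _ h1
        rwa [Fintype.card_fin, Fintype.card_fin] at h2
      by_contra hcon
      refine hE j (h0 _) ⟨⟨i, Nat.lt_succ_of_le (hi _)⟩, ⟨k, Nat.lt_succ_of_le hkj⟩,
        fun l => ⟨s l.castSucc, hlt l⟩, fun l => ht _ (h0 _), fun hall => hcon ?_⟩
      exact hall K hK (hd _)

end Pool.Agent.U534.HypU
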