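import Mathlib
import Pool.Agent.W245.MixedTuples
import Pool.Agent.Y918.RT.Main

set_option autoImplicit false

/-!
# Random constructions with feedback

A random construction in `n` steps: the data of each step may depend on the random parameters of the
previous steps.  The exceptional parameters are rare if they are rare in each step, for all
coefficient spaces of bounded dimension.
-/

namespace Pool.Agent.U534.Adapt

open Module Finset
open Pool.Agent.H301R2.SSE (QB mem_QB)
open Pool.Agent.W245 (IndepOver IndepT famExt famExt_finite)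

/-- `G j P` depends only on the entries `P i` with `i ≤ j`. -/
def Adapted {X Y : Type} {n : ℕ} (G : Fin n → (Fin n → X) → Y) : Prop :=
  ∀ (j : Fin n) (P P' : Fin n → X), (∀ i ≤ j, P i = P' i) → G j P = G j P'

/-- `F j P` depends only on the entries `P i` with `i < j`. -/
def Predictable {X Y : Type} {n : ℕ} (F : Fin n → (Fin n → X) → Y) : Prop :=
  ∀ (j : Fin n) (P P' : Fin n → X), (∀ i < j, P i = P' i) → F j P = F j P'

theorem Predictable.adapted {X Y : Type} {n : ℕ} {F : Fin n → (Fin n → X) → Y}
    (h : Predictable F) : Adapted F := fun j P P' hP => h j P P' fun i hi => hP i hi.le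

open Classical in
/-- The exceptional parameters of a construction with feedback. -/
theorem union {X E : Type} [Fintype E] [Nonempty E] (Xs : Finset X) (β : ℝ) (hβ : 0 ≤ β) (N₀ : ℕ) :
    ∀ (n N : ℕ), N * Fintype.card E ^ n ≤ N₀ → ∀ W : Submodule QB ℂ, Module.Finite QB W →
    finrank QB W ≤ N → ∀ G : Fin n → (Fin n → X) → Set (E → ℂ), Adapted G →
    (∀ (j : Fin n) (P : Fin n → X), (∀ i, P i ∈ Xs) → ∀ W' : Submodule QB ℂ, Module.Finite QB W' →
      finrank QB W' ≤ N₀ →
      ((Xs.filter (fun x => ¬ ∃ g ∈ G j (Function.update P j x), IndepOver W' g)).card : ℝ) ≤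
        β * Xs.card) →
    (((Fintype.piFinset fun _ : Fin n => Xs).filter
      (fun P => ¬ ∃ g : Fin n → E → ℂ, (∀ j, g j ∈ G j P) ∧ IndepT W g)).card : ℝ) ≤
      n * β * (Xs.card : ℝ) ^ n := by
  intro n
  induction n with
  | zero =>
    intro N _ W _ _ G _ _
    have h0 : ∀ P : Fin 0 → X, ∃ g : Fin 0 → E → ℂ, (∀ j, g j ∈ G j P) ∧ IndepT W g := fun P =>
      ⟨fun j => j.elim0, fun j => j.elim0, IndepT.zero _ _⟩
    simp only [h0, not_true_eq_false, Finset.filter_false, Finset.card_empty, Nat.cast_zero,
      zero_mul, le_refl]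
  | succ n ih =>
    intro N hN W hW hWN G hGa hG
    obtain ⟨a, ha⟩ : ∃ a : ℝ, a = (Xs.card : ℝ) := ⟨_, rfl⟩
    have ha0 : 0 ≤ a := by
      rw [ha]
      exact Nat.cast_nonneg _
    have hE : 1 ≤ Fintype.card E := Fintype.card_pos
    rw [← ha]
    set Yn : Finset (Fin n → X) := Fintype.piFinset fun _ => Xs with hYn
    have hYc : (Yn.card : ℝ) = a ^ n := by
      rw [hYn, Fintype.card_piFinset_const, ha]
      push_cast
      rfl
    set H : Finset X := Xs.filter (fun x => ¬ ∃ g ∈ G 0 (fun _ => x), IndepOver W g) with hH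
    have hWN₀ : finrank QB W ≤ N₀ := by
      refine hWN.trans (le_trans ?_ hN)
      exact Nat.le_mul_of_pos_right _ (pow_pos hE _)
    have hHc : (H.card : ℝ) ≤ β * a := by
      rcases Xs.eq_empty_or_nonempty with h0 | ⟨p₀, hp₀⟩
      · rw [ha, hH, h0]
        simp
      · rw [ha, hH]
        have h1 := hG 0 (fun _ => p₀) (fun _ => hp₀) W hW hWN₀
        have h2 : ∀ x : X, G 0 (Function.update (fun _ => p₀) 0 x) = G 0 (fun _ => x) := by
          intro x
          apply hGa
          intro i hi
          have : i = 0 := le_antisymm hi (Fin.zero_le i)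
          subst this
          simp
        simp only [h2] at h1
        exact h1
    set B := ((Fintype.piFinset fun _ : Fin (n + 1) => Xs).filter
      (fun P => ¬ ∃ g : Fin (n + 1) → E → ℂ, (∀ j, g j ∈ G j P) ∧ IndepT W g)) with hB
    have hfib : B.card = ∑ p ∈ Xs, (B.filter (fun P => P 0 = p)).card := by
      apply Finset.card_eq_sum_card_fiberwise
      intro P hP
      exact Fintype.mem_piFinset.1 (Finset.mem_filter.1 hP).1 0
    have hinj : ∀ p, Set.InjOn (fun P : Fin (n + 1) → X => Fin.tail P)
        (B.filter (fun P => P 0 = p)) := by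
      intro p P hP P' hP' hPP
      rw [Finset.mem_coe, Finset.mem_filter] at hP hP'
      rw [← Fin.cons_self_tail P, ← Fin.cons_self_tail P', hP.2, hP'.2]
      exact congrArg _ hPP
    have hall : ∀ p ∈ Xs, ((B.filter (fun P => P 0 = p)).card : ℝ) ≤ a ^ n := by
      intro p _
      rw [← hYc]
      apply Nat.cast_le.2
      refine Finset.card_le_card_of_injOn (fun P => Fin.tail P) ?_ (hinj p)
      intro P hP
      rw [Finset.mem_coe, Finset.mem_filter, hB, Finset.mem_filter] at hP
      have h3 := Fintype.mem_piFinset.1 hP.1.1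
      exact Fintype.mem_piFinset.2 (fun j => h3 j.succ)
    have hgood : ∀ p ∈ Xs, p ∉ H → ((B.filter (fun P => P 0 = p)).card : ℝ) ≤
        n * β * a ^ n := by
      intro p hp hpH
      obtain ⟨g₀, hg₀, hp2⟩ : ∃ g ∈ G 0 (fun _ => p), IndepOver W g := by
        by_contra h
        exact hpH (Finset.mem_filter.2 ⟨hp, h⟩)
      obtain ⟨hfin, hrk⟩ := famExt_finite W N hWN g₀
      have h3 := ih (N * Fintype.card E) (by rw [mul_assoc, ← pow_succ']; exact hN) _ hfin hrk
        (fun j Q => G j.succ (Fin.cons p Q)) (by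
          intro j Q Q' hQ
          apply hGa
          intro i
          refine Fin.cases ?_ (fun i => ?_) i
          · intro _
            rw [Fin.cons_zero, Fin.cons_zero]
          · intro hi
            rw [Fin.cons_succ, Fin.cons_succ]
            exact hQ i (Fin.succ_le_succ_iff.1 hi)) (by
          intro j Q hQ W' hW' hWN'
          have h4 := hG j.succ (Fin.cons p Q) (by
            intro i
            refine Fin.cases ?_ (fun i => ?_) i
            · exact hp
            · exact hQ i) W' hW' hWN'
          have h5 : ∀ x : X, Function.update (Fin.cons p Q : Fin (n + 1) → X) j.succ x =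
              Fin.cons p (Function.update Q j x) := by
            intro x
            rw [Fin.cons_update]
          simp only [h5] at h4
          exact h4)
      rw [← ha] at h3
      refine le_trans (Nat.cast_le.2 ?_) h3
      refine Finset.card_le_card_of_injOn (fun P => Fin.tail P) ?_ (hinj p)
      intro P hP
      rw [Finset.mem_coe, Finset.mem_filter, hB, Finset.mem_filter] at hP
      obtain ⟨⟨hPA, hTi⟩, hP0⟩ := hP
      have h6 := Fintype.mem_piFinset.1 hPA
      have hcons : (Fin.cons p (Fin.tail P) : Fin (n + 1) → X) = P := by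
        rw [← hP0]
        exact Fin.cons_self_tail P
      rw [Finset.mem_coe, Finset.mem_filter]
      refine ⟨Fintype.mem_piFinset.2 (fun j => h6 j.succ), ?_⟩
      rintro ⟨g, hg, hgi⟩
      apply hTi
      refine ⟨Fin.cons g₀ g, ?_, IndepT.cons hp2 hgi⟩
      intro j
      refine Fin.cases ?_ (fun j => ?_) j
      · rw [Fin.cons_zero]
        have h7 : G 0 P = G 0 (fun _ => p) := by
          apply hGa
          intro i hi
          have : i = 0 := le_antisymm hi (Fin.zero_le i)
          subst this
          exact hP0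
        rw [h7]
        exact hg₀
      · rw [Fin.cons_succ]
        have h7 := hg j
        simp only [hcons] at h7
        exact h7
    rw [hfib]
    push_cast
    rw [← Finset.sum_filter_add_sum_filter_not Xs (fun p => p ∈ H)]
    have h1 : ∑ p ∈ Xs.filter (fun p => p ∈ H), ((B.filter (fun P => P 0 = p)).card : ℝ) ≤
        β * a * a ^ n := by
      refine (Finset.sum_le_sum (fun p hp => hall p (Finset.mem_filter.1 hp).1)).trans ?_
      rw [Finset.sum_const, nsmul_eq_mul]
      have h3 : ((Xs.filter (fun p => p ∈ H)).card : ℝ) ≤ (H.card : ℝ) := by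
        have h4 : (Xs.filter (fun p => p ∈ H)).card ≤ H.card := by
          refine Finset.card_le_card ?_
          intro p hp
          exact (Finset.mem_filter.1 hp).2
        exact_mod_cast h4
      exact mul_le_mul_of_nonneg_right (h3.trans hHc) (pow_nonneg ha0 _)
    have h2 : ∑ p ∈ Xs.filter (fun p => ¬ p ∈ H), ((B.filter (fun P => P 0 = p)).card : ℝ) ≤
        a * (n * β * a ^ n) := by
      refine (Finset.sum_le_sum (fun p hp => hgood p (Finset.mem_filter.1 hp).1
        (Finset.mem_filter.1 hp).2)).trans ?_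
      rw [Finset.sum_const, nsmul_eq_mul]
      have h3 : ((Xs.filter (fun p => ¬ p ∈ H)).card : ℝ) ≤ a := by
        rw [ha]
        exact_mod_cast Finset.card_le_card (Finset.filter_subset _ _)
      exact mul_le_mul_of_nonneg_right h3 (by positivity)
    calc _ ≤ β * a * a ^ n + a * (n * β * a ^ n) := add_le_add h1 h2
      _ = (n + 1) * β * a ^ (n + 1) := by ring

open Classical in
/-- Constructions with feedback and parameters in boxes. -/
theorem boxes {E : Type} [Fintype E] [Nonempty E] {n N N₀ k C : ℕ} {δ : ℝ}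
    (hN : N * Fintype.card E ^ n ≤ N₀) {A : Finset ℚ} (hA : A.Nonempty)
    (W : Submodule QB ℂ) (hW : Module.Finite QB W) (hWN : finrank QB W ≤ N)
    (G : Fin n → (Fin n → Fin k → ℚ) → Set (E → ℂ)) (hGa : Adapted G)
    (hG : ∀ (j : Fin n) (P : Fin n → Fin k → ℚ), (∀ i r, P i r ∈ A) → ∀ W' : Submodule QB ℂ,
      Module.Finite QB W' → finrank QB W' ≤ N₀ →
      (((Fintype.piFinset fun _ : Fin k => A).filter
        (fun x => ¬ ∃ g ∈ G j (Function.update P j x), IndepOver W' g)).card : ℝ) ≤
        C * (A.card : ℝ) ^ ((k : ℝ) - δ * k)) :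
    (((Fintype.piFinset fun _ : Fin n => Fintype.piFinset fun _ : Fin k => A).filter
      (fun P => ¬ ∃ g : Fin n → E → ℂ, (∀ j, g j ∈ G j P) ∧ IndepT W g)).card : ℝ) ≤
      (n * C : ℕ) * (A.card : ℝ) ^ ((n * k : ℝ) - δ * k) := by
  obtain ⟨a, ha⟩ : ∃ a : ℝ, a = (A.card : ℝ) := ⟨_, rfl⟩
  have ha0 : 0 < a := by
    rw [ha]
    exact_mod_cast hA.card_pos
  have hXAc : (((Fintype.piFinset fun _ : Fin k => A) : Finset (Fin k → ℚ)).card : ℝ) = a ^ k := by
    rw [Fintype.card_piFinset_const, ha]
    push_cast
    rfl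
  have h1 := union (E := E) (Fintype.piFinset fun _ : Fin k => A) (C * a ^ (-(δ * k)))
    (by positivity) N₀ n N hN W hW hWN G hGa (by
      intro j P hP W' hW' hWN'
      refine (hG j P (fun i r => Fintype.mem_piFinset.1 (hP i) r) W' hW' hWN').trans
        (le_of_eq ?_)
      rw [hXAc, ← ha, mul_assoc, ← Real.rpow_natCast a k, ← Real.rpow_add ha0]
      congr 2
      ring)
  refine h1.trans (le_of_eq ?_)
  rw [hXAc, ← ha, ← pow_mul, ← Real.rpow_natCast a (k * n), mul_assoc, mul_assoc,
    ← Real.rpow_add ha0]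
  push_cast
  rw [mul_assoc]
  congr 3
  ring

/-! ### Polynomial relations -/

/-- The numbers `x_i` satisfy no nonzero polynomial relation with algebraic coefficients of degree
at most `D` in each of them. -/
def NoRelation (D : ℕ) {ι : Type} (x : ι → ℂ) : Prop :=
  ∀ p : MvPolynomial ι (algebraicClosure ℚ ℂ), (∀ i, p.degreeOf i ≤ D) →
    MvPolynomial.aeval x p = 0 → p = 0

/-- The space generated by the monomials of degree at most `D` in each variable. -/
noncomputable def monSpan (D : ℕ) {l : ℕ} (s : Fin l → ℂ) : Submodule QB ℂ :=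
  Submodule.span QB (Set.range fun e : Fin l → Fin (D + 1) => ∏ i, s i ^ (e i : ℕ))

theorem monSpan_finite (D : ℕ) {l : ℕ} (s : Fin l → ℂ) : Module.Finite QB (monSpan D s) ∧
    finrank QB (monSpan D s) ≤ (D + 1) ^ l := by
  constructor
  · exact FiniteDimensional.span_of_finite QB (Set.finite_range _)
  · refine (finrank_range_le_card _).trans ?_
    rw [Fintype.card_fun, Fintype.card_fin, Fintype.card_fin]

theorem zero_of_noRelation {l D : ℕ} {s : Fin l → ℂ} (hs : NoRelation D s)
    (c : (Fin l → Fin (D + 1)) → QB)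
    (h : ∑ e, ((c e : QB) : ℂ) * ∏ i, s i ^ (e i : ℕ) = 0) (e : Fin l → Fin (D + 1)) : c e = 0 := by
  classical
  let ex : (Fin l → Fin (D + 1)) → (Fin l →₀ ℕ) := fun e =>
    Finsupp.equivFunOnFinite.symm (fun i => (e i : ℕ))
  have hex : Function.Injective ex := by
    intro e e' he
    funext i
    exact Fin.ext (DFunLike.congr_fun he i)
  let p : MvPolynomial (Fin l) QB := ∑ e, MvPolynomial.monomial (ex e) (c e)
  have hcoef : ∀ M, p.coeff M = ∑ e, if ex e = M then c e else 0 := by
    intro M
    change MvPolynomial.coeff M (∑ e, MvPolynomial.monomial (ex e) (c e)) = _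
    rw [MvPolynomial.coeff_sum]
    refine Finset.sum_congr rfl fun e _ => ?_
    rw [MvPolynomial.coeff_monomial]
  have hdeg : ∀ i, p.degreeOf i ≤ D := by
    intro i
    rw [MvPolynomial.degreeOf_le_iff]
    intro M hM
    rw [MvPolynomial.mem_support_iff, hcoef] at hM
    obtain ⟨e, _, he⟩ := Finset.exists_ne_zero_of_sum_ne_zero hM
    by_cases h1 : ex e = M
    · rw [← h1]
      exact Nat.le_of_lt_succ (e i).2
    · rw [if_neg h1] at he
      exact absurd rfl he
  have hval : MvPolynomial.aeval s p = 0 := by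
    change MvPolynomial.aeval s (∑ e, MvPolynomial.monomial (ex e) (c e)) = 0
    rw [map_sum, ← h]
    refine Finset.sum_congr rfl fun e _ => ?_
    rw [MvPolynomial.aeval_monomial]
    refine congrArg₂ (fun a b => a * b) rfl ?_
    rw [Finsupp.prod_fintype _ _ (fun i => pow_zero _)]
    rfl
  have hp := hs p hdeg hval
  have h2 := hcoef (ex e)
  rw [hp, MvPolynomial.coeff_zero] at h2
  rw [Finset.sum_eq_single e] at h2
  · rw [if_pos rfl] at h2
    exact h2.symm
  · intro e' _ hne
    rw [if_neg (fun h3 => hne (hex h3))]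
  · intro h3
    exact absurd (Finset.mem_univ _) h3

/-- Exponent vectors. -/
noncomputable def expo {l n D : ℕ} {S : Type} [Fintype S]
    (s : (Fin l → Fin (D + 1)) × (Fin n → S → Fin (D + 1))) : (Fin l ⊕ (Fin n × S)) →₀ ℕ :=
  Finsupp.equivFunOnFinite.symm
    (Sum.elim (fun i => (s.1 i : ℕ)) (fun p => (s.2 p.1 p.2 : ℕ)))

theorem expo_injective {l n D : ℕ} {S : Type} [Fintype S] :
    Function.Injective (expo (l := l) (n := n) (D := D) (S := S)) := by
  intro s s' h
  refine Prod.ext ?_ ?_
  · funext i
    exact Fin.ext (DFunLike.congr_fun h (Sum.inl i))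
  · funext j i
    exact Fin.ext (DFunLike.congr_fun h (Sum.inr (j, i)))

/-- Independence of the families of monomials over the space of the monomials in the `s_i`. -/
theorem noRelation_sum {l n D : ℕ} {S : Type} [Fintype S] [DecidableEq S] {s : Fin l → ℂ}
    (hs : NoRelation D s) (y : Fin n → S → ℂ)
    (h : IndepT (monSpan D s) (fun j (e : S → Fin (D + 1)) => ∏ i, y j i ^ (e i : ℕ))) :
    NoRelation D (Sum.elim s (fun p : Fin n × S => y p.1 p.2)) := by
  classical
  intro p hdeg h0
  have hsupp : p.support ⊆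
      (univ : Finset ((Fin l → Fin (D + 1)) × (Fin n → S → Fin (D + 1)))).image expo := by
    intro M hM
    rw [Finset.mem_image]
    refine ⟨(fun i => ⟨M (Sum.inl i),
      Nat.lt_succ_of_le ((MvPolynomial.degreeOf_le_iff.1 (hdeg (Sum.inl i))) M hM)⟩,
      fun j i => ⟨M (Sum.inr (j, i)),
      Nat.lt_succ_of_le ((MvPolynomial.degreeOf_le_iff.1 (hdeg (Sum.inr (j, i)))) M hM)⟩),
      Finset.mem_univ _, ?_⟩
    ext v
    rcases v with v | v
    · rfl
    · rfl
  have h1 : ∑ t : Fin n → S → Fin (D + 1), (∑ e : Fin l → Fin (D + 1),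
      ((p.coeff (expo (e, t)) : QB) : ℂ) * ∏ i, s i ^ (e i : ℕ)) *
      ∏ j, ∏ i, y j i ^ (t j i : ℕ) = 0 := by
    rw [← h0, MvPolynomial.aeval_def, MvPolynomial.eval₂_eq']
    rw [Finset.sum_subset hsupp (by
      intro M _ hM
      rw [MvPolynomial.notMem_support_iff.1 hM, map_zero, zero_mul])]
    rw [Finset.sum_image (fun a _ b _ h => expo_injective h), Fintype.sum_prod_type_right]
    refine Finset.sum_congr rfl fun t _ => ?_
    rw [Finset.sum_mul]
    refine Finset.sum_congr rfl fun e _ => ?_
    rw [mul_assoc]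
    refine congrArg (fun z => ((p.coeff (expo (e, t)) : QB) : ℂ) * z) ?_
    rw [Fintype.prod_sum_type, Fintype.prod_prod_type]
    rfl
  have h2 := h _ (fun t => Submodule.sum_mem _ fun e _ => by
    have h3 := Submodule.smul_mem (monSpan D s) (p.coeff (expo (e, t)))
      (Submodule.subset_span (Set.mem_range_self e))
    rw [Algebra.smul_def] at h3
    exact h3) h1
  have h4 : ∀ (e : Fin l → Fin (D + 1)) (t : Fin n → S → Fin (D + 1)),
      p.coeff (expo (e, t)) = 0 := fun e t =>
    zero_of_noRelation hs (fun e => p.coeff (expo (e, t))) (h2 t) e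
  ext1 M
  rw [MvPolynomial.coeff_zero]
  by_cases hM : M ∈ p.support
  · obtain ⟨e, _, rfl⟩ := Finset.mem_image.1 (hsupp hM)
    exact h4 e.1 e.2
  · exact MvPolynomial.notMem_support_iff.1 hM

end Pool.Agent.U534.Adapt
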