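import Pool.Agent.U534.SymC

/-!
# Points over a number field are dense in products of torsors; the transcendence of `π`
-/

set_option autoImplicit false
set_option linter.unusedSectionVars false

open Matrix Module

namespace Pool.Agent.U534.Sym

open Pool.Agent.TH127.PT Pool.Agent.Y123.GN Pool.Agent.Y113

section prod

variable {k : ℕ} {n : Fin k → ℕ}

/-- a point of the symplectic group over `K` -/
def SpK (K : Subfield ℂ) {m : ℕ} (J h : Matrix (Fin m) (Fin m) ℂ) : Prop := (∀ a b, h a b ∈ K) ∧ h * J * hᵀ = J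

theorem dense_prod {K : Subfield ℂ} {J : ∀ l, Matrix (Fin (n l)) (Fin (n l)) ℂ} (hJK : ∀ l a b, J l a b ∈ K)
    (hJ : ∀ l, Spf (J l)) {f : (∀ l, Matrix (Fin (n l)) (Fin (n l)) ℂ) → ℂ}
    (hf : ∀ h l, Pf fun x => f (Function.update h l x)) (h0 : ∀ h, (∀ l, SpK K (J l) (h l)) → f h = 0)
    (h : ∀ l, Matrix (Fin (n l)) (Fin (n l)) ℂ) (hh : ∀ l, h l * J l * (h l)ᵀ = J l) : f h = 0 := by
  classical
  have key : ∀ I : Finset (Fin k), ∀ h : (∀ l, Matrix (Fin (n l)) (Fin (n l)) ℂ), (∀ l ∉ I, SpK K (J l) (h l)) →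
      (∀ l, h l * J l * (h l)ᵀ = J l) → f h = 0 := by
    intro I
    induction I using Finset.induction_on with
    | empty => exact fun h h1 _ => h0 h fun l => h1 l (Finset.notMem_empty l)
    | insert i I hi ih =>
      intro h h1 h2
      have h3 := dense (hJK i) (hJ i) (hf h i) (fun g hg1 hg2 => ih (Function.update h i g) (fun l hl => ?_) fun l => ?_)
        (h2 i)
      · rwa [Function.update_eq_self] at h3
      · by_cases hli : l = i
        · subst hli
          rw [Function.update_self]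
          exact ⟨hg1, hg2⟩
        · rw [Function.update_of_ne hli]
          exact h1 l (by
            rw [Finset.mem_insert]
            tauto)
      · by_cases hli : l = i
        · subst hli
          rw [Function.update_self]
          exact hg2
        · rw [Function.update_of_ne hli]
          exact h2 l
  exact key Finset.univ h (fun l hl => absurd (Finset.mem_univ l) hl) hh

/-- translates of the generic point -/
theorem pf_tr {A : Type} (c : A → ℂ) (S : ∀ l, Matrix (Fin (n l)) (Fin (n l)) ℂ)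
    (F : MvPolynomial (A ⊕ Σ l, Fin (n l) × Fin (n l)) ℂ) (h : ∀ l, Matrix (Fin (n l)) (Fin (n l)) ℂ) (l : Fin k) :
    Pf fun x => MvPolynomial.aeval (vl c fun i => S i * Function.update h l x i) F := by
  classical
  refine Pf.poly (f := fun v x => vl c (fun i => S i * Function.update h l x i) v) (fun v => ?_) F
  rcases v with a | ⟨i, a, b⟩
  · exact Pf.const _
  · by_cases hi : i = l
    · subst hi
      have h1 : (fun x : Matrix (Fin (n i)) (Fin (n i)) ℂ => vl c (fun j => S j * Function.update h i x j)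
          (Sum.inr ⟨i, a, b⟩)) = fun x => (S i * x) a b := by
        funext x
        show (S i * Function.update h i x i) a b = _
        rw [Function.update_self]
      rw [h1]
      exact Pf.mulL _ _ _
    · have h1 : (fun x : Matrix (Fin (n l)) (Fin (n l)) ℂ => vl c (fun j => S j * Function.update h l x j)
          (Sum.inr ⟨i, a, b⟩)) = fun _ => (S i * h i) a b := by
        funext x
        show (S i * Function.update h l x i) a b = _
        rw [Function.update_of_ne hi]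
      rw [h1]
      exact Pf.const _

/-- a polynomial which vanishes at the `S h`, `h` over `K`, vanishes at all points of the torsor -/
theorem van_tor {K : Subfield ℂ} {A : Type} {Q B : ∀ l, Matrix (Fin (n l)) (Fin (n l)) ℂ} (hQK : ∀ l a b, Q l a b ∈ K)
    (hQ : ∀ l, Spf (Q l)) (hB : ∀ l, Spf (B l)) (c : A → ℂ) {z : ℂ} (hz : z ≠ 0)
    {S : ∀ l, Matrix (Fin (n l)) (Fin (n l)) ℂ} (hS : ∀ l, S l * Q l * (S l)ᵀ = z • B l)
    {F : MvPolynomial (A ⊕ Σ l, Fin (n l) × Fin (n l)) ℂ}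
    (h0 : ∀ h : (∀ l, Matrix (Fin (n l)) (Fin (n l)) ℂ), (∀ l, SpK K (Q l) (h l)) →
      MvPolynomial.aeval (vl c fun l => S l * h l) F = 0)
    {Y : ∀ l, Matrix (Fin (n l)) (Fin (n l)) ℂ} (hY : ∀ l, Y l * Q l * (Y l)ᵀ = z • B l) :
    MvPolynomial.aeval (vl c Y) F = 0 := by
  have hSd : ∀ l, IsUnit (S l).det := by
    intro l
    have h1 := congrArg Matrix.det (hS l)
    rw [det_mul, det_mul, det_smul] at h1
    have h2 : IsUnit ((S l).det * ((Q l).det * ((S l)ᵀ).det)) := by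
      rw [← mul_assoc, h1]
      exact (Ne.isUnit (pow_ne_zero _ hz)).mul ((Matrix.isUnit_iff_isUnit_det _).1 (hB l).1)
    exact isUnit_of_mul_isUnit_left h2
  have e1 : ∀ l, (S l)⁻¹ * S l = 1 := fun l => Matrix.nonsing_inv_mul _ (hSd l)
  have e2 : ∀ l, S l * (S l)⁻¹ = 1 := fun l => Matrix.mul_nonsing_inv _ (hSd l)
  have e3 : ∀ l, S l * ((S l)⁻¹ * Y l) = Y l := fun l => by rw [← Matrix.mul_assoc, e2, Matrix.one_mul]
  have h1 := dense_prod (K := K) hQK hQ (f := fun h => MvPolynomial.aeval (vl c fun l => S l * h l) F)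
    (fun h l => pf_tr c S F h l) h0 (fun l => (S l)⁻¹ * Y l) (fun l => by
      rw [transpose_mul]
      have h2 : (S l)ᵀ * ((S l)⁻¹)ᵀ = 1 := by rw [← transpose_mul, e1, transpose_one]
      calc (S l)⁻¹ * Y l * Q l * ((Y l)ᵀ * ((S l)⁻¹)ᵀ) = (S l)⁻¹ * (Y l * Q l * (Y l)ᵀ) * ((S l)⁻¹)ᵀ := by
            simp only [Matrix.mul_assoc]
        _ = (S l)⁻¹ * (S l * Q l * (S l)ᵀ) * ((S l)⁻¹)ᵀ := by rw [hY, hS]
        _ = ((S l)⁻¹ * S l) * Q l * ((S l)ᵀ * ((S l)⁻¹)ᵀ) := by simp only [Matrix.mul_assoc]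
        _ = Q l := by rw [e1, h2, Matrix.one_mul, Matrix.mul_one])
  simp only [e3] at h1
  exact h1

/-- the forms on the de Rham side are symplectic -/
theorem spf_of {m : ℕ} {Z Q B : Matrix (Fin m) (Fin m) ℂ} {ϖ : ℂ} (hϖ : ϖ ≠ 0) (hB : Spf B) (hZ : Z * Q * Zᵀ = ϖ • B) :
    Spf Q ∧ IsUnit Z := by
  have hBd : IsUnit B.det := (Matrix.isUnit_iff_isUnit_det _).1 hB.1
  have h0 := congrArg Matrix.det hZ
  rw [det_mul, det_mul, det_smul] at h0
  have hu : IsUnit (ϖ ^ Fintype.card (Fin m) * B.det) := (Ne.isUnit (pow_ne_zero _ hϖ)).mul hBd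
  have hZd : IsUnit Z.det := by
    have h2 : IsUnit (Z.det * (Q.det * (Zᵀ).det)) := by
      rw [← mul_assoc, h0]
      exact hu
    exact isUnit_of_mul_isUnit_left h2
  have hQd : IsUnit Q.det := by
    have h2 : IsUnit (Q.det * (Z.det * (Zᵀ).det)) := by
      have h3 : Q.det * (Z.det * (Zᵀ).det) = Z.det * Q.det * (Zᵀ).det := by ring
      rw [h3, h0]
      exact hu
    exact isUnit_of_mul_isUnit_left h2
  refine ⟨⟨(Matrix.isUnit_iff_isUnit_det _).2 hQd, ?_⟩, (Matrix.isUnit_iff_isUnit_det _).2 hZd⟩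
  have h1 : Z⁻¹ * Z = 1 := Matrix.nonsing_inv_mul _ hZd
  have h2 : Zᵀ * (Z⁻¹)ᵀ = 1 := by rw [← transpose_mul, h1, transpose_one]
  have h3 : Q = Z⁻¹ * (ϖ • B) * (Z⁻¹)ᵀ := by
    rw [← hZ]
    calc Q = (Z⁻¹ * Z) * Q * (Zᵀ * (Z⁻¹)ᵀ) := by rw [h1, h2, Matrix.one_mul, Matrix.mul_one]
      _ = _ := by simp only [Matrix.mul_assoc]
  have h4 : Qᵀ = Z⁻¹ * (ϖ • Bᵀ) * (Z⁻¹)ᵀ := by
    conv_lhs => rw [h3]
    rw [transpose_mul, transpose_mul, transpose_transpose, transpose_smul, Matrix.mul_assoc]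
  rw [h4, hB.2]
  conv_rhs => rw [h3]
  rw [smul_neg, Matrix.mul_neg, Matrix.neg_mul]

end prod

section mot

variable {k : ℕ} {n : Fin k → ℕ}

/-- the value at `(z, Y)` -/
def vz (z : ℂ) (Y : ∀ l, Matrix (Fin (n l)) (Fin (n l)) ℂ) : Option (Σ l, Fin (n l) × Fin (n l)) → ℂ :=
  fun o => o.elim z fun v => Y v.1 v.2.1 v.2.2

/-- the variables -/
def oz : Option (Σ l, Fin (n l) × Fin (n l)) → Unit ⊕ Σ l, Fin (n l) × Fin (n l) :=
  fun o => o.elim (Sum.inl ()) Sum.inr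

theorem vz_oz (z : ℂ) (Y : ∀ l, Matrix (Fin (n l)) (Fin (n l)) ℂ) (o : Option (Σ l, Fin (n l) × Fin (n l))) :
    vl (fun _ : Unit => z) Y (oz o) = vz z Y o := by
  rcases o with _ | v
  · rfl
  · rfl

theorem aeval_oz (z : ℂ) (Y : ∀ l, Matrix (Fin (n l)) (Fin (n l)) ℂ)
    (G : MvPolynomial (Option (Σ l, Fin (n l) × Fin (n l))) ℂ) :
    MvPolynomial.aeval (vl (fun _ : Unit => z) Y)
      (MvPolynomial.aeval (fun o => (MvPolynomial.X (oz o) : MvPolynomial (Unit ⊕ Σ l, Fin (n l) × Fin (n l)) ℂ)) G) =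
      MvPolynomial.aeval (vz z Y) G := by
  rw [aeval_eval]
  congr 2
  funext o
  rw [MvPolynomial.aeval_X]
  exact vz_oz z Y o

/-- a polynomial over `K` in one variable which vanishes at a transcendental number -/
theorem line_van {K : Subfield ℂ} {ϖ : ℂ} (hϖ : Transcendental K ϖ) {σ : Type}
    {G : MvPolynomial σ ℂ} (hG : ∀ m, G.coeff m ∈ K) {u v : σ → ℂ} (hu : ∀ i, u i ∈ K) (hv : ∀ i, v i ∈ K)
    (h0 : MvPolynomial.aeval (fun i => ϖ * u i + v i) G = 0) (z : ℂ) :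
    MvPolynomial.aeval (fun i => z * u i + v i) G = 0 := by
  classical
  obtain ⟨G₀, hG₀⟩ : ∃ G₀ : MvPolynomial σ K, MvPolynomial.map (algebraMap K ℂ) G₀ = G := by
    have h1 : G ∈ Set.range (MvPolynomial.map (σ := σ) (algebraMap K ℂ)) := by
      rw [MvPolynomial.mem_range_map_iff_coeffs_subset]
      intro x hx
      rw [Finset.mem_coe, MvPolynomial.mem_coeffs_iff] at hx
      obtain ⟨m, -, rfl⟩ := hx
      exact ⟨⟨_, hG m⟩, rfl⟩
    exact h1
  let U : σ → K := fun i => ⟨u i, hu i⟩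
  let V : σ → K := fun i => ⟨v i, hv i⟩
  set p : Polynomial K := MvPolynomial.aeval (fun i => Polynomial.X * Polynomial.C (U i) + Polynomial.C (V i)) G₀ with hp
  have hev : ∀ z : ℂ, Polynomial.aeval z p = MvPolynomial.aeval (fun i => z * u i + v i) G := by
    intro z
    rw [hp, ← hG₀, MvPolynomial.aeval_map_algebraMap]
    have h1 : Polynomial.aeval z (MvPolynomial.aeval (fun i => Polynomial.X * Polynomial.C (U i) + Polynomial.C (V i)) G₀) =
        ((Polynomial.aeval z).comp (MvPolynomial.aeval fun i => Polynomial.X * Polynomial.C (U i) + Polynomial.C (V i))) G₀ := rfl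
    rw [h1, MvPolynomial.comp_aeval]
    congr 2
    funext i
    rw [map_add, map_mul, Polynomial.aeval_X, Polynomial.aeval_C, Polynomial.aeval_C]
    rfl
  have hp0 : p = 0 := by
    by_contra hne
    exact hϖ ⟨p, hne, by rw [hev, h0]⟩
  rw [← hev, hp0, map_zero]

/-- **the motivic torsor** -/
theorem mot {K : Subfield ℂ} {ϖ : ℂ} (hϖ : Transcendental K ϖ) {Q B : ∀ l, Matrix (Fin (n l)) (Fin (n l)) ℂ}
    (hQK : ∀ l a b, Q l a b ∈ K) (hBK : ∀ l a b, B l a b ∈ K) (hQ : ∀ l, Spf (Q l)) (hB : ∀ l, Spf (B l))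
    {G : MvPolynomial (Option (Σ l, Fin (n l) × Fin (n l))) ℂ} (hG : ∀ m, G.coeff m ∈ K)
    (h0 : ∀ Y : (∀ l, Matrix (Fin (n l)) (Fin (n l)) ℂ), (∀ l, Y l * Q l * (Y l)ᵀ = ϖ • B l) →
      MvPolynomial.aeval (vz ϖ Y) G = 0) {z : ℂ} (hz : z ≠ 0) {Y : ∀ l, Matrix (Fin (n l)) (Fin (n l)) ℂ}
    (hY : ∀ l, Y l * Q l * (Y l)ᵀ = z • B l) : MvPolynomial.aeval (vz z Y) G = 0 := by
  choose A₁ A₂ hA₁ hA₂ hA using fun l => sect (hB l) (hQ l) (hBK l) (hQK l)
  rw [← aeval_oz]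
  refine van_tor (K := K) hQK hQ hB (fun _ : Unit => z) hz (S := fun l => z • A₁ l + A₂ l) (fun l => hA l z) ?_ hY
  intro h hh
  rw [aeval_oz]
  have hM₁ : ∀ l a b, (A₁ l * h l) a b ∈ K := fun l a b => by
    rw [Matrix.mul_apply]
    exact Subfield.sum_mem _ fun c _ => K.mul_mem (hA₁ _ _ _) ((hh l).1 _ _)
  have hM₂ : ∀ l a b, (A₂ l * h l) a b ∈ K := fun l a b => by
    rw [Matrix.mul_apply]
    exact Subfield.sum_mem _ fun c _ => K.mul_mem (hA₂ _ _ _) ((hh l).1 _ _)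
  have hvz : ∀ z : ℂ, (vz z fun l => (z • A₁ l + A₂ l) * h l) = fun o : Option (Σ l, Fin (n l) × Fin (n l)) =>
      z * (o.elim 1 fun v => (A₁ v.1 * h v.1) v.2.1 v.2.2) + o.elim 0 fun v => (A₂ v.1 * h v.1) v.2.1 v.2.2 := by
    intro z
    funext o
    rcases o with _ | v
    · show z = z * 1 + 0
      rw [mul_one, add_zero]
    · show ((z • A₁ v.1 + A₂ v.1) * h v.1) v.2.1 v.2.2 = z * (A₁ v.1 * h v.1) v.2.1 v.2.2 + (A₂ v.1 * h v.1) v.2.1 v.2.2
      rw [Matrix.add_mul, Matrix.smul_mul, Matrix.add_apply, Matrix.smul_apply, smul_eq_mul]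
  rw [hvz]
  refine line_van hϖ hG ?_ ?_ ?_ z
  · rintro (_ | v)
    · exact K.one_mem
    · exact hM₁ _ _ _
  · rintro (_ | v)
    · exact K.zero_mem
    · exact hM₂ _ _ _
  · have h1 := h0 (fun l => (ϖ • A₁ l + A₂ l) * h l) (fun l => by
      rw [transpose_mul]
      calc (ϖ • A₁ l + A₂ l) * h l * Q l * ((h l)ᵀ * (ϖ • A₁ l + A₂ l)ᵀ) =
          (ϖ • A₁ l + A₂ l) * (h l * Q l * (h l)ᵀ) * (ϖ • A₁ l + A₂ l)ᵀ := by simp only [Matrix.mul_assoc]
        _ = _ := by rw [(hh l).2, hA])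
    rw [hvz] at h1
    exact h1

end mot

end Pool.Agent.U534.Sym
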