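import Pool.Agent.U534.UnivInt

/-!
# From polynomial relations with constants to relations over spaces
-/

set_option autoImplicit false
set_option linter.unusedSectionVars false

namespace Pool.Agent.U534.Tens

section
variable {α : Type} [Fintype α] [DecidableEq α]

/-- a linear combination of the monomials with bounded exponents which vanishes everywhere is trivial -/
theorem coeff_zero {k δ : ℕ} (v : (Fin k → α → Fin (δ + 1)) → ℂ)
    (h : ∀ u : Fin k × α → ℂ, ∑ b, v b * ∏ κ, ∏ a, u (κ, a) ^ (b κ a : ℕ) = 0) : v = 0 := by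
  classical
  set ex : (Fin k → α → Fin (δ + 1)) → (Fin k × α →₀ ℕ) := fun b =>
    Finsupp.equivFunOnFinite.symm fun w => (b w.1 w.2 : ℕ) with hex
  have hinj : Function.Injective ex := by
    intro b b' hb
    funext κ a
    exact Fin.ext (DFunLike.congr_fun hb (κ, a))
  set F : MvPolynomial (Fin k × α) ℂ := ∑ b, MvPolynomial.monomial (ex b) (v b) with hF
  have hF0 : F = 0 := by
    refine MvPolynomial.funext fun u => ?_
    rw [map_zero, ← h u, hF, map_sum]
    refine Finset.sum_congr rfl fun b _ => ?_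
    rw [MvPolynomial.eval_monomial, Finsupp.prod_fintype _ _ (fun i => pow_zero _), Fintype.prod_prod_type]
    rfl
  funext b
  have h1 : MvPolynomial.coeff (ex b) F = v b := by
    rw [hF, MvPolynomial.coeff_sum, Finset.sum_eq_single b]
    · rw [MvPolynomial.coeff_monomial, if_pos rfl]
    · intro b' _ hb'
      rw [MvPolynomial.coeff_monomial, if_neg fun he => hb' (hinj he)]
    · intro hb
      exact absurd (Finset.mem_univ b) hb
  rw [← h1, hF0, MvPolynomial.coeff_zero]
  rfl

/-- no relations over a space -/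
theorem not_rel {k q δ : ℕ} (ξ : Fin q → ℂ) (c : Option (Fin q) → ℂ) (hc : ∀ m, c (some m) = ξ m) {V : Submodule ℚ ℂ}
    (hV : V ≤ Submodule.span ℚ (Set.range ξ)) (K : IntermediateField ℚ ℂ) (y : Fin k → α → ℂ) {B : ℕ}
    (hB : 1 + k * (Fintype.card α * δ) ≤ B)
    (h : ∀ P : MvPolynomial (Option (Fin q) ⊕ Fin k × α) K, P.totalDegree ≤ B →
      MvPolynomial.aeval (Sum.elim c fun v => y v.1 v.2) P = 0 → ∀ u : Fin k × α → ℂ, MvPolynomial.aeval (Sum.elim c u) P = 0) :
    ¬ Rel K V (mon δ y) := by
  classical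
  rintro ⟨v, h1, h2, h3⟩
  have h4 : ∀ b, ∃ a : Fin q → K, ∑ m, a m • ξ m = v b := by
    intro b
    have h5 : Submodule.span K (V : Set ℂ) ≤ Submodule.span K (Set.range ξ) := by
      rw [Submodule.span_le]
      intro z hz
      exact (Submodule.span_le_restrictScalars ℚ K (Set.range ξ)) (hV hz)
    exact (Submodule.mem_span_range_iff_exists_fun K).1 (h5 (h1 b))
  choose a ha using h4
  set mn : (Fin k → α → Fin (δ + 1)) → MvPolynomial (Option (Fin q) ⊕ Fin k × α) K := fun b =>
    ∏ κ, ∏ i, MvPolynomial.X (Sum.inr (κ, i)) ^ (b κ i : ℕ) with hmn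
  set P : MvPolynomial (Option (Fin q) ⊕ Fin k × α) K :=
    ∑ b, (∑ m, MvPolynomial.C (a b m) * MvPolynomial.X (Sum.inl (some m))) * mn b with hP
  have hPd : P.totalDegree ≤ B := by
    refine le_trans ?_ hB
    refine (MvPolynomial.totalDegree_finsetSum _ _).trans (Finset.sup_le fun b _ => ?_)
    refine (MvPolynomial.totalDegree_mul _ _).trans (add_le_add ?_ ?_)
    · refine (MvPolynomial.totalDegree_finsetSum _ _).trans (Finset.sup_le fun m _ => ?_)
      refine (MvPolynomial.totalDegree_mul _ _).trans ?_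
      rw [MvPolynomial.totalDegree_C, MvPolynomial.totalDegree_X]
    · refine (MvPolynomial.totalDegree_finset_prod _ _).trans ?_
      have h6 : ∀ κ ∈ (Finset.univ : Finset (Fin k)), (∏ i : α, (MvPolynomial.X (Sum.inr (κ, i)) :
          MvPolynomial (Option (Fin q) ⊕ Fin k × α) K) ^ (b κ i : ℕ)).totalDegree ≤ Fintype.card α * δ := by
        intro κ _
        refine (MvPolynomial.totalDegree_finset_prod _ _).trans ?_
        have h7 : ∀ i ∈ (Finset.univ : Finset α), ((MvPolynomial.X (Sum.inr (κ, i)) :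
            MvPolynomial (Option (Fin q) ⊕ Fin k × α) K) ^ (b κ i : ℕ)).totalDegree ≤ δ := by
          intro i _
          refine (MvPolynomial.totalDegree_pow _ _).trans ?_
          rw [MvPolynomial.totalDegree_X, mul_one]
          exact Nat.le_of_lt_succ (b κ i).2
        refine (Finset.sum_le_card_nsmul _ _ _ h7).trans ?_
        rw [Finset.card_univ, smul_eq_mul]
      refine (Finset.sum_le_card_nsmul _ _ _ h6).trans ?_
      rw [Finset.card_univ, Fintype.card_fin, smul_eq_mul]
  have hev : ∀ u : Fin k × α → ℂ, MvPolynomial.aeval (Sum.elim c u) P = ∑ b, v b * ∏ κ, ∏ i, u (κ, i) ^ (b κ i : ℕ) := by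
    intro u
    rw [hP, map_sum]
    refine Finset.sum_congr rfl fun b _ => ?_
    rw [map_mul, map_sum]
    congr 1
    · rw [← ha b]
      refine Finset.sum_congr rfl fun m _ => ?_
      rw [map_mul, MvPolynomial.aeval_C, MvPolynomial.aeval_X, Sum.elim_inl, hc, Algebra.smul_def]
    · rw [hmn]
      simp only [map_prod, map_pow, MvPolynomial.aeval_X, Sum.elim_inr]
  apply h2
  refine coeff_zero v fun u => ?_
  rw [← hev u]
  refine h P hPd ?_ u
  rw [hev]
  exact h3

/-- a spanning family of given length -/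
theorem exists_span {W : Submodule ℚ ℂ} (hW : Module.Finite ℚ W) {q : ℕ} (hq : Module.finrank ℚ W ≤ q) :
    ∃ ξ : Fin q → ℂ, W ≤ Submodule.span ℚ (Set.range ξ) := by
  classical
  set b := Module.finBasis ℚ W
  refine ⟨fun m => if h : (m : ℕ) < Module.finrank ℚ W then (b ⟨m, h⟩ : ℂ) else 0, ?_⟩
  intro z hz
  have h1 := b.sum_repr ⟨z, hz⟩
  have h2 : z = ∑ i, (b.repr ⟨z, hz⟩ i) • (b i : ℂ) := by
    have h3 := congrArg W.subtype h1
    rw [map_sum] at h3
    simp only [map_smul, Submodule.subtype_apply] at h3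
    exact h3.symm
  rw [h2]
  refine Submodule.sum_mem _ fun i _ => Submodule.smul_mem _ _ (Submodule.subset_span ⟨⟨i, by omega⟩, ?_⟩)
  simp

end

end Pool.Agent.U534.Tens
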