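import Pool.Agent.U534.UnivGen
import Pool.Agent.U534.NotRel
import Mathlib.FieldTheory.FinTrdeg

/-!
# Almost full windows for generalised logarithms of algebraic points
-/

set_option autoImplicit false
set_option linter.unusedSectionVars false

namespace Pool.Agent.U534.Tens

section
variable {α : Type} [Fintype α] [DecidableEq α]

/-- no relations over a space, general index type of the constants -/
theorem not_rel' {k q δ : ℕ} (ξ : Fin q → ℂ) {κ' : Type} (c : κ' → ℂ) (em : Fin q → κ') (hc : ∀ m, c (em m) = ξ m)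
    {V : Submodule ℚ ℂ}
    (hV : V ≤ Submodule.span ℚ (Set.range ξ)) (K : IntermediateField ℚ ℂ) (y : Fin k → α → ℂ) {B : ℕ}
    (hB : 1 + k * (Fintype.card α * δ) ≤ B)
    (h : ∀ P : MvPolynomial (κ' ⊕ Fin k × α) K, P.totalDegree ≤ B →
      MvPolynomial.aeval (Sum.elim c fun v => y v.1 v.2) P = 0 → ∀ u : Fin k × α → ℂ, MvPolynomial.aeval (Sum.elim c u) P = 0) :
    ¬ Rel K V (mon δ y) := by
  classical
  refine not_rel (k := k) (q := q) ξ (fun o => o.elim 0 ξ) (fun m => rfl) hV K y hB fun P hP hP0 u => ?_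
  -- substitute zero for the constant `none`
  set f : Option (Fin q) ⊕ Fin k × α → MvPolynomial (κ' ⊕ Fin k × α) K :=
    Sum.elim (fun o => o.elim 0 fun m => MvPolynomial.X (Sum.inl (em m))) (fun v => MvPolynomial.X (Sum.inr v)) with hf
  set Q : MvPolynomial (κ' ⊕ Fin k × α) K := MvPolynomial.aeval f P with hQ
  have hev : ∀ w : Fin k × α → ℂ, MvPolynomial.aeval (Sum.elim c w) Q =
      MvPolynomial.aeval (Sum.elim (fun o : Option (Fin q) => o.elim 0 ξ) w) P := by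
    intro w
    have h1 : ((MvPolynomial.aeval (Sum.elim c w) : MvPolynomial (κ' ⊕ Fin k × α) K →ₐ[K] ℂ).comp
        (MvPolynomial.aeval f : MvPolynomial (Option (Fin q) ⊕ Fin k × α) K →ₐ[K] MvPolynomial (κ' ⊕ Fin k × α) K)) =
        MvPolynomial.aeval (Sum.elim (fun o : Option (Fin q) => o.elim 0 ξ) w) := by
      apply MvPolynomial.algHom_ext
      intro v
      rw [AlgHom.comp_apply, MvPolynomial.aeval_X, MvPolynomial.aeval_X, hf]
      rcases v with o | v
      · rcases o with _ | m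
        · simp
        · simp [hc]
      · simp
    rw [hQ, ← AlgHom.comp_apply, h1]
  have hQd : Q.totalDegree ≤ B := by
    refine le_trans ?_ hP
    rw [hQ, MvPolynomial.aeval_def, MvPolynomial.eval₂_eq']
    refine (MvPolynomial.totalDegree_finsetSum _ _).trans (Finset.sup_le fun s hs => ?_)
    refine (MvPolynomial.totalDegree_mul _ _).trans ?_
    rw [MvPolynomial.algebraMap_eq, MvPolynomial.totalDegree_C, zero_add]
    refine (MvPolynomial.totalDegree_finset_prod _ _).trans ?_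
    have h2 : ∀ i ∈ (Finset.univ : Finset (Option (Fin q) ⊕ Fin k × α)), (f i ^ s i).totalDegree ≤ s i := by
      intro i _
      refine (MvPolynomial.totalDegree_pow _ _).trans ?_
      have h3 : (f i).totalDegree ≤ 1 := by
        rcases i with o | v
        · rcases o with _ | m
          · show (0 : MvPolynomial (κ' ⊕ Fin k × α) K).totalDegree ≤ 1
            rw [MvPolynomial.totalDegree_zero]
            exact Nat.zero_le _
          · show (MvPolynomial.X (Sum.inl (em m)) : MvPolynomial (κ' ⊕ Fin k × α) K).totalDegree ≤ 1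
            rw [MvPolynomial.totalDegree_X]
        · show (MvPolynomial.X (Sum.inr v) : MvPolynomial (κ' ⊕ Fin k × α) K).totalDegree ≤ 1
          rw [MvPolynomial.totalDegree_X]
      exact (Nat.mul_le_mul_left _ h3).trans (by rw [mul_one])
    refine (Finset.sum_le_sum h2).trans ?_
    have h4 := MvPolynomial.le_totalDegree hs
    rwa [Finsupp.sum_fintype _ _ (fun _ => rfl)] at h4
  rw [← hev]
  refine h Q hQd ?_ u
  rw [hev]
  exact hP0

/-- values of rational polynomials of bounded degree -/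
noncomputable def ratSp {σ : Type} (B : ℕ) (v : σ → ℂ) [Fintype σ] : Submodule ℚ ℂ :=
  Submodule.span ℚ (Set.range fun e : σ → Fin (B + 1) => ∏ a, v a ^ (e a : ℕ))

theorem ratSp_fin {σ : Type} [Fintype σ] (B : ℕ) (v : σ → ℂ) : Module.Finite ℚ (ratSp B v) := by
  classical
  exact Module.Finite.span_of_finite ℚ (Set.finite_range _)

theorem ratSp_rank {σ : Type} [Fintype σ] (B : ℕ) (v : σ → ℂ) : Module.finrank ℚ (ratSp B v) ≤ (B + 1) ^ Fintype.card σ := by
  classical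
  refine (finrank_range_le_card _).trans ?_
  rw [Fintype.card_fun, Fintype.card_fin]

theorem ratSp_one {σ : Type} [Fintype σ] (B : ℕ) (v : σ → ℂ) : (1 : ℂ) ∈ ratSp B v :=
  Submodule.subset_span ⟨fun _ => 0, by simp⟩

theorem rat_mem {σ : Type} [Fintype σ] {B : ℕ} {v : σ → ℂ} {p : MvPolynomial σ ℚ} (hp : p.totalDegree ≤ B) :
    MvPolynomial.aeval v p ∈ ratSp B v := by
  classical
  rw [MvPolynomial.aeval_def, MvPolynomial.eval₂_eq']
  refine Submodule.sum_mem _ fun s hs => ?_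
  have h1 : ∀ a, s a < B + 1 := by
    intro a
    have h2 := (MvPolynomial.monomial_le_degreeOf a hs).trans ((MvPolynomial.degreeOf_le_totalDegree p a).trans hp)
    omega
  rw [← Algebra.smul_def]
  exact Submodule.smul_mem _ _ (Submodule.subset_span ⟨fun a => ⟨s a, h1 a⟩, rfl⟩)

end

section
variable {σ υ : Type} [Fintype σ] [DecidableEq σ] [Fintype υ]

/-- all determinations of the numbers at `t`: nonzero rational multiples of the given numbers plus rational combinations of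
`1` and the constants -/
def Det (x : ℂ → σ → ℂ) (Dm : ℂ → Prop) (c : υ → ℂ) (t : ℂ) : Set (σ → ℂ) :=
  {y | Dm t ∧ ∀ s, ∃ b : ℚ, b ≠ 0 ∧ y s - b * x t s ∈ Submodule.span ℚ (insert 1 (Set.range c))}

theorem det_env (x : ℂ → σ → ℂ) (Dm : ℂ → Prop) (c : υ → ℂ) (δ : ℕ) (t : ℂ) (y : σ → ℂ) (hy : y ∈ Det x Dm c t)
    (e : σ → Fin (δ + 1)) : ∏ a, y a ^ (e a : ℕ) ∈ ratSp (Fintype.card σ * δ) (Sum.elim c (x t)) := by
  classical
  have h1 : ∀ s, ∃ p : MvPolynomial (υ ⊕ σ) ℚ, p.totalDegree ≤ 1 ∧ MvPolynomial.aeval (Sum.elim c (x t)) p = y s := by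
    intro s
    obtain ⟨b, -, hb⟩ := hy.2 s
    have h2 : ∀ z ∈ Submodule.span ℚ (insert 1 (Set.range c)), ∃ p : MvPolynomial (υ ⊕ σ) ℚ, p.totalDegree ≤ 1 ∧
        MvPolynomial.aeval (Sum.elim c (x t)) p = z := by
      intro z hz
      induction hz using Submodule.span_induction with
      | mem z hz =>
        rcases hz with rfl | ⟨i, rfl⟩
        · exact ⟨1, by rw [MvPolynomial.totalDegree_one]; exact Nat.zero_le _, map_one _⟩
        · exact ⟨MvPolynomial.X (Sum.inl i), by rw [MvPolynomial.totalDegree_X], by rw [MvPolynomial.aeval_X]; rfl⟩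
      | zero => exact ⟨0, by rw [MvPolynomial.totalDegree_zero]; exact Nat.zero_le _, map_zero _⟩
      | add a b _ _ ha hb =>
        obtain ⟨p, hp, rfl⟩ := ha
        obtain ⟨q, hq, rfl⟩ := hb
        exact ⟨p + q, (MvPolynomial.totalDegree_add _ _).trans (max_le hp hq), map_add _ _ _⟩
      | smul r a _ ha =>
        obtain ⟨p, hp, rfl⟩ := ha
        exact ⟨r • p, (MvPolynomial.totalDegree_smul_le _ _).trans hp, map_smul _ _ _⟩
    obtain ⟨p, hp, hpe⟩ := h2 _ hb
    refine ⟨p + MvPolynomial.C b * MvPolynomial.X (Sum.inr s), ?_, ?_⟩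
    · refine (MvPolynomial.totalDegree_add _ _).trans (max_le hp ?_)
      refine (MvPolynomial.totalDegree_mul _ _).trans ?_
      rw [MvPolynomial.totalDegree_C, MvPolynomial.totalDegree_X]
    · rw [map_add, hpe, map_mul, MvPolynomial.aeval_X, MvPolynomial.aeval_C]
      simp
  choose p hp hpe using h1
  have h3 : ∏ a, y a ^ (e a : ℕ) = MvPolynomial.aeval (Sum.elim c (x t)) (∏ a, p a ^ (e a : ℕ)) := by
    rw [map_prod]
    refine Finset.prod_congr rfl fun a _ => ?_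
    rw [map_pow, hpe]
  rw [h3]
  refine rat_mem ?_
  refine (MvPolynomial.totalDegree_finset_prod _ _).trans ?_
  have h4 : ∀ a ∈ (Finset.univ : Finset σ), (p a ^ (e a : ℕ)).totalDegree ≤ δ := by
    intro a _
    refine (MvPolynomial.totalDegree_pow _ _).trans ?_
    refine (Nat.mul_le_mul_left _ (hp a)).trans ?_
    rw [mul_one]
    exact Nat.le_of_lt_succ (e a).2
  refine (Finset.sum_le_card_nsmul _ _ _ h4).trans ?_
  rw [Finset.card_univ, smul_eq_mul]

/-- `ξ` is a root of an integral polynomial of degree at most `m` with coefficients at most `|ξ|^A` -/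
def HtC (m A : ℕ) (ξ : ℂ) : Prop :=
  ∃ p : Polynomial ℤ, p ≠ 0 ∧ p.natDegree ≤ m ∧ (∀ j, |(p.coeff j : ℝ)| ≤ ‖ξ‖ ^ A) ∧ Polynomial.aeval ξ p = 0

/-- the window property -/
def WinY (x : ℂ → σ → ℂ) (Dm : ℂ → Prop) (c : υ → ℂ) : Prop :=
  ∀ r m A d δ τ : ℕ, ∃ E : ℕ, ∀ (H : ℕ) (ξ : ℂ), ((H : ℝ) + 2) ^ E ≤ ‖ξ‖ → HtC m A ξ → ∀ w : Fin τ → ℂ, ∃ S : Finset ℕ,
    (S.card : Cardinal) ≤ τ + 1 + Algebra.trdeg ℚ (IntermediateField.adjoin ℚ (Set.range c)) ∧
    ∀ g : Fin r → ℕ, Function.Injective g → (∀ i, 1 ≤ g i ∧ g i ≤ H ∧ g i ∉ S ∧ Dm (ξ + g i)) →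
    ∀ K : IntermediateField ℚ ℂ, FiniteDimensional ℚ K → Module.finrank ℚ K ≤ d →
    ∀ y : Fin r × σ → ℂ, (∀ p, ∃ b : K, b ≠ 0 ∧ y p - b * x (ξ + g p.1) p.2 ∈
        Submodule.span K (insert 1 (Set.range (Sum.elim w c)))) →
    ∀ P : MvPolynomial ((Fin τ ⊕ υ) ⊕ Fin r × σ) K,
      P.totalDegree ≤ δ → MvPolynomial.aeval (Sum.elim (Sum.elim w c) y) P = 0 →
      MvPolynomial.aeval (Sum.elim (fun j => MvPolynomial.C (Sum.elim w c j)) MvPolynomial.X) P =
        (0 : MvPolynomial (Fin r × σ) ℂ)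

theorem trdeg_nat (c : υ → ℂ) : ∃ n : ℕ, Algebra.trdeg ℚ (IntermediateField.adjoin ℚ (Set.range c)) = n := by
  have h1 : (IntermediateField.adjoin ℚ (Set.range c)).FG := IntermediateField.fg_adjoin_of_finite (Set.finite_range c)
  have h2 : Algebra.EssFiniteType ℚ (IntermediateField.adjoin ℚ (Set.range c)) := IntermediateField.essFiniteType_iff.2 h1
  have h3 := _root_.trdeg_lt_aleph0 ℚ (IntermediateField.adjoin ℚ (Set.range c))
  obtain ⟨n, hn⟩ := Cardinal.lt_aleph0.1 h3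
  exact ⟨n, hn⟩

lemma gen_ev {r : ℕ} {κ' : Type} (K : IntermediateField ℚ ℂ) (w : κ' → ℂ) (u : Fin r × σ → ℂ)
    (P : MvPolynomial (κ' ⊕ Fin r × σ) K) :
    MvPolynomial.eval u (MvPolynomial.aeval (Sum.elim (fun j => MvPolynomial.C (w j)) MvPolynomial.X) P :
      MvPolynomial (Fin r × σ) ℂ) = MvPolynomial.aeval (Sum.elim w u) P := by
  have h2 : ((MvPolynomial.aeval u : MvPolynomial (Fin r × σ) ℂ →ₐ[ℂ] ℂ).restrictScalars K).comp
      (MvPolynomial.aeval (Sum.elim (fun j => MvPolynomial.C (w j)) MvPolynomial.X) :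
        MvPolynomial (κ' ⊕ Fin r × σ) K →ₐ[K] MvPolynomial (Fin r × σ) ℂ)
      = MvPolynomial.aeval (Sum.elim w u) := by
    apply MvPolynomial.algHom_ext
    intro v
    rw [AlgHom.comp_apply, MvPolynomial.aeval_X, MvPolynomial.aeval_X, AlgHom.restrictScalars_apply]
    rcases v with o | v
    · rw [Sum.elim_inl, Sum.elim_inl, MvPolynomial.aeval_C]
      rfl
    · rw [Sum.elim_inr, Sum.elim_inr, MvPolynomial.aeval_X]
  rw [← h2, AlgHom.comp_apply, AlgHom.restrictScalars_apply]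
  rfl

/-- The sets `T j` are disjoint; `T j` contains the points `ξ + 1, …, ξ + H` for some `ξ ∈ Ξ j` and some `H`, up to a
proportion of at most `1 / (j + 1)`, it has at least `j` elements and they have absolute value at least `j + 1`. -/
def FullC (Ξ : ℕ → Set ℂ) (T : ℕ → Finset ℂ) : Prop :=
  (∀ i j, i ≠ j → Disjoint (T i) (T j)) ∧ ∀ j : ℕ, ∃ ξ ∈ Ξ j, ∃ H : ℕ,
    (∀ t ∈ T j, (j : ℝ) + 1 ≤ ‖t‖ ∧ ∃ g : ℕ, 1 ≤ g ∧ g ≤ H ∧ t = ξ + g) ∧ j ≤ (T j).card ∧ (j + 1) * (H - (T j).card) ≤ H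

/-- **Main theorem for generalised logarithms.** -/
theorem genlog {x : ℂ → σ → ℂ} {Dm : ℂ → Prop} {c : υ → ℂ} (hW : WinY x Dm c) {m A : ℕ → ℕ} {Ξ : ℕ → Set ℂ}
    (hΞ : ∀ j N : ℕ, ∃ ξ ∈ Ξ j, (N : ℝ) ≤ ‖ξ‖ ∧ HtC (m j) (A j) ξ)
    {V : ℕ → Submodule ℚ ℂ} (hVf : ∀ j, Module.Finite ℚ (V j)) (hV : Monotone V) {δ : ℕ → ℕ} (hδ : Monotone δ) :
    ∃ T : ℕ → Finset ℂ, FullC Ξ T ∧
      ∀ y : ℂ → σ → ℂ, (∀ j, ∀ t ∈ T j, y t ∈ Det x Dm c t) →
      ∀ (l : ℕ) (K : IntermediateField ℚ ℂ), FiniteDimensional ℚ K → Module.finrank ℚ K ≤ δ l →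
      ∀ P : MvPolynomial (ℂ × σ) ℂ, P ≠ 0 → (∀ v ∈ P.vars, ∃ j ≥ l, v.1 ∈ T j) →
        (∀ v, P.degreeOf v ≤ δ l) → (∀ s, P.coeff s ∈ Submodule.span K (V l : Set ℂ)) →
        MvPolynomial.eval (fun v => y v.1 v.2) P ≠ 0 := by
  classical
  obtain ⟨ρ, hρ⟩ := trdeg_nat c
  obtain ⟨B, T, h1, h2, h3⟩ := universalG (ι := ℂ) (α := σ) (fun t => ‖t‖ - 1) (Det x Dm c)
    (fun δ t => ratSp (Fintype.card σ * δ) (Sum.elim c (x t))) (fun _ _ => ratSp_fin _ _) (fun _ _ => ratSp_one _ _)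
    (fun δ => (Fintype.card σ * δ + 1) ^ Fintype.card (υ ⊕ σ)) (fun _ _ => ratSp_rank _ _)
    (fun δ => ⟨0, fun t _ y hy => ⟨1, one_ne_zero, fun e => by
      rw [one_mul]
      exact det_env x Dm c δ t y hy e⟩⟩)
    (1 + ρ) (fun j B => ∃ ξ ∈ Ξ j, B = (Finset.Icc 1 B.card).image fun g : ℕ => ξ + (g : ℂ)) (δ := δ)
    (by
      intro j q k N H hH
      obtain ⟨E, hE⟩ := hW k (m j) (A j) (δ j) (1 + k * (Fintype.card σ * δ j)) q
      obtain ⟨ξ, hξ, hξN, hξh⟩ := hΞ j ((H + 2) ^ E + N + H)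
      push_cast at hξN
      have hinj : Function.Injective fun g : ℕ => ξ + (g : ℂ) := fun g g' h => by
        have := add_left_cancel (a := ξ) h
        exact_mod_cast this
      have hcard : ((Finset.Icc 1 H).image fun g : ℕ => ξ + (g : ℂ)).card = H := by
        rw [Finset.card_image_of_injective _ hinj, Nat.card_Icc]
        omega
      refine ⟨(Finset.Icc 1 H).image fun g : ℕ => ξ + (g : ℂ), hcard, ⟨ξ, hξ, by rw [hcard]⟩, fun t ht => ?_, fun W hW hWq => ?_⟩
      · obtain ⟨g, hg, rfl⟩ := Finset.mem_image.1 ht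
        have h5 : (g : ℝ) ≤ H := by exact_mod_cast (Finset.mem_Icc.1 hg).2
        have h6 : ‖ξ‖ - ‖(g : ℂ)‖ ≤ ‖ξ + (g : ℂ)‖ := by
          have := norm_sub_norm_le ξ (-(g : ℂ))
          rwa [norm_neg, sub_neg_eq_add] at this
        rw [Complex.norm_natCast] at h6
        have h7 : (1 : ℝ) ≤ ((H : ℝ) + 2) ^ E := one_le_pow₀ (by linarith [(Nat.cast_nonneg H : (0 : ℝ) ≤ H)])
        show (N : ℝ) ≤ ‖ξ + (g : ℂ)‖ - 1
        linarith
      · obtain ⟨w, hw⟩ := exists_span hW hWq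
        have h7 : (0 : ℝ) ≤ (N : ℝ) := Nat.cast_nonneg _
        have h8 : (0 : ℝ) ≤ (H : ℝ) := Nat.cast_nonneg _
        obtain ⟨S, hS1, hS2⟩ := hE H ξ (by linarith) hξh w
        have hSc : S.card ≤ q + (1 + ρ) := by
          rw [hρ] at hS1
          have h9 : (S.card : Cardinal) ≤ ((q + 1 + ρ : ℕ) : Cardinal) := by
            push_cast
            exact hS1
          have h10 := Nat.cast_le.1 h9
          omega
        refine ⟨S.image fun g : ℕ => ξ + (g : ℂ), Finset.card_image_le.trans hSc, fun n hn hnB K hK hKD y hy => ?_⟩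
        have h11 : ∀ κ, ∃ g : ℕ, 1 ≤ g ∧ g ≤ H ∧ g ∉ S ∧ n κ = ξ + g := by
          intro κ
          obtain ⟨g, hg, hge⟩ := Finset.mem_image.1 (hnB κ).1
          obtain ⟨hg1, hg2⟩ := Finset.mem_Icc.1 hg
          refine ⟨g, hg1, hg2, fun hgS => (hnB κ).2 ?_, hge.symm⟩
          rw [← hge]
          exact Finset.mem_image_of_mem _ hgS
        choose g hg1 hg2 hg3 hg4 using h11
        have hginj : Function.Injective g := by
          intro κ κ' h
          apply hn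
          rw [hg4, hg4, h]
        refine not_rel' w (Sum.elim w c) Sum.inl (fun m => rfl) hw K y le_rfl fun P hP hP0 u => ?_
        have h12 := hS2 g hginj (fun κ => ⟨hg1 κ, hg2 κ, hg3 κ, by
          rw [← hg4]
          exact (hy κ).1⟩) K hK hKD (fun v => y v.1 v.2) (fun p => by
          obtain ⟨b, hb, hbm⟩ := (hy p.1).2 p.2
          rw [hg4] at hbm
          refine ⟨(b : K), by exact_mod_cast hb, ?_⟩
          have h13 : Submodule.span ℚ (insert 1 (Set.range c)) ≤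
              (Submodule.span K (insert 1 (Set.range (Sum.elim w c)))).restrictScalars ℚ := by
            rw [Submodule.span_le]
            intro z hz
            refine Submodule.subset_span ?_
            rcases hz with rfl | ⟨i, rfl⟩
            · exact Or.inl rfl
            · exact Or.inr ⟨Sum.inr i, rfl⟩
          have h14 := h13 hbm
          simpa using h14) P hP hP0
        rw [← gen_ev (σ := σ) K (Sum.elim w c) u P, h12, map_zero])
    hVf hV hδ
  refine ⟨T, ⟨h2, fun j => ?_⟩, h3⟩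
  obtain ⟨⟨ξ, hξ, hB⟩, h4, h5, h6, h7⟩ := h1 j
  refine ⟨ξ, hξ, (B j).card, fun t ht => ⟨by
    have h9 : (j : ℝ) ≤ ‖t‖ - 1 := h4 t (h5 ht)
    linarith, ?_⟩, h6, h7⟩
  have h8 := h5 ht
  rw [hB] at h8
  obtain ⟨g, hg, hge⟩ := Finset.mem_image.1 h8
  exact ⟨g, (Finset.mem_Icc.1 hg).1, (Finset.mem_Icc.1 hg).2, hge.symm⟩

end

end Pool.Agent.U534.Tens
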