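import Pool.Agent.U534.ModInt
import Pool.Agent.U534.GenLog
import Pool.Agent.Y120.A.All

/-!
# The modular invariant on almost full windows of algebraic numbers
-/

set_option autoImplicit false
set_option linter.unusedSectionVars false

open Pool.Agent.TH21.MS (jj)
open Pool.Agent.Y120.J Pool.Agent.Y120.K Pool.Agent.Y120.A

namespace Pool.Agent.U534.Tens

/-- fractions -/
theorem frac_rat {α σ : Type} [Fintype α] [DecidableEq α] [Fintype σ] {δ : ℕ} {v : σ → ℂ} {y : α → ℂ}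
    {n m : α → MvPolynomial σ ℚ} {d : ℕ} (hn : ∀ j, (n j).totalDegree ≤ d)
    (hm : ∀ j, (m j).totalDegree ≤ d) (hm0 : ∀ j, MvPolynomial.aeval v (m j) ≠ 0)
    (hy : ∀ j, y j = MvPolynomial.aeval v (n j) / MvPolynomial.aeval v (m j)) :
    ∃ c : ℂ, c ≠ 0 ∧ ∀ e : α → Fin (δ + 1), c * ∏ a, y a ^ (e a : ℕ) ∈ ratSp (Fintype.card α * (δ * d)) v := by
  classical
  refine ⟨∏ a, MvPolynomial.aeval v (m a) ^ δ, Finset.prod_ne_zero_iff.2 fun a _ => pow_ne_zero _ (hm0 a), fun e => ?_⟩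
  have h1 : (∏ a, MvPolynomial.aeval v (m a) ^ δ) * ∏ a, y a ^ (e a : ℕ) =
      MvPolynomial.aeval v (∏ a, (n a ^ (e a : ℕ) * m a ^ (δ - (e a : ℕ)))) := by
    rw [map_prod, ← Finset.prod_mul_distrib]
    refine Finset.prod_congr rfl fun a _ => ?_
    rw [map_mul, map_pow, map_pow, hy a, div_pow]
    have h2 : MvPolynomial.aeval v (m a) ^ δ =
        MvPolynomial.aeval v (m a) ^ (δ - (e a : ℕ)) * MvPolynomial.aeval v (m a) ^ (e a : ℕ) := by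
      rw [← pow_add, Nat.sub_add_cancel (Nat.le_of_lt_succ (e a).2)]
    rw [h2]
    have h3 := pow_ne_zero (e a : ℕ) (hm0 a)
    field_simp
  rw [h1]
  refine rat_mem ?_
  refine (MvPolynomial.totalDegree_finset_prod _ _).trans ?_
  have h4 : ∀ a ∈ (Finset.univ : Finset α), (n a ^ (e a : ℕ) * m a ^ (δ - (e a : ℕ))).totalDegree ≤ δ * d := by
    intro a _
    refine (MvPolynomial.totalDegree_mul _ _).trans ?_
    refine (add_le_add ((MvPolynomial.totalDegree_pow _ _).trans (Nat.mul_le_mul_left _ (hn a)))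
      ((MvPolynomial.totalDegree_pow _ _).trans (Nat.mul_le_mul_left _ (hm a)))).trans ?_
    rw [← add_mul, Nat.add_sub_cancel' (Nat.le_of_lt_succ (e a).2)]
  refine (Finset.sum_le_card_nsmul _ _ _ h4).trans ?_
  rw [Finset.card_univ, smul_eq_mul]

open MvPolynomial in
/-- the numerators as polynomials; `X 3` stands for `t` -/
noncomputable def np (a b c d : ℤ) : Fin 3 → MvPolynomial (Fin 4) ℚ :=
  ![C (a : ℚ) * X 1 + C (b : ℚ) * X 0, -X 3 * (C (c : ℚ) * X 1 + C (d : ℚ) * X 0) ^ 2,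
      X 3 * (C (c : ℚ) * X 1 + C (d : ℚ) * X 0) ^ 3 *
        ((C (c : ℚ) * X 1 + C (d : ℚ) * X 0) * (X 0 - C 2 * X 2) - C (2 * c : ℚ) * X 0)]

open MvPolynomial in
/-- the denominators as polynomials -/
noncomputable def mp (c d : ℤ) : Fin 3 → MvPolynomial (Fin 4) ℚ := ![C (c : ℚ) * X 1 + C (d : ℚ) * X 0, X 0, X 0 ^ 3]

/-- the coordinates -/
def cd (t : ℂ) (Z : Fin 3 → ℂ) : Fin 4 → ℂ := ![Z 0, Z 1, Z 2, t]

lemma np_eval (t : ℂ) (Z : Fin 3 → ℂ) (a b c d : ℤ) (j : Fin 3) :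
    MvPolynomial.aeval (cd t Z) (np a b c d j) = nv t a b c d Z j := by
  fin_cases j <;> simp [np, nv, cd]

lemma mp_eval (t : ℂ) (Z : Fin 3 → ℂ) (c d : ℤ) (j : Fin 3) :
    MvPolynomial.aeval (cd t Z) (mp c d j) = mv c d Z j := by
  fin_cases j <;> simp [mp, mv, cd]

lemma lin_deg (c d : ℚ) : (MvPolynomial.C c * MvPolynomial.X 1 + MvPolynomial.C d * MvPolynomial.X 0 :
    MvPolynomial (Fin 4) ℚ).totalDegree ≤ 1 := by
  refine (MvPolynomial.totalDegree_add _ _).trans (max_le ?_ ?_) <;>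
  · refine (MvPolynomial.totalDegree_mul _ _).trans ?_
    rw [MvPolynomial.totalDegree_C, MvPolynomial.totalDegree_X]

lemma np_deg (a b c d : ℤ) (j : Fin 3) : (np a b c d j).totalDegree ≤ 6 := by
  fin_cases j
  · exact (lin_deg _ _).trans (by norm_num)
  · show (-MvPolynomial.X 3 * (MvPolynomial.C (c : ℚ) * MvPolynomial.X 1 + MvPolynomial.C (d : ℚ) * MvPolynomial.X 0) ^ 2 :
      MvPolynomial (Fin 4) ℚ).totalDegree ≤ 6
    refine (MvPolynomial.totalDegree_mul _ _).trans ?_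
    rw [MvPolynomial.totalDegree_neg, MvPolynomial.totalDegree_X]
    have := (MvPolynomial.totalDegree_pow (MvPolynomial.C (c : ℚ) * MvPolynomial.X 1 +
      MvPolynomial.C (d : ℚ) * MvPolynomial.X 0 : MvPolynomial (Fin 4) ℚ) 2).trans (Nat.mul_le_mul_left 2 (lin_deg _ _))
    omega
  · show (MvPolynomial.X 3 * (MvPolynomial.C (c : ℚ) * MvPolynomial.X 1 + MvPolynomial.C (d : ℚ) * MvPolynomial.X 0) ^ 3 *
        ((MvPolynomial.C (c : ℚ) * MvPolynomial.X 1 + MvPolynomial.C (d : ℚ) * MvPolynomial.X 0) *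
          (MvPolynomial.X 0 - MvPolynomial.C 2 * MvPolynomial.X 2) - MvPolynomial.C (2 * c : ℚ) * MvPolynomial.X 0) :
      MvPolynomial (Fin 4) ℚ).totalDegree ≤ 6
    refine (MvPolynomial.totalDegree_mul _ _).trans ?_
    have h1 : (MvPolynomial.X 3 * (MvPolynomial.C (c : ℚ) * MvPolynomial.X 1 + MvPolynomial.C (d : ℚ) * MvPolynomial.X 0) ^ 3 :
        MvPolynomial (Fin 4) ℚ).totalDegree ≤ 4 := by
      refine (MvPolynomial.totalDegree_mul _ _).trans ?_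
      rw [MvPolynomial.totalDegree_X]
      have := (MvPolynomial.totalDegree_pow (MvPolynomial.C (c : ℚ) * MvPolynomial.X 1 +
        MvPolynomial.C (d : ℚ) * MvPolynomial.X 0 : MvPolynomial (Fin 4) ℚ) 3).trans (Nat.mul_le_mul_left 3 (lin_deg _ _))
      omega
    have h2 : (MvPolynomial.X 0 - MvPolynomial.C 2 * MvPolynomial.X 2 : MvPolynomial (Fin 4) ℚ).totalDegree ≤ 1 := by
      refine (MvPolynomial.totalDegree_sub _ _).trans (max_le ?_ ?_)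
      · rw [MvPolynomial.totalDegree_X]
      · refine (MvPolynomial.totalDegree_mul _ _).trans ?_
        rw [MvPolynomial.totalDegree_C, MvPolynomial.totalDegree_X]
    have h3 : ((MvPolynomial.C (c : ℚ) * MvPolynomial.X 1 + MvPolynomial.C (d : ℚ) * MvPolynomial.X 0) *
          (MvPolynomial.X 0 - MvPolynomial.C 2 * MvPolynomial.X 2) - MvPolynomial.C (2 * c : ℚ) * MvPolynomial.X 0 :
      MvPolynomial (Fin 4) ℚ).totalDegree ≤ 2 := by
      refine (MvPolynomial.totalDegree_sub _ _).trans (max_le ?_ ?_)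
      · refine (MvPolynomial.totalDegree_mul _ _).trans ?_
        have := lin_deg (c : ℚ) (d : ℚ)
        omega
      · refine (MvPolynomial.totalDegree_mul _ _).trans ?_
        rw [MvPolynomial.totalDegree_C, MvPolynomial.totalDegree_X]
        norm_num
    omega

lemma mp_deg (c d : ℤ) (j : Fin 3) : (mp c d j).totalDegree ≤ 6 := by
  fin_cases j
  · exact (lin_deg _ _).trans (by norm_num)
  · show (MvPolynomial.X 0 : MvPolynomial (Fin 4) ℚ).totalDegree ≤ 6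
    rw [MvPolynomial.totalDegree_X]
    norm_num
  · show (MvPolynomial.X 0 ^ 3 : MvPolynomial (Fin 4) ℚ).totalDegree ≤ 6
    rw [MvPolynomial.totalDegree_X_pow]
    norm_num

/-- the numbers `z`, `j'`, `j''` of all points above `t` -/
def YC (t : ℂ) : Set (Fin 3 → ℂ) := {y | ∃ z : UpperHalfPlane, jj z = t ∧ y = jt z}

/-- all points above `t` are equivalent -/
theorem fibreC : ∃ B : ℕ, ∀ t : ℂ, (B : ℝ) ≤ ‖t‖ → ∃ Z : Fin 3 → ℂ, ∀ z : UpperHalfPlane, jj z = t →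
    ∃ γ : Matrix.SpecialLinearGroup (Fin 2) ℤ, (∀ j, mv (γ 1 0) (γ 1 1) Z j ≠ 0) ∧
      ∀ j, jt z j = nv t (γ 0 0) (γ 0 1) (γ 1 0) (γ 1 1) Z j / mv (γ 1 0) (γ 1 1) Z j := by
  classical
  obtain ⟨Y, hY1, hY⟩ := hanc
  obtain ⟨B₀, hB₀⟩ := t_fdc Y
  obtain ⟨B, hB⟩ := exists_nat_ge B₀
  refine ⟨B, fun t ht => ?_⟩
  by_cases hex : ∃ z : UpperHalfPlane, jj z = t
  swap
  · exact ⟨0, fun z hz => absurd ⟨z, hz⟩ hex⟩
  obtain ⟨z₀, hz₀⟩ := hex
  obtain ⟨γ₀, v₀, hv₀, -, hjv₀⟩ := hB₀ z₀ (by rw [hz₀]; exact hB.trans ht)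
  rw [hz₀] at hjv₀
  obtain ⟨h1, h2, h3, h4, h5, h6⟩ := hY v₀ hv₀
  rw [hjv₀] at h1 h6
  set D1 : ℂ := deriv jj v₀ with hD1
  set D2 : ℂ := deriv (deriv jj) v₀ with hD2
  set Z0 : ℂ := -D1 / t with hZ0
  have hZ0n : Z0 ≠ 0 := div_ne_zero (neg_ne_zero.2 h2) h1
  refine ⟨![Z0, v₀ * Z0, (Z0 ^ 2 - D2 / t) / (2 * Z0)], fun z hz => ?_⟩
  obtain ⟨γ, v, hv, hzv, hjv⟩ := hB₀ z (by rw [hz]; exact hB.trans ht)
  rw [hz] at hjv
  obtain ⟨-, -, -, -, -, k6⟩ := hY v hv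
  rw [hjv] at k6
  obtain ⟨n, hn⟩ := Complex.exp_eq_exp_iff_exists_int.1 (h6.trans k6.symm)
  have hvn : (v₀ : ℂ) = v + n := by
    have h7 : tpi * (v₀ : ℂ) = tpi * (v + n) := by
      have h8 : tpi = 2 * Real.pi * Complex.I := rfl
      rw [h8] at hn ⊢
      linear_combination hn
    exact mul_left_cancel₀ Pool.Agent.Y120.K.tpi_ne h7
  have hvT : v = (ModularGroup.T ^ (-n)) • v₀ := by
    apply UpperHalfPlane.ext
    rw [ModularGroup.coe_T_zpow_smul_eq, hvn]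
    push_cast
    ring
  refine ⟨γ * ModularGroup.T ^ (-n), ?_⟩
  have hz' : z = (γ * ModularGroup.T ^ (-n)) • v₀ := by
    rw [mul_smul, ← hvT]
    exact hzv
  refine ptsC (w := v₀) ?_ ?_ ?_ ?_ (γ * ModularGroup.T ^ (-n)) hz'
  · exact hZ0n
  · rfl
  · show D1 = -t * Z0
    rw [hZ0]
    field_simp
  · show D2 = t * (Z0 ^ 2 - 2 * Z0 * ((Z0 ^ 2 - D2 / t) / (2 * Z0)))
    field_simp
    ring

open Classical in
/-- the chosen coordinates -/
noncomputable def ZC (t : ℂ) : Fin 3 → ℂ :=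
  if h : ∃ Z : Fin 3 → ℂ, ∀ z : UpperHalfPlane, jj z = t →
    ∃ γ : Matrix.SpecialLinearGroup (Fin 2) ℤ, (∀ j, mv (γ 1 0) (γ 1 1) Z j ≠ 0) ∧
      ∀ j, jt z j = nv t (γ 0 0) (γ 0 1) (γ 1 0) (γ 1 1) Z j / mv (γ 1 0) (γ 1 1) Z j then h.choose else 0

theorem hUYC (δ : ℕ) : ∃ T : ℕ, ∀ t : ℂ, (T : ℝ) ≤ ‖t‖ → ∀ y ∈ YC t, ∃ m : ℂ, m ≠ 0 ∧
    ∀ e : Fin 3 → Fin (δ + 1), m * ∏ a, y a ^ (e a : ℕ) ∈ ratSp (Fintype.card (Fin 3) * (δ * 6)) (cd t (ZC t)) := by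
  obtain ⟨B, hB⟩ := fibreC
  refine ⟨B, fun t ht y hy => ?_⟩
  have h := hB t ht
  obtain ⟨z, hz, rfl⟩ := hy
  have h1 : ZC t = h.choose := dif_pos h
  obtain ⟨γ, h2, h3⟩ := h.choose_spec z hz
  rw [← h1] at h2 h3
  refine frac_rat (n := np (γ 0 0) (γ 0 1) (γ 1 0) (γ 1 1)) (m := mp (γ 1 0) (γ 1 1)) (fun j => np_deg _ _ _ _ _)
    (fun j => mp_deg _ _ _) (fun j => ?_) fun j => ?_
  · rw [mp_eval]
    exact h2 j
  · rw [mp_eval, np_eval]
    exact h3 j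

/-- The sets `T j` are disjoint; `T j` contains the points `ξ - G, ξ - 2 G, …, ξ - H G` for some `ξ ∈ Ξ j` and some `H`, up
to a proportion of at most `1 / (j + 1)`, it has at least `j` elements and they have absolute value at least `j`. -/
def FullG (G : ℕ) (Ξ : ℕ → Set ℂ) (T : ℕ → Finset ℂ) : Prop :=
  (∀ i j, i ≠ j → Disjoint (T i) (T j)) ∧ ∀ j : ℕ, ∃ ξ ∈ Ξ j, ∃ H : ℕ,
    (∀ t ∈ T j, (j : ℝ) ≤ ‖t‖ ∧ ∃ g : ℕ, 1 ≤ g ∧ g ≤ H ∧ t = ξ - ((G * g : ℕ) : ℂ)) ∧ j ≤ (T j).card ∧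
      (j + 1) * (H - (T j).card) ≤ H

/-- **Main theorem for algebraic invariants.** -/
theorem algmod : ∃ G0 : ℕ, 1 ≤ G0 ∧ ∀ G : ℕ, G0 ≤ G → ∀ {m A : ℕ → ℕ} {Ξ : ℕ → Set ℂ},
    (∀ j N : ℕ, ∃ ξ ∈ Ξ j, (N : ℝ) ≤ ‖ξ‖ ∧ HtC (m j) (A j) ξ) →
    ∀ {V : ℕ → Submodule ℚ ℂ}, (∀ j, Module.Finite ℚ (V j)) → Monotone V → ∀ {δ : ℕ → ℕ}, Monotone δ →
    ∃ T : ℕ → Finset ℂ, FullG G Ξ T ∧
      ∀ y : ℂ → Fin 3 → ℂ, (∀ j, ∀ t ∈ T j, y t ∈ YC t) →
      ∀ (l : ℕ) (K : IntermediateField ℚ ℂ), FiniteDimensional ℚ K → Module.finrank ℚ K ≤ δ l →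
      ∀ P : MvPolynomial (ℂ × Fin 3) ℂ, P ≠ 0 → (∀ v ∈ P.vars, ∃ j ≥ l, v.1 ∈ T j) →
        (∀ v, P.degreeOf v ≤ δ l) → (∀ s, P.coeff s ∈ Submodule.span K (V l : Set ℂ)) →
        MvPolynomial.eval (fun v => y v.1 v.2) P ≠ 0 := by
  classical
  obtain ⟨G0, hG0, hW⟩ := winJ hvcj hirr
  refine ⟨G0, hG0, fun G hG m A Ξ hΞ V hVf hV δ hδ => ?_⟩
  have hGpos : 1 ≤ G := hG0.trans hG
  have hinj : ∀ ξ : ℂ, Function.Injective fun g : ℕ => ξ - ((G * g : ℕ) : ℂ) := fun ξ g g' h => by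
    have h1 : ((G * g : ℕ) : ℂ) = ((G * g' : ℕ) : ℂ) := by
      have h0 : ξ - ((G * g : ℕ) : ℂ) = ξ - ((G * g' : ℕ) : ℂ) := h
      linear_combination -h0
    have h2 : G * g = G * g' := by exact_mod_cast h1
    exact Nat.eq_of_mul_eq_mul_left hGpos h2
  obtain ⟨B, T, h1, h2, h3⟩ := universalG (ι := ℂ) (α := Fin 3) (fun t => ‖t‖) YC
    (fun δ t => ratSp (Fintype.card (Fin 3) * (δ * 6)) (cd t (ZC t))) (fun _ _ => ratSp_fin _ _) (fun _ _ => ratSp_one _ _)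
    (fun δ => (Fintype.card (Fin 3) * (δ * 6) + 1) ^ Fintype.card (Fin 4)) (fun _ _ => ratSp_rank _ _) hUYC
    2 (fun j B => ∃ ξ ∈ Ξ j, B = (Finset.Icc 1 B.card).image fun g : ℕ => ξ - ((G * g : ℕ) : ℂ)) (δ := δ)
    (by
      intro j q k N H hH
      obtain ⟨E, hE⟩ := hW G hG q k (m j) (δ j) (1 + k * (Fintype.card (Fin 3) * δ j)) (A j)
      obtain ⟨ξ, hξ, hξN, hξh⟩ := hΞ j ((H + 2) ^ E + N + G * H)
      push_cast at hξN
      have hcard : ((Finset.Icc 1 H).image fun g : ℕ => ξ - ((G * g : ℕ) : ℂ)).card = H := by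
        rw [Finset.card_image_of_injective _ (hinj ξ), Nat.card_Icc]
        omega
      refine ⟨(Finset.Icc 1 H).image fun g : ℕ => ξ - ((G * g : ℕ) : ℂ), hcard, ⟨ξ, hξ, by rw [hcard]⟩, fun t ht => ?_,
        fun W hW hWq => ?_⟩
      · obtain ⟨g, hg, rfl⟩ := Finset.mem_image.1 ht
        have h5 : ((G * g : ℕ) : ℝ) ≤ G * H := by
          exact_mod_cast Nat.mul_le_mul_left G (Finset.mem_Icc.1 hg).2
        have h6 := norm_sub_norm_le ξ ((G * g : ℕ) : ℂ)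
        rw [Complex.norm_natCast] at h6
        have h7 : (0 : ℝ) ≤ ((H : ℝ) + 2) ^ E := by positivity
        linarith
      · obtain ⟨w, hw⟩ := exists_span hW hWq
        have h7 : (0 : ℝ) ≤ (N : ℝ) := Nat.cast_nonneg _
        have h8 : (0 : ℝ) ≤ (G : ℝ) * (H : ℝ) := by positivity
        obtain ⟨S, hS1, hS2⟩ := hE H ξ (by linarith) hξh w
        refine ⟨S.image fun g : ℕ => ξ - ((G * g : ℕ) : ℂ), Finset.card_image_le.trans hS1, fun n hn hnB K hK hKD y hy => ?_⟩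
        have h11 : ∀ κ, ∃ g : ℕ, 1 ≤ g ∧ g ≤ H ∧ g ∉ S ∧ n κ = ξ - ((G * g : ℕ) : ℂ) := by
          intro κ
          obtain ⟨g, hg, hge⟩ := Finset.mem_image.1 (hnB κ).1
          obtain ⟨hg1, hg2⟩ := Finset.mem_Icc.1 hg
          refine ⟨g, hg1, hg2, fun hgS => (hnB κ).2 ?_, hge.symm⟩
          rw [← hge]
          exact Finset.mem_image_of_mem _ hgS
        choose g hg1 hg2 hg3 hg4 using h11
        have hginj : Function.Injective g := by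
          intro κ κ' h
          apply hn
          rw [hg4, hg4, h]
        choose z hz hyz using hy
        have hy' : y = fun κ => jt (z κ) := funext hyz
        subst hy'
        refine not_rel w (wo w) (fun m => rfl) hw K _ le_rfl fun P hP hP0 u => ?_
        exact hS2 g hginj (fun κ => ⟨hg1 κ, hg2 κ, hg3 κ⟩) z (fun κ => (hz κ).trans (hg4 κ)) K hK hKD P hP hP0 u)
    hVf hV hδ
  refine ⟨T, ⟨h2, fun j => ?_⟩, h3⟩
  obtain ⟨⟨ξ, hξ, hB⟩, h4, h5, h6, h7⟩ := h1 j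
  refine ⟨ξ, hξ, (B j).card, fun t ht => ⟨h4 t (h5 ht), ?_⟩, h6, h7⟩
  have h8 := h5 ht
  rw [hB] at h8
  obtain ⟨g, hg, hge⟩ := Finset.mem_image.1 h8
  exact ⟨g, (Finset.mem_Icc.1 hg).1, (Finset.mem_Icc.1 hg).2, hge.symm⟩

end Pool.Agent.U534.Tens
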