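import Pool.Agent.U534.PredSeq
import Pool.Agent.U534.AlgMod
import Pool.Agent.U534.CountInt

/-!
# Algebraic invariants: every sequence outside of predictable exceptional sets
-/

set_option autoImplicit false
set_option linter.unusedSectionVars false

open Pool.Agent.TH21.MS (jj)
open Pool.Agent.Y120.J Pool.Agent.Y120.K Pool.Agent.Y120.A

namespace Pool.Agent.U534.Tens

/-- at most `C j` of the numbers `ξ - G, ξ - 2 G, …, ξ - H G` belong to the set `E j τ` -/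
def SparseC (G : ℕ) (m A C : ℕ → ℕ) (E : ∀ j, (Fin j → ℂ) → Set ℂ) : Prop :=
  ∀ (j : ℕ) (τ : Fin j → ℂ) (ξ : ℂ) (H : ℕ), HtC (m j) (A j) ξ → ((H : ℝ) + 2) ^ C j ≤ ‖ξ‖ →
    {g : ℕ | 1 ≤ g ∧ g ≤ H ∧ ξ - ((G * g : ℕ) : ℂ) ∈ E j τ}.ncard ≤ C j

/-- the envelope spaces -/
noncomputable def UC (δ : ℕ → ℕ) (j : ℕ) (t : ℂ) : Submodule ℚ ℂ :=
  ratSp (Fintype.card (Fin 3) * (δ j * 6)) (cd t (ZC t))

theorem algebraic_pred : ∃ G0 : ℕ, 1 ≤ G0 ∧ ∀ G : ℕ, G0 ≤ G → ∀ (m A : ℕ → ℕ) {δ : ℕ → ℕ}, Monotone δ → ∀ ρ : ℕ → ℕ,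
    ∃ C : ℕ → ℕ, ∀ V : ℕ → Submodule ℚ ℂ,
    (∀ j, Module.Finite ℚ (V j)) → Monotone V → (∀ j, Module.finrank ℚ (V j) ≤ ρ j) →
    ∃ E : ∀ j, (Fin j → ℂ) → Set ℂ, SparseC G m A C E ∧ ∀ (t : ℕ → ℂ) (j₀ : ℕ), (∀ j, j₀ ≤ j → t j ∉ E j fun a => t a) →
      ∀ y : ℕ → Fin 3 → ℂ, (∀ j, j₀ ≤ j → y j ∈ YC (t j)) → ∀ l : ℕ, j₀ ≤ l →
      ∀ K : IntermediateField ℚ ℂ, FiniteDimensional ℚ K → Module.finrank ℚ K ≤ δ l →
      ∀ P : MvPolynomial (ℕ × Fin 3) ℂ, P ≠ 0 → (∀ v ∈ P.vars, l ≤ v.1) → (∀ v, P.degreeOf v ≤ δ l) →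
        (∀ s, P.coeff s ∈ Submodule.span K (V l : Set ℂ)) → MvPolynomial.eval (fun v => y v.1 v.2) P ≠ 0 := by
  classical
  obtain ⟨G0, hG0, hW⟩ := winJ hvcj hirr
  refine ⟨G0, hG0, fun G hG m A δ hδ ρ => ?_⟩
  choose T hT using fun j => hUYC (δ j)
  set u : ℕ → ℕ := fun i => (Fintype.card (Fin 3) * (δ i * 6) + 1) ^ Fintype.card (Fin 4) with hu
  set q : ℕ → ℕ := fun j => ρ j * ∏ i ∈ Finset.range j, u i with hq
  choose E₀ hE₀ using fun j => hW G hG (q j) 1 (m j) (δ j) (1 + 1 * (Fintype.card (Fin 3) * δ j)) (A j)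
  refine ⟨fun j => E₀ j + (q j + 2) + T j + G, fun V hVf hV hVρ => ?_⟩
  set U : ℕ → ℂ → Submodule ℚ ℂ := UC δ with hU
  have hUf : ∀ j s, Module.Finite ℚ (U j s) := fun j s => ratSp_fin _ _
  have hU1 : ∀ j s, (1 : ℂ) ∈ U j s := fun j s => ratSp_one _ _
  refine ⟨fun j τ => {x | ‖x‖ < (T j : ℝ)} ∪ {x | BadT YC U V δ j (extd τ) x}, ?_, ?_⟩
  · intro j τ ξ H hξ hH'
    have hH : ((H : ℝ) + 2) ^ (E₀ j + (q j + 2) + T j + G) ≤ ‖ξ‖ := hH'
    set Cj := E₀ j + (q j + 2) + T j + G with hCj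
    have hbig : ∀ a b : ℕ, a + b ≤ Cj → 1 ≤ b → ((H : ℝ) + 2) ^ a * ((H : ℝ) + 2) ≤ ‖ξ‖ := by
      intro a b hab hb
      have h2 : (1 : ℝ) ≤ (H : ℝ) + 2 := by
        have := Nat.cast_nonneg (α := ℝ) H
        linarith
      calc ((H : ℝ) + 2) ^ a * ((H : ℝ) + 2) = ((H : ℝ) + 2) ^ (a + 1) := (pow_succ _ _).symm
        _ ≤ ((H : ℝ) + 2) ^ Cj := pow_le_pow_right₀ h2 (by omega)
        _ ≤ ‖ξ‖ := hH
    have hp1 : ((H : ℝ) + 2) ^ E₀ j ≤ ‖ξ‖ := by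
      refine le_trans ?_ hH
      refine pow_le_pow_right₀ ?_ (by omega)
      have := Nat.cast_nonneg (α := ℝ) H
      linarith
    have hp2 : ∀ g : ℕ, g ≤ H → (T j : ℝ) ≤ ‖ξ - ((G * g : ℕ) : ℂ)‖ := by
      intro g hg
      have h1 := hbig (T j + G) 1 (by omega) le_rfl
      have h2 : ((T j + G : ℕ) : ℝ) ≤ ((H : ℝ) + 2) ^ (T j + G) := by
        have h3 : ((T j + G : ℕ) : ℝ) ≤ (2 : ℝ) ^ (T j + G) := by exact_mod_cast (Nat.lt_two_pow_self (n := T j + G)).le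
        refine h3.trans (pow_le_pow_left₀ (by norm_num) ?_ _)
        have := Nat.cast_nonneg (α := ℝ) H
        linarith
      have h3 : ((T j + G : ℕ) : ℝ) * ((H : ℝ) + 2) ≤ ‖ξ‖ :=
        (mul_le_mul_of_nonneg_right h2 (by positivity)).trans h1
      have h4 := norm_sub_norm_le ξ ((G * g : ℕ) : ℂ)
      rw [Complex.norm_natCast] at h4
      have h5 : ((G * g : ℕ) : ℝ) ≤ G * H := by exact_mod_cast Nat.mul_le_mul_left G hg
      have h6 : (0 : ℝ) ≤ (T j : ℝ) * H := by positivity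
      have h7 : (0 : ℝ) ≤ (T j : ℝ) := Nat.cast_nonneg _
      have h8 : (0 : ℝ) ≤ (G : ℝ) := Nat.cast_nonneg _
      push_cast at h3
      nlinarith
    have hPf := PU_fin (t := extd τ) hUf j
    have hVj := hVf j
    have hWf := (Pool.Agent.Y113.finrank_mul_le (V j) (PU U (extd τ) j)).1
    have hWr : Module.finrank ℚ (V j * PU U (extd τ) j : Submodule ℚ ℂ) ≤ q j :=
      ((Pool.Agent.Y113.finrank_mul_le (V j) (PU U (extd τ) j)).2).trans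
        (Nat.mul_le_mul (hVρ j) (finrank_PU hUf (u := u) (fun i s => ratSp_rank _ _) j))
    obtain ⟨w, hw⟩ := exists_span hWf hWr
    obtain ⟨S, hS1, hS2⟩ := hE₀ j H ξ hp1 hξ w
    have hsub : {g : ℕ | 1 ≤ g ∧ g ≤ H ∧ ξ - ((G * g : ℕ) : ℂ) ∈
        {x | ‖x‖ < (T j : ℝ)} ∪ {x | BadT YC U V δ j (extd τ) x}} ⊆ (S : Set ℕ) := by
      rintro g ⟨hg1, hg2, hgE⟩
      rcases hgE with hgE | hgE
      · exact absurd (hp2 g hg2) (not_le.2 hgE)
      · by_contra hgS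
        obtain ⟨K, hK, hKD, y, hy, hr⟩ := hgE
        obtain ⟨z, hz, rfl⟩ := hy
        refine not_rel w (wo w) (fun m => rfl) hw K _ le_rfl (fun P hP hP0 u => ?_) hr
        exact hS2 (fun _ : Fin 1 => g) (fun a b _ => Subsingleton.elim a b) (fun _ => ⟨hg1, hg2, fun h => hgS (Finset.mem_coe.2 h)⟩)
          (fun _ => z) (fun _ => hz) K hK hKD P hP hP0 u
    calc {g : ℕ | 1 ≤ g ∧ g ≤ H ∧ ξ - ((G * g : ℕ) : ℂ) ∈
        {x | ‖x‖ < (T j : ℝ)} ∪ {x | BadT YC U V δ j (extd τ) x}}.ncard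
        ≤ (S : Set ℕ).ncard := Set.ncard_le_ncard hsub (Finset.finite_toSet _)
      _ = S.card := Set.ncard_coe_finset _
      _ ≤ q j + 2 := hS1
      _ ≤ Cj := by omega
  · intro t j₀ ht y hy l hl K hK hKD P hP hPv hPd hPc
    refine pred_seq YC (U := U) hU1 hV hδ t j₀ (fun j hj => ?_) (fun j hj hbad => ?_) y hy l hl K hK hKD P hP hPv hPd hPc
    · have h1 : ¬ ‖t j‖ < (T j : ℝ) := fun h => ht j hj (Or.inl h)
      exact hT j (t j) (not_lt.1 h1)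
    · refine ht j hj (Or.inr ?_)
      obtain ⟨K, hK, hKD, y, hy, hr⟩ := hbad
      refine ⟨K, hK, hKD, y, hy, ?_⟩
      rwa [PU_congr (extd_eq t j)]

/-- **Countable sets of constants**, from the theorem for given degrees and spaces. -/
theorem algebraic_count {G : ℕ} {m A : ℕ → ℕ}
    (h : ∀ {δ : ℕ → ℕ}, Monotone δ → ∀ ρ : ℕ → ℕ,
    ∃ C : ℕ → ℕ, ∀ V : ℕ → Submodule ℚ ℂ,
    (∀ j, Module.Finite ℚ (V j)) → Monotone V → (∀ j, Module.finrank ℚ (V j) ≤ ρ j) →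
    ∃ E : ∀ j, (Fin j → ℂ) → Set ℂ, SparseC G m A C E ∧ ∀ (t : ℕ → ℂ) (j₀ : ℕ), (∀ j, j₀ ≤ j → t j ∉ E j fun a => t a) →
      ∀ y : ℕ → Fin 3 → ℂ, (∀ j, j₀ ≤ j → y j ∈ YC (t j)) → ∀ l : ℕ, j₀ ≤ l →
      ∀ K : IntermediateField ℚ ℂ, FiniteDimensional ℚ K → Module.finrank ℚ K ≤ δ l →
      ∀ P : MvPolynomial (ℕ × Fin 3) ℂ, P ≠ 0 → (∀ v ∈ P.vars, l ≤ v.1) → (∀ v, P.degreeOf v ≤ δ l) →
        (∀ s, P.coeff s ∈ Submodule.span K (V l : Set ℂ)) → MvPolynomial.eval (fun v => y v.1 v.2) P ≠ 0)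
    (F : Set ℂ) (hF : F.Countable) : ∃ (C : ℕ → ℕ) (E : ∀ j, (Fin j → ℂ) → Set ℂ), SparseC G m A C E ∧
    ∀ (n : ℕ) (P : MvPolynomial (Fin n × Fin 3) ℂ), P ≠ 0 → (∀ s, P.coeff s ∈ F) → ∃ l : ℕ, ∀ (t : ℕ → ℂ) (j₀ : ℕ),
      (∀ j, j₀ ≤ j → t j ∉ E j fun a => t a) → ∀ y : ℕ → Fin 3 → ℂ, (∀ j, j₀ ≤ j → y j ∈ YC (t j)) →
      ∀ s : Fin n → ℕ, Function.Injective s → (∀ i, j₀ ≤ s i ∧ l ≤ s i) →
        MvPolynomial.eval (fun v => y (s v.1) v.2) P ≠ 0 := by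
  classical
  obtain ⟨V, hVf, hV, hVF⟩ := exhaust F hF
  obtain ⟨C, hC⟩ := h (δ := fun j => j + 1) (fun a b hab => Nat.succ_le_succ hab) (fun j => Module.finrank ℚ (V j))
  obtain ⟨E, hE, hmain⟩ := hC V hVf hV (fun _ => le_rfl)
  refine ⟨C, E, hE, fun n P hP hPc => ?_⟩
  obtain ⟨j₁, hj₁⟩ := hVF (Submodule.span ℚ (P.support.image fun s => P.coeff s : Finset ℂ)) (by
    rw [Submodule.span_le]
    intro z hz
    obtain ⟨s, -, rfl⟩ := Finset.mem_image.1 (Finset.mem_coe.1 hz)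
    exact Submodule.subset_span (hPc s)) (Module.Finite.span_of_finite ℚ (Finset.finite_toSet _))
  refine ⟨max j₁ P.totalDegree, fun t j₀ ht y hy s hs hsl => ?_⟩
  set l := max j₀ (max j₁ P.totalDegree) with hl
  set f : Fin n × Fin 3 → ℕ × Fin 3 := fun v => (s v.1, v.2) with hf
  have hfinj : Function.Injective f := by
    intro v w hvw
    have h1 : s v.1 = s w.1 := (Prod.ext_iff.1 hvw).1
    have h2 : v.2 = w.2 := (Prod.ext_iff.1 hvw).2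
    exact Prod.ext (hs h1) h2
  have h1 := hmain t j₀ ht y hy l (le_max_left _ _) ⊥ inferInstance (by
    rw [IntermediateField.finrank_bot]
    omega) (MvPolynomial.rename f P) (fun h0 => hP (MvPolynomial.rename_injective f hfinj (by rw [h0, map_zero])))
    (fun v hv => by
      obtain ⟨w, -, hw⟩ := Finset.mem_image.1 (MvPolynomial.vars_rename f P hv)
      rw [← hw]
      exact max_le (hsl w.1).1 (hsl w.1).2)
    (fun v => by
      have h2 := (MvPolynomial.degreeOf_le_totalDegree (MvPolynomial.rename f P) v).trans (MvPolynomial.totalDegree_rename_le f P)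
      have h3 : P.totalDegree ≤ l := (le_max_right _ _).trans (le_max_right _ _)
      show _ ≤ l + 1
      omega)
    (fun s => by
      by_cases hs : ∃ u : Fin n × Fin 3 →₀ ℕ, u.mapDomain f = s
      · obtain ⟨u, rfl⟩ := hs
        rw [MvPolynomial.coeff_rename_mapDomain f hfinj]
        by_cases hu : P.coeff u = 0
        · rw [hu]
          exact Submodule.zero_mem _
        · refine Submodule.subset_span (hV ((le_max_left j₁ _).trans (le_max_right _ _)) (hj₁ (Submodule.subset_span ?_)))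
          exact Finset.mem_coe.2 (Finset.mem_image_of_mem _ (MvPolynomial.mem_support_iff.2 hu))
      · push Not at hs
        rw [MvPolynomial.coeff_rename_eq_zero f P s fun u hu => absurd hu (hs u)]
        exact Submodule.zero_mem _)
  rw [MvPolynomial.eval_rename] at h1
  exact h1

end Pool.Agent.U534.Tens
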