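import Pool.Agent.Y123.GN.E8
import Pool.Agent.U907.GP.Num

/-!
# Closures of torsors over a number field

The `K`-Zariski closure of a set which is stable under the automorphisms over `K` and closed under `x y⁻¹ z`.
-/

set_option autoImplicit false
set_option linter.unusedSectionVars false

open Matrix Module

namespace Pool.Agent.U534.Big

open Pool.Agent.TH127.PT Pool.Agent.U907.GP

section

variable {ι : Type} [Fintype ι] [DecidableEq ι]

/-- functions of the form polynomial / power of the determinant -/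
def Rg (f : Matrix ι ι ℂ → ℂ) : Prop :=
  ∃ (N : ℕ) (q : MvPolynomial (ι × ι) ℂ), ∀ x : Matrix ι ι ℂ, IsUnit x →
    MvPolynomial.eval (fun b : ι × ι => x b.1 b.2) q = x.det ^ N * f x

theorem Rg.const (c : ℂ) : Rg (fun _ : Matrix ι ι ℂ => c) :=
  ⟨0, MvPolynomial.C c, fun x _ => by rw [MvPolynomial.eval_C, pow_zero, one_mul]⟩

theorem eval_det (x : Matrix ι ι ℂ) :
    MvPolynomial.eval (fun b : ι × ι => x b.1 b.2) (Matrix.mvPolynomialX ι ι ℂ).det = x.det := by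
  rw [RingHom.map_det]
  congr 1
  ext i j
  simp [Matrix.mvPolynomialX]

theorem Rg.add {f g : Matrix ι ι ℂ → ℂ} (hf : Rg f) (hg : Rg g) : Rg fun x => f x + g x := by
  obtain ⟨N, q, h1⟩ := hf
  obtain ⟨N', q', h2⟩ := hg
  refine ⟨N + N', (Matrix.mvPolynomialX ι ι ℂ).det ^ N' * q + (Matrix.mvPolynomialX ι ι ℂ).det ^ N * q', fun x hx => ?_⟩
  rw [map_add, map_mul, map_mul, map_pow, map_pow, eval_det, h1 x hx, h2 x hx]
  ring

theorem Rg.mul {f g : Matrix ι ι ℂ → ℂ} (hf : Rg f) (hg : Rg g) : Rg fun x => f x * g x := by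
  obtain ⟨N, q, h1⟩ := hf
  obtain ⟨N', q', h2⟩ := hg
  refine ⟨N + N', q * q', fun x hx => ?_⟩
  rw [map_mul, h1 x hx, h2 x hx]
  ring

theorem Rg.sum {α : Type*} (s : Finset α) {f : α → Matrix ι ι ℂ → ℂ} (hf : ∀ a ∈ s, Rg (f a)) :
    Rg fun x => ∑ a ∈ s, f a x := by
  classical
  induction s using Finset.induction_on with
  | empty =>
    simp only [Finset.sum_empty]
    exact Rg.const 0
  | insert a s ha ih =>
    simp only [Finset.sum_insert ha]
    exact (hf a (Finset.mem_insert_self _ _)).add (ih fun b hb => hf b (Finset.mem_insert_of_mem hb))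

theorem Rg.entry (a b : ι) : Rg (fun x : Matrix ι ι ℂ => x a b) :=
  ⟨0, MvPolynomial.X (a, b), fun x _ => by rw [MvPolynomial.eval_X, pow_zero, one_mul]⟩

theorem Rg.inv_entry (a b : ι) : Rg (fun x : Matrix ι ι ℂ => x⁻¹ a b) := by
  refine ⟨1, (Matrix.mvPolynomialX ι ι ℂ).adjugate a b, fun x hx => ?_⟩
  have h1 : ((MvPolynomial.eval (fun b : ι × ι => x b.1 b.2)).mapMatrix (Matrix.mvPolynomialX ι ι ℂ).adjugate) =
      x.adjugate := by
    rw [RingHom.map_adjugate]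
    congr 1
    ext i j
    simp [Matrix.mvPolynomialX]
  have h2 := congrFun (congrFun h1 a) b
  rw [RingHom.mapMatrix_apply, Matrix.map_apply] at h2
  rw [h2]
  show _ = x.det ^ 1 * x⁻¹ a b
  rw [Matrix.inv_def, Matrix.smul_apply, smul_eq_mul, Ring.inverse_eq_inv, pow_one, mul_inv_cancel_left₀]
  exact ((Matrix.isUnit_iff_isUnit_det x).1 hx).ne_zero

theorem Rg.poly {κ : Type*} {f : κ → Matrix ι ι ℂ → ℂ} (hf : ∀ v, Rg (f v)) (p : MvPolynomial κ ℂ) :
    Rg fun x => MvPolynomial.eval (fun v => f v x) p := by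
  induction p using MvPolynomial.induction_on with
  | C a =>
    simp only [MvPolynomial.eval_C]
    exact Rg.const a
  | add p q hp hq =>
    simp only [map_add]
    exact hp.add hq
  | mul_X p v hp =>
    simp only [map_mul, MvPolynomial.eval_X]
    exact hp.mul (hf v)

/-- matrices of such functions -/
def RgM {α β : Type} (F : Matrix ι ι ℂ → Matrix α β ℂ) : Prop := ∀ a b, Rg fun x => F x a b

theorem RgM.const {α β : Type} (c : Matrix α β ℂ) : RgM (fun _ : Matrix ι ι ℂ => c) := fun a b => Rg.const (c a b)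

theorem RgM.id : RgM (fun x : Matrix ι ι ℂ => x) := fun a b => Rg.entry a b

theorem RgM.inv : RgM (fun x : Matrix ι ι ℂ => x⁻¹) := fun a b => Rg.inv_entry a b

theorem RgM.mul {α β γ : Type} [Fintype β] {F : Matrix ι ι ℂ → Matrix α β ℂ} {G : Matrix ι ι ℂ → Matrix β γ ℂ}
    (hF : RgM F) (hG : RgM G) : RgM fun x => F x * G x := by
  intro a b
  simp only [Matrix.mul_apply]
  exact Rg.sum _ fun c _ => (hF a c).mul (hG c b)

theorem RgM.blocks {α β : Type} {F : Matrix ι ι ℂ → Matrix α α ℂ} (hF : RgM F) (c : Matrix β β ℂ) :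
    RgM fun x => fromBlocks (F x) 0 0 c := by
  rintro (a | a) (b | b)
  · exact hF a b
  · exact Rg.const 0
  · exact Rg.const 0
  · exact Rg.const (c a b)

theorem RgM.poly {α β : Type} {F : Matrix ι ι ℂ → Matrix α β ℂ} (hF : RgM F) (p : MvPolynomial (α × β) ℂ) :
    Rg fun x => MvPolynomial.eval (fun b : α × β => F x b.1 b.2) p :=
  Rg.poly (fun v : α × β => hF v.1 v.2) p

/-- the closure over `K` -/
def Cl (K : Subfield ℂ) (S : Set (Matrix ι ι ℂ)) : Set (Matrix ι ι ℂ) :=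
  {x | IsUnit x ∧ ∀ p : MvPolynomial (ι × ι) ℂ, (∀ m, p.coeff m ∈ K) →
    (∀ s ∈ S, MvPolynomial.eval (fun b : ι × ι => s b.1 b.2) p = 0) → MvPolynomial.eval (fun b : ι × ι => x b.1 b.2) p = 0}

variable {K : Subfield ℂ} {S : Set (Matrix ι ι ℂ)}

/-- stable under the automorphisms over `K` -/
def Au (K : Subfield ℂ) (S : Set (Matrix ι ι ℂ)) : Prop := ∀ σ : ℂ ≃+* ℂ, Fx K σ → ∀ s ∈ S, s.map σ ∈ S

theorem cl_poly (hK : Countable K) (hS : Au K S) {q : MvPolynomial (ι × ι) ℂ}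
    (hq : ∀ s ∈ S, MvPolynomial.eval (fun b : ι × ι => s b.1 b.2) q = 0) {x : Matrix ι ι ℂ} (hx : x ∈ Cl K S) :
    MvPolynomial.eval (fun b : ι × ι => x b.1 b.2) q = 0 := by
  have h1 := descent (k := K) (V := (fun s : Matrix ι ι ℂ => fun b : ι × ι => s b.1 b.2) '' S)
    (fun a ha => mem_of_fixed_QB K ha) (by
      rintro σ hσ _ ⟨s, hs, rfl⟩
      exact ⟨s.map σ, hS σ hσ s hs, rfl⟩) q (by
      rintro _ ⟨s, hs, rfl⟩
      exact hq s hs)
  clear hq
  induction h1 using Submodule.span_induction with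
  | mem G hG =>
    obtain ⟨p, hp, rfl⟩ := hG
    refine hx.2 _ (fun m => ?_) fun s hs => ?_
    · rw [MvPolynomial.coeff_map]
      exact (p.coeff m).2
    · rw [aeval_coe]
      exact hp _ ⟨s, hs, rfl⟩
  | zero => exact map_zero _
  | add a b _ _ ha hb => rw [map_add, ha, hb, add_zero]
  | smul c a _ ha => rw [MvPolynomial.smul_eval, ha, mul_zero]

/-- **the closure principle** -/
theorem cl_rg (hK : Countable K) (hS : Au K S) (hu : ∀ s ∈ S, IsUnit s) {f : Matrix ι ι ℂ → ℂ} (hf : Rg f)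
    (h0 : ∀ s ∈ S, f s = 0) {x : Matrix ι ι ℂ} (hx : x ∈ Cl K S) : f x = 0 := by
  obtain ⟨N, q, h1⟩ := hf
  have h2 := cl_poly hK hS (q := q) (fun s hs => by rw [h1 s (hu s hs), h0 s hs, mul_zero]) hx
  rw [h1 x hx.1] at h2
  exact (mul_eq_zero.1 h2).resolve_left (pow_ne_zero _ ((Matrix.isUnit_iff_isUnit_det x).1 hx.1).ne_zero)

theorem subset_cl (hu : ∀ s ∈ S, IsUnit s) : S ⊆ Cl K S := fun s hs => ⟨hu s hs, fun _ _ h => h s hs⟩

theorem unit_mul3 {x y z : Matrix ι ι ℂ} (hx : IsUnit x) (hy : IsUnit y) (hz : IsUnit z) : IsUnit (x * y⁻¹ * z) :=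
  (hx.mul ((Matrix.isUnit_nonsing_inv_iff).2 hy)).mul hz

/-- membership in the closure through regular functions -/
theorem cl_mem_of (hK : Countable K) (hS : Au K S) (hu : ∀ s ∈ S, IsUnit s) {F : Matrix ι ι ℂ → Matrix ι ι ℂ}
    (hF : RgM F) (hFu : ∀ x, IsUnit x → IsUnit (F x)) (h0 : ∀ s ∈ S, F s ∈ Cl K S) {x : Matrix ι ι ℂ}
    (hx : x ∈ Cl K S) : F x ∈ Cl K S :=
  ⟨hFu x hx.1, fun p hp hpS => cl_rg hK hS hu (hF.poly p) (fun s hs => (h0 s hs).2 p hp hpS) hx⟩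

theorem cl_sub (hK : Countable K) (hS : Au K S) (hu : ∀ s ∈ S, IsUnit s)
    (ht : ∀ x ∈ S, ∀ y ∈ S, ∀ z ∈ S, x * y⁻¹ * z ∈ S) : IsSubtorsor K (Cl K S) := by
  have h1 : ∀ x ∈ Cl K S, ∀ y ∈ S, ∀ z ∈ S, x * y⁻¹ * z ∈ Cl K S := by
    intro x hx y hy z hz
    exact cl_mem_of hK hS hu (F := fun x => x * y⁻¹ * z) ((RgM.id.mul (RgM.const _)).mul (RgM.const _))
      (fun x hx => unit_mul3 hx (hu y hy) (hu z hz)) (fun s hs => subset_cl hu (ht s hs y hy z hz)) hx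
  have h2 : ∀ x ∈ Cl K S, ∀ y ∈ S, ∀ z ∈ Cl K S, x * y⁻¹ * z ∈ Cl K S := by
    intro x hx y hy z hz
    exact cl_mem_of hK hS hu (F := fun z => x * y⁻¹ * z) ((RgM.const _).mul RgM.id)
      (fun z hz => unit_mul3 hx.1 (hu y hy) hz) (fun s hs => h1 x hx y hy s hs) hz
  refine ⟨fun x hx => hx.1, fun x hx y hy z hz => ?_, ?_⟩
  · exact cl_mem_of hK hS hu (F := fun y => x * y⁻¹ * z) (((RgM.const _).mul RgM.inv).mul (RgM.const _))
      (fun y hy => unit_mul3 hx.1 hy hz.1) (fun s hs => h2 x hx s hs z hz) hy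
  · exact ⟨{p | (∀ m, p.coeff m ∈ K) ∧ ∀ s ∈ S, MvPolynomial.eval (fun b : ι × ι => s b.1 b.2) p = 0},
      fun p hp => hp.1, fun x => ⟨fun hx => ⟨hx.1, fun p hp => hx.2 p hp.1 hp.2⟩,
        fun hx => ⟨hx.1, fun p hp hpS => hx.2 p ⟨hp, hpS⟩⟩⟩⟩

end

end Pool.Agent.U534.Big
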