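import Pool.Agent.U534.BigA

/-!
# A block with a big group splits off
-/

set_option autoImplicit false
set_option linter.unusedSectionVars false

open Matrix Module

namespace Pool.Agent.U534.Big

open Pool.Agent.TH127.PT Pool.Agent.U907.GP Pool.Agent.Y123.GN Pool.Agent.Y123.ST
open scoped commutatorElement

section

variable {B F : Type} [Fintype B] [DecidableEq B] [Fintype F] [DecidableEq F]

/-- block matrices -/
def E (a : Matrix B B ℂ) (A : Matrix F F ℂ) : Matrix (B ⊕ F) (B ⊕ F) ℂ := fromBlocks a 0 0 A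

theorem E_mul (a b : Matrix B B ℂ) (A C : Matrix F F ℂ) : E a A * E b C = E (a * b) (A * C) := by
  unfold E
  rw [fromBlocks_multiply]
  simp

theorem E_one : E (1 : Matrix B B ℂ) (1 : Matrix F F ℂ) = 1 := by
  unfold E
  exact fromBlocks_one

theorem E_unit {a : Matrix B B ℂ} {A : Matrix F F ℂ} : IsUnit (E a A) ↔ IsUnit a ∧ IsUnit A := by
  rw [Matrix.isUnit_iff_isUnit_det, Matrix.isUnit_iff_isUnit_det, Matrix.isUnit_iff_isUnit_det, E,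
    Matrix.det_fromBlocks_zero₂₁, IsUnit.mul_iff]

theorem E_inv {a : Matrix B B ℂ} {A : Matrix F F ℂ} (ha : IsUnit a) (hA : IsUnit A) : (E a A)⁻¹ = E a⁻¹ A⁻¹ := by
  refine Matrix.inv_eq_right_inv ?_
  rw [E_mul, Matrix.mul_nonsing_inv _ ((Matrix.isUnit_iff_isUnit_det a).1 ha),
    Matrix.mul_nonsing_inv _ ((Matrix.isUnit_iff_isUnit_det A).1 hA), E_one]

theorem E_map (σ : ℂ ≃+* ℂ) (a : Matrix B B ℂ) (A : Matrix F F ℂ) : (E a A).map σ = E (a.map σ) (A.map σ) := by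
  unfold E
  rw [fromBlocks_map]
  congr 1
  · ext i j
    exact map_zero σ
  · ext i j
    exact map_zero σ

/-- the embeddings of units -/
def Eu (a : (Matrix B B ℂ)ˣ) (A : (Matrix F F ℂ)ˣ) : (Matrix (B ⊕ F) (B ⊕ F) ℂ)ˣ where
  val := E (a : Matrix B B ℂ) (A : Matrix F F ℂ)
  inv := E ((a⁻¹ : (Matrix B B ℂ)ˣ) : Matrix B B ℂ) ((A⁻¹ : (Matrix F F ℂ)ˣ) : Matrix F F ℂ)
  val_inv := by rw [E_mul, Units.mul_inv, Units.mul_inv, E_one]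
  inv_val := by rw [E_mul, Units.inv_mul, Units.inv_mul, E_one]

theorem Eu_val (a : (Matrix B B ℂ)ˣ) (A : (Matrix F F ℂ)ˣ) :
    ((Eu a A : (Matrix (B ⊕ F) (B ⊕ F) ℂ)ˣ) : Matrix (B ⊕ F) (B ⊕ F) ℂ) = E (a : Matrix B B ℂ) (A : Matrix F F ℂ) := rfl

theorem Eu_mul (a b : (Matrix B B ℂ)ˣ) (A C : (Matrix F F ℂ)ˣ) : Eu a A * Eu b C = Eu (a * b) (A * C) :=
  Units.ext (by rw [Units.val_mul, Eu_val, Eu_val, Eu_val, E_mul, Units.val_mul, Units.val_mul])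

theorem Eu_inv (a : (Matrix B B ℂ)ˣ) (A : (Matrix F F ℂ)ˣ) : (Eu a A)⁻¹ = Eu a⁻¹ A⁻¹ := rfl

variable {K : Subfield ℂ}

/-- elements of the torsor give elements of the stabiliser -/
theorem sbl_of {N : Type} [Fintype N] [DecidableEq N] {T : Set (Matrix N N ℂ)} (hT : IsSubtorsor K T)
    {x y : (Matrix N N ℂ)ˣ} (hx : (x : Matrix N N ℂ) ∈ T) (hy : (y : Matrix N N ℂ) ∈ T) : x * y⁻¹ ∈ Sbl T := by
  intro z hz
  have h1 := hT.torsor _ hx _ hy _ hz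
  rw [← Matrix.coe_units_inv] at h1
  rw [Units.val_mul]
  exact h1

/-- similitudes -/
def Sim (B' : Matrix F F ℂ) (A : Matrix F F ℂ) : Prop := ∃ l : ℂ, l ≠ 0 ∧ A * B' * Aᵀ = l • B'

theorem Sim.mul {B' A C : Matrix F F ℂ} (hA : Sim B' A) (hC : Sim B' C) : Sim B' (A * C) := by
  obtain ⟨l, hl, h1⟩ := hA
  obtain ⟨m, hm, h2⟩ := hC
  refine ⟨l * m, mul_ne_zero hl hm, ?_⟩
  calc A * C * B' * (A * C)ᵀ = A * (C * B' * Cᵀ) * Aᵀ := by rw [transpose_mul]; simp only [Matrix.mul_assoc]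
    _ = m • (A * B' * Aᵀ) := by rw [h2, Matrix.mul_smul, Matrix.smul_mul]
    _ = (l * m) • B' := by rw [h1, smul_smul, mul_comm]

/-- commutators of similitudes are in the special group -/
theorem comm_GB {B' : Matrix F F ℂ} {a b : (Matrix F F ℂ)ˣ} (ha : Sim B' (a : Matrix F F ℂ))
    (hb : Sim B' (b : Matrix F F ℂ)) : ⁅a, b⁆ ∈ GB B' := by
  have hinv : ∀ (c : (Matrix F F ℂ)ˣ) (l : ℂ), l ≠ 0 → (c : Matrix F F ℂ) * B' * (c : Matrix F F ℂ)ᵀ = l • B' →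
      ((c⁻¹ : (Matrix F F ℂ)ˣ) : Matrix F F ℂ) * B' * ((c⁻¹ : (Matrix F F ℂ)ˣ) : Matrix F F ℂ)ᵀ = l⁻¹ • B' := by
    intro c l hl h
    have h1 : B' = l⁻¹ • ((c : Matrix F F ℂ) * B' * (c : Matrix F F ℂ)ᵀ) := by
      rw [h, smul_smul, inv_mul_cancel₀ hl, one_smul]
    have h2 : (c : Matrix F F ℂ)ᵀ * ((c⁻¹ : (Matrix F F ℂ)ˣ) : Matrix F F ℂ)ᵀ = 1 := by
      rw [← transpose_mul, Units.inv_mul, transpose_one]
    conv_lhs => rw [h1]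
    rw [Matrix.mul_smul, Matrix.smul_mul]
    congr 1
    calc ((c⁻¹ : (Matrix F F ℂ)ˣ) : Matrix F F ℂ) * ((c : Matrix F F ℂ) * B' * (c : Matrix F F ℂ)ᵀ) *
          ((c⁻¹ : (Matrix F F ℂ)ˣ) : Matrix F F ℂ)ᵀ =
        (((c⁻¹ : (Matrix F F ℂ)ˣ) : Matrix F F ℂ) * (c : Matrix F F ℂ)) * B' * ((c : Matrix F F ℂ)ᵀ *
          ((c⁻¹ : (Matrix F F ℂ)ˣ) : Matrix F F ℂ)ᵀ) := by simp only [Matrix.mul_assoc]
      _ = B' := by rw [Units.inv_mul, h2, Matrix.one_mul, Matrix.mul_one]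
  obtain ⟨l, hl, h1⟩ := ha
  obtain ⟨m, hm, h2⟩ := hb
  have h3 := hinv a l hl h1
  have h4 := hinv b m hm h2
  refine ⟨?_, ?_⟩
  · rw [commutatorElement_def, Units.val_mul, Units.val_mul, Units.val_mul, det_mul, det_mul, det_mul]
    have h5 : (a : Matrix F F ℂ).det * ((a⁻¹ : (Matrix F F ℂ)ˣ) : Matrix F F ℂ).det = 1 := by
      rw [← det_mul, Units.mul_inv, det_one]
    have h6 : (b : Matrix F F ℂ).det * ((b⁻¹ : (Matrix F F ℂ)ˣ) : Matrix F F ℂ).det = 1 := by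
      rw [← det_mul, Units.mul_inv, det_one]
    linear_combination ((b : Matrix F F ℂ).det * ((b⁻¹ : (Matrix F F ℂ)ˣ) : Matrix F F ℂ).det) * h5 + h6
  · rw [commutatorElement_def, Units.val_mul, Units.val_mul, Units.val_mul, transpose_mul, transpose_mul, transpose_mul]
    set A := (a : Matrix F F ℂ)
    set A' := ((a⁻¹ : (Matrix F F ℂ)ˣ) : Matrix F F ℂ)
    set C := (b : Matrix F F ℂ)
    set C' := ((b⁻¹ : (Matrix F F ℂ)ˣ) : Matrix F F ℂ)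
    calc A * C * A' * C' * B' * (C'ᵀ * (A'ᵀ * (Cᵀ * Aᵀ))) = A * (C * (A' * (C' * B' * C'ᵀ) * A'ᵀ) * Cᵀ) * Aᵀ := by
          simp only [Matrix.mul_assoc]
      _ = B' := by
          rw [h4, Matrix.mul_smul, Matrix.smul_mul, h3, smul_smul, Matrix.mul_smul, Matrix.smul_mul, h2, smul_smul,
            Matrix.mul_smul, Matrix.smul_mul, h1, smul_smul]
          have : m⁻¹ * l⁻¹ * m * l = 1 := by field_simp
          rw [this, one_smul]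

/-- **A block with a big group splits off.** -/
theorem goursat (hK : Countable K) {T : Set (Matrix (B ⊕ F) (B ⊕ F) ℂ)} (hT : IsSubtorsor K T)
    {c' : Matrix B B ℂ} {c : Matrix F F ℂ} (hc : E c' c ∈ T) {Q B' : Matrix F F ℂ} (hQ : ∀ a b, Q a b ∈ K)
    (hB : ∀ a b, B' a b ∈ K) {μ : ℂ} (hμ : μ ≠ 0) (hcQ : c * Q * cᵀ = μ • B')
    (hst : ∀ g ∈ GB B', ∀ x ∈ T, E (1 : Matrix B B ℂ) (g : Matrix F F ℂ) * x ∈ T) {G : Subgroup (Matrix B B ℂ)ˣ}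
    (hG : G ≤ ⁅G, G⁆)
    (hIH : ∀ T₁ : Set (Matrix B B ℂ), IsSubtorsor K T₁ → c' ∈ T₁ → ∀ g ∈ G, ∀ x ∈ T₁, (g : Matrix B B ℂ) * x ∈ T₁) :
    ∀ g ∈ G, ∀ x ∈ T, E (g : Matrix B B ℂ) (1 : Matrix F F ℂ) * x ∈ T := by
  classical
  -- the projection
  set S : Set (Matrix B B ℂ) := {x | ∃ Y : Matrix F F ℂ, E x Y ∈ T ∧ ∃ ν : ℂ, ν ≠ 0 ∧ Y * Q * Yᵀ = ν • B'} with hS
  have hu : ∀ s ∈ S, IsUnit s := fun s ⟨Y, hY, _⟩ => (E_unit.1 (hT.isUnit _ hY)).1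
  have hfix : ∀ σ : ℂ ≃+* ℂ, Fx K σ → ∀ M : Matrix F F ℂ, (∀ a b, M a b ∈ K) → M.map σ = M := by
    intro σ hσ M hM
    ext a b
    exact hσ _ (hM a b)
  have hAu : Au K S := by
    rintro σ hσ s ⟨Y, hY, ν, hν, h1⟩
    refine ⟨Y.map σ, ?_, σ ν, (map_ne_zero_iff σ σ.injective).2 hν, ?_⟩
    · rw [← E_map]
      exact aut_mem hT (σ := σ) hσ hY
    · have h2 := congrArg (fun M : Matrix F F ℂ => M.map (σ : ℂ →+* ℂ)) h1
      simp only [Matrix.map_mul] at h2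
      have h3 : (Yᵀ).map (σ : ℂ →+* ℂ) = (Y.map σ)ᵀ := rfl
      have h4 : (ν • B').map (σ : ℂ →+* ℂ) = σ ν • B' := by
        ext a b
        show σ (ν * B' a b) = σ ν * B' a b
        rw [map_mul, hσ _ (hB a b)]
      rw [h3, h4] at h2
      have h5 : Q.map (σ : ℂ →+* ℂ) = Q := hfix σ hσ Q hQ
      rw [h5] at h2
      exact h2
  have hinvQ : ∀ (Y : Matrix F F ℂ) (ν : ℂ), IsUnit Y → ν ≠ 0 → Y * Q * Yᵀ = ν • B' →
      Y⁻¹ * B' * (Y⁻¹)ᵀ = ν⁻¹ • Q := by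
    intro Y ν hY hν h
    have h1 : Y⁻¹ * Y = 1 := Matrix.nonsing_inv_mul _ ((Matrix.isUnit_iff_isUnit_det Y).1 hY)
    have h2 : B' = ν⁻¹ • (Y * Q * Yᵀ) := by rw [h, smul_smul, inv_mul_cancel₀ hν, one_smul]
    have h3 : Yᵀ * (Y⁻¹)ᵀ = 1 := by rw [← transpose_mul, h1, transpose_one]
    rw [h2, Matrix.mul_smul, Matrix.smul_mul]
    congr 1
    calc Y⁻¹ * (Y * Q * Yᵀ) * (Y⁻¹)ᵀ = (Y⁻¹ * Y) * Q * (Yᵀ * (Y⁻¹)ᵀ) := by simp only [Matrix.mul_assoc]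
      _ = Q := by rw [h1, h3, Matrix.one_mul, Matrix.mul_one]
  have hSt : ∀ x ∈ S, ∀ y ∈ S, ∀ z ∈ S, x * y⁻¹ * z ∈ S := by
    rintro x ⟨X, hX, ν, hν, h1⟩ y ⟨Y, hY, ν', hν', h2⟩ z ⟨Z, hZ, ν'', hν'', h3⟩
    obtain ⟨hy, hYu⟩ := E_unit.1 (hT.isUnit _ hY)
    refine ⟨X * Y⁻¹ * Z, ?_, ν * ν'⁻¹ * ν'', mul_ne_zero (mul_ne_zero hν (inv_ne_zero hν')) hν'', ?_⟩
    · have h4 := hT.torsor _ hX _ hY _ hZ
      rwa [E_inv hy hYu, E_mul, E_mul] at h4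
    · calc X * Y⁻¹ * Z * Q * (X * Y⁻¹ * Z)ᵀ = X * (Y⁻¹ * (Z * Q * Zᵀ) * (Y⁻¹)ᵀ) * Xᵀ := by
            rw [transpose_mul, transpose_mul]
            simp only [Matrix.mul_assoc]
        _ = _ := by
            rw [h3, Matrix.mul_smul, Matrix.smul_mul, hinvQ Y ν' hYu hν' h2, smul_smul, Matrix.mul_smul, Matrix.smul_mul,
              h1, smul_smul]
            congr 1
            ring
  have hcS : c' ∈ S := ⟨c, hc, μ, hμ, hcQ⟩
  obtain ⟨hcu', hcu⟩ := E_unit.1 (hT.isUnit _ hc)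
  have hT₁ := cl_sub (K := K) hK hAu hu hSt
  have hst' := hIH _ hT₁ (subset_cl hu hcS)
  -- commutators of elements of `S`
  have hcomm0 : ∀ x ∈ S, ∀ y ∈ S, ∀ t ∈ T,
      E ((x * c'⁻¹) * (y * c'⁻¹) * (c' * x⁻¹) * (c' * y⁻¹)) (1 : Matrix F F ℂ) * t ∈ T := by
    rintro x ⟨X, hX, ν, hν, h1⟩ y ⟨Y, hY, ν', hν', h2⟩ t ht
    obtain ⟨hx, hXu⟩ := E_unit.1 (hT.isUnit _ hX)
    obtain ⟨hy, hYu⟩ := E_unit.1 (hT.isUnit _ hY)
    -- units
    let a : (Matrix B B ℂ)ˣ := hx.unit * hcu'.unit⁻¹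
    let b : (Matrix B B ℂ)ˣ := hy.unit * hcu'.unit⁻¹
    let A : (Matrix F F ℂ)ˣ := hXu.unit * hcu.unit⁻¹
    let C : (Matrix F F ℂ)ˣ := hYu.unit * hcu.unit⁻¹
    have hsim : ∀ (Z : Matrix F F ℂ) (ν : ℂ), ν ≠ 0 → Z * Q * Zᵀ = ν • B' → Sim B' (Z * c⁻¹) := by
      intro Z ν hν h
      refine ⟨μ⁻¹ * ν, mul_ne_zero (inv_ne_zero hμ) hν, ?_⟩
      calc Z * c⁻¹ * B' * (Z * c⁻¹)ᵀ = Z * (c⁻¹ * B' * (c⁻¹)ᵀ) * Zᵀ := by
            rw [transpose_mul]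
            simp only [Matrix.mul_assoc]
        _ = _ := by rw [hinvQ c μ hcu hμ hcQ, Matrix.mul_smul, Matrix.smul_mul, h, smul_smul]
    have hAv : (A : Matrix F F ℂ) = X * c⁻¹ := by
      show ((hXu.unit * hcu.unit⁻¹ : (Matrix F F ℂ)ˣ) : Matrix F F ℂ) = _
      rw [Units.val_mul, Matrix.coe_units_inv, IsUnit.unit_spec, IsUnit.unit_spec]
    have hCv : (C : Matrix F F ℂ) = Y * c⁻¹ := by
      show ((hYu.unit * hcu.unit⁻¹ : (Matrix F F ℂ)ˣ) : Matrix F F ℂ) = _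
      rw [Units.val_mul, Matrix.coe_units_inv, IsUnit.unit_spec, IsUnit.unit_spec]
    have hGB : ⁅A, C⁆ ∈ GB B' := by
      refine comm_GB ?_ ?_
      · rw [hAv]
        exact hsim X ν hν h1
      · rw [hCv]
        exact hsim Y ν' hν' h2
    have e1 : Eu a A ∈ Sbl T := by
      have h5 := sbl_of hT (x := Eu hx.unit hXu.unit) (y := Eu hcu'.unit hcu.unit) (by
        rw [Eu_val, IsUnit.unit_spec, IsUnit.unit_spec]
        exact hX) (by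
        rw [Eu_val, IsUnit.unit_spec, IsUnit.unit_spec]
        exact hc)
      rwa [Eu_inv, Eu_mul] at h5
    have e2 : Eu b C ∈ Sbl T := by
      have h5 := sbl_of hT (x := Eu hy.unit hYu.unit) (y := Eu hcu'.unit hcu.unit) (by
        rw [Eu_val, IsUnit.unit_spec, IsUnit.unit_spec]
        exact hY) (by
        rw [Eu_val, IsUnit.unit_spec, IsUnit.unit_spec]
        exact hc)
      rwa [Eu_inv, Eu_mul] at h5
    have e3 : Eu ⁅a, b⁆ ⁅A, C⁆ ∈ Sbl T := by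
      have h5 := Sbl_mul (Sbl_mul (Sbl_mul e1 e2) (Sbl_inv hT e1)) (Sbl_inv hT e2)
      rw [Eu_inv, Eu_inv, Eu_mul, Eu_mul, Eu_mul] at h5
      exact h5
    have e4 : Eu (1 : (Matrix B B ℂ)ˣ) ⁅A, C⁆⁻¹ ∈ Sbl T := fun z hz => hst _ ((GB B').inv_mem hGB) z hz
    have e5 : Eu ⁅a, b⁆ (1 : (Matrix F F ℂ)ˣ) ∈ Sbl T := by
      have h5 := Sbl_mul e3 e4
      rwa [Eu_mul, mul_one, mul_inv_cancel] at h5
    have h6 := e5 t ht
    have h7 : ((⁅a, b⁆ : (Matrix B B ℂ)ˣ) : Matrix B B ℂ) =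
        (x * c'⁻¹) * (y * c'⁻¹) * (c' * x⁻¹) * (c' * y⁻¹) := by
      rw [commutatorElement_def, Units.val_mul, Units.val_mul, Units.val_mul]
      have e6 : (a : Matrix B B ℂ) = x * c'⁻¹ := by
        show ((hx.unit * hcu'.unit⁻¹ : (Matrix B B ℂ)ˣ) : Matrix B B ℂ) = _
        rw [Units.val_mul, Matrix.coe_units_inv, IsUnit.unit_spec, IsUnit.unit_spec]
      have e7 : (b : Matrix B B ℂ) = y * c'⁻¹ := by
        show ((hy.unit * hcu'.unit⁻¹ : (Matrix B B ℂ)ˣ) : Matrix B B ℂ) = _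
        rw [Units.val_mul, Matrix.coe_units_inv, IsUnit.unit_spec, IsUnit.unit_spec]
      have e8 : ((a⁻¹ : (Matrix B B ℂ)ˣ) : Matrix B B ℂ) = c' * x⁻¹ := by
        show (((hx.unit * hcu'.unit⁻¹)⁻¹ : (Matrix B B ℂ)ˣ) : Matrix B B ℂ) = _
        rw [_root_.mul_inv_rev, inv_inv, Units.val_mul, Matrix.coe_units_inv, IsUnit.unit_spec, IsUnit.unit_spec]
      have e9 : ((b⁻¹ : (Matrix B B ℂ)ˣ) : Matrix B B ℂ) = c' * y⁻¹ := by
        show (((hy.unit * hcu'.unit⁻¹)⁻¹ : (Matrix B B ℂ)ˣ) : Matrix B B ℂ) = _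
        rw [_root_.mul_inv_rev, inv_inv, Units.val_mul, Matrix.coe_units_inv, IsUnit.unit_spec, IsUnit.unit_spec]
      rw [e6, e7, e8, e9]
    rw [Eu_val, h7, Units.val_one] at h6
    exact h6
  -- extension to the closure
  obtain ⟨I, hI1, hI2⟩ := hT.algebraic
  have hext : ∀ x ∈ Cl K S, ∀ y ∈ Cl K S, ∀ t ∈ T,
      E ((x * c'⁻¹) * (y * c'⁻¹) * (c' * x⁻¹) * (c' * y⁻¹)) (1 : Matrix F F ℂ) * t ∈ T := by
    have hunit : ∀ x y : Matrix B B ℂ, IsUnit x → IsUnit y → ∀ t ∈ T,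
        IsUnit (E ((x * c'⁻¹) * (y * c'⁻¹) * (c' * x⁻¹) * (c' * y⁻¹)) (1 : Matrix F F ℂ) * t) := by
      intro x y hx hy t ht
      have hci : IsUnit c'⁻¹ := (Matrix.isUnit_nonsing_inv_iff).2 hcu'
      refine (E_unit.2 ⟨(((hx.mul hci).mul (hy.mul hci)).mul
        (hcu'.mul ((Matrix.isUnit_nonsing_inv_iff).2 hx))).mul (hcu'.mul ((Matrix.isUnit_nonsing_inv_iff).2 hy)),
        isUnit_one⟩).mul (hT.isUnit _ ht)
    have h1 : ∀ x ∈ Cl K S, ∀ y ∈ S, ∀ t ∈ T,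
        E ((x * c'⁻¹) * (y * c'⁻¹) * (c' * x⁻¹) * (c' * y⁻¹)) (1 : Matrix F F ℂ) * t ∈ T := by
      intro x hx y hy t ht
      rw [hI2]
      refine ⟨hunit x y hx.1 (hu y hy) t ht, fun p hp => ?_⟩
      refine cl_rg hK hAu hu (f := fun x => MvPolynomial.eval (fun b : (B ⊕ F) × (B ⊕ F) =>
        (E ((x * c'⁻¹) * (y * c'⁻¹) * (c' * x⁻¹) * (c' * y⁻¹)) (1 : Matrix F F ℂ) * t) b.1 b.2) p) ?_ ?_ hx
      · refine RgM.poly (F := fun x : Matrix B B ℂ =>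
          E ((x * c'⁻¹) * (y * c'⁻¹) * (c' * x⁻¹) * (c' * y⁻¹)) (1 : Matrix F F ℂ) * t) ?_ p
        refine RgM.mul (RgM.blocks ?_ _) (RgM.const t)
        exact (((RgM.id.mul (RgM.const _)).mul (RgM.const _)).mul ((RgM.const _).mul RgM.inv)).mul (RgM.const _)
      · intro s hs
        exact ((hI2 _).1 (hcomm0 s hs y hy t ht)).2 p hp
    intro x hx y hy t ht
    rw [hI2]
    refine ⟨hunit x y hx.1 hy.1 t ht, fun p hp => ?_⟩
    refine cl_rg hK hAu hu (f := fun y => MvPolynomial.eval (fun b : (B ⊕ F) × (B ⊕ F) =>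
      (E ((x * c'⁻¹) * (y * c'⁻¹) * (c' * x⁻¹) * (c' * y⁻¹)) (1 : Matrix F F ℂ) * t) b.1 b.2) p) ?_ ?_ hy
    · refine RgM.poly (F := fun y : Matrix B B ℂ =>
        E ((x * c'⁻¹) * (y * c'⁻¹) * (c' * x⁻¹) * (c' * y⁻¹)) (1 : Matrix F F ℂ) * t) ?_ p
      refine RgM.mul (RgM.blocks ?_ _) (RgM.const t)
      exact (((RgM.const _).mul (RgM.id.mul (RgM.const _))).mul (RgM.const _)).mul ((RgM.const _).mul RgM.inv)
    · intro s hs
      exact ((hI2 _).1 (h1 x hx s hs t ht)).2 p hp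
  -- conclusion
  let H : Subgroup (Matrix B B ℂ)ˣ :=
    { carrier := {g | Eu g (1 : (Matrix F F ℂ)ˣ) ∈ Sbl T}
      mul_mem' := by
        intro a b ha hb
        have h1 := Sbl_mul ha hb
        rwa [Eu_mul, mul_one] at h1
      one_mem' := by
        intro x hx
        rw [Eu_val, Units.val_one, Units.val_one, E_one, Matrix.one_mul]
        exact hx
      inv_mem' := by
        intro a ha
        have h1 := Sbl_inv hT ha
        rwa [Eu_inv, inv_one] at h1 }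
  have hGH : ⁅G, G⁆ ≤ H := by
    rw [Subgroup.commutator_le]
    intro a ha b hb
    show Eu ⁅a, b⁆ (1 : (Matrix F F ℂ)ˣ) ∈ Sbl T
    intro t ht
    have hac := hst' a ha _ (subset_cl hu hcS)
    have hbc := hst' b hb _ (subset_cl hu hcS)
    have h1 := hext _ hac _ hbc t ht
    have hcc : c' * c'⁻¹ = 1 := Matrix.mul_nonsing_inv _ ((Matrix.isUnit_iff_isUnit_det c').1 hcu')
    have h2 : ((⁅a, b⁆ : (Matrix B B ℂ)ˣ) : Matrix B B ℂ) = ((a : Matrix B B ℂ) * c' * c'⁻¹) *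
        ((b : Matrix B B ℂ) * c' * c'⁻¹) * (c' * ((a : Matrix B B ℂ) * c')⁻¹) * (c' * ((b : Matrix B B ℂ) * c')⁻¹) := by
      rw [commutatorElement_def, Units.val_mul, Units.val_mul, Units.val_mul, Matrix.mul_inv_rev, Matrix.mul_inv_rev,
        Matrix.mul_assoc (a : Matrix B B ℂ) c', Matrix.mul_assoc (b : Matrix B B ℂ) c', ← Matrix.mul_assoc c' c'⁻¹,
        ← Matrix.mul_assoc c' c'⁻¹, hcc, Matrix.mul_one, Matrix.mul_one, Matrix.one_mul, Matrix.one_mul,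
        Matrix.coe_units_inv, Matrix.coe_units_inv]
    rw [Eu_val, Units.val_one, h2]
    exact h1
  intro g hg x hx
  exact hGH (hG hg) x hx

end

end Pool.Agent.U534.Big
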