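import Pool.Agent.Y123.SR.R7

/-!
# Block matrices with blocks of different sizes, and adding one block

From a result on adding one block to a sum to results on finite sums.
-/

set_option autoImplicit false
set_option linter.unusedSectionVars false

open Matrix

namespace Pool.Agent.U534.Univ

open Pool.Agent.TH127.PT Pool.Agent.Y118.HP Pool.Agent.Y123.ST Pool.Agent.Y123.SR

/-- transport of subtorsors along a bijection of the index sets -/
theorem sub_reindex {K : Subfield ℂ} {B B' : Type} [Fintype B] [DecidableEq B] [Fintype B'] [DecidableEq B']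
    (e : B ≃ B') {T : Set (Matrix B' B' ℂ)} (hT : IsSubtorsor K T) :
    IsSubtorsor K {y : Matrix B B ℂ | Matrix.reindex e e y ∈ T} := by
  have hunit : ∀ y : Matrix B B ℂ, IsUnit (Matrix.reindex e e y) ↔ IsUnit y := by
    intro y
    rw [Matrix.isUnit_iff_isUnit_det, Matrix.isUnit_iff_isUnit_det, Matrix.det_reindex_self]
  obtain ⟨I, h1, h2⟩ := hT.algebraic
  refine ⟨fun y hy => (hunit y).1 (hT.isUnit _ hy), fun x hx y hy z hz => ?_, ?_⟩
  · have h3 := hT.torsor _ hx _ hy _ hz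
    have h4 : Matrix.reindex e e (x * y⁻¹ * z) =
        Matrix.reindex e e x * (Matrix.reindex e e y)⁻¹ * Matrix.reindex e e z := by
      rw [Matrix.inv_reindex]
      simp only [Matrix.reindex_apply]
      rw [← Matrix.submatrix_mul_equiv (x * y⁻¹) z e.symm e.symm e.symm,
        ← Matrix.submatrix_mul_equiv x y⁻¹ e.symm e.symm e.symm]
    show Matrix.reindex e e (x * y⁻¹ * z) ∈ T
    rw [h4]
    exact h3
  · refine ⟨(MvPolynomial.rename fun b : B' × B' => (e.symm b.1, e.symm b.2)) '' I, ?_, fun y => ?_⟩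
    · rintro _ ⟨p, hp, rfl⟩ m
      classical
      by_cases hm : (MvPolynomial.rename (fun b : B' × B' => (e.symm b.1, e.symm b.2)) p).coeff m = 0
      · rw [hm]
        exact K.zero_mem
      · obtain ⟨u, hu, hu2⟩ := MvPolynomial.coeff_rename_ne_zero _ _ _ hm
        have hinj : Function.Injective (fun b : B' × B' => (e.symm b.1, e.symm b.2)) := by
          rintro ⟨a, b⟩ ⟨c, d⟩ h
          simp only [Prod.mk.injEq, EmbeddingLike.apply_eq_iff_eq] at h
          exact Prod.ext h.1 h.2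
        rw [← hu, MvPolynomial.coeff_rename_mapDomain _ hinj]
        exact h1 p hp u
    · show Matrix.reindex e e y ∈ T ↔ _
      rw [h2, hunit]
      refine and_congr Iff.rfl ?_
      constructor
      · rintro h _ ⟨p, hp, rfl⟩
        rw [MvPolynomial.eval_rename]
        exact h p hp
      · intro h p hp
        have h3 := h _ ⟨p, hp, rfl⟩
        rw [MvPolynomial.eval_rename] at h3
        exact h3

/-- the index set -/
abbrev JX (B₀ : Type) {k : ℕ} (n : Fin k → ℕ) : Type := B₀ ⊕ (Σ i : Fin k, Fin (n i))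

section
variable {B₀ : Type} [Fintype B₀] [DecidableEq B₀]

/-- block matrices -/
noncomputable def ES {k : ℕ} {n : Fin k → ℕ} (x : Matrix B₀ B₀ ℂ) (X : ∀ i, Matrix (Fin (n i)) (Fin (n i)) ℂ) :
    Matrix (JX B₀ n) (JX B₀ n) ℂ :=
  fromBlocks x 0 0 (blockDiagonal' X)

theorem ES_inj {k : ℕ} {n : Fin k → ℕ} {x y : Matrix B₀ B₀ ℂ} {X Y : ∀ i, Matrix (Fin (n i)) (Fin (n i)) ℂ}
    (h : ES x X = ES y Y) : x = y ∧ X = Y := by
  unfold ES at h
  rw [fromBlocks_inj] at h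
  exact ⟨h.1, blockDiagonal'_injective h.2.2.2⟩

/-- `X` respects the forms `Q` with the multiplier `μ` -/
def Rs {k : ℕ} {n : Fin k → ℕ} (Q X : ∀ i, Matrix (Fin (n i)) (Fin (n i)) ℂ) (μ : ℂ) : Prop :=
  μ ≠ 0 ∧ ∀ i, X i * Q i * (X i)ᵀ = μ • jm ℂ (n i)

/-- the fibre product -/
def FS {k : ℕ} {n : Fin k → ℕ} (Q : ∀ i, Matrix (Fin (n i)) (Fin (n i)) ℂ) (b₀ : B₀) (S : Set (Matrix B₀ B₀ ℂ)) :
    Set (Matrix (JX B₀ n) (JX B₀ n) ℂ) :=
  {y | ∃ (x : Matrix B₀ B₀ ℂ) (X : ∀ i, Matrix (Fin (n i)) (Fin (n i)) ℂ), x ∈ S ∧ Cm b₀ x ∧ Rs Q X (x b₀ b₀) ∧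
    y = ES x X}

/-- the projection -/
def PS {k : ℕ} {n : Fin k → ℕ} (T : Set (Matrix (JX B₀ n) (JX B₀ n) ℂ)) : Set (Matrix B₀ B₀ ℂ) :=
  {x | ∃ X, ES x X ∈ T}

/-- the bijection of the index sets -/
def eqv (B₀ : Type) {k : ℕ} (n : Fin (k + 1) → ℕ) :
    I2 (JX B₀ (fun i : Fin k => n i.castSucc)) (n (Fin.last k)) 1 ≃ JX B₀ n where
  toFun := Sum.elim (Sum.elim Sum.inl fun q => Sum.inr ⟨q.1.castSucc, q.2⟩) fun q => Sum.inr ⟨Fin.last k, q.1⟩
  invFun := Sum.elim (fun b => Sum.inl (Sum.inl b)) fun q => Fin.lastCases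
    (motive := fun i => Fin (n i) → I2 (JX B₀ (fun i : Fin k => n i.castSucc)) (n (Fin.last k)) 1)
    (fun a => Sum.inr (a, 0)) (fun i a => Sum.inl (Sum.inr ⟨i, a⟩)) q.1 q.2
  left_inv := by
    rintro ((b | ⟨i, a⟩) | ⟨a, j⟩)
    · rfl
    · simp
    · have : j = 0 := Subsingleton.elim _ _
      subst this
      simp
  right_inv := by
    rintro (b | ⟨i, a⟩)
    · rfl
    · induction i using Fin.lastCases with
      | last => simp
      | cast i => simp

theorem eqv_ES {k : ℕ} {n : Fin (k + 1) → ℕ} (x : Matrix B₀ B₀ ℂ) (X : ∀ i, Matrix (Fin (n i)) (Fin (n i)) ℂ) :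
    Matrix.reindex (eqv B₀ n) (eqv B₀ n) (E2 (ES x fun i : Fin k => X i.castSucc) fun _ => X (Fin.last k)) = ES x X := by
  rw [← Equiv.eq_symm_apply, Matrix.reindex_symm]
  ext p q
  rw [Matrix.reindex_apply, Matrix.submatrix_apply, Equiv.symm_symm]
  rcases p with (b | ⟨i, a⟩) | ⟨a, j⟩ <;> rcases q with (b' | ⟨i', a'⟩) | ⟨a', j'⟩
  · rfl
  · rfl
  · rfl
  · rfl
  · show blockDiagonal' (fun i : Fin k => X i.castSucc) ⟨i, a⟩ ⟨i', a'⟩ =
      blockDiagonal' X ⟨i.castSucc, a⟩ ⟨i'.castSucc, a'⟩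
    by_cases h : i = i'
    · subst h
      rw [blockDiagonal'_apply_eq, blockDiagonal'_apply_eq]
    · rw [blockDiagonal'_apply_ne _ _ _ h, blockDiagonal'_apply_ne _ _ _ (fun hh => h (Fin.castSucc_injective _ hh))]
  · show (0 : ℂ) = blockDiagonal' X ⟨i.castSucc, a⟩ ⟨Fin.last k, a'⟩
    rw [blockDiagonal'_apply_ne _ _ _ (Fin.castSucc_lt_last i).ne]
  · rfl
  · show (0 : ℂ) = blockDiagonal' X ⟨Fin.last k, a⟩ ⟨i'.castSucc, a'⟩
    rw [blockDiagonal'_apply_ne _ _ _ (Fin.castSucc_lt_last i').ne']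
  · have hj : j = j' := Subsingleton.elim _ _
    subst hj
    show bd (fun _ : Fin 1 => X (Fin.last k)) (a, j) (a', j) = blockDiagonal' X ⟨Fin.last k, a⟩ ⟨Fin.last k, a'⟩
    rw [blockDiagonal'_apply_eq]
    unfold bd
    rw [blockDiagonal_apply_eq]

end

end Pool.Agent.U534.Univ
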