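import Pool.Agent.U534.BigB
import Pool.Agent.U534.UnivFlat

/-!
# Many blocks: adding one block after the other
-/

set_option autoImplicit false
set_option linter.unusedSectionVars false

open Matrix Module

namespace Pool.Agent.U534.Big

open Pool.Agent.TH127.PT Pool.Agent.U907.GP Pool.Agent.Y123.GN Pool.Agent.Y123.ST Pool.Agent.Y120.R PowerSeries
open scoped commutatorElement

/-- the bijection of the index sets -/
def eqw (B₀ : Type) {k : ℕ} (n : Fin (k + 1) → ℕ) :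
    IG B₀ (fun i : Fin k => n i.castSucc) ⊕ Fin (n (Fin.last k)) ≃ IG B₀ n where
  toFun := Sum.elim (Sum.elim Sum.inl fun q => Sum.inr ⟨q.1.castSucc, q.2⟩) fun a => Sum.inr ⟨Fin.last k, a⟩
  invFun := Sum.elim (fun b => Sum.inl (Sum.inl b)) fun q => Fin.lastCases
    (motive := fun i => Fin (n i) → IG B₀ (fun i : Fin k => n i.castSucc) ⊕ Fin (n (Fin.last k)))
    (fun a => Sum.inr a) (fun i a => Sum.inl (Sum.inr ⟨i, a⟩)) q.1 q.2
  left_inv := by
    rintro ((b | ⟨i, a⟩) | a)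
    · rfl
    · simp
    · simp
  right_inv := by
    rintro (b | ⟨i, a⟩)
    · rfl
    · induction i using Fin.lastCases with
      | last => simp
      | cast i => simp

section
variable {B₀ : Type} [Fintype B₀] [DecidableEq B₀]

theorem eqw_EG {k : ℕ} {n : Fin (k + 1) → ℕ} (x : Matrix B₀ B₀ ℂ) (X : ∀ i, Matrix (Fin (n i)) (Fin (n i)) ℂ) :
    Matrix.reindex (eqw B₀ n) (eqw B₀ n) (E (EG x fun i : Fin k => X i.castSucc) (X (Fin.last k))) = EG x X := by
  rw [← Equiv.eq_symm_apply, Matrix.reindex_symm]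
  ext p q
  rw [Matrix.reindex_apply, Matrix.submatrix_apply, Equiv.symm_symm]
  rcases p with (b | ⟨i, a⟩) | a <;> rcases q with (b' | ⟨i', a'⟩) | a'
  · rfl
  · rfl
  · rfl
  · rfl
  · show blockDiagonal' (fun i : Fin k => X i.castSucc) ⟨i, a⟩ ⟨i', a'⟩ =
      blockDiagonal' X ⟨i.castSucc, a⟩ ⟨i'.castSucc, a'⟩
    by_cases h : i = i'
    · subst h
      rw [blockDiagonal'_apply_eq, blockDiagonal'_apply_eq]
    · rw [blockDiagonal'_apply_ne _ _ _ h, blockDiagonal'_apply_ne _ _ _ (fun hh => h (Fin.castSucc_injective _ hh))]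
  · show (0 : ℂ) = blockDiagonal' X ⟨i.castSucc, a⟩ ⟨Fin.last k, a'⟩
    rw [blockDiagonal'_apply_ne _ _ _ (Fin.castSucc_lt_last i).ne]
  · rfl
  · show (0 : ℂ) = blockDiagonal' X ⟨Fin.last k, a⟩ ⟨i'.castSucc, a'⟩
    rw [blockDiagonal'_apply_ne _ _ _ (Fin.castSucc_lt_last i').ne']
  · show X (Fin.last k) a a' = blockDiagonal' X ⟨Fin.last k, a⟩ ⟨Fin.last k, a'⟩
    rw [blockDiagonal'_apply_eq]

/-- stability under all special groups -/
def AllG (K : Subfield ℂ) (c₀ : Matrix B₀ B₀ ℂ) {k : ℕ} {n : Fin k → ℕ}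
    (B c : ∀ i, Matrix (Fin (n i)) (Fin (n i)) ℂ) : Prop :=
  ∀ T : Set (Matrix (IG B₀ n) (IG B₀ n) ℂ), IsSubtorsor K T → EG c₀ c ∈ T →
    ∀ g : ∀ i, (Matrix (Fin (n i)) (Fin (n i)) ℂ)ˣ, (∀ i, g i ∈ GB (B i)) →
      ∀ x ∈ T, EG 1 (fun i => (g i : Matrix (Fin (n i)) (Fin (n i)) ℂ)) * x ∈ T

theorem allG_zero (K : Subfield ℂ) (c₀ : Matrix B₀ B₀ ℂ) {n : Fin 0 → ℕ}
    (B c : ∀ i, Matrix (Fin (n i)) (Fin (n i)) ℂ) : AllG K c₀ B c := by
  intro T hT hc g hg x hx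
  have h1 : (fun i => (g i : Matrix (Fin (n i)) (Fin (n i)) ℂ)) = 1 := Subsingleton.elim _ _
  rw [h1, EG_one, Matrix.one_mul]
  exact hx

/-- the classical groups are perfect -/
theorem GB_perf {n : ℕ} {B : Matrix (Fin n) (Fin n) ℂ} (hB : Clf B) : GB B ≤ ⁅GB B, GB B⁆ :=
  (cl_perf hB).trans (Subgroup.commutator_mono (Ug_le _) (Ug_le _))

/-- the matrix `X` respects the forms -/
def Rp {n : ℕ} (Q B X : Matrix (Fin n) (Fin n) ℂ) : Prop := ∃ μ : ℂ, μ ≠ 0 ∧ X * Q * Xᵀ = μ • B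

theorem allG_succ {K : Subfield ℂ} (hK : Countable K) {c₀ : Matrix B₀ B₀ ℂ} {k : ℕ} {n : Fin (k + 1) → ℕ}
    {Q B c : ∀ i, Matrix (Fin (n i)) (Fin (n i)) ℂ} (hQ : ∀ i a b, Q i a b ∈ K) (hB : ∀ i a b, B i a b ∈ K)
    (hcl : ∀ i, Clf (B i)) (hr : ∀ i, Rp (Q i) (B i) (c i))
    (h : AllG K c₀ (fun i : Fin k => B i.castSucc) (fun i : Fin k => c i.castSucc))
    (hL : ∀ T : Set (Matrix (IG B₀ (fun i : Fin k => n i.castSucc) ⊕ Fin (n (Fin.last k)))
        (IG B₀ (fun i : Fin k => n i.castSucc) ⊕ Fin (n (Fin.last k))) ℂ), IsSubtorsor K T →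
      E (EG c₀ fun i : Fin k => c i.castSucc) (c (Fin.last k)) ∈ T → ∀ g ∈ GB (B (Fin.last k)), ∀ x ∈ T,
        E 1 (g : Matrix (Fin (n (Fin.last k))) (Fin (n (Fin.last k))) ℂ) * x ∈ T) : AllG K c₀ B c := by
  intro T hT hcT
  set T' : Set (Matrix (IG B₀ (fun i : Fin k => n i.castSucc) ⊕ Fin (n (Fin.last k)))
      (IG B₀ (fun i : Fin k => n i.castSucc) ⊕ Fin (n (Fin.last k))) ℂ) :=
    {y | Matrix.reindex (eqw B₀ n) (eqw B₀ n) y ∈ T} with hT'
  have hT's : IsSubtorsor K T' := Pool.Agent.U534.Univ.sub_reindex (eqw B₀ n) hT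
  have hcT' : E (EG c₀ fun i : Fin k => c i.castSucc) (c (Fin.last k)) ∈ T' := by
    show Matrix.reindex _ _ _ ∈ T
    rw [eqw_EG]
    exact hcT
  have hback : ∀ (g : Matrix (IG B₀ (fun i : Fin k => n i.castSucc) ⊕ Fin (n (Fin.last k)))
      (IG B₀ (fun i : Fin k => n i.castSucc) ⊕ Fin (n (Fin.last k))) ℂ), (∀ x ∈ T', g * x ∈ T') →
      ∀ x ∈ T, Matrix.reindex (eqw B₀ n) (eqw B₀ n) g * x ∈ T := by
    intro g hg x hx
    have h6 : Matrix.reindex (eqw B₀ n) (eqw B₀ n) (Matrix.reindex (eqw B₀ n).symm (eqw B₀ n).symm x) = x := by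
      rw [← Matrix.reindex_symm]
      exact Equiv.apply_symm_apply _ _
    have h7 := hg (Matrix.reindex (eqw B₀ n).symm (eqw B₀ n).symm x) (by
      show Matrix.reindex (eqw B₀ n) (eqw B₀ n) _ ∈ T
      rw [h6]
      exact hx)
    have h8 : Matrix.reindex (eqw B₀ n) (eqw B₀ n) (g * Matrix.reindex (eqw B₀ n).symm (eqw B₀ n).symm x) ∈ T := h7
    have h9 : Matrix.reindex (eqw B₀ n) (eqw B₀ n) (g * Matrix.reindex (eqw B₀ n).symm (eqw B₀ n).symm x) =
        Matrix.reindex (eqw B₀ n) (eqw B₀ n) g * x := by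
      conv_rhs => rw [← h6]
      simp only [Matrix.reindex_apply]
      rw [Matrix.submatrix_mul_equiv]
    rwa [h9] at h8
  have hst := hL T' hT's hcT'
  have hblock : ∀ i, ∀ g ∈ GB (B i), em B₀ i g ∈ Sbl T := by
    intro i
    induction i using Fin.lastCases with
    | last =>
      intro g hg x hx
      have h1 := hback _ (hst g hg) x hx
      have h2 : Matrix.reindex (eqw B₀ n) (eqw B₀ n)
          (E 1 (g : Matrix (Fin (n (Fin.last k))) (Fin (n (Fin.last k))) ℂ)) =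
          EG 1 (Pi.mulSingle (Fin.last k) (g : Matrix (Fin (n (Fin.last k))) (Fin (n (Fin.last k))) ℂ)) := by
        rw [← eqw_EG]
        congr 2
        · rw [← EG_one]
          congr 1
          funext i
          rw [Pi.mulSingle_eq_of_ne (Fin.castSucc_lt_last i).ne]
          rfl
        · rw [Pi.mulSingle_eq_same]
      rw [em_val, ← h2]
      exact h1
    | cast l =>
      obtain ⟨μ, hμ, hcμ⟩ := hr (Fin.last k)
      have hG : (GB (B l.castSucc)).map (em B₀ (n := fun i : Fin k => n i.castSucc) l) ≤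
          ⁅(GB (B l.castSucc)).map (em B₀ (n := fun i : Fin k => n i.castSucc) l),
            (GB (B l.castSucc)).map (em B₀ (n := fun i : Fin k => n i.castSucc) l)⁆ := by
        rw [← Subgroup.map_commutator]
        exact Subgroup.map_mono (GB_perf (hcl _))
      have h1 := goursat (K := K) hK hT's hcT' (fun a b => hQ _ a b) (fun a b => hB _ a b) hμ hcμ hst hG (by
        rintro T₁ hT₁ hcT₁ _ ⟨g, hg, rfl⟩ x hx
        have h2 := h T₁ hT₁ hcT₁ (Pi.mulSingle l g) (fun i => by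
          by_cases hi : i = l
          · subst hi
            rw [Pi.mulSingle_eq_same]
            exact hg
          · rw [Pi.mulSingle_eq_of_ne hi]
            exact Subgroup.one_mem _) x hx
        exact h2)
      intro g hg x hx
      have h3 := hback _ (h1 _ ⟨g, hg, rfl⟩) x hx
      have h2 : Matrix.reindex (eqw B₀ n) (eqw B₀ n)
          (E ((em B₀ (n := fun i : Fin k => n i.castSucc) l g : (Matrix _ _ ℂ)ˣ) : Matrix _ _ ℂ)
            (1 : Matrix (Fin (n (Fin.last k))) (Fin (n (Fin.last k))) ℂ)) =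
          EG 1 (Pi.mulSingle l.castSucc (g : Matrix (Fin (n l.castSucc)) (Fin (n l.castSucc)) ℂ)) := by
        rw [← eqw_EG, em_val]
        congr 2
        · congr 1
          funext i
          by_cases hi : i = l
          · subst hi
            rw [Pi.mulSingle_eq_same]
            exact (Pi.mulSingle_eq_same (M := fun i => Matrix (Fin (n i)) (Fin (n i)) ℂ) i.castSucc _).symm
          · rw [Pi.mulSingle_eq_of_ne hi]
            exact (Pi.mulSingle_eq_of_ne (M := fun i => Matrix (Fin (n i)) (Fin (n i)) ℂ)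
              (fun hh => hi (Fin.castSucc_injective _ hh)) _).symm
        · exact (Pi.mulSingle_eq_of_ne (M := fun i => Matrix (Fin (n i)) (Fin (n i)) ℂ)
            (Fin.castSucc_lt_last l).ne' _).symm
      rw [em_val, ← h2]
      exact h3
  intro g hg x hx
  exact all_blocksG (fun i => hblock i (g i) (hg i)) x hx

/-- the condition for one more block -/
def Lst (K : Subfield ℂ) (c' : Matrix B₀ B₀ ℂ) {r m : ℕ} (h : Fin r → ℚ⟦X⟧)
    (P : Fin m → Fin m → MvPolynomial (Option (Fin r)) ℂ) (x : ℕ) : Prop :=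
  ∀ T : Set (Matrix (B₀ ⊕ Fin m) (B₀ ⊕ Fin m) ℂ), IsSubtorsor K T → E c' (pM h P (x : ℝ)) ∈ T →
    ∀ g ∈ ⁅Ug (Gs h P), Ug (Gs h P)⁆, ∀ y ∈ T, E 1 (g : Matrix (Fin m) (Fin m) ℂ) * y ∈ T

/-- the bijection for one block -/
def eq1 {B₀ : Type} {r' : ℕ} (e : B₀ ≃ Fin r') (m : ℕ) : B₀ ⊕ Fin m ≃ IG (Fin r') (fun _ : Fin 1 => m) :=
  e.sumCongr ⟨fun a => ⟨0, a⟩, fun q => q.2, fun _ => rfl, fun q => by
    obtain ⟨i, a⟩ := q
    rw [Subsingleton.elim i 0]⟩

theorem eq1_E {r' : ℕ} (e : B₀ ≃ Fin r') {m : ℕ} (x : Matrix B₀ B₀ ℂ) (X : Matrix (Fin m) (Fin m) ℂ) :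
    Matrix.reindex (eq1 e m) (eq1 e m) (E x X) = EG (Matrix.reindex e e x) (fun _ : Fin 1 => X) := by
  rw [← Equiv.eq_symm_apply, Matrix.reindex_symm]
  ext p q
  rw [Matrix.reindex_apply, Matrix.submatrix_apply, Equiv.symm_symm]
  rcases p with b | a <;> rcases q with b' | a'
  · show x b b' = x (e.symm (e b)) (e.symm (e b'))
    rw [Equiv.symm_apply_apply, Equiv.symm_apply_apply]
  · rfl
  · rfl
  · show X a a' = blockDiagonal' (fun _ : Fin 1 => X) ⟨0, a⟩ ⟨0, a'⟩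
    rw [blockDiagonal'_apply_eq]

theorem lst_of_good {r' : ℕ} (e : B₀ ≃ Fin r') {D r m : ℕ} {h : Fin r → ℚ⟦X⟧}
    {P : Fin m → Fin m → MvPolynomial (Option (Fin r)) ℂ} {x : ℕ} {c' : Matrix B₀ B₀ ℂ}
    (hg : GoodU (n := fun _ : Fin 1 => m) (r := fun _ => r) D (Matrix.reindex e e c') (fun _ => h) (fun _ => P)
      (fun _ => x)) :
    ∀ K : Subfield ℂ, FiniteDimensional ℚ K → finrank ℚ K ≤ D → Lst K c' h P x := by
  intro K hKf hKD T hT hcT g hgm y hy
  set f := eq1 e m with hf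
  have hinv : ∀ z : Matrix (B₀ ⊕ Fin m) (B₀ ⊕ Fin m) ℂ, Matrix.reindex f.symm f.symm (Matrix.reindex f f z) = z := by
    intro z
    rw [← Matrix.reindex_symm]
    exact Equiv.symm_apply_apply _ _
  have hT' := Pool.Agent.U534.Univ.sub_reindex (K := K) f.symm hT
  have h1 := hg K hKf hKD _ hT' (by
    show Matrix.reindex f.symm f.symm _ ∈ T
    rw [← eq1_E, hinv]
    exact hcT) (fun _ => g) (fun _ => hgm) (Matrix.reindex f f y) (by
    show Matrix.reindex f.symm f.symm _ ∈ T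
    rw [hinv]
    exact hy)
  have h2 : EG (1 : Matrix (Fin r') (Fin r') ℂ) (fun _ : Fin 1 => (g : Matrix (Fin m) (Fin m) ℂ)) =
      Matrix.reindex f f (E (1 : Matrix B₀ B₀ ℂ) (g : Matrix (Fin m) (Fin m) ℂ)) := by
    rw [eq1_E]
    congr 1
    simp
  have h3 : Matrix.reindex f.symm f.symm (EG (1 : Matrix (Fin r') (Fin r') ℂ)
      (fun _ : Fin 1 => (g : Matrix (Fin m) (Fin m) ℂ)) * Matrix.reindex f f y) ∈ T := h1
  rw [h2] at h3
  have h4 : Matrix.reindex f f (E (1 : Matrix B₀ B₀ ℂ) (g : Matrix (Fin m) (Fin m) ℂ)) * Matrix.reindex f f y =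
      Matrix.reindex f f (E (1 : Matrix B₀ B₀ ℂ) (g : Matrix (Fin m) (Fin m) ℂ) * y) := by
    simp only [Matrix.reindex_apply]
    rw [Matrix.submatrix_mul_equiv]
  rw [h4, hinv] at h3
  exact h3

end

end Pool.Agent.U534.Big
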