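import Pool.Agent.U534.BigC

/-!
# Sequences of fibres of families with big monodromy outside of predictable exceptional sets
-/

set_option autoImplicit false
set_option linter.unusedSectionVars false

open Matrix Module

namespace Pool.Agent.U534.Big

open Pool.Agent.TH127.PT Pool.Agent.U907.GP Pool.Agent.Y123.GN Pool.Agent.Y123.ST Pool.Agent.Y120.R PowerSeries
open scoped commutatorElement

/-- counting for one new fibre, for all constant parts of bounded rank -/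
theorem count_one (D e R ρ m : ℕ) (h : Fin ρ → ℚ⟦X⟧) (hF : ∀ δ, Fam δ h) :
    ∃ c C : ℝ, 0 < c ∧ 0 ≤ C ∧ ∀ P : Fin m → Fin m → MvPolynomial (Option (Fin ρ)) ℂ,
    (∀ a b, (P a b).totalDegree ≤ e) → ∀ (B₀ : Type) [Fintype B₀] [DecidableEq B₀], Fintype.card B₀ ≤ R →
    ∀ (c' : Matrix B₀ B₀ ℂ) (x N : ℕ), 1 ≤ N → ∀ S : Finset ℕ, (∀ t ∈ S, (x < t ∧ t ≤ x + N) ∧
      ¬ ∀ K : Subfield ℂ, FiniteDimensional ℚ K → finrank ℚ K ≤ D → Lst K c' h P t) →
    (S.card : ℝ) ≤ C * (1 + N / ((x : ℝ) + N) ^ c) := by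
  classical
  have h0 := fun r' : ℕ => all_main 1 D e r' (fun _ => ρ) (fun _ => m) (fun _ => h) (fun _ δ => hF δ)
  choose c C hc hC hmain using h0
  have hne : (Finset.range (R + 1)).Nonempty := ⟨0, Finset.mem_range.2 (Nat.succ_pos _)⟩
  refine ⟨(Finset.range (R + 1)).inf' hne c, ∑ r' ∈ Finset.range (R + 1), C r', ?_,
    Finset.sum_nonneg fun r' _ => hC r', ?_⟩
  · rw [Finset.lt_inf'_iff]
    exact fun r' _ => hc r'
  intro P hP B₀ _ _ hcard c' x N hN S hS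
  set r' := Fintype.card B₀ with hr'
  have hr'm : r' ∈ Finset.range (R + 1) := Finset.mem_range.2 (Nat.lt_succ_of_le hcard)
  set e' : B₀ ≃ Fin r' := Fintype.equivFin B₀ with he'
  have h1 := hmain r' (fun _ => P) (fun _ => hP) (Matrix.reindex e' e' c') (fun _ => x) N hN
    (S.image fun t => fun _ : Fin 1 => t) (by
      intro t ht
      obtain ⟨y, hy, rfl⟩ := Finset.mem_image.1 ht
      obtain ⟨h2, h3⟩ := hS y hy
      exact ⟨fun _ => h2, fun hg => h3 (lst_of_good e' hg)⟩)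
  rw [Finset.card_image_of_injective _ (fun a b hab => congrFun hab 0), Nat.sub_self, pow_zero, mul_one,
    Fin.sum_univ_one] at h1
  refine h1.trans ?_
  have hxN : (1 : ℝ) ≤ (x : ℝ) + N := by
    have h4 : (1 : ℝ) ≤ N := by exact_mod_cast hN
    have h5 : (0 : ℝ) ≤ x := Nat.cast_nonneg _
    linarith
  have hcle : (Finset.range (R + 1)).inf' hne c ≤ c r' := Finset.inf'_le _ hr'm
  have hpow : ((x : ℝ) + N) ^ ((Finset.range (R + 1)).inf' hne c) ≤ ((x : ℝ) + N) ^ (c r') :=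
    Real.rpow_le_rpow_of_exponent_le hxN hcle
  have hpos : (0 : ℝ) < ((x : ℝ) + N) ^ ((Finset.range (R + 1)).inf' hne c) := Real.rpow_pos_of_pos (by linarith) _
  have hdiv : (N : ℝ) / ((x : ℝ) + N) ^ (c r') ≤ N / ((x : ℝ) + N) ^ ((Finset.range (R + 1)).inf' hne c) :=
    div_le_div_of_nonneg_left (Nat.cast_nonneg _) hpos hpow
  have hCle : C r' ≤ ∑ r' ∈ Finset.range (R + 1), C r' :=
    Finset.single_le_sum (f := C) (fun r' _ => hC r') hr'm
  have hnn : (0 : ℝ) ≤ 1 + N / ((x : ℝ) + N) ^ (c r') := by positivity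
  calc C r' * (1 + N / ((x : ℝ) + N) ^ (c r')) ≤ (∑ r' ∈ Finset.range (R + 1), C r') * (1 + N / ((x : ℝ) + N) ^ (c r')) :=
        mul_le_mul_of_nonneg_right hCle hnn
    _ ≤ _ := by
        refine mul_le_mul_of_nonneg_left (by linarith) (hC r' |>.trans hCle)

/-- restriction to the first parameters -/
def rs {j : ℕ} (τ : Fin j → ℕ) {m : ℕ} (hm : m ≤ j) : Fin m → ℕ := fun a => τ ⟨a, lt_of_lt_of_le a.2 hm⟩

section
variable {n ρ : ℕ → ℕ} (h : ∀ j, (Fin j → ℕ) → Fin (ρ j) → ℚ⟦X⟧)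
  (P : ∀ j, (Fin j → ℕ) → Fin (n j) → Fin (n j) → MvPolynomial (Option (Fin (ρ j))) ℂ)
  {r : ℕ → ℕ} (C : ∀ i, (Fin i → ℕ) → Matrix (Fin (r i)) (Fin (r i)) ℂ)

/-- the exceptional set for the next parameter, given the first `j` parameters -/
def Ex (j : ℕ) (τ : Fin j → ℕ) : Set ℕ :=
  {x | ∃ (i k : Fin (j + 1)) (s : Fin (k : ℕ) → Fin j),
    ¬ ∀ K : Subfield ℂ, FiniteDimensional ℚ K → finrank ℚ K ≤ j →
      Lst K (EG (C i (rs τ (Nat.le_of_lt_succ i.2))) (n := fun l => n (s l)) fun l =>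
        pM (h (s l) (rs τ (s l).2.le)) (P (s l) (rs τ (s l).2.le)) (τ (s l) : ℝ)) (h j τ) (P j τ) x}

end

theorem ex_count (n ρ : ℕ → ℕ) (e : ∀ j, (Fin j → ℕ) → ℕ) (h : ∀ j, (Fin j → ℕ) → Fin (ρ j) → ℚ⟦X⟧)
    (hF : ∀ j τ δ, Fam δ (h j τ)) (r : ℕ → ℕ) :
    ∃ c M : ∀ j, (Fin j → ℕ) → ℝ, (∀ j τ, 0 < c j τ) ∧
      ∀ P : (∀ j, (Fin j → ℕ) → Fin (n j) → Fin (n j) → MvPolynomial (Option (Fin (ρ j))) ℂ),
      (∀ j τ a b, (P j τ a b).totalDegree ≤ e j τ) → ∀ C : (∀ i, (Fin i → ℕ) → Matrix (Fin (r i)) (Fin (r i)) ℂ),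
      ∀ (j : ℕ) (τ : Fin j → ℕ) (x N : ℕ), 1 ≤ N →
      ((Ex h P C j τ ∩ Set.Ioc x (x + N)).ncard : ℝ) ≤ M j τ * (1 + N / ((x : ℝ) + N) ^ c j τ) := by
  classical
  have h0 := fun (j : ℕ) (τ : Fin j → ℕ) => count_one j (e j τ)
    ((∑ i ∈ Finset.range (j + 1), r i) + j * ∑ l ∈ Finset.range j, n l) (ρ j) (n j) (h j τ) (hF j τ)
  choose c C₁ hc hC hmain using h0
  refine ⟨c, fun j τ => (Fintype.card (Fin (j + 1) × (Σ k : Fin (j + 1), (Fin (k : ℕ) → Fin j))) : ℝ) * C₁ j τ, hc, ?_⟩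
  intro P hP C j τ x N hN
  have hcond : ∀ q : Fin (j + 1) × (Σ k : Fin (j + 1), (Fin (k : ℕ) → Fin j)), ∃ S : Finset ℕ,
      (S.card : ℝ) ≤ C₁ j τ * (1 + N / ((x : ℝ) + N) ^ c j τ) ∧ ∀ y, x < y → y ≤ x + N →
      (¬ ∀ K : Subfield ℂ, FiniteDimensional ℚ K → finrank ℚ K ≤ j →
        Lst K (EG (C q.1 (rs τ (Nat.le_of_lt_succ q.1.2))) (n := fun l => n (q.2.2 l)) fun l =>
          pM (h (q.2.2 l) (rs τ (q.2.2 l).2.le)) (P (q.2.2 l) (rs τ (q.2.2 l).2.le)) (τ (q.2.2 l) : ℝ))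
          (h j τ) (P j τ) y) → y ∈ S := by
    rintro ⟨i, k, s⟩
    set A : Set ℕ := {y | (x < y ∧ y ≤ x + N) ∧
        ¬ ∀ K : Subfield ℂ, FiniteDimensional ℚ K → finrank ℚ K ≤ j →
          Lst K (EG (C i (rs τ (Nat.le_of_lt_succ i.2))) (n := fun l => n (s l)) fun l =>
            pM (h (s l) (rs τ (s l).2.le)) (P (s l) (rs τ (s l).2.le)) (τ (s l) : ℝ)) (h j τ) (P j τ) y} with hA
    have hfin : A.Finite := (Set.finite_Iic (x + N)).subset fun y hy => hy.1.2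
    refine ⟨hfin.toFinset, ?_, fun y hy1 hy2 hy3 => hfin.mem_toFinset.2 ⟨⟨hy1, hy2⟩, hy3⟩⟩
    refine hmain j τ (P j τ) (hP j τ) (IG (Fin (r i)) (fun l : Fin (k : ℕ) => n (s l))) ?_ _ x N hN hfin.toFinset
      fun t ht => hfin.mem_toFinset.1 ht
    rw [card_IG, Fintype.card_fin]
    have h2 : r i ≤ ∑ i ∈ Finset.range (j + 1), r i :=
      Finset.single_le_sum (f := fun i => r i) (fun _ _ => Nat.zero_le _) (Finset.mem_range.2 i.2)
    have h3 : ∑ l : Fin (k : ℕ), n (s l) ≤ j * ∑ l ∈ Finset.range j, n l := by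
      calc ∑ l : Fin (k : ℕ), n (s l) ≤ ∑ _l : Fin (k : ℕ), ∑ l ∈ Finset.range j, n l := by
            refine Finset.sum_le_sum fun l _ => ?_
            exact Finset.single_le_sum (f := fun l => n l) (fun _ _ => Nat.zero_le _) (Finset.mem_range.2 (s l).2)
        _ = k * ∑ l ∈ Finset.range j, n l := by
            rw [Finset.sum_const, Finset.card_univ, Fintype.card_fin, smul_eq_mul]
        _ ≤ _ := Nat.mul_le_mul_right _ (Nat.lt_succ_iff.1 k.2)
    exact Nat.add_le_add h2 h3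
  choose S hS1 hS2 using hcond
  have hsub : Ex h P C j τ ∩ Set.Ioc x (x + N) ⊆ ((Finset.univ.biUnion S : Finset ℕ) : Set ℕ) := by
    rintro y ⟨⟨i, k, s, hn⟩, hy1, hy2⟩
    exact Finset.mem_coe.2 (Finset.mem_biUnion.2 ⟨(i, ⟨k, s⟩), Finset.mem_univ _, hS2 (i, ⟨k, s⟩) y hy1 hy2 hn⟩)
  have h1 : (Ex h P C j τ ∩ Set.Ioc x (x + N)).ncard ≤ (Finset.univ.biUnion S).card := by
    rw [← Set.ncard_coe_finset]
    exact Set.ncard_le_ncard hsub (Finset.finite_toSet _)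
  calc ((Ex h P C j τ ∩ Set.Ioc x (x + N)).ncard : ℝ) ≤ ((Finset.univ.biUnion S).card : ℝ) := by exact_mod_cast h1
    _ ≤ ∑ q, ((S q).card : ℝ) := by exact_mod_cast Finset.card_biUnion_le
    _ ≤ ∑ _q : Fin (j + 1) × (Σ k : Fin (j + 1), (Fin (k : ℕ) → Fin j)), C₁ j τ * (1 + N / ((x : ℝ) + N) ^ c j τ) :=
        Finset.sum_le_sum fun q _ => hS1 q
    _ = _ := by rw [Finset.sum_const, Finset.card_univ, nsmul_eq_mul, mul_assoc]

/-- the first parameters -/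
def fr (t : ℕ → ℕ) (j : ℕ) : Fin j → ℕ := fun l => t l

/-- every sequence outside of the exceptional sets -/
theorem seqB {n ρ : ℕ → ℕ} {h : ∀ j, (Fin j → ℕ) → Fin (ρ j) → ℚ⟦X⟧}
    {P : ∀ j, (Fin j → ℕ) → Fin (n j) → Fin (n j) → MvPolynomial (Option (Fin (ρ j))) ℂ}
    {r : ℕ → ℕ} {C : ∀ i, (Fin i → ℕ) → Matrix (Fin (r i)) (Fin (r i)) ℂ} {t : ℕ → ℕ} {j₀ : ℕ}
    (hE : ∀ j, j₀ ≤ j → t j ∉ Ex h P C j (fr t j)) {K : Subfield ℂ} (hK : FiniteDimensional ℚ K) (i : ℕ) :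
    ∀ (k : ℕ) (s : Fin k → ℕ), StrictMono s → (∀ l, j₀ ≤ s l) → (∀ l, finrank ℚ K ≤ s l) → (∀ l, i ≤ s l) →
      ∀ Q B : (∀ l, Matrix (Fin (n (s l))) (Fin (n (s l))) ℂ), (∀ l a b, Q l a b ∈ K) → (∀ l a b, B l a b ∈ K) →
      (∀ l, Clf (B l)) → (∀ l, GB (B l) ≤ Gs (h (s l) (fr t (s l))) (P (s l) (fr t (s l)))) →
      (∀ l, Rp (Q l) (B l) (pM (h (s l) (fr t (s l))) (P (s l) (fr t (s l))) (t (s l) : ℝ))) →
      AllG K (C i (fr t i)) (n := fun l => n (s l)) B fun l =>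
        pM (h (s l) (fr t (s l))) (P (s l) (fr t (s l))) (t (s l) : ℝ) := by
  have hKc : Countable K := by
    have h1 : Module.Finite ℚ K := hK
    let b := Module.finBasis ℚ K
    exact (b.equivFun.toEquiv.injective).countable
  intro k
  induction k with
  | zero =>
    intro s _ _ _ _ Q B _ _ _ _ _
    exact allG_zero _ _ _ _
  | succ k ih =>
    intro s hs h0 hd hi Q B hQ hB hcl hGB hr
    refine allG_succ (n := fun l => n (s l)) hKc hQ hB hcl hr ?_ ?_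
    · exact ih (fun l => s l.castSucc) (fun l l' h => hs (Fin.castSucc_lt_castSucc_iff.2 h)) (fun l => h0 _)
        (fun l => hd _) (fun l => hi _) (fun l => Q l.castSucc) (fun l => B l.castSucc) (fun l => hQ _) (fun l => hB _)
        (fun l => hcl _) (fun l => hGB _) (fun l => hr _)
    · set j := s (Fin.last k) with hj
      have hlt : ∀ l : Fin k, s l.castSucc < j := fun l => hs (Fin.castSucc_lt_last l)
      have hkj : k ≤ j := by
        have h1 : Function.Injective (fun l : Fin k => (⟨s l.castSucc, hlt l⟩ : Fin j)) := by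
          intro l l' h
          have h2 : s l.castSucc = s l'.castSucc := congrArg Fin.val h
          exact Fin.castSucc_injective _ (hs.injective h2)
        have h2 := Fintype.card_le_of_injective _ h1
        rwa [Fintype.card_fin, Fintype.card_fin] at h2
      have hLst : Lst K (EG (C i (fr t i)) (n := fun l : Fin k => n (s l.castSucc)) fun l =>
          pM (h (s l.castSucc) (fr t (s l.castSucc))) (P (s l.castSucc) (fr t (s l.castSucc))) (t (s l.castSucc) : ℝ))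
          (h j (fr t j)) (P j (fr t j)) (t j) := by
        by_contra hcon
        refine hE j (h0 _) ⟨⟨i, Nat.lt_succ_of_le (hi _)⟩, ⟨k, Nat.lt_succ_of_le hkj⟩,
          fun l => ⟨s l.castSucc, hlt l⟩, fun hall => hcon ?_⟩
        exact hall K hK (hd _)
      intro T hT hcT g hg x hx
      exact hLst T hT hcT g (mono_comm (hGB _) (cl_perf (hcl _)) hg) x hx

end Pool.Agent.U534.Big
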