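import Pool.Agent.U534.BlockSeq

/-!
# Blocks of points and almost full windows; also the set of numbers depends on the level
-/

set_option autoImplicit false
set_option linter.unusedSectionVars false

namespace Pool.Agent.U534.Tens

section blocksA
variable {ι α : Type} [Inhabited ι] {B : ℕ → Type} [∀ j, Fintype (B j)] [∀ j, DecidableEq (B j)]

/-- the exponents -/
noncomputable def expoA {N : ℕ} {k δ : ℕ → ℕ} (l : ℕ) (b : (i : Fin N) → (Fin (k (l + i)) → B (l + i) → Fin (δ (l + i) + 1))) :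
    (Σ i : Fin N, Fin (k (l + i)) × B (l + i)) →₀ ℕ :=
  Finsupp.equivFunOnFinite.symm fun v => (b v.1 v.2.1 v.2.2 : ℕ)

/-- from products of monomials to polynomials -/
theorem poly_ofA {N : ℕ} {k δ : ℕ → ℕ} (hδ : Monotone δ) {l : ℕ} {K : IntermediateField ℚ ℂ} {V : Submodule ℚ ℂ}
    {y : (j : ℕ) → Fin (k j) → B j → ℂ}
    (h : ¬ Rel K V (fun b : (i : Fin N) → (Fin (k (l + i)) → B (l + i) → Fin (δ (l + i) + 1)) =>
      ∏ i : Fin N, mon (δ (l + i)) (y (l + i)) (b i)))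
    (Q : MvPolynomial (Σ i : Fin N, Fin (k (l + i)) × B (l + i)) ℂ) (hQ : Q ≠ 0) (hd : ∀ v, Q.degreeOf v ≤ δ l)
    (hc : ∀ s, Q.coeff s ∈ Submodule.span K (V : Set ℂ)) :
    MvPolynomial.eval (fun v => y (l + v.1) v.2.1 v.2.2) Q ≠ 0 := by
  classical
  intro h0
  have hinj : Function.Injective (expoA (N := N) (k := k) (δ := δ) (B := B) l) := by
    intro b b' hb
    funext i κ a
    have h1 := DFunLike.congr_fun hb ⟨i, κ, a⟩
    exact Fin.ext h1
  have hsupp : ∀ s ∈ Q.support, ∃ b, expoA (N := N) (k := k) (δ := δ) (B := B) l b = s := by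
    intro s hs
    refine ⟨fun i κ a => ⟨s ⟨i, κ, a⟩, ?_⟩, ?_⟩
    · have h1 := MvPolynomial.monomial_le_degreeOf ⟨i, κ, a⟩ hs
      have h2 := hd ⟨i, κ, a⟩
      have h3 := hδ (Nat.le_add_right l i)
      omega
    · ext v
      rfl
  refine h ⟨fun b => Q.coeff (expoA l b), fun b => hc _, ?_, ?_⟩
  · intro hv
    apply hQ
    rw [← MvPolynomial.support_eq_empty, Finset.eq_empty_iff_forall_notMem]
    intro s hs
    obtain ⟨b, rfl⟩ := hsupp s hs
    exact (MvPolynomial.mem_support_iff.1 hs) (congrFun hv b)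
  · rw [← h0, MvPolynomial.eval_eq']
    have h1 : Q.support ⊆ (Finset.univ.image (expoA (N := N) (k := k) (δ := δ) (B := B) l)) := by
      intro s hs
      obtain ⟨b, rfl⟩ := hsupp s hs
      exact Finset.mem_image_of_mem _ (Finset.mem_univ b)
    rw [Finset.sum_subset h1 (fun s _ hs => by rw [MvPolynomial.notMem_support_iff.1 hs, zero_mul]),
      Finset.sum_image fun b _ b' _ hb => hinj hb]
    refine Finset.sum_congr rfl fun b _ => ?_
    congr 1
    rw [Fintype.prod_sigma]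
    refine Finset.prod_congr rfl fun i _ => ?_
    rw [Fintype.prod_prod_type]
    unfold mon
    refine Finset.prod_congr rfl fun κ _ => Finset.prod_congr rfl fun a _ => ?_
    rfl

/-- **Main theorem on blocks.** -/
theorem blocksA (em : ∀ j, B j → α) (hem : ∀ j, Function.Injective (em j)) {k δ : ℕ → ℕ} (hδ : Monotone δ)
    (Y : ∀ j, ι → Set (B j → ℂ)) {U : ℕ → ι → Submodule ℚ ℂ}
    (hUf : ∀ j t, Module.Finite ℚ (U j t)) (hU1 : ∀ j t, (1 : ℂ) ∈ U j t) {u : ℕ → ℕ}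
    (hu : ∀ j t, Module.finrank ℚ (U j t) ≤ u j)
    {V : ℕ → Submodule ℚ ℂ} (hVf : ∀ j, Module.Finite ℚ (V j)) (hV : Monotone V)
    (R : ℕ → (ℕ → ℕ → ι) → (ℕ → ι) → Prop) (hR : ∀ j t t' s, (∀ i < j, t i = t' i) → R j t s → R j t' s)
    (hRinj : ∀ t : ℕ → ℕ → ι, (∀ j, R j t (t j)) → Function.Injective fun p : (Σ j, Fin (k j)) => t p.1 p.2)
    (hS : ∀ (j : ℕ) (t : ℕ → ℕ → ι) (W : Submodule ℚ ℂ), Module.Finite ℚ W →
      Module.finrank ℚ W ≤ Module.finrank ℚ (V j) * ∏ i ∈ Finset.range j, u i ^ k i → ∃ s : ℕ → ι, R j t s ∧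
      (∀ κ : Fin (k j), ∀ y ∈ Y j (s κ), ∃ m : ℂ, m ≠ 0 ∧ ∀ e : B j → Fin (δ j + 1), m * ∏ a, y a ^ (e a : ℕ) ∈ U j (s κ)) ∧
      ∀ K : IntermediateField ℚ ℂ, FiniteDimensional ℚ K → Module.finrank ℚ K ≤ δ j → ∀ y : Fin (k j) → B j → ℂ,
        (∀ κ : Fin (k j), y κ ∈ Y j (s κ)) → ¬ Rel K W (mon (δ j) y)) :
    ∃ t : ℕ → ℕ → ι, (∀ j, R j t (t j)) ∧ ∀ y : ι → α → ℂ,
      (∀ j (κ : Fin (k j)), (fun b => y (t j κ) (em j b)) ∈ Y j (t j κ)) →
      ∀ (l : ℕ) (K : IntermediateField ℚ ℂ), FiniteDimensional ℚ K → Module.finrank ℚ K ≤ δ l →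
      ∀ P : MvPolynomial (ι × α) ℂ, P ≠ 0 → (∀ v ∈ P.vars, ∃ j ≥ l, v.2 ∈ Set.range (em j) ∧ ∃ κ : Fin (k j), v.1 = t j κ) →
        (∀ v, P.degreeOf v ≤ δ l) → (∀ s, P.coeff s ∈ Submodule.span K (V l : Set ℂ)) →
        MvPolynomial.eval (fun v => y v.1 v.2) P ≠ 0 := by
  classical
  obtain ⟨t, ht1, ht2⟩ := main4 (τ := ℕ → ι) (β := fun j => Fin (k j) → B j → Fin (δ j + 1))
    (U := fun j s => ∏ κ : Fin (k j), U j (s κ)) (u := fun j => u j ^ k j)
    (fun j s => (prod_fin _ (fun κ => hUf j _) fun κ => hu j _).1)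
    (fun j s => by
      have h1 := prod_mem_prod (fun κ : Fin (k j) => U j (s κ)) (x := fun _ => 1) fun κ => hU1 j _
      rwa [Finset.prod_const_one] at h1)
    (fun j s => (prod_fin _ (fun κ => hUf j _) fun κ => hu j _).2)
    (fun j s => {x | ∃ y : Fin (k j) → B j → ℂ, (∀ κ : Fin (k j), y κ ∈ Y j (s κ)) ∧ x = mon (δ j) y})
    R hR hVf hV hδ (by
      intro j t W hW hWd
      obtain ⟨s, hs1, hs2, hs3⟩ := hS j t W hW hWd
      refine ⟨s, hs1, ?_, ?_⟩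
      · rintro x ⟨y, hy, rfl⟩
        choose m hm0 hm using fun κ => hs2 κ (y κ) (hy κ)
        refine ⟨∏ κ, m κ, Finset.prod_ne_zero_iff.2 fun κ _ => hm0 κ, fun b => ?_⟩
        unfold mon
        rw [← Finset.prod_mul_distrib]
        exact prod_mem_prod _ fun κ => hm κ (b κ)
      · rintro K hK hKD x ⟨y, hy, rfl⟩
        exact hs3 K hK hKD y hy)
  refine ⟨t, ht1, fun y hy l K hK hKD P hP hPv hPd hPc => ?_⟩
  have hinj := hRinj t ht1
  -- the number of blocks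
  obtain ⟨N, hN⟩ : ∃ N : ℕ, ∀ v ∈ P.vars, ∃ j, l ≤ j ∧ j < l + N ∧ v.2 ∈ Set.range (em j) ∧ ∃ κ : Fin (k j), v.1 = t j κ := by
    choose! f hf1 hf2 using hPv
    refine ⟨P.vars.sup f + 1, fun v hv => ⟨f v, hf1 v hv, ?_, hf2 v hv⟩⟩
    have := Finset.le_sup (f := f) hv
    omega
  set Φ : (Σ i : Fin N, Fin (k (l + i)) × B (l + i)) → ι × α := fun v => (t (l + v.1) v.2.1, em (l + v.1) v.2.2) with hΦ
  have hΦinj : Function.Injective Φ := by
    rintro ⟨i, κ, a⟩ ⟨i', κ', a'⟩ h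
    have h1 : t (l + i) κ = t (l + i') κ' := congrArg Prod.fst h
    have h2 : em (l + i) a = em (l + i') a' := congrArg Prod.snd h
    have h3 := hinj (a₁ := ⟨l + i, κ⟩) (a₂ := ⟨l + i', κ'⟩) h1
    have h4 : l + (i : ℕ) = l + i' := congrArg Sigma.fst h3
    have h5 : i = i' := Fin.ext (by omega)
    subst h5
    rw [Sigma.mk.injEq] at h3
    have h6 := eq_of_heq h3.2
    rw [h6, hem _ h2]
  obtain ⟨Q, hQ⟩ := MvPolynomial.exists_rename_eq_of_vars_subset_range P Φ hΦinj (by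
    intro v hv
    obtain ⟨j, hj1, hj2, ⟨b, hb⟩, κ, hκ⟩ := hN v hv
    obtain ⟨i, rfl⟩ := Nat.exists_eq_add_of_le hj1
    exact ⟨⟨⟨i, by omega⟩, κ, b⟩, Prod.ext hκ.symm hb⟩)
  have h1 := poly_ofA (N := N) (k := k) (δ := δ) hδ (l := l) (K := K) (V := V l) (y := fun j κ b => y (t j κ) (em j b))
    (ht2 (fun j => mon (δ j) fun κ b => y (t j κ) (em j b)) (fun j => ⟨fun κ b => y (t j κ) (em j b), fun κ => hy j κ, rfl⟩) l N K hK hKD)
    Q (by
      rintro rfl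
      exact hP (by rw [← hQ, map_zero])) (fun v => by
      rw [← MvPolynomial.degreeOf_rename_of_injective hΦinj, hQ]
      exact hPd _) (fun s => by
      rw [← MvPolynomial.coeff_rename_mapDomain Φ hΦinj, hQ]
      exact hPc _)
  intro h0
  apply h1
  rw [← hQ, MvPolynomial.eval_rename] at h0
  exact h0

/-- **Main theorem, general form.** The windows `B` with `Good j B` have few exceptions; all data depend on the level. -/
theorem universalA (em : ∀ j, B j → α) (hem : ∀ j, Function.Injective (em j)) (sz : ι → ℝ) (Y : ∀ j, ι → Set (B j → ℂ)) (U : ℕ → ι → Submodule ℚ ℂ) (hUf : ∀ j t, Module.Finite ℚ (U j t))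
    (hU1 : ∀ j t, (1 : ℂ) ∈ U j t) (u : ℕ → ℕ) (hu : ∀ j t, Module.finrank ℚ (U j t) ≤ u j) {δ : ℕ → ℕ}
    (hUY : ∀ j : ℕ, ∃ T : ℕ, ∀ t : ι, (T : ℝ) ≤ sz t → ∀ y ∈ Y j t, ∃ m : ℂ, m ≠ 0 ∧
      ∀ e : B j → Fin (δ j + 1), m * ∏ a, y a ^ (e a : ℕ) ∈ U j t)
    (c : ℕ → ℕ) (Good : ℕ → Finset ι → Prop)
    (hwin : ∀ j q k N m : ℕ, 1 ≤ m → ∃ C : Finset ι, C.card = m ∧ Good j C ∧ (∀ t ∈ C, (N : ℝ) ≤ sz t) ∧
      ∀ W : Submodule ℚ ℂ, Module.Finite ℚ W → Module.finrank ℚ W ≤ q → ∃ S : Finset ι, S.card ≤ q + c j ∧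
      ∀ n : Fin k → ι, Function.Injective n → (∀ κ, n κ ∈ C ∧ n κ ∉ S) →
      ∀ K : IntermediateField ℚ ℂ, FiniteDimensional ℚ K → Module.finrank ℚ K ≤ δ j →
      ∀ y : Fin k → B j → ℂ, (∀ κ, y κ ∈ Y j (n κ)) → ¬ Rel K W (mon (δ j) y))
    {V : ℕ → Submodule ℚ ℂ} (hVf : ∀ j, Module.Finite ℚ (V j)) (hV : Monotone V) (hδ : Monotone δ) :
    ∃ C T : ℕ → Finset ι,
      (∀ j, Good j (C j) ∧ (∀ t ∈ C j, (j : ℝ) ≤ sz t) ∧ T j ⊆ C j ∧ j ≤ (T j).card ∧
        (j + 1) * ((C j).card - (T j).card) ≤ (C j).card) ∧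
      (∀ i j, i ≠ j → Disjoint (T i) (T j)) ∧
      ∀ y : ι → α → ℂ, (∀ j, ∀ t ∈ T j, (fun b => y t (em j b)) ∈ Y j t) →
      ∀ (l : ℕ) (K : IntermediateField ℚ ℂ), FiniteDimensional ℚ K → Module.finrank ℚ K ≤ δ l →
      ∀ P : MvPolynomial (ι × α) ℂ, P ≠ 0 → (∀ v ∈ P.vars, ∃ j ≥ l, v.2 ∈ Set.range (em j) ∧ v.1 ∈ T j) →
        (∀ v, P.degreeOf v ≤ δ l) → (∀ s, P.coeff s ∈ Submodule.span K (V l : Set ℂ)) →
        MvPolynomial.eval (fun v => y v.1 v.2) P ≠ 0 := by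
  classical
  -- the sizes of the blocks
  set qf : (ℕ → ℕ) → ℕ → ℕ := fun k j => Module.finrank ℚ (V j) * ∏ i ∈ Finset.range j, u i ^ k i with hqf
  set mf : (ℕ → ℕ) → ℕ → ℕ := fun k j => (j + 1) * (qf k j + c j) + j + 1 with hmf
  obtain ⟨k, hk⟩ := exists_seq (α := ℕ) (fun j k x => x = mf k j - (qf k j + c j))
    (by
      intro j k k' x hkk hx
      have h1 : qf k j = qf k' j := by
        rw [hqf]
        beta_reduce
        congr 1
        exact Finset.prod_congr rfl fun i hi => by rw [hkk i (Finset.mem_range.1 hi)]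
      have h2 : mf k j = mf k' j := by
        rw [hmf]
        beta_reduce
        rw [h1]
      rw [← h1, ← h2]
      exact hx)
    (fun j k => ⟨_, rfl⟩)
  have hmk : ∀ j, mf k j = k j + (qf k j + c j) := by
    intro j
    have h1 := hk j
    have h2 : qf k j + c j ≤ mf k j := by
      show qf k j + c j ≤ (j + 1) * (qf k j + c j) + j + 1
      nlinarith
    omega
  have hkj : ∀ j, j ≤ k j := by
    intro j
    have h1 := hmk j
    have h2 : mf k j = (j + 1) * (qf k j + c j) + j + 1 := rfl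
    have h3 : (j + 1) * (qf k j + c j) = j * (qf k j + c j) + (qf k j + c j) := by ring
    rw [h2, h3] at h1
    omega
  have hm1 : ∀ j, 1 ≤ mf k j := fun j => by
    show 1 ≤ (j + 1) * (qf k j + c j) + j + 1
    omega
  set R : ℕ → (ℕ → ℕ → ι) → (ℕ → ι) → Prop := fun j t s => ∃ C : Finset ι, Good j C ∧
    (∀ x ∈ C, (j : ℝ) ≤ sz x ∧ ∀ i < j, ∀ κ < k i, sz (t i κ) < sz x) ∧
    (∀ κ < k j, s κ ∈ C) ∧ (∀ κ < k j, ∀ κ' < k j, s κ = s κ' → κ = κ') ∧ C.card = mf k j with hR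
  obtain ⟨t, ht1, ht2⟩ := blocksA (ι := ι) (α := α) (B := B) em hem (k := k) hδ Y (U := U) hUf
    hU1 (u := u) hu hVf hV R
    (by
      rintro j t t' s htt ⟨C, h0, h1, h2, h3, h4⟩
      refine ⟨C, h0, fun x hx => ⟨(h1 x hx).1, fun i hi κ hκ => ?_⟩, h2, h3, h4⟩
      rw [← htt i hi]
      exact (h1 x hx).2 i hi κ hκ)
    (by
      rintro t ht ⟨j, κ⟩ ⟨j', κ'⟩ h
      have h' : t j κ = t j' κ' := h
      have key : ∀ (i i' : ℕ) (κ : Fin (k i)) (κ' : Fin (k i')), i < i' → t i κ ≠ t i' κ' := by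
        intro i i' κ κ' hi he
        obtain ⟨C, h0, h1, h2, h3, h4⟩ := ht i'
        have h5 := (h1 _ (h2 κ' κ'.2)).2 i hi κ κ.2
        rw [he] at h5
        exact lt_irrefl _ h5
      rcases lt_trichotomy j j' with hj | hj | hj
      · exact absurd h' (key _ _ _ _ hj)
      · subst hj
        obtain ⟨C, h0, h1, h2, h3, h4⟩ := ht j
        rw [Fin.ext (h3 κ κ.2 κ' κ'.2 h')]
      · exact absurd h'.symm (key _ _ _ _ hj))
    (by
      intro j t W hW hWd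
      obtain ⟨T0, hT0⟩ := hUY j
      obtain ⟨X1, hX1⟩ := exists_nat_gt (∑ i ∈ Finset.range j, ∑ κ ∈ Finset.range (k i), |sz (t i κ)|)
      obtain ⟨C, hBc, hBG, hBs, hBW⟩ := hwin j (qf k j) (k j) (X1 + T0 + j) (mf k j) (hm1 j)
      obtain ⟨S, hS1, hS2⟩ := hBW W hW hWd
      have hc2 : k j ≤ (C \ S).card := by
        have h1 := Finset.le_card_sdiff S C
        have h2 := hmk j
        omega
      obtain ⟨B', hB1, hB2⟩ := Finset.exists_subset_card_eq hc2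
      set f : Fin (k j) ≃ B' := (Finset.equivFinOfCardEq hB2).symm with hf
      set s : ℕ → ι := fun κ => if hκ : κ < k j then (f ⟨κ, hκ⟩ : ι) else default with hs
      have hsv : ∀ κ : Fin (k j), s κ = f κ := by
        intro κ
        show (if hκ : (κ : ℕ) < k j then (f ⟨κ, hκ⟩ : ι) else default) = f κ
        rw [dif_pos κ.2]
      have hsB : ∀ κ : Fin (k j), s κ ∈ C ∧ s κ ∉ S := by
        intro κ
        rw [hsv]
        exact Finset.mem_sdiff.1 (hB1 (f κ).2)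
      have hinj : Function.Injective fun κ : Fin (k j) => s κ := by
        intro κ κ' he
        simp only [hsv] at he
        exact f.injective (Subtype.ext he)
      have hbig : ∀ x ∈ C, (X1 : ℝ) ≤ sz x ∧ (T0 : ℝ) ≤ sz x ∧ (j : ℝ) ≤ sz x := by
        intro x hx
        have h1 := hBs x hx
        push_cast at h1
        have h2 : (0 : ℝ) ≤ X1 := Nat.cast_nonneg _
        have h3 : (0 : ℝ) ≤ T0 := Nat.cast_nonneg _
        have h4 : (0 : ℝ) ≤ (j : ℝ) := Nat.cast_nonneg _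
        exact ⟨by linarith, by linarith, by linarith⟩
      refine ⟨s, ⟨C, hBG, fun x hx => ⟨(hbig x hx).2.2, fun i hi κ hκ => ?_⟩, fun κ hκ => (hsB ⟨κ, hκ⟩).1, fun κ hκ κ' hκ' he => ?_, hBc⟩,
        fun κ y hy => hT0 _ (hbig _ (hsB κ).1).2.1 y hy,
        fun K hK hKD y hy => hS2 (fun κ => s κ) hinj (fun κ => ⟨(hsB κ).1, (hsB κ).2⟩) K hK hKD y hy⟩
      · have h1 := (hbig x hx).1
        have h2 : |sz (t i κ)| ≤ ∑ i ∈ Finset.range j, ∑ κ ∈ Finset.range (k i), |sz (t i κ)| := by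
          refine le_trans ?_ (Finset.single_le_sum (f := fun i => ∑ κ ∈ Finset.range (k i), |sz (t i κ)|)
            (fun _ _ => Finset.sum_nonneg fun _ _ => abs_nonneg _) (Finset.mem_range.2 hi))
          exact Finset.single_le_sum (f := fun κ => |sz (t i κ)|) (fun _ _ => abs_nonneg _) (Finset.mem_range.2 hκ)
        have h3 := le_abs_self (sz (t i κ))
        linarith
      · exact congrArg Fin.val (hinj (a₁ := ⟨κ, hκ⟩) (a₂ := ⟨κ', hκ'⟩) he))
  choose C h0 h1 h2 h3 h4 using ht1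
  have hTc : ∀ j, ((Finset.range (k j)).image (t j)).card = k j := by
    intro j
    rw [Finset.card_image_of_injOn, Finset.card_range]
    intro κ hκ κ' hκ' he
    exact h3 j κ (Finset.mem_range.1 (Finset.mem_coe.1 hκ)) κ' (Finset.mem_range.1 (Finset.mem_coe.1 hκ')) he
  have hTs : ∀ j, (Finset.range (k j)).image (t j) ⊆ C j := by
    intro j x hx
    obtain ⟨κ, hκ, rfl⟩ := Finset.mem_image.1 hx
    exact h2 j κ (Finset.mem_range.1 hκ)
  refine ⟨C, fun j => (Finset.range (k j)).image (t j), fun j => ⟨h0 j, fun x hx => (h1 j x hx).1, hTs j, ?_, ?_⟩,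
    fun i j hij => ?_, fun y hy l K hK hKD P hP hPv hPd hPc => ?_⟩
  · rw [hTc]
    exact hkj j
  · rw [hTc, h4]
    have h6 := hmk j
    have h7 : mf k j - k j = qf k j + c j := by omega
    rw [h7]
    show (j + 1) * (qf k j + c j) ≤ (j + 1) * (qf k j + c j) + j + 1
    omega
  · rw [Finset.disjoint_left]
    intro x hx hx'
    obtain ⟨κ, hκ, rfl⟩ := Finset.mem_image.1 hx
    obtain ⟨κ', hκ', he⟩ := Finset.mem_image.1 hx'
    rw [Finset.mem_range] at hκ hκ'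
    rcases lt_or_gt_of_ne hij with hlt | hlt
    · have h5 := (h1 j _ (h2 j κ' hκ')).2 i hlt κ hκ
      rw [he] at h5
      exact lt_irrefl _ h5
    · have h5 := (h1 i _ (h2 i κ hκ)).2 j hlt κ' hκ'
      rw [he] at h5
      exact lt_irrefl _ h5
  · refine ht2 y (fun j κ => hy j _ (Finset.mem_image_of_mem _ (Finset.mem_range.2 κ.2))) l K hK hKD P hP (fun v hv => ?_) hPd hPc
    obtain ⟨j, hj, hjr, hjv⟩ := hPv v hv
    obtain ⟨κ, hκ, he⟩ := Finset.mem_image.1 hjv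
    exact ⟨j, hj, hjr, ⟨κ, Finset.mem_range.1 hκ⟩, he.symm⟩

end blocksA

end Pool.Agent.U534.Tens
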