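import Pool.Agent.U534.TensorSeq2

/-!
# Sequences of blocks of points

The recursive choice of infinitely many blocks of points, all points together without polynomial relations.
-/

set_option autoImplicit false
set_option linter.unusedSectionVars false

namespace Pool.Agent.U534.Tens

/-! ### dimensions -/

theorem finrank_PU {τ : Type} {U : ℕ → τ → Submodule ℚ ℂ} {t : ℕ → τ} (hU : ∀ j s, Module.Finite ℚ (U j s)) {u : ℕ → ℕ}
    (hu : ∀ j s, Module.finrank ℚ (U j s) ≤ u j) (j : ℕ) :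
    Module.finrank ℚ (PU U t j) ≤ ∏ i ∈ Finset.range j, u i := by
  induction j with
  | zero =>
    rw [Finset.prod_range_zero]
    have h1 : PU U t 0 = Submodule.span ℚ {(1 : ℂ)} := Submodule.one_eq_span
    rw [h1]
    exact (finrank_span_le_card _).trans (by simp)
  | succ j ih =>
    have h2 := hU j (t j)
    have h3 := PU_fin (t := t) hU j
    rw [Finset.prod_range_succ]
    exact ((Pool.Agent.Y113.finrank_mul_le _ _).2).trans (Nat.mul_le_mul ih (hu j (t j)))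

/-- **Main theorem, with bounds for the dimensions** -/
theorem main4 {τ : Type} [Inhabited τ] {β : ℕ → Type} [∀ j, Fintype (β j)] {U : ℕ → τ → Submodule ℚ ℂ}
    (hUf : ∀ j s, Module.Finite ℚ (U j s)) (hU1 : ∀ j s, (1 : ℂ) ∈ U j s) {u : ℕ → ℕ}
    (hu : ∀ j s, Module.finrank ℚ (U j s) ≤ u j) (X : ∀ j, τ → Set (β j → ℂ))
    (R : ℕ → (ℕ → τ) → τ → Prop) (hR : ∀ j t t' s, (∀ i < j, t i = t' i) → R j t s → R j t' s)
    {V : ℕ → Submodule ℚ ℂ} (hVf : ∀ j, Module.Finite ℚ (V j)) (hV : Monotone V) {D : ℕ → ℕ} (hD : Monotone D)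
    (hS : ∀ (j : ℕ) (t : ℕ → τ) (W : Submodule ℚ ℂ), Module.Finite ℚ W →
      Module.finrank ℚ W ≤ Module.finrank ℚ (V j) * ∏ i ∈ Finset.range j, u i → ∃ s, R j t s ∧
      (∀ x ∈ X j s, ∃ M : ℂ, M ≠ 0 ∧ ∀ b, M * x b ∈ U j s) ∧
      ∀ K : IntermediateField ℚ ℂ, FiniteDimensional ℚ K → Module.finrank ℚ K ≤ D j → ∀ x ∈ X j s, ¬ Rel K W x) :
    ∃ t : ℕ → τ, (∀ j, R j t (t j)) ∧ ∀ x : ∀ j, β j → ℂ, (∀ j, x j ∈ X j (t j)) → ∀ (l N : ℕ)
      (K : IntermediateField ℚ ℂ), FiniteDimensional ℚ K → Module.finrank ℚ K ≤ D l →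
      ¬ Rel K (V l) (fun b : (i : Fin N) → β (l + i) => ∏ i : Fin N, x (l + i) (b i)) := by
  classical
  obtain ⟨t, ht⟩ := exists_seq (α := τ) (fun j t s => R j t s ∧
      (∀ x ∈ X j s, ∃ M : ℂ, M ≠ 0 ∧ ∀ b, M * x b ∈ U j s) ∧
      ∀ K : IntermediateField ℚ ℂ, FiniteDimensional ℚ K → Module.finrank ℚ K ≤ D j → ∀ x ∈ X j s,
        ¬ Rel K (V j * PU U t j) x)
    (by
      rintro j t t' s htt ⟨h3, h4, h6⟩
      refine ⟨hR j t t' s htt h3, h4, ?_⟩
      rw [← PU_congr htt]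
      exact h6)
    (by
      intro j t
      have h1 := hVf j
      have h2 := PU_fin (t := t) hUf j
      refine hS j t _ (Pool.Agent.Y113.finrank_mul_le (V j) (PU U t j)).1 ?_
      exact ((Pool.Agent.Y113.finrank_mul_le (V j) (PU U t j)).2).trans (Nat.mul_le_mul_left _ (finrank_PU hUf hu j)))
  refine ⟨t, fun j => (ht j).1, fun x hx => ?_⟩
  choose M hM0 hM using fun j => (ht j).2.1 (x j) (hx j)
  exact products2 hU1 hM0 hM hV hD fun j K hK hKD => (ht j).2.2 K hK hKD (x j) (hx j)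

/-! ### products of spaces -/

theorem prod_fin {k : ℕ} (F : Fin k → Submodule ℚ ℂ) (hF : ∀ i, Module.Finite ℚ (F i)) {c : ℕ}
    (hc : ∀ i, Module.finrank ℚ (F i) ≤ c) :
    Module.Finite ℚ (∏ i, F i : Submodule ℚ ℂ) ∧ Module.finrank ℚ (∏ i, F i : Submodule ℚ ℂ) ≤ c ^ k := by
  induction k with
  | zero =>
    rw [Fin.prod_univ_zero, Submodule.one_eq_span]
    exact ⟨inferInstance, by
      rw [pow_zero]
      exact (finrank_span_le_card _).trans (by simp)⟩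
  | succ k ih =>
    rw [Fin.prod_univ_castSucc]
    have h1 := hF (Fin.last k)
    obtain ⟨h2, h3⟩ := ih (fun i => F i.castSucc) (fun i => hF _) fun i => hc _
    refine ⟨(Pool.Agent.Y113.finrank_mul_le _ _).1, ((Pool.Agent.Y113.finrank_mul_le _ _).2).trans ?_⟩
    rw [pow_succ]
    exact Nat.mul_le_mul h3 (hc _)

theorem prod_mem_prod {k : ℕ} (F : Fin k → Submodule ℚ ℂ) {x : Fin k → ℂ} (hx : ∀ i, x i ∈ F i) :
    ∏ i, x i ∈ (∏ i, F i : Submodule ℚ ℂ) := by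
  induction k with
  | zero =>
    rw [Fin.prod_univ_zero, Fin.prod_univ_zero]
    exact Submodule.one_le.1 le_rfl
  | succ k ih =>
    rw [Fin.prod_univ_castSucc, Fin.prod_univ_castSucc]
    exact Submodule.mul_mem_mul (ih (fun i => F i.castSucc) fun i => hx _) (hx _)

/-! ### blocks -/

section blocks
variable {ι α : Type} [Inhabited ι] [Fintype α] [DecidableEq α]

/-- the monomials of degree at most `δ` in each of the numbers `y κ a` -/
noncomputable def mon {k : ℕ} (δ : ℕ) (y : Fin k → α → ℂ) (b : Fin k → α → Fin (δ + 1)) : ℂ :=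
  ∏ κ, ∏ a, y κ a ^ (b κ a : ℕ)

/-- the exponents -/
noncomputable def expo {N : ℕ} {k δ : ℕ → ℕ} (l : ℕ) (b : (i : Fin N) → (Fin (k (l + i)) → α → Fin (δ (l + i) + 1))) :
    ((Σ i : Fin N, Fin (k (l + i))) × α) →₀ ℕ :=
  Finsupp.equivFunOnFinite.symm fun v => (b v.1.1 v.1.2 v.2 : ℕ)

/-- from products of monomials to polynomials -/
theorem poly_of {N : ℕ} {k δ : ℕ → ℕ} (hδ : Monotone δ) {l : ℕ} {K : IntermediateField ℚ ℂ} {V : Submodule ℚ ℂ}
    {y : (j : ℕ) → Fin (k j) → α → ℂ}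
    (h : ¬ Rel K V (fun b : (i : Fin N) → (Fin (k (l + i)) → α → Fin (δ (l + i) + 1)) =>
      ∏ i : Fin N, mon (δ (l + i)) (y (l + i)) (b i)))
    (Q : MvPolynomial ((Σ i : Fin N, Fin (k (l + i))) × α) ℂ) (hQ : Q ≠ 0) (hd : ∀ v, Q.degreeOf v ≤ δ l)
    (hc : ∀ s, Q.coeff s ∈ Submodule.span K (V : Set ℂ)) :
    MvPolynomial.eval (fun v => y (l + v.1.1) v.1.2 v.2) Q ≠ 0 := by
  classical
  intro h0
  have hinj : Function.Injective (expo (N := N) (k := k) (δ := δ) (α := α) l) := by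
    intro b b' hb
    funext i κ a
    have h1 := DFunLike.congr_fun hb (⟨i, κ⟩, a)
    exact Fin.ext h1
  have hsupp : ∀ s ∈ Q.support, ∃ b, expo (N := N) (k := k) (δ := δ) (α := α) l b = s := by
    intro s hs
    refine ⟨fun i κ a => ⟨s (⟨i, κ⟩, a), ?_⟩, ?_⟩
    · have h1 := MvPolynomial.monomial_le_degreeOf (⟨i, κ⟩, a) hs
      have h2 := hd (⟨i, κ⟩, a)
      have h3 := hδ (Nat.le_add_right l i)
      omega
    · ext v
      rfl
  refine h ⟨fun b => Q.coeff (expo l b), fun b => hc _, ?_, ?_⟩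
  · intro hv
    apply hQ
    rw [← MvPolynomial.support_eq_empty, Finset.eq_empty_iff_forall_notMem]
    intro s hs
    obtain ⟨b, rfl⟩ := hsupp s hs
    exact (MvPolynomial.mem_support_iff.1 hs) (congrFun hv b)
  · rw [← h0, MvPolynomial.eval_eq']
    have h1 : Q.support ⊆ (Finset.univ.image (expo (N := N) (k := k) (δ := δ) (α := α) l)) := by
      intro s hs
      obtain ⟨b, rfl⟩ := hsupp s hs
      exact Finset.mem_image_of_mem _ (Finset.mem_univ b)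
    rw [Finset.sum_subset h1 (fun s _ hs => by rw [MvPolynomial.notMem_support_iff.1 hs, zero_mul]),
      Finset.sum_image fun b _ b' _ hb => hinj hb]
    refine Finset.sum_congr rfl fun b _ => ?_
    congr 1
    rw [Fintype.prod_prod_type, Fintype.prod_sigma]
    refine Finset.prod_congr rfl fun i _ => ?_
    unfold mon
    refine Finset.prod_congr rfl fun κ _ => Finset.prod_congr rfl fun a _ => ?_
    rfl

/-- **Main theorem on blocks.** -/
theorem blocks {k δ : ℕ → ℕ} (hδ : Monotone δ) (Y : ℕ → ι → Set (α → ℂ)) {U : ℕ → ι → Submodule ℚ ℂ}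
    (hUf : ∀ j t, Module.Finite ℚ (U j t)) (hU1 : ∀ j t, (1 : ℂ) ∈ U j t) {u : ℕ → ℕ}
    (hu : ∀ j t, Module.finrank ℚ (U j t) ≤ u j)
    {V : ℕ → Submodule ℚ ℂ} (hVf : ∀ j, Module.Finite ℚ (V j)) (hV : Monotone V)
    (R : ℕ → (ℕ → ℕ → ι) → (ℕ → ι) → Prop) (hR : ∀ j t t' s, (∀ i < j, t i = t' i) → R j t s → R j t' s)
    (hRinj : ∀ t : ℕ → ℕ → ι, (∀ j, R j t (t j)) → Function.Injective fun p : (Σ j, Fin (k j)) => t p.1 p.2)
    (hS : ∀ (j : ℕ) (t : ℕ → ℕ → ι) (W : Submodule ℚ ℂ), Module.Finite ℚ W →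
      Module.finrank ℚ W ≤ Module.finrank ℚ (V j) * ∏ i ∈ Finset.range j, u i ^ k i → ∃ s : ℕ → ι, R j t s ∧
      (∀ κ : Fin (k j), ∀ y ∈ Y j (s κ), ∃ m : ℂ, m ≠ 0 ∧ ∀ e : α → Fin (δ j + 1), m * ∏ a, y a ^ (e a : ℕ) ∈ U j (s κ)) ∧
      ∀ K : IntermediateField ℚ ℂ, FiniteDimensional ℚ K → Module.finrank ℚ K ≤ δ j → ∀ y : Fin (k j) → α → ℂ,
        (∀ κ : Fin (k j), y κ ∈ Y j (s κ)) → ¬ Rel K W (mon (δ j) y)) :
    ∃ t : ℕ → ℕ → ι, (∀ j, R j t (t j)) ∧ ∀ y : ι → α → ℂ, (∀ j (κ : Fin (k j)), y (t j κ) ∈ Y j (t j κ)) →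
      ∀ (l : ℕ) (K : IntermediateField ℚ ℂ), FiniteDimensional ℚ K → Module.finrank ℚ K ≤ δ l →
      ∀ P : MvPolynomial (ι × α) ℂ, P ≠ 0 → (∀ v ∈ P.vars, ∃ j ≥ l, ∃ κ : Fin (k j), v.1 = t j κ) →
        (∀ v, P.degreeOf v ≤ δ l) → (∀ s, P.coeff s ∈ Submodule.span K (V l : Set ℂ)) →
        MvPolynomial.eval (fun v => y v.1 v.2) P ≠ 0 := by
  classical
  obtain ⟨t, ht1, ht2⟩ := main4 (τ := ℕ → ι) (β := fun j => Fin (k j) → α → Fin (δ j + 1))
    (U := fun j s => ∏ κ : Fin (k j), U j (s κ)) (u := fun j => u j ^ k j)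
    (fun j s => (prod_fin _ (fun κ => hUf j _) fun κ => hu j _).1)
    (fun j s => by
      have h1 := prod_mem_prod (fun κ : Fin (k j) => U j (s κ)) (x := fun _ => 1) fun κ => hU1 j _
      rwa [Finset.prod_const_one] at h1)
    (fun j s => (prod_fin _ (fun κ => hUf j _) fun κ => hu j _).2)
    (fun j s => {x | ∃ y : Fin (k j) → α → ℂ, (∀ κ : Fin (k j), y κ ∈ Y j (s κ)) ∧ x = mon (δ j) y})
    R hR hVf hV hδ (by
      intro j t W hW hWd
      obtain ⟨s, hs1, hs2, hs3⟩ := hS j t W hW hWd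
      refine ⟨s, hs1, ?_, ?_⟩
      · rintro x ⟨y, hy, rfl⟩
        choose m hm0 hm using fun κ => hs2 κ (y κ) (hy κ)
        refine ⟨∏ κ, m κ, Finset.prod_ne_zero_iff.2 fun κ _ => hm0 κ, fun b => ?_⟩
        unfold mon
        rw [← Finset.prod_mul_distrib]
        exact prod_mem_prod _ fun κ => hm κ (b κ)
      · rintro K hK hKD x ⟨y, hy, rfl⟩
        exact hs3 K hK hKD y hy)
  refine ⟨t, ht1, fun y hy l K hK hKD P hP hPv hPd hPc => ?_⟩
  have hinj := hRinj t ht1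
  -- the number of blocks
  obtain ⟨N, hN⟩ : ∃ N : ℕ, ∀ v ∈ P.vars, ∃ j, l ≤ j ∧ j < l + N ∧ ∃ κ : Fin (k j), v.1 = t j κ := by
    choose! f hf1 hf2 using hPv
    refine ⟨P.vars.sup f + 1, fun v hv => ⟨f v, hf1 v hv, ?_, hf2 v hv⟩⟩
    have := Finset.le_sup (f := f) hv
    omega
  set Φ : ((Σ i : Fin N, Fin (k (l + i))) × α) → ι × α := fun v => (t (l + v.1.1) v.1.2, v.2) with hΦ
  have hΦinj : Function.Injective Φ := by
    rintro ⟨⟨i, κ⟩, a⟩ ⟨⟨i', κ'⟩, a'⟩ h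
    have h1 : t (l + i) κ = t (l + i') κ' := congrArg Prod.fst h
    have h2 : a = a' := congrArg Prod.snd h
    have h3 := hinj (a₁ := ⟨l + i, κ⟩) (a₂ := ⟨l + i', κ'⟩) h1
    have h4 : l + (i : ℕ) = l + i' := congrArg Sigma.fst h3
    have h5 : i = i' := Fin.ext (by omega)
    subst h5
    rw [Sigma.mk.injEq] at h3
    have h6 := eq_of_heq h3.2
    rw [h6, h2]
  obtain ⟨Q, hQ⟩ := MvPolynomial.exists_rename_eq_of_vars_subset_range P Φ hΦinj (by
    intro v hv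
    obtain ⟨j, hj1, hj2, κ, hκ⟩ := hN v hv
    obtain ⟨i, rfl⟩ := Nat.exists_eq_add_of_le hj1
    exact ⟨(⟨⟨i, by omega⟩, κ⟩, v.2), Prod.ext hκ.symm rfl⟩)
  have h1 := poly_of (N := N) (k := k) (δ := δ) hδ (l := l) (K := K) (V := V l) (y := fun j κ => y (t j κ))
    (ht2 (fun j => mon (δ j) fun κ => y (t j κ)) (fun j => ⟨fun κ => y (t j κ), fun κ => hy j κ, rfl⟩) l N K hK hKD)
    Q (by
      rintro rfl
      exact hP (by rw [← hQ, map_zero])) (fun v => by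
      rw [← MvPolynomial.degreeOf_rename_of_injective hΦinj, hQ]
      exact hPd _) (fun s => by
      rw [← MvPolynomial.coeff_rename_mapDomain Φ hΦinj, hQ]
      exact hPc _)
  intro h0
  apply h1
  rw [← hQ, MvPolynomial.eval_rename] at h0
  exact h0

end blocks

end Pool.Agent.U534.Tens
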