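import Pool.Agent.U534.GenLogA
import Pool.Agent.Y916.Sl.Fin
import Pool.Agent.Y916.Sl.Lim

/-!
# Infinitely many curves: integrals of the three kinds on almost full windows
-/

set_option autoImplicit false
set_option linter.unusedSectionVars false

namespace Pool.Agent.U534.Tens

/-- the indices `(a, i)` of the differentials on finitely many curves -/
abbrev IdF {s : ℕ} (F q : Fin s → Polynomial ℤ) : Type := Σ a, Fin ((F a).natDegree - 1 + (q a).natDegree)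

/-- the plane without the disc of radius `R` and the ray `- u [0, ∞)` -/
def Dmn (u : ℂ) (R : ℝ) : Set ℂ := {x | R < ‖x‖ ∧ x / u ∈ Complex.slitPlane}

/-- the values of the primitives and the logarithm -/
noncomputable def numF {s : ℕ} {F q : Fin s → Polynomial ℤ} (Φ : IdF F q → ℂ → ℂ) (x : ℂ) : IdF F q ⊕ Unit → ℂ
  | Sum.inl p => Φ p x
  | Sum.inr _ => Complex.log x

/-- the window property of primitives -/
theorem winF {s : ℕ} (F q : Fin s → Polynomial ℤ)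
    (hsf : ∀ a, Squarefree ((F a * q a).map (Int.castRingHom ℚ))) (hodd : ∀ a, Odd (F a).natDegree)
    (hdeg : ∀ a, 3 ≤ (F a).natDegree + 2 * (q a).natDegree)
    (hpos : ∀ a, 0 < (F a).leadingCoeff ∧ 0 < (q a).leadingCoeff)
    (hdist : ∀ a b, a ≠ b → ∀ h c₁ c₂ : ℤ, c₁ ≠ 0 → c₂ ≠ 0 →
      Polynomial.C c₁ * F a ≠ Polynomial.C c₂ * (F b).comp (Polynomial.X + Polynomial.C h))
    (u : ℂ) (hu : u ≠ 0) (R : ℝ) (S : Fin s → ℂ → ℂ) (Φ : IdF F q → ℂ → ℂ)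
    (hΦ : ∀ x ∈ Dmn u R, (∀ a, ContinuousAt (S a) x ∧ S a x ^ 2 = Polynomial.aeval x (F a)) ∧
      ∀ p : IdF F q, HasDerivAt (Φ p) (x ^ (p.2 : ℕ) / (Polynomial.aeval x (q p.1) * S p.1 x)) x) :
    ∃ (υ : Type) (_ : Fintype υ) (c : υ → ℂ),
      WinY (σ := IdF F q ⊕ Unit) (fun x => numF Φ x) (fun x => x ∈ Dmn u R) c := by
  have hG : ∀ a, Pool.Agent.Y916.Sa.GoodP (F a) (q a) := by
    intro a
    have h := hsf a
    rw [Polynomial.map_mul, squarefree_mul_iff] at h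
    exact ⟨h.2.1, hodd a, (hpos a).1, h.2.2, (hpos a).2, h.1.isCoprime, hdeg a⟩
  have hx : ∀ (x : ℂ) i, numF Φ x i = Pool.Agent.Y916.Sl.xP F q Φ x i := by
    rintro x (p | w) <;> rfl
  obtain ⟨κ, -, h⟩ := Pool.Agent.Y916.Sl.windowsN Pool.Agent.Y916.Sl.tV Pool.Agent.Y916.Sl.tQ
    Pool.Agent.Y916.Sl.tP F q hG (fun a b hab h c₁ c₂ => hdist a b hab h c₁ c₂) hu (R := R) (S := S) (Φ := Φ)
    (fun x hx1 hx2 => hΦ x ⟨hx1, hx2⟩)
  refine ⟨IdF F q ⊕ Unit, inferInstance, Sum.elim κ fun _ => 2 * Real.pi * Complex.I, ?_⟩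
  intro r m A d δ τ
  obtain ⟨E, hE⟩ := h _ (Sum.elim κ fun _ => 2 * Real.pi * Complex.I) (by
    rintro _ ⟨p, rfl⟩
    exact ⟨Sum.inl p, rfl⟩) ⟨Sum.inr (), rfl⟩ r m A d δ τ
  refine ⟨E, fun H ξ hξ hp w => ?_⟩
  obtain ⟨T, hT, h1⟩ := hE H ξ hξ hp w
  refine ⟨T, hT, fun n hn hnb K hK hKd y hy P hP hP0 => ?_⟩
  simp only [hx] at hy
  exact h1 n hn hnb K hK hKd y hy P hP hP0

section
variable (F q : ℕ → Polynomial ℤ)

/-- the indices of the numbers on all curves -/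
abbrev IdN : Type := (Σ a : ℕ, Fin ((F a).natDegree - 1 + (q a).natDegree)) ⊕ Unit

/-- the indices of the numbers on the first `j + 1` curves -/
abbrev Bj (j : ℕ) : Type := IdF (fun a : Fin (j + 1) => F a) (fun a : Fin (j + 1) => q a) ⊕ Unit

/-- the embeddings -/
def emj (j : ℕ) : Bj F q j → IdN F q := Sum.map (fun p => ⟨p.1, p.2⟩) id

lemma emj_inj (j : ℕ) : Function.Injective (emj F q j) := by
  refine Function.Injective.sumMap ?_ Function.injective_id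
  rintro ⟨a, i⟩ ⟨a', i'⟩ h
  have h1 : (a : ℕ) = a' := congrArg Sigma.fst h
  obtain rfl : a = a' := Fin.ext h1
  have h2 := (Sigma.mk.injEq _ _ _ _).mp h
  have h3 : i = i' := eq_of_heq h2.2
  rw [h3]

lemma emj_range (j : ℕ) (v : IdN F q) : v ∈ Set.range (emj F q j) ↔ ∀ p, v = Sum.inl p → p.1 ≤ j := by
  constructor
  · rintro ⟨w, rfl⟩ p hp
    rcases w with ⟨a, i⟩ | w
    · have h1 : (⟨(a : ℕ), i⟩ : Σ a : ℕ, Fin ((F a).natDegree - 1 + (q a).natDegree)) = p := Sum.inl_injective hp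
      rw [← h1]
      exact Nat.le_of_lt_succ a.2
    · exact absurd hp (by simp [emj])
  · intro h
    rcases v with ⟨a, i⟩ | w
    · have h1 := h _ rfl
      exact ⟨Sum.inl ⟨⟨a, Nat.lt_succ_of_le h1⟩, i⟩, rfl⟩
    · exact ⟨Sum.inr w, rfl⟩

/-- the values of the primitives and the logarithm -/
noncomputable def numN {F q : ℕ → Polynomial ℤ} (Φ : (a : ℕ) → Fin ((F a).natDegree - 1 + (q a).natDegree) → ℂ → ℂ) (x : ℂ) :
    IdN F q → ℂ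
  | Sum.inl p => Φ p.1 p.2 x
  | Sum.inr _ => Complex.log x

/-- **Main theorem for infinitely many curves.** -/
theorem curvesA
    (hsf : ∀ a, Squarefree ((F a * q a).map (Int.castRingHom ℚ))) (hodd : ∀ a, Odd (F a).natDegree)
    (hdeg : ∀ a, 3 ≤ (F a).natDegree + 2 * (q a).natDegree)
    (hpos : ∀ a, 0 < (F a).leadingCoeff ∧ 0 < (q a).leadingCoeff)
    (hdist : ∀ a b, a ≠ b → ∀ h c₁ c₂ : ℤ, c₁ ≠ 0 → c₂ ≠ 0 →
      Polynomial.C c₁ * F a ≠ Polynomial.C c₂ * (F b).comp (Polynomial.X + Polynomial.C h))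
    (u : ℂ) (hu : u ≠ 0) (R : ℕ → ℝ) (S : ℕ → ℂ → ℂ)
    (Φ : (a : ℕ) → Fin ((F a).natDegree - 1 + (q a).natDegree) → ℂ → ℂ)
    (hΦ : ∀ a, ∀ x ∈ Dmn u (R a), ContinuousAt (S a) x ∧ S a x ^ 2 = Polynomial.aeval x (F a) ∧
      ∀ i, HasDerivAt (Φ a i) (x ^ (i : ℕ) / (Polynomial.aeval x (q a) * S a x)) x)
    {m A : ℕ → ℕ} {Ξ : ℕ → Set ℂ}
    (hΞ : ∀ j N : ℕ, ∃ ξ ∈ Ξ j, HtC (m j) (A j) ξ ∧ ∀ g : ℕ, (N : ℝ) ≤ ‖ξ + g‖ ∧ (ξ + g) / u ∈ Complex.slitPlane)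
    (W : ℕ → Submodule ℚ ℂ) (hWf : ∀ j, Module.Finite ℚ (W j))
    (V : ℕ → Submodule ℚ ℂ) (hVf : ∀ j, Module.Finite ℚ (V j)) (hV : Monotone V) (δ : ℕ → ℕ) (hδ : Monotone δ) :
    ∃ T : ℕ → Finset ℂ, (FullC Ξ T ∧ ∀ j, ∀ t ∈ T j, ∀ a ≤ j, t ∈ Dmn u (R a)) ∧
      ∀ y : ℂ → IdN F q → ℂ, (∀ j, ∀ t ∈ T j, (fun b => y t (emj F q j b)) ∈
        {z : Bj F q j → ℂ | ∀ b, ∃ c : ℚ, c ≠ 0 ∧ z b - c * numN Φ t (emj F q j b) ∈ W j}) →
      ∀ (l : ℕ) (K : IntermediateField ℚ ℂ), FiniteDimensional ℚ K → Module.finrank ℚ K ≤ δ l →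
      ∀ P : MvPolynomial (ℂ × IdN F q) ℂ, P ≠ 0 → (∀ v ∈ P.vars, ∃ j ≥ l, v.2 ∈ Set.range (emj F q j) ∧ v.1 ∈ T j) →
        (∀ v, P.degreeOf v ≤ δ l) → (∀ s, P.coeff s ∈ Submodule.span K (V l : Set ℂ)) →
        MvPolynomial.eval (fun v => y v.1 v.2) P ≠ 0 := by
  classical
  -- the radii
  set Rj : ℕ → ℝ := fun j => ∑ a ∈ Finset.range (j + 1), |R a| with hRj
  have hRa : ∀ j, ∀ a ≤ j, R a ≤ Rj j := by
    intro j a ha
    exact (le_abs_self _).trans (Finset.single_le_sum (f := fun a => |R a|) (fun _ _ => abs_nonneg _)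
      (Finset.mem_range.2 (Nat.lt_succ_of_le ha)))
  have hsub : ∀ j, ∀ a ≤ j, Dmn u (Rj j) ⊆ Dmn u (R a) := fun j a ha x hx => ⟨(hRa j a ha).trans_lt hx.1, hx.2⟩
  have hwin : ∀ j, ∃ (υ : Type) (_ : Fintype υ) (c : υ → ℂ),
      WinY (σ := Bj F q j) (fun x b => numN Φ x (emj F q j b)) (fun x => x ∈ Dmn u (Rj j)) c := by
    intro j
    obtain ⟨υ, hυ, c, hc⟩ := winF (fun a : Fin (j + 1) => F a) (fun a : Fin (j + 1) => q a) (fun a => hsf a) (fun a => hodd a)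
      (fun a => hdeg a) (fun a => hpos a) (fun a b hab => hdist a b fun h => hab (Fin.ext h)) u hu (Rj j) (fun a => S a)
      (fun p => Φ p.1 p.2) (fun x hx => ⟨fun a => by
        obtain ⟨h1, h2, -⟩ := hΦ a x (hsub j a (Nat.le_of_lt_succ a.2) hx)
        exact ⟨h1, h2⟩, fun p => by
        obtain ⟨-, -, h3⟩ := hΦ p.1 x (hsub j p.1 (Nat.le_of_lt_succ p.1.2) hx)
        exact h3 p.2⟩)
    refine ⟨υ, hυ, c, ?_⟩
    have h1 : (fun (x : ℂ) (b : Bj F q j) => numN Φ x (emj F q j b)) =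
        fun x => numF (F := fun a : Fin (j + 1) => F a) (q := fun a : Fin (j + 1) => q a) (fun p => Φ p.1 p.2) x := by
      funext x b
      rcases b with ⟨a, i⟩ | w <;> rfl
    rw [h1]
    exact hc
  choose υ hυ c hc using hwin
  obtain ⟨T, h1, h2⟩ := genlogA (α := IdN F q) (B := Bj F q) (emj F q) (emj_inj F q)
    (x := fun j x b => numN Φ x (emj F q j b)) (Dm := fun j x => x ∈ Dmn u (Rj j)) (υ := υ) (c := c) hc (m := m) (A := A)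
    (Ξ := fun j => {ξ ∈ Ξ j | ∀ g : ℕ, ξ + g ∈ Dmn u (Rj j)}) (by
      intro j N
      obtain ⟨N', hN'⟩ := exists_nat_gt (Rj j)
      obtain ⟨ξ, h1, h2, h3⟩ := hΞ j (N + N')
      push_cast at h3
      have h4 : (0 : ℝ) ≤ (N : ℝ) := Nat.cast_nonneg _
      have h5 : (0 : ℝ) ≤ (N' : ℝ) := Nat.cast_nonneg _
      refine ⟨ξ, ⟨h1, fun g => ⟨?_, (h3 g).2⟩⟩, ?_, h2⟩
      · have := (h3 g).1
        linarith
      · have h6 := (h3 0).1
        rw [Nat.cast_zero, add_zero] at h6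
        linarith) hWf hVf hV hδ
  have hTD : ∀ j, ∀ t ∈ T j, t ∈ Dmn u (Rj j) := by
    intro j t ht
    obtain ⟨ξ, h3, H, h4, -⟩ := h1.2 j
    obtain ⟨-, g, -, -, rfl⟩ := h4 t ht
    exact h3.2 g
  refine ⟨T, ⟨⟨h1.1, fun j => ?_⟩, fun j t ht a ha => hsub j a ha (hTD j t ht)⟩, fun y hy =>
    h2 y fun j t ht => ⟨hTD j t ht, hy j t ht⟩⟩
  obtain ⟨ξ, h3, H, h4⟩ := h1.2 j
  exact ⟨ξ, h3.1, H, h4⟩

end

end Pool.Agent.U534.Tens
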