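import Pool.Agent.U534.GenLog
import Pool.Agent.U534.CountInt
import Pool.Agent.Y916.Sl.Fin

/-!
# Elliptic logarithms and logarithms above almost full windows of algebraic numbers
-/

set_option autoImplicit false
set_option linter.unusedSectionVars false

namespace Pool.Agent.U534.Tens

open Pool.Agent.Y113 Pool.Agent.Y916.AW Pool.Agent.Y916.Al Pool.Agent.Y916.Hy Pool.Agent.Y916.Sa Pool.Agent.Y916.Sl
open Pool.Agent.Y916
open scoped PeriodPair

/-- a rational space is a space over the field `⊥` -/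
theorem bot_space (M : Submodule ℚ ℂ) : ∃ M' : Submodule (⊥ : IntermediateField ℚ ℂ) ℂ, ∀ z, z ∈ M' ↔ z ∈ M := by
  refine ⟨{ carrier := M
            add_mem' := fun ha hb => M.add_mem ha hb
            zero_mem' := M.zero_mem
            smul_mem' := fun c x hx => ?_ }, fun z => Iff.rfl⟩
  obtain ⟨q, hq⟩ := IntermediateField.mem_bot.1 c.2
  have h1 : c • x = q • x := by
    rw [Algebra.smul_def, Algebra.smul_def]
    have h2 : algebraMap (⊥ : IntermediateField ℚ ℂ) ℂ c = (c : ℂ) := rfl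
    rw [h2, ← hq]
  rw [h1]
  exact M.smul_mem _ hx

/-- the window property of elliptic logarithms -/
theorem winE (L : PeriodPair) (a b : ℚ) (ha : L.g₂ = a) (hb : L.g₃ = b) :
    WinY (xE a b L) (DmE L) (perV L) := by
  intro r m A d δ τ
  have hab : a ^ 3 - 27 * b ^ 2 ≠ 0 := by
    have h1 := disc_ne Pool.Agent.Y153.HE.t_qp L
    rw [ha, hb] at h1
    exact_mod_cast h1
  have hF := Fe_good a b hab
  obtain ⟨E₁, hE₁⟩ := linkE a b tW L ha hb hF m
  exact windowHt (vS (Pe a b) (me a b)) (inp_e a b tV hF) (xE a b L) (DmE L) (perV L) m _ E₁ hE₁ r d δ τ A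

/-- the choices of elliptic logarithms and logarithms are determinations -/
theorem detQ (a b : ℚ) (L : PeriodPair) {t p l : ℂ} (hp : p ∉ L.lattice) (h : ℘[L] p = t) (hl : Complex.exp l = t) :
    (fun i => trip L p l (fe a b i)) ∈ Det (xE a b L) (DmE L) (perV L) t := by
  obtain ⟨M', hM'⟩ := bot_space (Submodule.span ℚ (insert 1 (Set.range (perV L))))
  refine ⟨pf_spec L hp h, fun s => ?_⟩
  obtain ⟨c, hc, hc2⟩ := detE a b L hp h hl M' (fun j n => by
    rw [hM']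
    have h4 : (n : ℂ) * perV L j = (n : ℚ) • perV L j := by
      rw [Algebra.smul_def]
      simp
    rw [h4]
    exact Submodule.smul_mem _ _ (Submodule.subset_span (Set.mem_insert_of_mem _ ⟨j, rfl⟩))) s
  obtain ⟨q, hq⟩ := IntermediateField.mem_bot.1 c.2
  have hq2 : (c : ℂ) = q := by
    rw [← hq]
    rfl
  refine ⟨q, fun h0 => hc ?_, ?_⟩
  · rw [h0] at hq2
    exact Subtype.ext (by rw [hq2]; simp)
  · rw [← hq2]
    exact (hM' _).1 hc2

/-- the elliptic logarithms and logarithms above `t` -/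
def Y3 (L : PeriodPair) (t : ℂ) : Set (Fin 3 → ℂ) :=
  {y | ∃ p l : ℂ, p ∉ L.lattice ∧ ℘[L] p = t ∧ Complex.exp l = t ∧ y = trip L p l}

lemma coeff_equiv {ι κ : Type} (e : ι ≃ κ) {S : Set ℂ} {P : MvPolynomial ι ℂ} (hP : ∀ s, P.coeff s ∈ S)
    (s : κ →₀ ℕ) : (MvPolynomial.rename e P).coeff s ∈ S := by
  have h1 : s = (s.mapDomain e.symm).mapDomain e := by
    rw [← Finsupp.mapDomain_comp]
    simp
  rw [h1, MvPolynomial.coeff_rename_mapDomain _ e.injective]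
  exact hP _

/-- change of the index set of the numbers -/
theorem change_index {ι α β : Type} (e : α ≃ β) (Y : ι → Set (α → ℂ)) (Y' : ι → Set (β → ℂ))
    (hY : ∀ t, ∀ y ∈ Y t, (fun b => y (e.symm b)) ∈ Y' t) {T : ℕ → Finset ι} {δ : ℕ → ℕ} {V : ℕ → Submodule ℚ ℂ}
    (h : ∀ y : ι → β → ℂ, (∀ j, ∀ t ∈ T j, y t ∈ Y' t) →
      ∀ (l : ℕ) (K : IntermediateField ℚ ℂ), FiniteDimensional ℚ K → Module.finrank ℚ K ≤ δ l →
      ∀ P : MvPolynomial (ι × β) ℂ, P ≠ 0 → (∀ v ∈ P.vars, ∃ j ≥ l, v.1 ∈ T j) →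
        (∀ v, P.degreeOf v ≤ δ l) → (∀ s, P.coeff s ∈ Submodule.span K (V l : Set ℂ)) →
        MvPolynomial.eval (fun v => y v.1 v.2) P ≠ 0) :
    ∀ y : ι → α → ℂ, (∀ j, ∀ t ∈ T j, y t ∈ Y t) →
      ∀ (l : ℕ) (K : IntermediateField ℚ ℂ), FiniteDimensional ℚ K → Module.finrank ℚ K ≤ δ l →
      ∀ P : MvPolynomial (ι × α) ℂ, P ≠ 0 → (∀ v ∈ P.vars, ∃ j ≥ l, v.1 ∈ T j) →
        (∀ v, P.degreeOf v ≤ δ l) → (∀ s, P.coeff s ∈ Submodule.span K (V l : Set ℂ)) →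
        MvPolynomial.eval (fun v => y v.1 v.2) P ≠ 0 := by
  classical
  intro y hy l K hK hKD P hP hPv hPd hPc
  set e' : ι × α ≃ ι × β := (Equiv.refl ι).prodCongr e with he'
  have h1 := h (fun t b => y t (e.symm b)) (fun j t ht => hY t _ (hy j t ht)) l K hK hKD
    (MvPolynomial.rename e' P)
    (fun h0 => hP (MvPolynomial.rename_injective _ e'.injective (by rw [h0, map_zero])))
    (fun v hv => by
      obtain ⟨w, hw, hwv⟩ := Finset.mem_image.1 (MvPolynomial.vars_rename _ P hv)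
      rw [← hwv]
      exact hPv w hw)
    (fun v => by
      have h2 : v = e' (e'.symm v) := (e'.apply_symm_apply v).symm
      rw [h2, MvPolynomial.degreeOf_rename_of_injective e'.injective]
      exact hPd _)
    (coeff_equiv e' hPc)
  rw [MvPolynomial.eval_rename] at h1
  have h3 : ((fun v : ι × β => y v.1 (e.symm v.2)) ∘ e') = fun v : ι × α => y v.1 v.2 := by
    funext v
    simp [he']
  rw [h3] at h1
  exact h1

/-- **Main theorem for elliptic logarithms.** -/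
theorem ellMain (L : PeriodPair) (a b : ℚ) (ha : L.g₂ = a) (hb : L.g₃ = b) {m A : ℕ → ℕ} {Ξ : ℕ → Set ℂ}
    (hΞ : ∀ j N : ℕ, ∃ ξ ∈ Ξ j, (N : ℝ) ≤ ‖ξ‖ ∧ HtC (m j) (A j) ξ)
    (V : ℕ → Submodule ℚ ℂ) (hVf : ∀ j, Module.Finite ℚ (V j)) (hV : Monotone V) (δ : ℕ → ℕ) (hδ : Monotone δ) :
    ∃ T : ℕ → Finset ℂ, FullC Ξ T ∧ ∀ y : ℂ → Fin 3 → ℂ, (∀ j, ∀ t ∈ T j, y t ∈ Y3 L t) →
      ∀ (l : ℕ) (K : IntermediateField ℚ ℂ), FiniteDimensional ℚ K → Module.finrank ℚ K ≤ δ l →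
      ∀ P : MvPolynomial (ℂ × Fin 3) ℂ, P ≠ 0 → (∀ v ∈ P.vars, ∃ j ≥ l, v.1 ∈ T j) →
        (∀ v, P.degreeOf v ≤ δ l) → (∀ s, P.coeff s ∈ Submodule.span K (V l : Set ℂ)) →
        MvPolynomial.eval (fun v => y v.1 v.2) P ≠ 0 := by
  classical
  obtain ⟨T, h1, h2⟩ := genlog (winE L a b ha hb) (m := m) (A := A) (Ξ := Ξ) hΞ hVf hV hδ
  refine ⟨T, h1, change_index (fe a b).symm (Y3 L) (Det (xE a b L) (DmE L) (perV L)) (fun t y hy => ?_) h2⟩
  obtain ⟨p, l, hp, hpt, hl, rfl⟩ := hy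
  exact detQ a b L hp hpt hl

end Pool.Agent.U534.Tens
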