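import Pool.Agent.U534.GenLogJ
import Pool.Agent.U534.EllLog

/-!
# Infinitely many elliptic curves: elliptic logarithms and logarithms on almost full windows
-/

set_option autoImplicit false
set_option linter.unusedSectionVars false

namespace Pool.Agent.U534.Tens

open Pool.Agent.Y113 Pool.Agent.Y916.AW Pool.Agent.Y916.Al Pool.Agent.Y916.Hy Pool.Agent.Y916.Sa Pool.Agent.Y916.Sl
open Pool.Agent.Y916
open scoped PeriodPair

/-- the numbers `b₀ p + w₀`, `b₁ ζ(p) + w₁`, `b₂ l + w₂` above `t`, `b_i` nonzero and rational, `w_i ∈ W` -/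
def YW (L : PeriodPair) (W : Submodule ℚ ℂ) (t : ℂ) : Set (Fin 3 → ℂ) :=
  {y | ∃ p l : ℂ, p ∉ L.lattice ∧ ℘[L] p = t ∧ Complex.exp l = t ∧ ∀ s, ∃ b : ℚ, b ≠ 0 ∧ y s - b * trip L p l s ∈ W}

/-- **Infinitely many elliptic curves.** -/
theorem ellJ (L : ℕ → PeriodPair) (a b : ℕ → ℚ) (ha : ∀ j, (L j).g₂ = a j) (hb : ∀ j, (L j).g₃ = b j)
    {m A : ℕ → ℕ} {Ξ : ℕ → Set ℂ}
    (hΞ : ∀ j N : ℕ, ∃ ξ ∈ Ξ j, (N : ℝ) ≤ ‖ξ‖ ∧ HtC (m j) (A j) ξ)
    (W : ℕ → Submodule ℚ ℂ) (hWf : ∀ j, Module.Finite ℚ (W j))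
    (V : ℕ → Submodule ℚ ℂ) (hVf : ∀ j, Module.Finite ℚ (V j)) (hV : Monotone V) (δ : ℕ → ℕ) (hδ : Monotone δ) :
    ∃ T : ℕ → Finset ℂ, FullC Ξ T ∧ ∀ y : ℂ → Fin 3 → ℂ, (∀ j, ∀ t ∈ T j, y t ∈ YW (L j) (W j) t) →
      ∀ (l : ℕ) (K : IntermediateField ℚ ℂ), FiniteDimensional ℚ K → Module.finrank ℚ K ≤ δ l →
      ∀ P : MvPolynomial (ℂ × Fin 3) ℂ, P ≠ 0 → (∀ v ∈ P.vars, ∃ j ≥ l, v.1 ∈ T j) →
        (∀ v, P.degreeOf v ≤ δ l) → (∀ s, P.coeff s ∈ Submodule.span K (V l : Set ℂ)) →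
        MvPolynomial.eval (fun v => y v.1 v.2) P ≠ 0 := by
  classical
  have hf2 : ∀ j, Module.Finite ℚ (Submodule.span ℚ (insert 1 (Set.range (perV (L j))))) := fun j =>
    Module.Finite.span_of_finite ℚ ((Set.finite_range _).insert _)
  obtain ⟨T, h1, h2⟩ := genlogJ (x := fun j t s => xE (a j) (b j) (L j) t ((fe (a j) (b j)).symm s))
    (Dm := fun j => DmE (L j)) (c := fun j => perV (L j))
    (fun j => (winE (L j) (a j) (b j) (ha j) (hb j)).equiv (fe (a j) (b j))) (m := m) (A := A) (Ξ := Ξ) hΞ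
    (W := fun j => W j ⊔ Submodule.span ℚ (insert 1 (Set.range (perV (L j)))))
    (fun j => by
      have := hWf j
      have := hf2 j
      exact Submodule.finite_sup _ _) hVf hV hδ
  refine ⟨T, h1, fun y hy => h2 y fun j t ht => ?_⟩
  obtain ⟨p, l, hp, hpt, hl, h3⟩ := hy j t ht
  obtain ⟨h4, h5⟩ := detQ (a j) (b j) (L j) hp hpt hl
  refine ⟨h4, fun s => ?_⟩
  obtain ⟨b₁, hb₁, hm₁⟩ := h3 s
  obtain ⟨c, hc, hmc⟩ := h5 ((fe (a j) (b j)).symm s)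
  have hmc' : trip (L j) p l s - c * xE (a j) (b j) (L j) t ((fe (a j) (b j)).symm s) ∈
      Submodule.span ℚ (insert 1 (Set.range (perV (L j)))) := by
    simpa using hmc
  refine ⟨b₁ * c, mul_ne_zero hb₁ hc, ?_⟩
  have h6 : y t s - ((b₁ * c : ℚ) : ℂ) * xE (a j) (b j) (L j) t ((fe (a j) (b j)).symm s) =
      (y t s - b₁ * trip (L j) p l s) +
        b₁ • (trip (L j) p l s - c * xE (a j) (b j) (L j) t ((fe (a j) (b j)).symm s)) := by
    rw [Algebra.smul_def]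
    push_cast
    simp only [eq_ratCast]
    ring
  rw [h6]
  exact Submodule.add_mem_sup hm₁ (Submodule.smul_mem _ _ hmc')

end Pool.Agent.U534.Tens
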