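import Pool.Agent.U553.DL.Cor
import Pool.Agent.U534.CountInt

/-!
# Sequences of numbers, each of them free over the earlier ones and given constants, in bounded degree and height
-/

set_option autoImplicit false
set_option linter.unusedSectionVars false

namespace Pool.Agent.U534.FreeSeq

open MvPolynomial

/-- all relations between `x` and the numbers `u` of degree at most `D` and height at most `H` hold identically in `x` -/
def Free {σ : Type} (u : σ → ℂ) (x : ℂ) (D : ℕ) (H : ℝ) : Prop :=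
  ∀ P : MvPolynomial (Option σ) ℤ, P.totalDegree ≤ D → (∀ m, |((P.coeff m : ℤ) : ℝ)| ≤ H) →
    aeval (fun o => o.elim x u) P = 0 → ∀ y : ℂ, aeval (fun o => o.elim y u) P = 0

/-- the evaluation in two steps -/
theorem eval_option {σ : Type} (u : σ → ℂ) (y : ℂ) (P : MvPolynomial (Option σ) ℤ) :
    aeval (fun o => o.elim y u) P =
      (((optionEquivLeft ℤ σ P).map (aeval u : MvPolynomial σ ℤ →ₐ[ℤ] ℂ).toRingHom).eval y : ℂ) := by
  have h1 : (aeval (fun o => o.elim y u) : MvPolynomial (Option σ) ℤ →ₐ[ℤ] ℂ).toRingHom =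
      ((Polynomial.evalRingHom y).comp (Polynomial.mapRingHom (aeval u : MvPolynomial σ ℤ →ₐ[ℤ] ℂ).toRingHom)).comp
        (optionEquivLeft ℤ σ).toRingEquiv.toRingHom := by
    refine MvPolynomial.ringHom_ext (fun r => ?_) fun o => ?_
    · simp
    · rcases o with _ | i
      · simp
      · simp
  exact congrArg (fun f => f P) h1

theorem coeff_van {σ : Type} {u : σ → ℂ} {P : MvPolynomial (Option σ) ℤ}
    (h : ∀ y : ℂ, aeval (fun o => o.elim y u) P = 0) (m : ℕ) : aeval u ((optionEquivLeft ℤ σ P).coeff m) = 0 := by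
  have h1 : (optionEquivLeft ℤ σ P).map (aeval u : MvPolynomial σ ℤ →ₐ[ℤ] ℂ).toRingHom = 0 := by
    refine Polynomial.funext fun y => ?_
    rw [← eval_option, h, Polynomial.eval_zero]
  have h2 := congrArg (fun q => Polynomial.coeff q m) h1
  simp only [Polynomial.coeff_map, Polynomial.coeff_zero] at h2
  exact h2

theorem van_of_coeff {σ : Type} {u : σ → ℂ} {P : MvPolynomial (Option σ) ℤ}
    (h : ∀ m, aeval u ((optionEquivLeft ℤ σ P).coeff m) = 0) (y : ℂ) : aeval (fun o => o.elim y u) P = 0 := by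
  have h1 : (optionEquivLeft ℤ σ P).map (aeval u : MvPolynomial σ ℤ →ₐ[ℤ] ℂ).toRingHom = 0 := by
    ext m
    rw [Polynomial.coeff_map, Polynomial.coeff_zero]
    exact h m
  rw [eval_option, h1, Polynomial.eval_zero]

theorem coeff_bd {σ : Type} {P : MvPolynomial (Option σ) ℤ} {H : ℝ} (h : ∀ m, |((P.coeff m : ℤ) : ℝ)| ≤ H) (m : ℕ)
    (d : σ →₀ ℕ) : |((((optionEquivLeft ℤ σ P).coeff m).coeff d : ℤ) : ℝ)| ≤ H := by
  rw [optionEquivLeft_coeff_coeff]
  exact h _

/-- fewer constants -/
theorem Free.sub {σ σ' : Type} {u : σ → ℂ} {x : ℂ} {D : ℕ} {H : ℝ} (h : Free u x D H) (φ : σ' → σ)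
    (hφ : Function.Injective φ) : Free (u ∘ φ) x D H := by
  intro P hD hH h0 y
  have hev : ∀ y : ℂ, aeval (fun o => o.elim y u) (rename (Option.map φ) P) = aeval (fun o => o.elim y (u ∘ φ)) P := by
    intro y
    rw [aeval_rename]
    congr 2
    funext o
    rcases o with _ | i <;> rfl
  have h1 := h (rename (Option.map φ) P) ((totalDegree_rename_le _ _).trans hD)
    (Pool.Agent.U553.DL.height_rename _ (Option.map_injective hφ) hH) (by rw [hev]; exact h0) y
  rwa [hev] at h1

theorem Free.mono {σ : Type} {u : σ → ℂ} {x : ℂ} {D D' : ℕ} {H H' : ℝ} (h : Free u x D H) (hD : D' ≤ D) (hH : H' ≤ H) :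
    Free u x D' H' := fun P h1 h2 => h P (h1.trans hD) fun m => (h2 m).trans hH

section seq
variable {ι : Type} (f : ι → ℂ) (z : ℕ → ℂ)

/-- the constants at the stage `j` -/
def stage {j : ℕ} (τ : Fin j → ι) : Fin j ⊕ Fin j → ℂ := Sum.elim (fun i => z i) fun i => f (τ i)

/-- the variables in the order of the elimination -/
def psi (i k : ℕ) : Fin i ⊕ Fin (k + 1) → Option (Fin i ⊕ Fin k) :=
  Sum.elim (fun b => some (Sum.inl b)) (Fin.lastCases none fun l => some (Sum.inr l))

theorem psi_inj (i k : ℕ) : Function.Injective (psi i k) := by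
  rintro (b | l) (b' | l') h
  · have h1 : b = b' := by simpa [psi] using h
    rw [h1]
  · exfalso
    revert h
    refine Fin.lastCases ?_ (fun l => ?_) l'
    · simp [psi]
    · simp [psi]
  · exfalso
    revert h
    refine Fin.lastCases ?_ (fun l => ?_) l
    · simp [psi]
    · simp [psi]
  · revert h
    refine Fin.lastCases ?_ (fun l => ?_) l
    · refine Fin.lastCases ?_ (fun l' => ?_) l'
      · intro _
        rfl
      · simp [psi]
    · refine Fin.lastCases ?_ (fun l' => ?_) l'
      · simp [psi]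
      · intro h
        have h1 : l = l' := by simpa [psi] using h
        rw [h1]

theorem psi_eval {i k : ℕ} (c : Fin i → ℂ) (y : Fin (k + 1) → ℂ) (G : MvPolynomial (Fin i ⊕ Fin (k + 1)) ℤ) :
    aeval (fun o => o.elim (y (Fin.last k)) (Sum.elim c fun l => y l.castSucc)) (rename (psi i k) G) =
      aeval (Sum.elim c y) G := by
  rw [aeval_rename]
  congr 2
  funext v
  rcases v with b | l
  · rfl
  · refine Fin.lastCases ?_ (fun l => ?_) l
    · simp [psi]
    · simp [psi]

/-- **Sequences.** -/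
theorem seq_gen (w : ℕ → ι) (h : ℕ → ℝ) (j₀ : ℕ)
    (hfree : ∀ j, j₀ ≤ j → Free (stage f z fun a : Fin j => w a) (f (w j)) j (h j)) (D i : ℕ) :
    ∀ (k : ℕ) (a : Fin k → ℕ), StrictMono a → (∀ l, j₀ ≤ a l ∧ D ≤ a l ∧ i ≤ a l) →
      ∀ G : MvPolynomial (Fin i ⊕ Fin k) ℤ, G.totalDegree ≤ D → (∀ l m, |((G.coeff m : ℤ) : ℝ)| ≤ h (a l)) →
        aeval (Sum.elim (fun b : Fin i => z b) fun l => f (w (a l))) G = 0 →
          ∀ y : Fin k → ℂ, aeval (Sum.elim (fun b : Fin i => z b) y) G = 0 := by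
  intro k
  induction k with
  | zero =>
    intro a _ _ G _ _ h0 y
    rw [← h0]
    congr 2
    funext v
    rcases v with b | l
    · rfl
    · exact l.elim0
  | succ k ih =>
    intro a ha hal G hG hH h0 y
    set P := rename (psi i k) G with hP
    have hPD : P.totalDegree ≤ D := (totalDegree_rename_le _ _).trans hG
    have hPH : ∀ l m, |((P.coeff m : ℤ) : ℝ)| ≤ h (a l) := fun l =>
      Pool.Agent.U553.DL.height_rename _ (psi_inj i k) (hH l)
    -- the last number is free over the others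
    have hlt : ∀ l : Fin k, a l.castSucc < a (Fin.last k) := fun l => ha (Fin.castSucc_lt_last l)
    let φ : Fin i ⊕ Fin k → Fin (a (Fin.last k)) ⊕ Fin (a (Fin.last k)) :=
      Sum.map (Fin.castLE (hal (Fin.last k)).2.2) fun l => ⟨a l.castSucc, hlt l⟩
    have hφ : Function.Injective φ := by
      refine Function.Injective.sumMap (Fin.castLE_injective _) fun l l' hll => ?_
      have h1 : a l.castSucc = a l'.castSucc := congrArg Fin.val hll
      exact Fin.castSucc_injective _ (ha.injective h1)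
    have hF := ((hfree (a (Fin.last k)) (hal _).1).sub φ hφ).mono (hal (Fin.last k)).2.1 le_rfl
    have hu : (stage f z fun b : Fin (a (Fin.last k)) => w b) ∘ φ =
        Sum.elim (fun b : Fin i => z b) fun l : Fin k => f (w (a l.castSucc)) := by
      funext v
      rcases v with b | l <;> rfl
    rw [hu] at hF
    have h1 : ∀ y₀ : ℂ, aeval (fun o => o.elim y₀ (Sum.elim (fun b : Fin i => z b) fun l : Fin k => f (w (a l.castSucc)))) P = 0 :=
      hF P hPD (hPH _) (by
        have h2 := psi_eval (fun b : Fin i => z b) (fun l => f (w (a l))) G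
        rw [hP, h2]
        exact h0)
    have h2 : ∀ (m : ℕ) (y' : Fin k → ℂ), aeval (Sum.elim (fun b : Fin i => z b) y') ((optionEquivLeft ℤ _ P).coeff m) = 0 := by
      intro m
      exact ih (fun l => a l.castSucc) (fun l l' hll => ha (Fin.castSucc_lt_castSucc_iff.2 hll)) (fun l => hal _)
        ((optionEquivLeft ℤ _ P).coeff m) ((totalDegree_coeff_optionEquivLeft_le _ _ _ _).trans hPD)
        (fun l d => coeff_bd (hPH l.castSucc) m d) (coeff_van h1 m)
    rw [← psi_eval, ← hP]
    exact van_of_coeff (fun m => h2 m _) _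

/-- **Countable sets of constants.** -/
theorem seq_count {n : ℕ} (P : MvPolynomial (Fin n) ℂ) (hP : P ≠ 0) (hz : ∀ m, ∃ b, z b = P.coeff m) :
    ∃ l : ℕ, ∀ (w : ℕ → ι) (h : ℕ → ℝ) (j₀ : ℕ), (∀ j, j₀ ≤ j → Free (stage f z fun a : Fin j => w a) (f (w j)) j (h j)) →
      (∀ j, 1 ≤ j → 1 ≤ h j) → ∀ a : Fin n → ℕ, StrictMono a → (∀ i, j₀ ≤ a i ∧ l ≤ a i) →
        aeval (fun i => f (w (a i))) P ≠ 0 := by
  classical
  choose c hc using hz
  set i : ℕ := P.support.sup c + 1 with hi
  have hci : ∀ m ∈ P.support, c m < i := fun m hm => Nat.lt_succ_of_le (Finset.le_sup (f := c) hm)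
  let c' : (Fin n →₀ ℕ) → Fin i := fun m => if hm : m ∈ P.support then ⟨c m, hci m hm⟩ else ⟨0, Nat.succ_pos _⟩
  have hc' : ∀ m ∈ P.support, z (c' m) = P.coeff m := by
    intro m hm
    show z ((if hm : m ∈ P.support then ⟨c m, hci m hm⟩ else ⟨0, Nat.succ_pos _⟩ : Fin i) : ℕ) = _
    rw [dif_pos hm]
    exact hc m
  let ex : (Fin n →₀ ℕ) → (Fin i ⊕ Fin n →₀ ℕ) := fun m => Finsupp.single (Sum.inl (c' m)) 1 + m.mapDomain Sum.inr
  have hex : Function.Injective ex := by
    intro m m' h
    ext l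
    have h1 := DFunLike.congr_fun h (Sum.inr l)
    simp only [ex, Finsupp.add_apply] at h1
    rw [Finsupp.single_eq_of_ne (by simp), Finsupp.single_eq_of_ne (by simp), zero_add, zero_add,
      Finsupp.mapDomain_apply Sum.inr_injective, Finsupp.mapDomain_apply Sum.inr_injective] at h1
    exact h1
  let G : MvPolynomial (Fin i ⊕ Fin n) ℤ := ∑ m ∈ P.support, monomial (ex m) 1
  have hGe : ∀ y : Fin n → ℂ, aeval (Sum.elim (fun b : Fin i => z b) y) G = aeval y P := by
    intro y
    show aeval _ (∑ m ∈ P.support, monomial (ex m) (1 : ℤ)) = _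
    rw [map_sum, aeval_def, eval₂_eq']
    refine Finset.sum_congr rfl fun m hm => ?_
    have h1 : (monomial (ex m) (1 : ℤ) : MvPolynomial (Fin i ⊕ Fin n) ℤ) =
        X (Sum.inl (c' m)) * rename Sum.inr (monomial m (1 : ℤ)) := by
      rw [rename_monomial, X, monomial_mul, one_mul]
    rw [h1, map_mul, aeval_X, aeval_rename, aeval_monomial, Sum.elim_comp_inr, map_one, one_mul,
      Finsupp.prod_fintype _ _ (by simp)]
    show z (c' m) * _ = _
    rw [hc' m hm]
    rfl
  have hGH : ∀ μ, |((G.coeff μ : ℤ) : ℝ)| ≤ 1 := by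
    intro μ
    have h1 : G.coeff μ = ∑ m ∈ P.support, if ex m = μ then (1 : ℤ) else 0 := by
      show (∑ m ∈ P.support, monomial (ex m) (1 : ℤ)).coeff μ = _
      rw [coeff_sum]
      exact Finset.sum_congr rfl fun m _ => coeff_monomial _ _ _
    rw [h1]
    by_cases hμ : ∃ m ∈ P.support, ex m = μ
    · obtain ⟨m, hm, rfl⟩ := hμ
      rw [Finset.sum_eq_single m (fun m' _ h => if_neg fun h2 => h (hex h2)) (fun h => absurd hm h), if_pos rfl]
      norm_num
    · push Not at hμ
      rw [Finset.sum_eq_zero fun m hm => if_neg (hμ m hm)]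
      norm_num
  refine ⟨max (max 1 i) G.totalDegree, fun w h j₀ hfree hh a ha hal h0 => ?_⟩
  have hl : ∀ l : Fin n, 1 ≤ a l ∧ i ≤ a l ∧ G.totalDegree ≤ a l := fun l => by
    have h1 := (hal l).2
    refine ⟨le_trans ?_ h1, le_trans ?_ h1, le_trans ?_ h1⟩
    · exact (le_max_left 1 i).trans (le_max_left _ _)
    · exact (le_max_right 1 i).trans (le_max_left _ _)
    · exact le_max_right _ _
  have h1 := seq_gen f z w h j₀ hfree G.totalDegree i n a ha (fun l => ⟨(hal l).1, (hl l).2.2, (hl l).2.1⟩) G le_rfl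
    (fun l m => (hGH m).trans (hh _ (hl l).1)) (by rw [hGe]; exact h0)
  apply hP
  refine MvPolynomial.funext fun y => ?_
  rw [map_zero]
  have h2 := h1 y
  rw [hGe] at h2
  exact h2

end seq

end Pool.Agent.U534.FreeSeq
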