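import Pool.Agent.U534.GenLog
import Pool.Agent.U534.UnivJ
import Pool.Agent.U534.CountInt

/-!
# Generalised logarithms on almost full windows; all data depend on the level
-/

set_option autoImplicit false
set_option linter.unusedSectionVars false

namespace Pool.Agent.U534.Tens

section
variable {σ : Type} [Fintype σ] [DecidableEq σ]

/-- determinations: nonzero rational multiples of the given numbers plus elements of `W` -/
def DetW (x : ℂ → σ → ℂ) (Dm : ℂ → Prop) (W : Submodule ℚ ℂ) (t : ℂ) : Set (σ → ℂ) :=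
  {y | Dm t ∧ ∀ s, ∃ b : ℚ, b ≠ 0 ∧ y s - b * x t s ∈ W}

theorem detW_le (x : ℂ → σ → ℂ) (Dm : ℂ → Prop) {W : Submodule ℚ ℂ} {d : ℕ} {v : Fin d → ℂ}
    (h : W ≤ Submodule.span ℚ (Set.range v)) (t : ℂ) : DetW x Dm W t ⊆ Det x Dm v t := by
  rintro y ⟨h1, h2⟩
  refine ⟨h1, fun s => ?_⟩
  obtain ⟨b, hb, hbm⟩ := h2 s
  exact ⟨b, hb, Submodule.span_mono (Set.subset_insert _ _) (h hbm)⟩

/-- **Main theorem for generalised logarithms**, all data depend on the level. -/
theorem genlogJ {x : ℕ → ℂ → σ → ℂ} {Dm : ℕ → ℂ → Prop} {υ : ℕ → Type} [∀ j, Fintype (υ j)] {c : ∀ j, υ j → ℂ}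
    (hW : ∀ j, WinY (x j) (Dm j) (c j)) {m A : ℕ → ℕ} {Ξ : ℕ → Set ℂ}
    (hΞ : ∀ j N : ℕ, ∃ ξ ∈ Ξ j, (N : ℝ) ≤ ‖ξ‖ ∧ HtC (m j) (A j) ξ)
    {W : ℕ → Submodule ℚ ℂ} (hWf : ∀ j, Module.Finite ℚ (W j))
    {V : ℕ → Submodule ℚ ℂ} (hVf : ∀ j, Module.Finite ℚ (V j)) (hV : Monotone V) {δ : ℕ → ℕ} (hδ : Monotone δ) :
    ∃ T : ℕ → Finset ℂ, FullC Ξ T ∧
      ∀ y : ℂ → σ → ℂ, (∀ j, ∀ t ∈ T j, y t ∈ DetW (x j) (Dm j) (W j) t) →
      ∀ (l : ℕ) (K : IntermediateField ℚ ℂ), FiniteDimensional ℚ K → Module.finrank ℚ K ≤ δ l →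
      ∀ P : MvPolynomial (ℂ × σ) ℂ, P ≠ 0 → (∀ v ∈ P.vars, ∃ j ≥ l, v.1 ∈ T j) →
        (∀ v, P.degreeOf v ≤ δ l) → (∀ s, P.coeff s ∈ Submodule.span K (V l : Set ℂ)) →
        MvPolynomial.eval (fun v => y v.1 v.2) P ≠ 0 := by
  classical
  choose ρ hρ using fun j => trdeg_nat (c j)
  choose v hv using fun j => exists_span (hWf j) (le_refl (Module.finrank ℚ (W j)))
  obtain ⟨B, T, h1, h2, h3⟩ := universalJ (ι := ℂ) (α := σ) (fun t => ‖t‖ - 1) (fun j => DetW (x j) (Dm j) (W j))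
    (fun j t => ratSp (Fintype.card σ * δ j) (Sum.elim (v j) (x j t))) (fun _ _ => ratSp_fin _ _) (fun _ _ => ratSp_one _ _)
    (fun j => (Fintype.card σ * δ j + 1) ^ Fintype.card (Fin (Module.finrank ℚ (W j)) ⊕ σ)) (fun _ _ => ratSp_rank _ _)
    (δ := δ)
    (fun j => ⟨0, fun t _ y hy => ⟨1, one_ne_zero, fun e => by
      rw [one_mul]
      exact det_env (x j) (Dm j) (v j) (δ j) t y (detW_le _ _ (hv j) t hy) e⟩⟩)
    (fun j => Module.finrank ℚ (W j) + (1 + ρ j))
    (fun j B => ∃ ξ ∈ Ξ j, B = (Finset.Icc 1 B.card).image fun g : ℕ => ξ + (g : ℂ))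
    (by
      intro j q k N H hH
      set d := Module.finrank ℚ (W j) with hd
      obtain ⟨E, hE⟩ := hW j k (m j) (A j) (δ j) (1 + k * (Fintype.card σ * δ j)) (q + d)
      obtain ⟨ξ, hξ, hξN, hξh⟩ := hΞ j ((H + 2) ^ E + N + H)
      push_cast at hξN
      have hinj : Function.Injective fun g : ℕ => ξ + (g : ℂ) := fun g g' h => by
        have := add_left_cancel (a := ξ) h
        exact_mod_cast this
      have hcard : ((Finset.Icc 1 H).image fun g : ℕ => ξ + (g : ℂ)).card = H := by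
        rw [Finset.card_image_of_injective _ hinj, Nat.card_Icc]
        omega
      refine ⟨(Finset.Icc 1 H).image fun g : ℕ => ξ + (g : ℂ), hcard, ⟨ξ, hξ, by rw [hcard]⟩, fun t ht => ?_, fun U hU hUq => ?_⟩
      · obtain ⟨g, hg, rfl⟩ := Finset.mem_image.1 ht
        have h5 : (g : ℝ) ≤ H := by exact_mod_cast (Finset.mem_Icc.1 hg).2
        have h6 : ‖ξ‖ - ‖(g : ℂ)‖ ≤ ‖ξ + (g : ℂ)‖ := by
          have := norm_sub_norm_le ξ (-(g : ℂ))
          rwa [norm_neg, sub_neg_eq_add] at this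
        rw [Complex.norm_natCast] at h6
        have h7 : (1 : ℝ) ≤ ((H : ℝ) + 2) ^ E := one_le_pow₀ (by linarith [(Nat.cast_nonneg H : (0 : ℝ) ≤ H)])
        show (N : ℝ) ≤ ‖ξ + (g : ℂ)‖ - 1
        linarith
      · obtain ⟨w, hw⟩ := exists_span hU hUq
        have h7 : (0 : ℝ) ≤ (N : ℝ) := Nat.cast_nonneg _
        have h8 : (0 : ℝ) ≤ (H : ℝ) := Nat.cast_nonneg _
        obtain ⟨S, hS1, hS2⟩ := hE H ξ (by linarith) hξh (Fin.append w (v j))
        have hSc : S.card ≤ q + (d + (1 + ρ j)) := by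
          rw [hρ] at hS1
          have h10 : S.card ≤ q + d + 1 + ρ j := by exact_mod_cast hS1
          omega
        refine ⟨S.image fun g : ℕ => ξ + (g : ℂ), Finset.card_image_le.trans hSc, fun n hn hnB K hK hKD y hy => ?_⟩
        have h11 : ∀ κ, ∃ g : ℕ, 1 ≤ g ∧ g ≤ H ∧ g ∉ S ∧ n κ = ξ + g := by
          intro κ
          obtain ⟨g, hg, hge⟩ := Finset.mem_image.1 (hnB κ).1
          obtain ⟨hg1, hg2⟩ := Finset.mem_Icc.1 hg
          refine ⟨g, hg1, hg2, fun hgS => (hnB κ).2 ?_, hge.symm⟩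
          rw [← hge]
          exact Finset.mem_image_of_mem _ hgS
        choose g hg1 hg2 hg3 hg4 using h11
        have hginj : Function.Injective g := by
          intro κ κ' h
          apply hn
          rw [hg4, hg4, h]
        refine not_rel' w (Sum.elim (Fin.append w (v j)) (c j)) (fun i => Sum.inl (Fin.castAdd d i)) (fun m => by
          show Fin.append w (v j) (Fin.castAdd d m) = w m
          rw [Fin.append_left]) hw K y le_rfl fun P hP hP0 u => ?_
        have h12 := hS2 g hginj (fun κ => ⟨hg1 κ, hg2 κ, hg3 κ, by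
          rw [← hg4]
          exact (hy κ).1⟩) K hK hKD (fun v => y v.1 v.2) (fun p => by
          obtain ⟨b, hb, hbm⟩ := (hy p.1).2 p.2
          rw [hg4] at hbm
          refine ⟨(b : K), by exact_mod_cast hb, ?_⟩
          have h13 : Submodule.span ℚ (Set.range (v j)) ≤
              (Submodule.span K (insert 1 (Set.range (Sum.elim (Fin.append w (v j)) (c j))))).restrictScalars ℚ := by
            rw [Submodule.span_le]
            rintro z ⟨i, rfl⟩
            refine Submodule.subset_span (Or.inr ⟨Sum.inl (Fin.natAdd q i), ?_⟩)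
            show Fin.append w (v j) (Fin.natAdd q i) = v j i
            rw [Fin.append_right]
          have h14 := h13 (hv j hbm)
          simpa using h14) P hP hP0
        rw [← gen_ev (σ := σ) K (Sum.elim (Fin.append w (v j)) (c j)) u P, h12, map_zero])
    hVf hV hδ
  refine ⟨T, ⟨h2, fun j => ?_⟩, h3⟩
  obtain ⟨⟨ξ, hξ, hB⟩, h4, h5, h6, h7⟩ := h1 j
  refine ⟨ξ, hξ, (B j).card, fun t ht => ⟨by
    have h9 : (j : ℝ) ≤ ‖t‖ - 1 := h4 t (h5 ht)
    linarith, ?_⟩, h6, h7⟩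
  have h8 := h5 ht
  rw [hB] at h8
  obtain ⟨g, hg, hge⟩ := Finset.mem_image.1 h8
  exact ⟨g, (Finset.mem_Icc.1 hg).1, (Finset.mem_Icc.1 hg).2, hge.symm⟩

end

/-- change of the index set in the window property -/
theorem WinY.equiv {σ σ' υ : Type} [Fintype σ] [DecidableEq σ] [Fintype υ] [Fintype σ'] [DecidableEq σ']
    {x : ℂ → σ → ℂ} {Dm : ℂ → Prop} {c : υ → ℂ} (h : WinY x Dm c) (e : σ ≃ σ') :
    WinY (fun t s => x t (e.symm s)) Dm c := by
  intro r m A d δ τ
  obtain ⟨E, hE⟩ := h r m A d δ τ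
  refine ⟨E, fun H ξ hξ hHt w => ?_⟩
  obtain ⟨S, hS, hwin⟩ := hE H ξ hξ hHt w
  refine ⟨S, hS, fun g hg hgb K hK hKd y hy P hP hP0 => ?_⟩
  let e' : Fin r × σ ≃ Fin r × σ' := (Equiv.refl _).prodCongr e
  have h9 := hwin g hg hgb K hK hKd (fun q => y (e' q)) (fun q => by
    obtain ⟨b, hb, hbm⟩ := hy (e' q)
    refine ⟨b, hb, ?_⟩
    have h1 : e.symm (e' q).2 = q.2 := by simp [e']
    change y (e' q) - b * x (ξ + g (e' q).1) (e.symm (e' q).2) ∈ _ at hbm
    rw [h1] at hbm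
    exact hbm)
    (MvPolynomial.rename (Sum.map id e'.symm) P) ((MvPolynomial.totalDegree_rename_le _ _).trans hP) (by
      rw [MvPolynomial.aeval_rename, ← hP0]
      congr 2
      funext a
      rcases a with i | a
      · rfl
      · simp)
  rw [MvPolynomial.aeval_rename] at h9
  have h10 := congrArg (MvPolynomial.rename e') h9
  rw [map_zero] at h10
  rw [MvPolynomial.aeval_def] at h10 ⊢
  have h11 := MvPolynomial.eval₂_comp_left (MvPolynomial.rename (R := ℂ) e').toRingHom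
    (algebraMap K (MvPolynomial (Fin r × σ) ℂ))
    (Sum.elim (fun j => MvPolynomial.C (Sum.elim w c j)) MvPolynomial.X ∘ Sum.map id e'.symm) P
  refine Eq.trans ?_ (h11.symm.trans h10)
  congr 1
  · refine RingHom.ext fun z => ?_
    change MvPolynomial.C (z : ℂ) = MvPolynomial.rename e' (MvPolynomial.C (z : ℂ))
    rw [MvPolynomial.rename_C]
  · funext a
    rcases a with i | a
    · simp
    · simp

/-- **Polynomials over a countable set of constants**, all data depend on the level. -/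
theorem countable_formJ {ι α : Type} {Y : ℕ → ι → Set (α → ℂ)} {G : (ℕ → Finset ι) → Prop}
    (hmain : ∀ V : ℕ → Submodule ℚ ℂ, (∀ j, Module.Finite ℚ (V j)) → Monotone V → ∀ δ : ℕ → ℕ, Monotone δ →
      ∃ T : ℕ → Finset ι, G T ∧ ∀ y : ι → α → ℂ, (∀ j, ∀ t ∈ T j, y t ∈ Y j t) →
      ∀ (l : ℕ) (K : IntermediateField ℚ ℂ), FiniteDimensional ℚ K → Module.finrank ℚ K ≤ δ l →
      ∀ P : MvPolynomial (ι × α) ℂ, P ≠ 0 → (∀ v ∈ P.vars, ∃ j ≥ l, v.1 ∈ T j) →
        (∀ v, P.degreeOf v ≤ δ l) → (∀ s, P.coeff s ∈ Submodule.span K (V l : Set ℂ)) →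
        MvPolynomial.eval (fun v => y v.1 v.2) P ≠ 0) (F : Set ℂ) (hF : F.Countable) :
    ∃ T : ℕ → Finset ι, G T ∧ ∀ (n : ℕ) (P : MvPolynomial (Fin n × α) ℂ), P ≠ 0 → (∀ s, P.coeff s ∈ F) →
      ∃ l : ℕ, ∀ y : ι → α → ℂ, (∀ j, ∀ t ∈ T j, y t ∈ Y j t) → ∀ t : Fin n → ι, Function.Injective t →
        (∀ i, ∃ j ≥ l, t i ∈ T j) → MvPolynomial.eval (fun v => y (t v.1) v.2) P ≠ 0 := by
  classical
  obtain ⟨V, hVf, hV, hVF⟩ := exhaust F hF
  obtain ⟨T, hG, hT⟩ := hmain V hVf hV (fun j => j + 1) (fun a b hab => Nat.succ_le_succ hab)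
  refine ⟨T, hG, fun n P hP hPc => ?_⟩
  obtain ⟨j₀, hj₀⟩ := hVF (Submodule.span ℚ (P.support.image fun s => P.coeff s : Finset ℂ)) (by
    rw [Submodule.span_le]
    intro z hz
    obtain ⟨s, -, rfl⟩ := Finset.mem_image.1 (Finset.mem_coe.1 hz)
    exact Submodule.subset_span (hPc s)) (Module.Finite.span_of_finite ℚ (Finset.finite_toSet _))
  refine ⟨max j₀ P.totalDegree, fun y hy t ht htT => ?_⟩
  set l := max j₀ P.totalDegree with hl
  set f : Fin n × α → ι × α := fun v => (t v.1, v.2) with hf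
  have hfinj : Function.Injective f := by
    intro v w hvw
    have h1 : t v.1 = t w.1 := (Prod.ext_iff.1 hvw).1
    have h2 : v.2 = w.2 := (Prod.ext_iff.1 hvw).2
    exact Prod.ext (ht h1) h2
  have h1 := hT y hy l ⊥ inferInstance (by
    rw [IntermediateField.finrank_bot]
    omega) (MvPolynomial.rename f P) (fun h0 => hP (MvPolynomial.rename_injective f hfinj (by rw [h0, map_zero])))
    (fun v hv => by
      obtain ⟨w, -, hw⟩ := Finset.mem_image.1 (MvPolynomial.vars_rename f P hv)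
      rw [← hw]
      exact htT w.1)
    (fun v => by
      have h2 := (MvPolynomial.degreeOf_le_totalDegree (MvPolynomial.rename f P) v).trans (MvPolynomial.totalDegree_rename_le f P)
      have h3 : P.totalDegree ≤ l := le_max_right _ _
      omega)
    (fun s => by
      by_cases hs : ∃ u : Fin n × α →₀ ℕ, u.mapDomain f = s
      · obtain ⟨u, rfl⟩ := hs
        rw [MvPolynomial.coeff_rename_mapDomain f hfinj]
        by_cases hu : P.coeff u = 0
        · rw [hu]
          exact Submodule.zero_mem _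
        · refine Submodule.subset_span (hV (le_max_left j₀ _) (hj₀ (Submodule.subset_span ?_)))
          exact Finset.mem_coe.2 (Finset.mem_image_of_mem _ (MvPolynomial.mem_support_iff.2 hu))
      · push Not at hs
        rw [MvPolynomial.coeff_rename_eq_zero f P s fun u hu => absurd hu (hs u)]
        exact Submodule.zero_mem _)
  rw [MvPolynomial.eval_rename] at h1
  exact h1

end Pool.Agent.U534.Tens
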