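import Pool.Agent.Y123.GN.C6
import Pool.Agent.Y123.GN.E2
import Pool.Agent.Y123.GN.E7

/-!
# Kummer motives and symplectic motives: all number fields of bounded degree at once
-/

set_option autoImplicit false
set_option linter.unusedSectionVars false

open Matrix Module

namespace Pool.Agent.U534.HypU

open Pool.Agent.TH127.PT Pool.Agent.Y123.ST Pool.Agent.Y123.SR Pool.Agent.Y123.GN Pool.Agent.TH119.DR

/-- relations along a unipotent one-parameter group, over all number fields of bounded degree -/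
theorem Rl_exp {M : Type} [Fintype M] [DecidableEq M] {K : Subfield ℂ} {D d : ℕ} {c N : Matrix M M ℂ}
    (hN : IsNilpotent N) (hf : FiniteDimensional ℚ K) (hD : finrank ℚ K ≤ D)
    (hrel : ∀ s : ℂ, Rl ⊥ (d * D ^ D) c (IsNilpotent.exp (s • N) * c)) (s : ℂ) :
    Rl K d c (IsNilpotent.exp (s • N) * c) := by
  obtain ⟨E, hE, -⟩ := exists_expP hN
  have h5 := Rl_desc (K := K) (D := D) (d := d) (γ := E * c.map Polynomial.C) hf hD (fun s => by
    rw [ev_mul, ev_mul, ev_C, ev_C, hE, hE, exp_zero', Matrix.one_mul]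
    exact hrel s) s
  rw [ev_mul, ev_mul, ev_C, ev_C, hE, hE, exp_zero', Matrix.one_mul] at h5
  exact h5

section
variable {B₀ : Type} [Fintype B₀] [DecidableEq B₀] {k : ℕ} {n : Fin k → ℕ}

/-- the nilpotent matrix in all the Kummer blocks -/
noncomputable def kna (B₀ : Type) [Fintype B₀] [DecidableEq B₀] {k : ℕ} (n : Fin k → ℕ) (a : Fin k → ℂ) :
    Matrix (IM B₀ n) (IM B₀ n) ℂ := EM 0 (fun i => !![0, a i; 0, 0]) 0

theorem kna_sq (a : Fin k → ℂ) : kna B₀ n a * kna B₀ n a = 0 := by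
  unfold kna
  rw [EM_mul, ← EM_zero, Matrix.zero_mul]
  congr 1
  · funext j
    ext x y
    fin_cases x <;> fin_cases y <;> simp [Matrix.mul_apply, Fin.sum_univ_two]
  · funext j
    exact Matrix.zero_mul _

theorem kna_nil (a : Fin k → ℂ) : IsNilpotent (kna B₀ n a) := ⟨2, by rw [pow_two, kna_sq]⟩

theorem kna_exp (a : Fin k → ℂ) (t : ℂ) :
    IsNilpotent.exp (t • kna B₀ n a) = EM 1 (fun j => uu (t * a j)) 1 := by
  have h1 : (t • kna B₀ n a) ^ 2 = 0 := by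
    rw [pow_two, smul_mul_smul_comm, kna_sq, smul_zero]
  rw [IsNilpotent.exp_eq_sum h1]
  have h2 : ∑ j ∈ Finset.range 2, (j.factorial : ℚ)⁻¹ • (t • kna B₀ n a) ^ j = 1 + t • kna B₀ n a := by
    simp [Finset.sum_range_succ]
  rw [h2, ← EM_one]
  unfold kna
  rw [EM_smul, EM_add, smul_zero, add_zero, smul_zero, add_zero]
  congr 1
  funext j
  rw [Pi.add_apply, Pi.smul_apply, Pi.one_apply]
  unfold uu
  ext x y
  fin_cases x <;> fin_cases y <;> simp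

end

/-- **Stability, all number fields of degree at most `D` at once.** -/
theorem stabU (m D : ℕ) : ∃ d : ℕ, ∀ (B₀ : Type) [Fintype B₀] [DecidableEq B₀] (k : ℕ) (n : Fin k → ℕ),
    Fintype.card (IM B₀ n) ≤ m →
    ∀ (c₀ : Matrix B₀ B₀ ℂ) (l : Fin k → ℂ) (c P : ∀ i, Matrix (Fin (n i)) (Fin (n i)) ℂ), IsUnit c₀ →
    (∀ i, IsUnit (c i)) → (∀ i, (P i)ᵀ = -P i) → (∀ i, (P i).det ≠ 0) →
    (∀ (a : Fin k → ℂ) (g : ∀ i, Matrix (Fin (n i)) (Fin (n i)) ℂ), (∀ i, g i * P i * (g i)ᵀ = P i) →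
      Rl ⊥ d (EM c₀ (fun i => kum (l i) tpi) c) (EM c₀ (fun i => kum (l i + a i * tpi) tpi) fun i => g i * c i)) →
    ∀ K : Subfield ℂ, FiniteDimensional ℚ K → finrank ℚ K ≤ D →
    ∀ T : Set (Matrix (IM B₀ n) (IM B₀ n) ℂ), IsSubtorsor K T → EM c₀ (fun i => kum (l i) tpi) c ∈ T →
    ∀ (a : Fin k → ℂ) (g : ∀ i, Matrix (Fin (n i)) (Fin (n i)) ℂ), (∀ i, g i * P i * (g i)ᵀ = P i) →
      ∀ x ∈ T, EM 1 (fun i => uu (a i)) g * x ∈ T := by
  classical
  obtain ⟨d₀, hd₀⟩ := abs_main m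
  refine ⟨max (d₀ * D ^ D) ((1 + m) * D ^ D), ?_⟩
  intro B₀ _ _ k n hm c₀ l c P hc₀ hc hP hdet hR K hKf hKD T hT hcT
  have hKalg : ∀ x ∈ K, IsAlgebraic ℚ x := by
    intro x hx
    have : NumberField K := { to_charZero := inferInstance, to_finiteDimensional := hKf }
    have h6 : IsAlgebraic ℚ (⟨x, hx⟩ : K) := Algebra.IsAlgebraic.isAlgebraic _
    exact h6.algebraMap (A := ℂ)
  have hKc : (K : Set ℂ).Countable := by
    have h1 : ({x : ℂ | IsAlgebraic ℚ x} : Set ℂ).Countable := Algebraic.countable ℚ ℂ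
    exact h1.mono fun x hx => hKalg x hx
  have hkn : ∀ i, fl (kn B₀ n i) ∈ LL T := by
    refine kn_mem hT hc₀ (tpi_tr hKalg) hc hcT fun a => ?_
    have h3 := Rl_exp (K := K) (D := D) (d := 1 + m) (c := EM c₀ (fun i => kum (l i) tpi) c) (kna_nil (B₀ := B₀) (n := n) a)
      hKf hKD (fun s => by
      rw [kna_exp]
      have h1 := hR (fun i => s * a i) (fun i => 1) (fun i => by rw [transpose_one, Matrix.one_mul, Matrix.mul_one])
      have h2 : EM (1 : Matrix B₀ B₀ ℂ) (fun i => uu (s * a i)) 1 * EM c₀ (fun i => kum (l i) tpi) c =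
          EM c₀ (fun i => kum (l i + s * a i * tpi) tpi) fun i => 1 * c i := by
        rw [EM_mul, Matrix.one_mul]
        congr 1
        funext i
        exact uu_kum _ _ _
      rw [h2]
      exact h1.mono (le_max_right _ _)) 1
    rw [kna_exp] at h3
    simp only [one_mul] at h3
    exact h3.mono (by omega)
  have hsp : ∀ i v, fl (EM (0 : Matrix B₀ B₀ ℂ) 0 (Pi.single i (nv (P i)⁻¹ v))) ∈ LL T := by
    have h1 := hd₀ (IM B₀ n) hm K hKc T _ hT hcT {N | ∃ i v, N = Ms B₀ i (nv (P i)⁻¹ v)} (by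
        rintro _ ⟨i, v, rfl⟩
        exact M_single_nil (nv_nil (inv_skew (hP i) (hdet i)) v)) (by
        rintro _ ⟨i, v, rfl⟩ t
        refine Rl_exp (K := K) (D := D) (d := d₀) (by
          exact M_single_nil (nv_nil (inv_skew (hP i) (hdet i)) v)) hKf hKD (fun t => ?_) t
        rw [Ms_apply, M_exp_single (nv_nil (inv_skew (hP i) (hdet i)) v), EM_mul, Matrix.one_mul]
        have h2 := hR 0 (su i (IsNilpotent.exp (t • nv (P i)⁻¹ v))) (by
          intro j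
          by_cases h : j = i
          · subst h
            rw [su_same]
            exact iso_flip (hdet j) (nv_isom (inv_skew (hP j) (hdet j)) v t)
          · rw [su_ne h, transpose_one, Matrix.one_mul, Matrix.mul_one])
        have h3 : (fun i : Fin k => (1 : Fin k → Matrix (Fin 2) (Fin 2) ℂ) i * kum (l i) tpi) =
            fun i => kum (l i + (0 : Fin k → ℂ) i * tpi) tpi := by
          funext j
          rw [Pi.one_apply, Matrix.one_mul, Pi.zero_apply, zero_mul, add_zero]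
        rw [h3]
        exact h2.mono (le_max_left _ _)) (by
        rintro _ ⟨i, v, rfl⟩
        have h2 := nv_perf (inv_skew (hP i) (hdet i)) (inv_det (hdet i)) v
        have h3 := Submodule.mem_map_of_mem (f := Ms B₀ (n := n) i) h2
        rw [Submodule.map_span] at h3
        refine Submodule.span_mono ?_ h3
        rintro _ ⟨_, ⟨u, w, rfl⟩, rfl⟩
        refine ⟨_, ⟨i, u, rfl⟩, _, ⟨i, w, rfl⟩, ?_⟩
        rw [map_sub, Ms_mul, Ms_mul])
    intro i v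
    exact h1 _ ⟨i, v, rfl⟩
  intro a g hg x hx
  have h1 : EM (1 : Matrix B₀ B₀ ℂ) (fun i => uu (a i)) g = EM 1 (fun i => uu (a i)) 1 * EM 1 1 g := by
    rw [EM_mul, Matrix.one_mul]
    congr 1
    · funext j
      exact (Matrix.mul_one _).symm
    · funext j
      exact (Matrix.one_mul _).symm
  rw [h1, Matrix.mul_assoc]
  exact ug_stab hT hkn a (sp_stab hT hP hdet hsp hg hx)

section count

open Pool.Agent.Y113 Pool.Agent.Y113.GG
open Pool.Agent.Y119.HZ (Jx pw Yt hyp_tuples_log Yt_form)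
open Pool.Agent.Y119.HY (QD Jm cm)

/-- **Counting.** For all but few tuples the subtorsors over all number fields of degree at most `D` are stable. -/
theorem hyp_stabU (k D r : ℕ) (n : Fin k → ℕ) (Q : Fin k → Polynomial ℚ) (hQ : ∀ i, QD (n i) (Q i))
    (hH : ∀ i a b, Pool.Agent.Y113.SDc (Pool.Agent.Y119.HZ.Hp (n i) (Q i) a b)) :
    ∃ c C : ℝ, 0 < c ∧ 0 ≤ C ∧
      ∀ (B₀ : Type) [Fintype B₀] [DecidableEq B₀] (c₀ : Matrix B₀ B₀ ℂ), Fintype.card B₀ ≤ r → IsUnit c₀ →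
      ∀ Ω : (∀ i, Matrix (Fin (n i)) (Fin (n i)) ℂ), (∀ i, IsUnit (Ω i)) → ∀ (x : Fin k → ℕ) (N : ℕ), (∀ i, 1 ≤ x i) →
      1 ≤ N → ∀ S : Finset (Fin k → ℕ), (∀ t ∈ S, (∀ i, x i < t i ∧ t i ≤ x i + N) ∧
        ¬ ∀ K : Subfield ℂ, FiniteDimensional ℚ K → Module.finrank ℚ K ≤ D → Sta K c₀ Q Ω t) →
      (S.card : ℝ) ≤ C * (N : ℝ) ^ (k - 1) * ∑ i, (1 + N / ((x i : ℝ) + N) ^ c) := by
  classical
  obtain ⟨d, hd⟩ := stabU (r + ∑ i, (2 + n i)) D
  obtain ⟨c, C, hc, hC, hmain⟩ := hyp_tuples_log k d ((1 + (r * r + 1) + 1) ^ (d + 1)) n Q hQ hH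
  refine ⟨c, C, hc, hC, ?_⟩
  intro B₀ _ _ c₀ hr hc₀ Ω hΩ x N hx hN S hS
  obtain ⟨hbf, hb1⟩ := bot_fin
  obtain ⟨W, hW1, hW2, hKW, hW3⟩ := exists_W' (⊥ : Subfield ℂ) (fun o : Option (B₀ × B₀) => o.elim tpi fun b => c₀ b.1 b.2)
  obtain ⟨hp1, hp2⟩ := finrank_pow_le W (d + 1)
  have hWD : Module.finrank ℚ W ≤ 1 + (r * r + 1) + 1 := by
    refine hW2.trans ?_
    rw [Fintype.card_option, Fintype.card_prod]
    have := Nat.mul_le_mul hr hr
    omega
  refine hmain (W ^ (d + 1)) (hp2.trans (Nat.pow_le_pow_left hWD _)) Ω x N hx hN S fun t ht => ?_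
  obtain ⟨hbox, hSt⟩ := hS t ht
  refine ⟨hbox, ?_⟩
  by_contra hcon
  apply hSt
  have ht2 : ∀ i, 2 ≤ t i := fun i => by
    have := (hbox i).1
    have := hx i
    omega
  intro K hKf hKD T hT hcT
  refine hd B₀ k n ?_ c₀ _ (cM Q Ω t) (PM' Q Ω) hc₀ (cM_unit hQ hΩ ht2)
    (PM'_skew hQ Ω) (PM'_det hQ hΩ) ?_ K hKf hKD T hT hcT
  · rw [card_IM]
    exact Nat.add_le_add_right hr _
  · intro a g hg
    have hcM : cM Q Ω t = fun i => (Yt (n i) (Q i) (t i) * Ω i)ᵀ := rfl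
    have hgc : (fun i => g i * cM Q Ω t i) = fun i => (Yt (n i) (Q i) (t i) * Ω i * (g i)ᵀ)ᵀ := by
      funext i
      rw [transpose_mul, transpose_transpose]
      rfl
    rw [hgc, hcM]
    have hΩi : ∀ i, (Ω i)⁻¹ * Ω i = 1 := fun i => nonsing_inv_mul _ ((Matrix.isUnit_iff_isUnit_det _).1 (hΩ i))
    have hΩi' : ∀ i, Ω i * (Ω i)⁻¹ = 1 := fun i => mul_nonsing_inv _ ((Matrix.isUnit_iff_isUnit_det _).1 (hΩ i))
    refine Rl_of hKW (PhiM_DC (hKW 1 (⊥ : Subfield ℂ).one_mem) (fun a b => hW3 (some (a, b))) (hW3 none))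
      (y := pw (fun i => ((Real.log (t i) : ℝ) : ℂ))
      fun i => Yt (n i) (Q i) (t i) * Ω i) (y' := pw (fun i => ((Real.log (t i) : ℝ) : ℂ) + a i * tpi)
      fun i => (Yt (n i) (Q i) (t i) * Ω i * (g i)ᵀ * (Ω i)⁻¹) * Ω i) ?_ (fun b => PhiM_eval c₀ tpi _ _ b) (fun b => ?_)
    · intro P hPd hPV hP0
      by_contra hne
      refine hcon ⟨P, hPd, hPV, hP0, _, _, fun i => ?_, hne⟩
      have hiso : (g i)ᵀᵀ = g i := transpose_transpose _
      have hPi := hg i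
      unfold PM' at hPi
      have e1 : (Yt (n i) (Q i) (t i) * Ω i * (g i)ᵀ * (Ω i)⁻¹)ᵀ = ((Ω i)⁻¹)ᵀ * (g i * ((Ω i)ᵀ * (Yt (n i) (Q i) (t i))ᵀ)) := by
        rw [transpose_mul, transpose_mul, transpose_mul, hiso]
      have e2 : ((Ω i)⁻¹)ᵀ * (Ω i)ᵀ = 1 := by rw [← transpose_mul, hΩi', transpose_one]
      rw [e1]
      calc ((Ω i)⁻¹)ᵀ * (g i * ((Ω i)ᵀ * (Yt (n i) (Q i) (t i))ᵀ)) * cm (Jm (n i) (Q i)) *
            (Yt (n i) (Q i) (t i) * Ω i * (g i)ᵀ * (Ω i)⁻¹) =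
          ((Ω i)⁻¹)ᵀ * (g i * ((Ω i)ᵀ * ((Yt (n i) (Q i) (t i))ᵀ * cm (Jm (n i) (Q i)) * Yt (n i) (Q i) (t i)) * Ω i) *
            (g i)ᵀ) * (Ω i)⁻¹ := by simp only [Matrix.mul_assoc]
        _ = (((Ω i)⁻¹)ᵀ * (Ω i)ᵀ) * cm (Jm (n i) (Q i)) * (Ω i * (Ω i)⁻¹) := by
            rw [Yt_form (hQ i) (ht2 i), hPi]
            simp only [Matrix.mul_assoc]
        _ = cm (Jm (n i) (Q i)) := by rw [e2, hΩi', Matrix.one_mul, Matrix.mul_one]
    · have h1 := PhiM_eval c₀ tpi (fun i => ((Real.log (t i) : ℝ) : ℂ) + a i * tpi)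
        (fun i => (Yt (n i) (Q i) (t i) * Ω i * (g i)ᵀ * (Ω i)⁻¹) * Ω i) b
      refine Eq.trans ?_ h1
      have h2 : (fun i => (Yt (n i) (Q i) (t i) * Ω i * (g i)ᵀ)ᵀ) =
          fun i => (Yt (n i) (Q i) (t i) * Ω i * (g i)ᵀ * (Ω i)⁻¹ * Ω i)ᵀ := by
        funext i
        rw [Matrix.mul_assoc _ (Ω i)⁻¹, hΩi, Matrix.mul_one]
      rw [h2]

end count

end Pool.Agent.U534.HypU
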