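import Pool.Agent.U534.HypAll
import Pool.Agent.U534.UnivFlat

/-!
# Adding one Kummer motive and one symplectic motive after the other
-/

set_option autoImplicit false
set_option linter.unusedSectionVars false

open Matrix Module

namespace Pool.Agent.U534.HypU

open Pool.Agent.TH127.PT Pool.Agent.Y123.ST Pool.Agent.Y123.SR Pool.Agent.Y123.GN
open Pool.Agent.Y119.HY (QD Jm cm)

variable {B₀ : Type} [Fintype B₀] [DecidableEq B₀] {K : Subfield ℂ}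

/-- the bijection of the index sets -/
def eqm (B₀ : Type) {k : ℕ} (n : Fin (k + 1) → ℕ) :
    IM (IM B₀ (fun i : Fin k => n i.castSucc)) (fun _ : Fin 1 => n (Fin.last k)) ≃ IM B₀ n where
  toFun := Sum.elim (Sum.elim Sum.inl fun q => Sum.inr ⟨q.1.castSucc, q.2⟩) fun q => Sum.inr ⟨Fin.last k, q.2⟩
  invFun := Sum.elim (fun b => Sum.inl (Sum.inl b)) fun q => Fin.lastCases
    (motive := fun i => Fin 2 ⊕ Fin (n i) →
      IM (IM B₀ (fun i : Fin k => n i.castSucc)) (fun _ : Fin 1 => n (Fin.last k)))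
    (fun a => Sum.inr ⟨0, a⟩) (fun i a => Sum.inl (Sum.inr ⟨i, a⟩)) q.1 q.2
  left_inv := by
    rintro ((b | ⟨i, a⟩) | ⟨j, a⟩)
    · rfl
    · simp
    · have : j = 0 := Subsingleton.elim _ _
      subst this
      simp
  right_inv := by
    rintro (b | ⟨i, a⟩)
    · rfl
    · induction i using Fin.lastCases with
      | last => simp
      | cast i => simp

theorem eqm_EM {k : ℕ} {n : Fin (k + 1) → ℕ} (x : Matrix B₀ B₀ ℂ) (κ : Fin (k + 1) → Matrix (Fin 2) (Fin 2) ℂ)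
    (X : ∀ i, Matrix (Fin (n i)) (Fin (n i)) ℂ) :
    Matrix.reindex (eqm B₀ n) (eqm B₀ n) (EM (EM x (fun i : Fin k => κ i.castSucc) fun i : Fin k => X i.castSucc)
      (fun _ : Fin 1 => κ (Fin.last k)) fun _ => X (Fin.last k)) = EM x κ X := by
  rw [← Equiv.eq_symm_apply, Matrix.reindex_symm]
  ext p q
  rw [Matrix.reindex_apply, Matrix.submatrix_apply, Equiv.symm_symm]
  rcases p with (b | ⟨i, a⟩) | ⟨j, a⟩ <;> rcases q with (b' | ⟨i', a'⟩) | ⟨j', a'⟩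
  · rfl
  · rfl
  · rfl
  · rfl
  · show blockDiagonal' (fun i : Fin k => fromBlocks (κ i.castSucc) 0 0 (X i.castSucc)) ⟨i, a⟩ ⟨i', a'⟩ =
      blockDiagonal' (fun i => fromBlocks (κ i) 0 0 (X i)) ⟨i.castSucc, a⟩ ⟨i'.castSucc, a'⟩
    by_cases h : i = i'
    · subst h
      rw [blockDiagonal'_apply_eq, blockDiagonal'_apply_eq]
    · rw [blockDiagonal'_apply_ne _ _ _ h, blockDiagonal'_apply_ne _ _ _ (fun hh => h (Fin.castSucc_injective _ hh))]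
  · show (0 : ℂ) = blockDiagonal' (fun i => fromBlocks (κ i) 0 0 (X i)) ⟨i.castSucc, a⟩ ⟨Fin.last k, a'⟩
    rw [blockDiagonal'_apply_ne _ _ _ (Fin.castSucc_lt_last i).ne]
  · rfl
  · show (0 : ℂ) = blockDiagonal' (fun i => fromBlocks (κ i) 0 0 (X i)) ⟨Fin.last k, a⟩ ⟨i'.castSucc, a'⟩
    rw [blockDiagonal'_apply_ne _ _ _ (Fin.castSucc_lt_last i').ne']
  · have hj : j = j' := Subsingleton.elim _ _
    subst hj
    show blockDiagonal' (fun _ : Fin 1 => fromBlocks (κ (Fin.last k)) 0 0 (X (Fin.last k))) ⟨j, a⟩ ⟨j, a'⟩ =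
      blockDiagonal' (fun i => fromBlocks (κ i) 0 0 (X i)) ⟨Fin.last k, a⟩ ⟨Fin.last k, a'⟩
    rw [blockDiagonal'_apply_eq, blockDiagonal'_apply_eq]

/-- append a block -/
noncomputable def sn {k : ℕ} {n : Fin (k + 1) → ℕ} (X : ∀ i : Fin k, Matrix (Fin (n i.castSucc)) (Fin (n i.castSucc)) ℂ)
    (Y : Matrix (Fin (n (Fin.last k))) (Fin (n (Fin.last k))) ℂ) : ∀ i, Matrix (Fin (n i)) (Fin (n i)) ℂ :=
  Fin.snoc (α := fun i => Matrix (Fin (n i)) (Fin (n i)) ℂ) X Y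

/-- append a number or a matrix -/
noncomputable def sk {α : Type} {k : ℕ} (u : Fin k → α) (v : α) : Fin (k + 1) → α :=
  Fin.snoc (α := fun _ => α) u v

theorem eqm_sn {k : ℕ} {n : Fin (k + 1) → ℕ} (x : Matrix B₀ B₀ ℂ) (κ : Fin k → Matrix (Fin 2) (Fin 2) ℂ)
    (X : ∀ i : Fin k, Matrix (Fin (n i.castSucc)) (Fin (n i.castSucc)) ℂ) (μ : Fin 1 → Matrix (Fin 2) (Fin 2) ℂ)
    (Y : Fin 1 → Matrix (Fin (n (Fin.last k))) (Fin (n (Fin.last k))) ℂ) :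
    Matrix.reindex (eqm B₀ n) (eqm B₀ n) (EM (EM x κ X) μ Y) = EM x (sk κ (μ 0)) (sn X (Y 0)) := by
  have e1 : (fun i : Fin k => sk κ (μ 0) i.castSucc) = κ := by
    funext i
    unfold sk
    rw [Fin.snoc_castSucc]
  have e2 : (fun i : Fin k => sn X (Y 0) i.castSucc) = X := by
    funext i
    unfold sn
    rw [Fin.snoc_castSucc]
  have e3 : (fun _ : Fin 1 => sk κ (μ 0) (Fin.last k)) = μ := by
    funext j
    unfold sk
    rw [Fin.snoc_last, Subsingleton.elim j 0]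
  have e4 : (fun _ : Fin 1 => sn X (Y 0) (Fin.last k)) = Y := by
    funext j
    unfold sn
    rw [Fin.snoc_last, Subsingleton.elim j 0]
  have h1 := eqm_EM x (sk κ (μ 0)) (sn X (Y 0))
  rw [e1, e2, e3, e4] at h1
  exact h1

theorem cm_EM {k : ℕ} {n : Fin k → ℕ} {b₀ : B₀} {x : Matrix B₀ B₀ ℂ} (hx : Cm b₀ x)
    (κ : Fin k → Matrix (Fin 2) (Fin 2) ℂ) (X : ∀ i, Matrix (Fin (n i)) (Fin (n i)) ℂ) :
    Cm (Sum.inl b₀) (EM x κ X) := by
  rintro (b | q) hb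
  · exact hx b fun h => hb (by rw [h])
  · exact ⟨rfl, rfl⟩

theorem EM_00 {k : ℕ} {n : Fin k → ℕ} (b₀ : B₀) (x : Matrix B₀ B₀ ℂ) (κ : Fin k → Matrix (Fin 2) (Fin 2) ℂ)
    (X : ∀ i, Matrix (Fin (n i)) (Fin (n i)) ℂ) : (EM x κ X) (Sum.inl b₀) (Sum.inl b₀) = x b₀ b₀ := rfl

theorem fpm_iff {k : ℕ} {n : Fin (k + 1) → ℕ} (J Bm : ∀ i, Matrix (Fin (n i)) (Fin (n i)) ℂ) (w : Fin (k + 1) → ℕ)
    (b₀ : B₀) (S : Set (Matrix B₀ B₀ ℂ))
    (y : Matrix (IM (IM B₀ (fun i : Fin k => n i.castSucc)) (fun _ : Fin 1 => n (Fin.last k)))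
      (IM (IM B₀ (fun i : Fin k => n i.castSucc)) (fun _ : Fin 1 => n (Fin.last k))) ℂ) :
    Matrix.reindex (eqm B₀ n) (eqm B₀ n) y ∈ FPM J Bm w b₀ S ↔
      y ∈ FPM (fun _ => J (Fin.last k)) (fun _ => Bm (Fin.last k)) (fun _ => w (Fin.last k)) (Sum.inl b₀)
        (FPM (fun i : Fin k => J i.castSucc) (fun i : Fin k => Bm i.castSucc) (fun i : Fin k => w i.castSucc) b₀ S) := by
  constructor
  · rintro ⟨x, u, X, h1, h2, h3, h4⟩
    rw [← eqm_EM] at h4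
    have h5 := (Matrix.reindex (eqm B₀ n) (eqm B₀ n)).injective h4
    refine ⟨EM x (fun i : Fin k => kum (u i.castSucc) (x b₀ b₀)) fun i : Fin k => X i.castSucc,
      fun _ => u (Fin.last k), fun _ => X (Fin.last k), ⟨x, _, _, h1, h2, fun i => h3 _, rfl⟩, cm_EM h2 _ _, ?_, h5⟩
    intro j
    rw [EM_00]
    exact h3 _
  · rintro ⟨z, v, Y, ⟨x, u, X, h1, h2, h3, rfl⟩, h4, h5, rfl⟩
    rw [eqm_sn]
    refine ⟨x, sk u (v 0), sn X (Y 0), h1, h2, fun i => ?_, ?_⟩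
    · simp only [EM_00] at h5
      induction i using Fin.lastCases with
      | last =>
        unfold sn
        rw [Fin.snoc_last]
        exact h5 0
      | cast i =>
        unfold sn
        rw [Fin.snoc_castSucc]
        exact h3 i
    · congr 1
      funext i
      induction i using Fin.lastCases with
      | last =>
        unfold sk
        rw [Fin.snoc_last, Fin.snoc_last, EM_00]
      | cast i =>
        unfold sk
        rw [Fin.snoc_castSucc, Fin.snoc_castSucc]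

/-- all subtorsors are fibre products -/
def AllW (K : Subfield ℂ) (b₀ : B₀) (c₀ : Matrix B₀ B₀ ℂ) {k : ℕ} {n : Fin k → ℕ} (Q : Fin k → Polynomial ℚ)
    (Ω : ∀ i, Matrix (Fin (n i)) (Fin (n i)) ℂ) (t : Fin k → ℕ) : Prop :=
  ∀ (w : Fin k → ℕ) (Bm : ∀ i, Matrix (Fin (n i)) (Fin (n i)) ℂ), (∀ i, PM' Q Ω i = tpi ^ w i • Bm i) →
  ∀ T : Set (Matrix (IM B₀ n) (IM B₀ n) ℂ), IsSubtorsor K T → tot c₀ Q Ω t ∈ T →
    T ⊆ FPM (fun i => cm (Jm (n i) (Q i))) Bm w b₀ {x | IsUnit x} →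
    IsSubtorsor K (PJ T) ∧ T = FPM (fun i => cm (Jm (n i) (Q i))) Bm w b₀ (PJ T)

/-- the bijection for no blocks -/
def em0 (B₀ : Type) (n : Fin 0 → ℕ) : B₀ ≃ IM B₀ n := (Equiv.sumEmpty B₀ (Σ i : Fin 0, Fin 2 ⊕ Fin (n i))).symm

theorem em0_EM (n : Fin 0 → ℕ) (x : Matrix B₀ B₀ ℂ) (κ : Fin 0 → Matrix (Fin 2) (Fin 2) ℂ)
    (X : ∀ i : Fin 0, Matrix (Fin (n i)) (Fin (n i)) ℂ) :
    Matrix.reindex (em0 B₀ n) (em0 B₀ n) x = EM x κ X := by
  ext p q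
  rcases p with b | q1
  · rcases q with b' | q2
    · rfl
    · exact q2.1.elim0
  · exact q1.1.elim0

theorem allW_zero (K : Subfield ℂ) (b₀ : B₀) (c₀ : Matrix B₀ B₀ ℂ) {n : Fin 0 → ℕ} (Q : Fin 0 → Polynomial ℚ)
    (Ω : ∀ i, Matrix (Fin (n i)) (Fin (n i)) ℂ) (t : Fin 0 → ℕ) : AllW K b₀ c₀ Q Ω t := by
  intro w Bm _ T hT hcT hTF
  have h1 : PJ T = {x | Matrix.reindex (em0 B₀ n) (em0 B₀ n) x ∈ T} := by
    ext x
    constructor
    · rintro ⟨κ, X, hX⟩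
      show Matrix.reindex (em0 B₀ n) (em0 B₀ n) x ∈ T
      rw [em0_EM n x κ X]
      exact hX
    · intro hx
      refine ⟨fun i => i.elim0, fun i => i.elim0, ?_⟩
      rw [← em0_EM n x]
      exact hx
  refine ⟨by rw [h1]; exact Univ.sub_reindex (em0 B₀ n) hT, Set.Subset.antisymm (fun y hy => ?_) ?_⟩
  · obtain ⟨x, u, X, h2, h3, h4, rfl⟩ := hTF hy
    exact ⟨x, u, X, ⟨_, X, hy⟩, h3, h4, rfl⟩
  · rintro _ ⟨x, u, X, ⟨κ', X', h2⟩, h3, h4, rfl⟩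
    rw [Subsingleton.elim X X', Subsingleton.elim (fun i : Fin 0 => kum (u i) (x b₀ b₀)) κ']
    exact h2

theorem fpm_units {k : ℕ} {n : Fin k → ℕ} {J Bm : ∀ i, Matrix (Fin (n i)) (Fin (n i)) ℂ} {w : Fin k → ℕ} {b₀ : B₀}
    (hB : ∀ i, (Bm i).det ≠ 0) {y : Matrix (IM B₀ n) (IM B₀ n) ℂ} (hy : y ∈ FPM J Bm w b₀ {x | IsUnit x}) : IsUnit y :=
  fpm_unit hB (fun _ hx => hx) y hy

theorem allW_succ {b₀ : B₀} {c₀ : Matrix B₀ B₀ ℂ} {k : ℕ} {n : Fin (k + 1) → ℕ} {Q : Fin (k + 1) → Polynomial ℚ}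
    (hQ : ∀ i, QD (n i) (Q i)) {Ω : ∀ i, Matrix (Fin (n i)) (Fin (n i)) ℂ} (hΩ : ∀ i, IsUnit (Ω i))
    {t : Fin (k + 1) → ℕ} (ht : ∀ i, 2 ≤ t i)
    (h : AllW K b₀ c₀ (fun i : Fin k => Q i.castSucc) (fun i : Fin k => Ω i.castSucc) fun i : Fin k => t i.castSucc)
    (hE : Sta K (tot c₀ (fun i : Fin k => Q i.castSucc) (fun i : Fin k => Ω i.castSucc) fun i : Fin k => t i.castSucc)
      (fun _ : Fin 1 => Q (Fin.last k)) (fun _ => Ω (Fin.last k)) fun _ => t (Fin.last k)) :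
    AllW K b₀ c₀ Q Ω t := by
  intro w Bm hPB T hT hcT hTF
  have hBd : ∀ i, (Bm i).det ≠ 0 := by
    intro i h0
    apply PM'_det hQ hΩ i
    rw [hPB, det_smul, h0, mul_zero]
  set n' : Fin k → ℕ := fun i => n i.castSucc with hn'
  set T' : Set (Matrix (IM (IM B₀ n') (fun _ : Fin 1 => n (Fin.last k))) (IM (IM B₀ n') (fun _ : Fin 1 => n (Fin.last k))) ℂ) :=
    {y | Matrix.reindex (eqm B₀ n) (eqm B₀ n) y ∈ T} with hT'
  have hT's : IsSubtorsor K T' := Univ.sub_reindex (eqm B₀ n) hT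
  have hcT' : tot (tot c₀ (fun i : Fin k => Q i.castSucc) (fun i : Fin k => Ω i.castSucc) fun i : Fin k => t i.castSucc)
      (fun _ : Fin 1 => Q (Fin.last k)) (fun _ => Ω (Fin.last k)) (fun _ => t (Fin.last k)) ∈ T' := by
    show Matrix.reindex (eqm B₀ n) (eqm B₀ n) (EM (EM c₀ (fun i : Fin k => kum ((Real.log (t i.castSucc) : ℝ) : ℂ) tpi)
      fun i : Fin k => cM Q Ω t i.castSucc) (fun _ : Fin 1 => kum ((Real.log (t (Fin.last k)) : ℝ) : ℂ) tpi)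
      fun _ => cM Q Ω t (Fin.last k)) ∈ T
    rw [eqm_EM c₀ (fun i => kum ((Real.log (t i) : ℝ) : ℂ) tpi) (cM Q Ω t)]
    exact hcT
  have hT'F : T' ⊆ FPM (fun _ => cm (Jm (n (Fin.last k)) (Q (Fin.last k)))) (fun _ => Bm (Fin.last k))
      (fun _ => w (Fin.last k)) (Sum.inl b₀) (FPM (fun i : Fin k => cm (Jm (n i.castSucc) (Q i.castSucc)))
        (fun i : Fin k => Bm i.castSucc) (fun i : Fin k => w i.castSucc) b₀ {x | IsUnit x}) :=
    fun y hy => (fpm_iff (fun i => cm (Jm (n i) (Q i))) Bm w b₀ _ y).1 (hTF hy)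
  obtain ⟨h1, h2⟩ := all_of_sta (n := fun _ : Fin 1 => n (Fin.last k)) (fun _ => hQ _) (fun _ => ht _) hE
    (w := fun _ => w (Fin.last k)) (Bm := fun _ => Bm (Fin.last k)) (fun _ => hPB _) (fun _ => hBd _)
    (b₀ := Sum.inl b₀) hT's hcT' (by
      intro y hy
      obtain ⟨z, v, Y, h3, h4, h5, rfl⟩ := hT'F hy
      exact ⟨z, v, Y, fpm_units (fun i => hBd _) h3, h4, h5, rfl⟩)
  have hPF : PJ T' ⊆ FPM (fun i : Fin k => cm (Jm (n i.castSucc) (Q i.castSucc)))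
        (fun i : Fin k => Bm i.castSucc) (fun i : Fin k => w i.castSucc) b₀ {x | IsUnit x} := by
    rintro z ⟨κ, Y, hY⟩
    obtain ⟨z', v', Y', h3, h4, h5, h6⟩ := hT'F hY
    obtain ⟨h7, -, -⟩ := EM_inj h6
    rw [h7]
    exact h3
  obtain ⟨h3, h4⟩ := h (fun i => w i.castSucc) (fun i => Bm i.castSucc) (fun i => hPB _) (PJ T') h1
    ⟨_, _, hcT'⟩ hPF
  have h5 : PJ T = PJ (PJ T') := by
    ext x
    constructor
    · rintro ⟨κ, X, hX⟩
      refine ⟨fun i => κ i.castSucc, fun i => X i.castSucc, fun _ => κ (Fin.last k), fun _ => X (Fin.last k), ?_⟩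
      show Matrix.reindex _ _ _ ∈ T
      rw [eqm_EM]
      exact hX
    · rintro ⟨κ, X, μ, Y, hY⟩
      refine ⟨sk κ (μ 0), sn X (Y 0), ?_⟩
      rw [← eqm_sn]
      exact hY
  rw [h5]
  refine ⟨h3, ?_⟩
  ext z
  have h6 : Matrix.reindex (eqm B₀ n) (eqm B₀ n) (Matrix.reindex (eqm B₀ n).symm (eqm B₀ n).symm z) = z := by
    rw [← Matrix.reindex_symm]
    exact Equiv.apply_symm_apply _ _
  rw [← h6, fpm_iff, ← h4, ← h2]
  rfl

end Pool.Agent.U534.HypU
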