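import Pool.Agent.U534.ModInt

/-!
# Isogeny classes
-/

set_option autoImplicit false
set_option linter.unusedSectionVars false

open Pool.Agent.TH21.MS (jj)
open Pool.Agent.Y120.J Pool.Agent.Y120.K

namespace Pool.Agent.U534.Tens

/-- the points isogenous to the points above `t` -/
def Yi (t : ℤ) : Set (Unit → ℂ) := {y | ∃ w : UpperHalfPlane, jj w = t ∧ ∃ a b c d : ℚ, a * d - b * c ≠ 0 ∧
  y () = ((a : ℂ) * w + b) / ((c : ℂ) * w + d)}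

/-- integral linear combinations do not vanish on the upper half-plane -/
theorem lin_ne {g : M4} (w : UpperHalfPlane) : (g.c : ℂ) * w + g.d ≠ 0 := by
  intro h0
  have h1 := congrArg Complex.im h0
  simp only [Complex.add_im, Complex.mul_im, Complex.intCast_re, Complex.intCast_im, zero_mul, add_zero, Complex.zero_im] at h1
  have hc : ((g.c : ℤ) : ℝ) = 0 := (mul_eq_zero.1 h1).resolve_right w.im_pos.ne'
  have hc' : g.c = 0 := by exact_mod_cast hc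
  rw [hc'] at h0
  have hd : ((g.d : ℤ) : ℂ) = 0 := by simpa using h0
  have hd' : g.d = 0 := by exact_mod_cast hd
  have h2 := g.det
  rw [hc', hd'] at h2
  exact h2 (by ring)

theorem hUYi (δ : ℕ) : ∃ T : ℕ, ∀ t : ℤ, (T : ℤ) ≤ |t| → ∀ y ∈ Yi t, ∃ m : ℂ, m ≠ 0 ∧
    ∀ e : Unit → Fin (δ + 1), m * ∏ a, y a ^ (e a : ℕ) ∈ monSp δ (Zt t) := by
  classical
  obtain ⟨T, hT⟩ := fibre
  refine ⟨T, fun t ht y hy => ?_⟩
  obtain ⟨w, hw, hy⟩ := hy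
  obtain ⟨γ, w₀, hγ, hZ0, hZ1, -, -⟩ := hT t ht w hw
  obtain ⟨g, hg⟩ := toM4 (z := y ()) (w := w) hy
  obtain ⟨g', hg'⟩ := comp g γ hg hγ
  have hne := lin_ne (g := g') w₀
  set P : MvPolynomial (Fin 3) ℤ := uP g'.a g'.b with hP
  set Q : MvPolynomial (Fin 3) ℤ := uP g'.c g'.d with hQ
  have hPe : e2 (Zt t) P = (g'.a * w₀ + g'.b) * Zt t 0 := by
    rw [hP, e2_uP, ← hZ1]
    ring
  have hQe : e2 (Zt t) Q = (g'.c * w₀ + g'.d) * Zt t 0 := by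
    rw [hQ, e2_uP, ← hZ1]
    ring
  have hQ0 : e2 (Zt t) Q ≠ 0 := by
    rw [hQe]
    exact mul_ne_zero hne hZ0
  have hyq : y () * e2 (Zt t) Q = e2 (Zt t) P := by
    rw [hQe, hPe, ← hg']
    ring
  refine ⟨e2 (Zt t) Q ^ δ, pow_ne_zero _ hQ0, fun e => ?_⟩
  have h1 : e2 (Zt t) Q ^ δ * ∏ a, y a ^ (e a : ℕ) = e2 (Zt t) (P ^ (e () : ℕ) * Q ^ (δ - (e () : ℕ))) := by
    rw [Fintype.prod_unique, e2_hom (Zt t) (P ^ (e () : ℕ) * Q ^ (δ - (e () : ℕ))), map_mul, map_pow, map_pow, ← e2_hom, ← e2_hom]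
    have h2 : e2 (Zt t) Q ^ δ = e2 (Zt t) Q ^ (e () : ℕ) * e2 (Zt t) Q ^ (δ - (e () : ℕ)) := by
      rw [← pow_add, Nat.add_sub_cancel' (Nat.le_of_lt_succ (e ()).2)]
    have h3 : (default : Unit) = () := rfl
    rw [h3, h2, ← hyq, mul_pow]
    ring
  rw [h1]
  refine e2_mem ?_
  refine (MvPolynomial.totalDegree_mul _ _).trans ?_
  refine (add_le_add ((MvPolynomial.totalDegree_pow _ _).trans (Nat.mul_le_mul_left _ (uP_deg _ _)))
      ((MvPolynomial.totalDegree_pow _ _).trans (Nat.mul_le_mul_left _ (uP_deg _ _)))).trans ?_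
  rw [mul_one, mul_one, Nat.add_sub_cancel' (Nat.le_of_lt_succ (e ()).2)]

theorem hwini (q k δ : ℕ) : ∃ E : ℕ, ∀ (a : ℤ) (H : ℕ), (∀ t ∈ Set.Icc a (a + H), ((H : ℤ) + 2) ^ E ≤ |t|) →
    ∀ W : Submodule ℚ ℂ, Module.Finite ℚ W → Module.finrank ℚ W ≤ q → ∃ S : Finset ℤ, S.card ≤ q + 2 ∧
    ∀ n : Fin k → ℤ, Function.Injective n → (∀ κ, n κ ∈ Set.Icc a (a + H) ∧ n κ ∉ S) →
    ∀ K : IntermediateField ℚ ℂ, FiniteDimensional ℚ K → Module.finrank ℚ K ≤ δ →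
    ∀ y : Fin k → Unit → ℂ, (∀ κ, y κ ∈ Yi (n κ)) → ¬ Rel K W (mon δ y) := by
  obtain ⟨E, hE⟩ := winI hnr q k δ (1 + k * (Fintype.card Unit * δ))
  refine ⟨E, fun a H hH W hW hWq => ?_⟩
  obtain ⟨ξ, hξ⟩ := exists_span hW hWq
  obtain ⟨s, N', hN', hs⟩ := window_sign (N := (H + 2) ^ E) (Nat.one_le_pow _ _ (by omega)) (fun t ht => by
    have := hH t ht
    exact_mod_cast this)
  obtain ⟨S, hS1, hS2⟩ := hE N' H hN' ξ s
  refine ⟨S, hS1, fun n hn hnS K hK hKD y hy => ?_⟩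
  choose w hw hyw using hy
  refine not_rel ξ (wo ξ) (fun m => rfl) hξ K _ le_rfl fun P hP hP0 u => ?_
  set f : Option (Fin q) ⊕ Fin k × Unit → Option (Fin q) ⊕ Fin k := Sum.map id Prod.fst with hf
  have hren : ∀ v : Fin k → ℂ, MvPolynomial.aeval (Sum.elim (wo ξ) v) (MvPolynomial.rename f P) =
      MvPolynomial.aeval (Sum.elim (wo ξ) fun w : Fin k × Unit => v w.1) P := by
    intro v
    rw [MvPolynomial.aeval_rename]
    congr 1
    congr 1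
    funext x
    rcases x with x | x <;> rfl
  have h1 := hS2 n hn (fun κ => ⟨(hs _ (hnS κ).1).1, (hs _ (hnS κ).1).2, (hnS κ).2⟩) w hw (fun i => y i ()) hyw K hK hKD
    (MvPolynomial.rename f P) ((MvPolynomial.totalDegree_rename_le _ _).trans hP) (by
      rw [hren]
      exact hP0) (fun i => u (i, ()))
  rw [hren] at h1
  exact h1

/-- **Isogeny classes above almost full windows.** -/
theorem isogeny {A : ℕ → Set ℤ} (hA : ∀ j, ClusteredZ (A j)) {V : ℕ → Submodule ℚ ℂ} (hVf : ∀ j, Module.Finite ℚ (V j))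
    (hV : Monotone V) {δ : ℕ → ℕ} (hδ : Monotone δ) :
    ∃ (a b : ℕ → ℤ) (T : ℕ → Finset ℤ),
      (∀ j, (∀ t ∈ Set.Icc (a j) (b j), (j : ℤ) ≤ |t|) ∧ (T j : Set ℤ) ⊆ A j ∩ Set.Icc (a j) (b j) ∧ j ≤ (T j).card ∧
        (j + 1) * ((A j ∩ Set.Icc (a j) (b j)) \ T j).ncard ≤ (A j ∩ Set.Icc (a j) (b j)).ncard) ∧
      (∀ i j, i ≠ j → Disjoint (T i) (T j)) ∧
      ∀ y : ℤ → Unit → ℂ, (∀ j, ∀ t ∈ T j, y t ∈ Yi t) →
      ∀ (l : ℕ) (K : IntermediateField ℚ ℂ), FiniteDimensional ℚ K → Module.finrank ℚ K ≤ δ l →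
      ∀ P : MvPolynomial (ℤ × Unit) ℂ, P ≠ 0 → (∀ v ∈ P.vars, ∃ j ≥ l, v.1 ∈ T j) →
        (∀ v, P.degreeOf v ≤ δ l) → (∀ s, P.coeff s ∈ Submodule.span K (V l : Set ℂ)) →
        MvPolynomial.eval (fun v => y v.1 v.2) P ≠ 0 :=
  universal Yi (fun δ t => monSp δ (Zt t)) (fun _ _ => monSp_fin _ _) (fun _ _ => monSp_one _ _)
    (fun δ => (δ + 1) ^ 3) (fun _ _ => monSp_rank _ _) hUYi hwini hA hVf hV hδ

end Pool.Agent.U534.Tens
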