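import Pool.Agent.U534.NotRel
import Pool.Agent.Y120.K.All

/-!
# The modular instance
-/

set_option autoImplicit false
set_option linter.unusedSectionVars false

open Pool.Agent.TH21.MS (jj)
open Pool.Agent.Y120.J Pool.Agent.Y120.K

namespace Pool.Agent.U534.Tens

/-- the space of the values of polynomials of bounded degree -/
noncomputable def monSp (B : ℕ) (Z : Fin 3 → ℂ) : Submodule ℚ ℂ :=
  Submodule.span ℚ (Set.range fun e : Fin 3 → Fin (B + 1) => ∏ a, Z a ^ (e a : ℕ))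

theorem monSp_fin (B : ℕ) (Z : Fin 3 → ℂ) : Module.Finite ℚ (monSp B Z) :=
  Module.Finite.span_of_finite ℚ (Set.finite_range _)

theorem monSp_rank (B : ℕ) (Z : Fin 3 → ℂ) : Module.finrank ℚ (monSp B Z) ≤ (B + 1) ^ 3 := by
  refine (finrank_range_le_card _).trans ?_
  rw [Fintype.card_fun, Fintype.card_fin, Fintype.card_fin]

theorem monSp_one (B : ℕ) (Z : Fin 3 → ℂ) : (1 : ℂ) ∈ monSp B Z :=
  Submodule.subset_span ⟨fun _ => 0, by simp⟩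

theorem e2_mem {B : ℕ} {Z : Fin 3 → ℂ} {p : MvPolynomial (Fin 3) ℤ} (hp : p.totalDegree ≤ B) : e2 Z p ∈ monSp B Z := by
  classical
  unfold e2
  rw [MvPolynomial.eval₂_eq']
  refine Submodule.sum_mem _ fun s hs => ?_
  have h1 : ∀ a, s a < B + 1 := by
    intro a
    have h2 := (MvPolynomial.monomial_le_degreeOf a hs).trans ((MvPolynomial.degreeOf_le_totalDegree p a).trans hp)
    omega
  have h3 : (Int.castRingHom ℂ) (MvPolynomial.coeff s p) * ∏ i, Z i ^ s i =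
      ((MvPolynomial.coeff s p : ℤ) : ℚ) • ∏ i, Z i ^ (((fun a => ⟨s a, h1 a⟩ : Fin 3 → Fin (B + 1)) i : Fin (B + 1)) : ℕ) := by
    rw [Algebra.smul_def]
    simp
  rw [h3]
  exact Submodule.smul_mem _ _ (Submodule.subset_span ⟨_, rfl⟩)

/-- the period numbers at the integer `t` -/
noncomputable def Zt (t : ℤ) : Fin 3 → ℂ := pS (decide (0 < t)) (t.natAbs : ℝ)

/-- fractions -/
theorem frac_mem {δ : ℕ} {Z : Fin 3 → ℂ} {y : Fin 3 → ℂ} {n m : Fin 3 → MvPolynomial (Fin 3) ℤ} {d : ℕ} (hn : ∀ j, (n j).totalDegree ≤ d)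
    (hm : ∀ j, (m j).totalDegree ≤ d) (hm0 : ∀ j, e2 Z (m j) ≠ 0) (hy : ∀ j, y j = e2 Z (n j) / e2 Z (m j)) :
    ∃ c : ℂ, c ≠ 0 ∧ ∀ e : Fin 3 → Fin (δ + 1), c * ∏ a, y a ^ (e a : ℕ) ∈ monSp (3 * (δ * d)) Z := by
  classical
  refine ⟨∏ a, e2 Z (m a) ^ δ, Finset.prod_ne_zero_iff.2 fun a _ => pow_ne_zero _ (hm0 a), fun e => ?_⟩
  have h1 : (∏ a, e2 Z (m a) ^ δ) * ∏ a, y a ^ (e a : ℕ) = e2 Z (∏ a, (n a ^ (e a : ℕ) * m a ^ (δ - (e a : ℕ)))) := by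
    rw [e2_hom, map_prod, ← Finset.prod_mul_distrib]
    refine Finset.prod_congr rfl fun a _ => ?_
    rw [map_mul, map_pow, map_pow, ← e2_hom, ← e2_hom, hy a, div_pow]
    have h2 : e2 Z (m a) ^ δ = e2 Z (m a) ^ (δ - (e a : ℕ)) * e2 Z (m a) ^ (e a : ℕ) := by
      rw [← pow_add, Nat.sub_add_cancel (Nat.le_of_lt_succ (e a).2)]
    rw [h2]
    have h3 := pow_ne_zero (e a : ℕ) (hm0 a)
    field_simp
  rw [h1]
  refine e2_mem ?_
  refine (MvPolynomial.totalDegree_finset_prod _ _).trans ?_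
  have h4 : ∀ a ∈ (Finset.univ : Finset (Fin 3)), (n a ^ (e a : ℕ) * m a ^ (δ - (e a : ℕ))).totalDegree ≤ δ * d := by
    intro a _
    refine (MvPolynomial.totalDegree_mul _ _).trans ?_
    refine (add_le_add ((MvPolynomial.totalDegree_pow _ _).trans (Nat.mul_le_mul_left _ (hn a)))
      ((MvPolynomial.totalDegree_pow _ _).trans (Nat.mul_le_mul_left _ (hm a)))).trans ?_
    rw [← add_mul, Nat.add_sub_cancel' (Nat.le_of_lt_succ (e a).2)]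
  refine (Finset.sum_le_card_nsmul _ _ _ h4).trans ?_
  rw [Finset.card_univ, Fintype.card_fin, smul_eq_mul]

/-- the numbers `z`, `j'`, `j''` of all points above `t` -/
def Yt (t : ℤ) : Set (Fin 3 → ℂ) := {y | ∃ z : UpperHalfPlane, jj z = t ∧ y = jt z}

theorem si_abs {t : ℤ} (ht : t ≠ 0) : si (decide (0 < t)) * (t.natAbs : ℤ) = t := by
  unfold si
  by_cases h : 0 < t
  · simp only [h, decide_true, if_true, one_mul]
    omega
  · simp only [h, decide_false]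
    simp only [Bool.false_eq_true, if_false]
    omega

/-- all points above `t` -/
theorem fibre : ∃ T : ℕ, ∀ t : ℤ, (T : ℤ) ≤ |t| → ∀ z : UpperHalfPlane, jj z = t → ∃ (γ : Matrix.SpecialLinearGroup (Fin 2) ℤ)
    (w : UpperHalfPlane), z = γ • w ∧ Zt t 0 ≠ 0 ∧ (w : ℂ) * Zt t 0 = Zt t 1 ∧
    (∀ j, e2 (Zt t) (mm (γ 1 0) (γ 1 1) j) ≠ 0) ∧
    ∀ j, jt z j = e2 (Zt t) (nn (γ 0 0) (γ 0 1) (γ 1 0) (γ 1 1) t j) / e2 (Zt t) (mm (γ 1 0) (γ 1 1) j) := by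
  choose T hT using all_PT
  obtain ⟨w₀, hw₀⟩ := exists_nat_ge (max (max (T true) (T false)) 1)
  refine ⟨w₀, fun t ht z hz => ?_⟩
  rw [Int.abs_eq_natAbs] at ht
  have ht' : w₀ ≤ t.natAbs := by exact_mod_cast ht
  have h4 : max (max (T true) (T false)) 1 ≤ (t.natAbs : ℝ) := hw₀.trans (by exact_mod_cast ht')
  have h1 : T (decide (0 < t)) ≤ (t.natAbs : ℝ) := by
    cases decide (0 < t)
    · exact ((le_max_right _ _).trans (le_max_left _ _)).trans h4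
    · exact ((le_max_left _ _).trans (le_max_left _ _)).trans h4
  have h2 : (1 : ℝ) ≤ (t.natAbs : ℝ) := (le_max_right _ 1).trans h4
  have h3 : t ≠ 0 := by
    rintro rfl
    norm_num at h2
  have h5 : ((si (decide (0 < t)) * (t.natAbs : ℤ) : ℤ) : ℂ) = (t : ℂ) := by
    rw [si_abs h3]
  have h6 : ((si (decide (0 < t)) : ℤ) : ℂ) * ((t.natAbs : ℝ) : ℂ) = (t : ℂ) := by
    rw [← h5, Int.cast_mul, Int.cast_natCast, Complex.ofReal_natCast]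
  obtain ⟨γ, w, hγ, hZ0, hw, hd1, hd2⟩ := hT (decide (0 < t)) (t.natAbs : ℝ) z h1 (by rw [hz, h6])
  have h7 := ptsS (t := t) (Z := Zt t) hZ0 hw (by rw [hd1, h6]; rfl) (by rw [hd2, h6]; rfl) γ hγ
  exact ⟨γ, w, hγ, hZ0, hw, h7⟩

theorem hUY (δ : ℕ) : ∃ T : ℕ, ∀ t : ℤ, (T : ℤ) ≤ |t| → ∀ y ∈ Yt t, ∃ m : ℂ, m ≠ 0 ∧
    ∀ e : Fin 3 → Fin (δ + 1), m * ∏ a, y a ^ (e a : ℕ) ∈ monSp (3 * (δ * 8)) (Zt t) := by
  obtain ⟨T, hT⟩ := fibre
  refine ⟨T, fun t ht y hy => ?_⟩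
  obtain ⟨z, hz, rfl⟩ := hy
  obtain ⟨γ, w, -, -, -, h1, h2⟩ := hT t ht z hz
  exact frac_mem (fun j => nn_deg _ _ _ _ _ j) (fun j => mm_deg _ _ j) h1 h2

/-- signs of windows -/
theorem window_sign {a : ℤ} {H N : ℕ} (hN : 1 ≤ N) (h : ∀ t ∈ Set.Icc a (a + H), (N : ℤ) ≤ |t|) :
    ∃ (s : Bool) (N' : ℕ), N ≤ N' ∧ ∀ t ∈ Set.Icc a (a + H), (N' : ℤ) ≤ si s * t ∧ si s * t ≤ N' + H := by
  by_cases h0 : 0 < a
  · refine ⟨true, a.toNat, ?_, fun t ht => ?_⟩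
    · have h1 := h a ⟨le_rfl, by omega⟩
      rw [abs_of_pos h0] at h1
      omega
    · obtain ⟨h1, h2⟩ := ht
      have h3 : si true = 1 := rfl
      rw [h3, one_mul]
      omega
  · have hneg : a + H < 0 := by
      by_contra hcon
      push Not at hcon
      have h1 := h 0 ⟨by omega, hcon⟩
      rw [abs_zero] at h1
      omega
    refine ⟨false, (-(a + H)).toNat, ?_, fun t ht => ?_⟩
    · have h1 := h (a + H) ⟨by omega, le_rfl⟩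
      rw [abs_of_neg hneg] at h1
      omega
    · obtain ⟨h1, h2⟩ := ht
      have h3 : si false = -1 := rfl
      rw [h3]
      omega

theorem hwin (q k δ : ℕ) : ∃ E : ℕ, ∀ (a : ℤ) (H : ℕ), (∀ t ∈ Set.Icc a (a + H), ((H : ℤ) + 2) ^ E ≤ |t|) →
    ∀ W : Submodule ℚ ℂ, Module.Finite ℚ W → Module.finrank ℚ W ≤ q → ∃ S : Finset ℤ, S.card ≤ q + 2 ∧
    ∀ n : Fin k → ℤ, Function.Injective n → (∀ κ, n κ ∈ Set.Icc a (a + H) ∧ n κ ∉ S) →
    ∀ K : IntermediateField ℚ ℂ, FiniteDimensional ℚ K → Module.finrank ℚ K ≤ δ →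
    ∀ y : Fin k → Fin 3 → ℂ, (∀ κ, y κ ∈ Yt (n κ)) → ¬ Rel K W (mon δ y) := by
  obtain ⟨E, hE⟩ := winZ2 hnr q k δ (1 + k * (Fintype.card (Fin 3) * δ))
  refine ⟨E, fun a H hH W hW hWq => ?_⟩
  obtain ⟨ξ, hξ⟩ := exists_span hW hWq
  obtain ⟨s, N', hN', hs⟩ := window_sign (N := (H + 2) ^ E) (Nat.one_le_pow _ _ (by omega)) (fun t ht => by
    have := hH t ht
    exact_mod_cast this)
  obtain ⟨S, hS1, hS2⟩ := hE N' H hN' ξ s
  refine ⟨S, hS1, fun n hn hnS K hK hKD y hy => ?_⟩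
  choose z hz hyz using hy
  have hy' : y = fun κ => jt (z κ) := funext hyz
  subst hy'
  refine not_rel ξ (wo ξ) (fun m => rfl) hξ K _ le_rfl fun P hP hP0 u => ?_
  exact hS2 n hn (fun κ => ⟨(hs _ (hnS κ).1).1, (hs _ (hnS κ).1).2, (hnS κ).2⟩) z hz K hK hKD P hP hP0 u

/-- **The modular invariant on almost full windows.** -/
theorem modular {A : ℕ → Set ℤ} (hA : ∀ j, ClusteredZ (A j)) {V : ℕ → Submodule ℚ ℂ} (hVf : ∀ j, Module.Finite ℚ (V j))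
    (hV : Monotone V) {δ : ℕ → ℕ} (hδ : Monotone δ) :
    ∃ (a b : ℕ → ℤ) (T : ℕ → Finset ℤ),
      (∀ j, (∀ t ∈ Set.Icc (a j) (b j), (j : ℤ) ≤ |t|) ∧ (T j : Set ℤ) ⊆ A j ∩ Set.Icc (a j) (b j) ∧ j ≤ (T j).card ∧
        (j + 1) * ((A j ∩ Set.Icc (a j) (b j)) \ T j).ncard ≤ (A j ∩ Set.Icc (a j) (b j)).ncard) ∧
      (∀ i j, i ≠ j → Disjoint (T i) (T j)) ∧
      ∀ y : ℤ → Fin 3 → ℂ, (∀ j, ∀ t ∈ T j, y t ∈ Yt t) →
      ∀ (l : ℕ) (K : IntermediateField ℚ ℂ), FiniteDimensional ℚ K → Module.finrank ℚ K ≤ δ l →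
      ∀ P : MvPolynomial (ℤ × Fin 3) ℂ, P ≠ 0 → (∀ v ∈ P.vars, ∃ j ≥ l, v.1 ∈ T j) →
        (∀ v, P.degreeOf v ≤ δ l) → (∀ s, P.coeff s ∈ Submodule.span K (V l : Set ℂ)) →
        MvPolynomial.eval (fun v => y v.1 v.2) P ≠ 0 :=
  universal Yt (fun δ t => monSp (3 * (δ * 8)) (Zt t)) (fun δ t => monSp_fin _ _) (fun δ t => monSp_one _ _)
    (fun δ => (3 * (δ * 8) + 1) ^ 3) (fun δ t => monSp_rank _ _) hUY hwin hA hVf hV hδ

end Pool.Agent.U534.Tens
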