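import Mathlib
import Pool.Agent.U534.Adapt
import Pool.Agent.Y918.GB.Mat

set_option autoImplicit false

/-!
# Exponentials of random polynomials in a transcendental number
-/

noncomputable section

namespace Pool.Agent.U534.PolyStep

open Module Finset
open Pool.Agent.H301R2.SSE (QB mem_QB)
open Pool.Agent.W245 (IndepOver IndepT famExt famExt_finite)

/-- A subfamily of a family which is independent over a space. -/
theorem indep_comp {E F : Type} [Fintype E] [Fintype F] {W : Submodule QB ℂ} {g : E → ℂ}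
    {h : F → ℂ} (φ : F → E) (hφ : Function.Injective φ) (hg : ∀ f, g (φ f) = h f)
    (hI : IndepOver W g) : IndepOver W h := by
  classical
  intro w hw h0 f
  have h1 := hI (fun e => ∑ f, if φ f = e then w f else 0) (fun e => Submodule.sum_mem _ fun f _ => by
    by_cases hfe : φ f = e
    · rw [if_pos hfe]
      exact hw f
    · rw [if_neg hfe]
      exact W.zero_mem) (by
    refine Eq.trans ?_ h0
    simp only [Finset.sum_mul]
    rw [Finset.sum_comm]
    refine Finset.sum_congr rfl fun f _ => ?_
    rw [Finset.sum_eq_single (φ f)]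
    · rw [if_pos rfl, hg]
    · intro e _ he
      rw [if_neg (fun h => he h.symm), zero_mul]
    · intro h
      exact absurd (Finset.mem_univ _) h) (φ f)
  change (∑ f', if φ f' = φ f then w f' else 0) = 0 at h1
  rw [Finset.sum_eq_single f] at h1
  · rwa [if_pos rfl] at h1
  · intro f' _ hf'
    rw [if_neg (fun h => hf' (hφ h))]
  · intro h
    exact absurd (Finset.mem_univ _) h

theorem li_pow {t : ℂ} (ht : Transcendental ℚ t) (k : ℕ) :
    LinearIndependent ℚ (fun r : Fin k => t ^ (r : ℕ)) := by
  rw [Fintype.linearIndependent_iff]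
  intro c hc j
  let P : Polynomial ℚ := ∑ r : Fin k, Polynomial.monomial (r : ℕ) (c r)
  have h1 : Polynomial.aeval t P = 0 := by
    change Polynomial.aeval t (∑ r : Fin k, Polynomial.monomial (r : ℕ) (c r)) = 0
    rw [map_sum, ← hc]
    refine Finset.sum_congr rfl fun r _ => ?_
    rw [Polynomial.aeval_monomial, Algebra.smul_def]
  have h2 : P = 0 := by
    by_contra h
    exact ht ⟨P, h, h1⟩
  have h3 : P.coeff (j : ℕ) = c j := by
    change (∑ r : Fin k, Polynomial.monomial (r : ℕ) (c r)).coeff (j : ℕ) = c j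
    rw [Polynomial.finset_sum_coeff, Finset.sum_eq_single j]
    · rw [Polynomial.coeff_monomial, if_pos rfl]
    · intro r _ hr
      rw [Polynomial.coeff_monomial, if_neg (fun h => hr (Fin.ext h))]
    · intro h
      exact absurd (Finset.mem_univ _) h
  rw [← h3, h2, Polynomial.coeff_zero]

/-- Fixing some of the coordinates. -/
theorem fiber_count {k k' m : ℕ} (ε : Fin k' ⊕ Fin m ≃ Fin k) (A : Finset ℚ)
    (bad : (Fin k → ℚ) → Prop) [DecidablePred bad] (β : ℝ)
    (h : ∀ z : Fin m → ℚ, (((Fintype.piFinset fun _ : Fin k' => A).filter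
      (fun x => bad (fun i => Sum.elim x z (ε.symm i)))).card : ℝ) ≤ β) :
    (((Fintype.piFinset fun _ : Fin k => A).filter bad).card : ℝ) ≤ (A.card : ℝ) ^ m * β := by
  classical
  set B := (Fintype.piFinset fun _ : Fin k => A).filter bad with hB
  have hfib : B.card = ∑ z ∈ (Fintype.piFinset fun _ : Fin m => A),
      (B.filter (fun P => (fun l => P (ε (Sum.inr l))) = z)).card := by
    apply Finset.card_eq_sum_card_fiberwise
    intro P hP
    have h1 := Fintype.mem_piFinset.1 (Finset.mem_filter.1 hP).1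
    exact Fintype.mem_piFinset.2 (fun l => h1 _)
  have hle : ∀ z : Fin m → ℚ, ((B.filter (fun P => (fun l => P (ε (Sum.inr l))) = z)).card : ℝ) ≤
      β := by
    intro z
    refine le_trans (Nat.cast_le.2 ?_) (h z)
    apply Finset.card_le_card_of_injOn (fun P j => P (ε (Sum.inl j)))
    · intro P hP
      rw [Finset.mem_coe, Finset.mem_filter, hB, Finset.mem_filter] at hP
      obtain ⟨⟨h1, h2⟩, h3⟩ := hP
      rw [Fintype.mem_piFinset] at h1
      rw [Finset.mem_coe, Finset.mem_filter, Fintype.mem_piFinset]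
      refine ⟨fun j => h1 _, ?_⟩
      have h4 : (fun i => Sum.elim (fun j => P (ε (Sum.inl j))) z (ε.symm i)) = P := by
        funext i
        obtain ⟨s, rfl⟩ := ε.surjective i
        rw [Equiv.symm_apply_apply]
        rcases s with j | l
        · rfl
        · exact (congrFun h3 l).symm
      rw [h4]
      exact h2
    · intro P hP P' hP' hPP
      rw [Finset.mem_coe, Finset.mem_filter] at hP hP'
      funext i
      obtain ⟨s, rfl⟩ := ε.surjective i
      rcases s with j | l
      · exact congrFun hPP j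
      · exact congrFun (hP.2.trans hP'.2.symm) l
  rw [hfib]
  push_cast
  refine (Finset.sum_le_sum (fun z _ => hle z)).trans (le_of_eq ?_)
  rw [Finset.sum_const, Fintype.card_piFinset_const, nsmul_eq_mul]
  push_cast
  ring

/-- The last `m` places are the fixed ones. -/
def epsL {k k' m : ℕ} (h : k' + m = k) : Fin k' ⊕ Fin m ≃ Fin k :=
  finSumFinEquiv.trans (finCongr h)

/-- The first `m` places are the fixed ones. -/
def epsR {k k' m : ℕ} (h : m + k' = k) : Fin k' ⊕ Fin m ≃ Fin k :=
  (Equiv.sumComm _ _).trans (finSumFinEquiv.trans (finCongr h))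

open Classical in
/-- **One step**: the `d + 1` numbers `exp (ξ_l + y t^l P(t))`. -/
theorem poly_step (d N D : ℕ) : ∃ (k₀ C : ℕ) (δ : ℝ), 0 < δ ∧ ∀ k ≥ k₀, ∀ t y : ℂ,
    Transcendental ℚ t → y ≠ 0 → ∀ A : Finset ℚ, A.Nonempty →
    ∀ W : Submodule QB ℂ, Module.Finite QB W → finrank QB W ≤ N → ∀ ξ : Fin (d + 1) → ℂ,
    (((Fintype.piFinset fun _ : Fin k => A).filter (fun p => ¬ IndepOver W
      (fun e : Fin (d + 1) → Fin (D + 1) => ∏ l, Complex.exp (ξ l + y * t ^ (l : ℕ) *
        ∑ r : Fin k, (p r : ℂ) * t ^ (r : ℕ)) ^ (e l : ℕ)))).card : ℝ) ≤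
      C * (A.card : ℝ) ^ ((k : ℝ) - δ * k) := by
  obtain ⟨k₁, C, δ, hδ, h⟩ := Pool.Agent.Y918.GB.mat1 (2 * d + 1) N D
  refine ⟨2 * k₁ + 2 * (d + 1), C, δ / 2, by positivity, fun k hk t y ht hy A hA W hW hWN ξ => ?_⟩
  obtain ⟨k', hk'⟩ : ∃ k', k' + (d + 1) = k := ⟨k - (d + 1), by omega⟩
  have hk1 : k₁ ≤ k' := by omega
  have hk2 : k ≤ 2 * k' := by omega
  have hx : LinearIndependent ℚ (fun l : Fin (2 * d + 1 + 1) => y * t ^ (l : ℕ)) :=
    (li_pow ht (2 * d + 1 + 1)).map' (LinearMap.mulLeft ℚ y)
      (LinearMap.ker_eq_bot.2 (mul_right_injective₀ hy))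
  obtain ⟨i, hi⟩ := h k' hk1 _ _ hx (li_pow ht k')
  have hi' := hi A hA W hW hWN
  obtain ⟨a, ha⟩ : ∃ a : ℝ, a = (A.card : ℝ) := ⟨_, rfl⟩
  have ha1 : 1 ≤ a := by
    rw [ha]
    exact_mod_cast hA.card_pos
  have ha0 : 0 < a := by linarith
  rw [← ha] at hi' ⊢
  have hend : a ^ (d + 1) * (C * a ^ ((k' : ℝ) - δ * k')) ≤ C * a ^ ((k : ℝ) - δ / 2 * k) := by
    have e1 : a ^ (d + 1) * (C * a ^ ((k' : ℝ) - δ * k')) = C * a ^ ((k : ℝ) - δ * k') := by
      rw [mul_left_comm, ← Real.rpow_natCast a (d + 1), ← Real.rpow_add ha0, ← hk']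
      push_cast
      congr 2
      ring
    rw [e1]
    refine mul_le_mul_of_nonneg_left ?_ (Nat.cast_nonneg C)
    apply Real.rpow_le_rpow_of_exponent_le ha1
    have h2 : (k : ℝ) ≤ 2 * k' := by exact_mod_cast hk2
    nlinarith
  refine le_trans ?_ hend
  rw [ha] at hi' ⊢
  by_cases hid : (i : ℕ) < d + 1
  · -- the omitted index is small: use the exponents `d + 1 + l`
    have hk'' : (d + 1) + k' = k := by omega
    refine fiber_count (epsR hk'') A _ _ fun z => ?_
    obtain ⟨ζ, hζ⟩ : ∃ ζ : ℂ, ζ = ∑ j : Fin (d + 1), (z j : ℂ) * t ^ (j : ℕ) := ⟨_, rfl⟩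
    let emb : Fin (d + 1) → Fin (2 * d + 1) := fun l => ⟨d + l, by omega⟩
    have hemb : Function.Injective emb := by
      intro l l' hl
      have := congrArg Fin.val hl
      simp only [emb] at this
      apply Fin.ext
      omega
    have hval : ∀ l : Fin (d + 1), ((i.succAbove (emb l) : Fin (2 * d + 1 + 1)) : ℕ) =
        (d + 1) + l := by
      intro l
      rw [Fin.succAbove_of_le_castSucc]
      · simp only [Fin.val_succ, emb]
        omega
      · rw [Fin.le_def]
        simp only [Fin.val_castSucc, emb]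
        omega
    refine le_trans (Nat.cast_le.2 (Finset.card_le_card ?_))
      (hi' (fun j => if hj : d ≤ (j : ℕ) then
        ξ ⟨(j : ℕ) - d, by have := j.isLt; omega⟩ + y * t ^ ((j : ℕ) - d) * ζ else 0))
    intro x hx
    rw [Finset.mem_filter] at hx ⊢
    refine ⟨hx.1, fun hI => hx.2 ?_⟩
    have hs : ∑ r : Fin k, ((Sum.elim x z ((epsR hk'').symm r) : ℚ) : ℂ) *
        t ^ (r : ℕ) = ζ + t ^ (d + 1) * ∑ r : Fin k', (x r : ℂ) * t ^ (r : ℕ) := by
      rw [← (epsR hk'').sum_comp, Fintype.sum_sum_type]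
      simp only [Equiv.symm_apply_apply, Sum.elim_inl, Sum.elim_inr]
      rw [add_comm, hζ, Finset.mul_sum]
      congr 1
      refine Finset.sum_congr rfl fun r _ => ?_
      have : ((epsR hk'' (Sum.inl r) : Fin k) : ℕ) = (d + 1) + r := by
        simp [epsR]
      rw [this, pow_add]
      ring
    rw [hs]
    refine indep_comp (fun e : Fin (d + 1) → Fin (D + 1) => fun j : Fin (2 * d + 1) =>
      if hj : d ≤ (j : ℕ) then e ⟨(j : ℕ) - d, by have := j.isLt; omega⟩ else 0) ?_ ?_ hI
    · intro e e' he
      funext l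
      have h3 := congrFun he (emb l)
      simp only [emb] at h3
      rw [dif_pos (by omega), dif_pos (by omega)] at h3
      have h4 : (⟨d + (l : ℕ) - d, by omega⟩ : Fin (d + 1)) = l := by
        apply Fin.ext
        simp
      rwa [h4] at h3
    · intro e
      symm
      rw [← Finset.prod_subset (Finset.subset_univ (Finset.univ.image emb))]
      · rw [Finset.prod_image (fun a _ b _ h => hemb h)]
        refine Finset.prod_congr rfl fun l _ => ?_
        have h4 : (⟨d + (l : ℕ) - d, by omega⟩ : Fin (d + 1)) = l := by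
          apply Fin.ext
          simp
        rw [hval]
        simp only [emb]
        rw [dif_pos (by omega), dif_pos (by omega), h4]
        congr 2
        have h5 : d + (l : ℕ) - d = l := by omega
        rw [h5, pow_add]
        ring
      · intro j _ hj
        have hneg : ¬ d ≤ (j : ℕ) := by
          intro hdj
          apply hj
          rw [Finset.mem_image]
          refine ⟨⟨(j : ℕ) - d, by have := j.isLt; omega⟩, Finset.mem_univ _, ?_⟩
          apply Fin.ext
          simp only [emb]
          omega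
        simp only [dif_neg hneg]
        exact pow_zero _
  · -- the omitted index is large: use the exponents `l`
    refine fiber_count (epsL hk') A _ _ fun z => ?_
    obtain ⟨ζ, hζ⟩ : ∃ ζ : ℂ, ζ = ∑ j : Fin (d + 1), (z j : ℂ) * t ^ (k' + (j : ℕ)) := ⟨_, rfl⟩
    let emb : Fin (d + 1) → Fin (2 * d + 1) := fun l => ⟨l, by omega⟩
    have hemb : Function.Injective emb := by
      intro l l' hl
      have := congrArg Fin.val hl
      simp only [emb] at this
      apply Fin.ext
      omega
    have hval : ∀ l : Fin (d + 1), ((i.succAbove (emb l) : Fin (2 * d + 1 + 1)) : ℕ) = l := by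
      intro l
      rw [Fin.succAbove_of_castSucc_lt]
      · simp only [Fin.val_castSucc, emb]
      · rw [Fin.lt_def]
        simp only [Fin.val_castSucc, emb]
        omega
    refine le_trans (Nat.cast_le.2 (Finset.card_le_card ?_))
      (hi' (fun j => if hj : (j : ℕ) < d + 1 then ξ ⟨j, hj⟩ + y * t ^ (j : ℕ) * ζ else 0))
    intro x hx
    rw [Finset.mem_filter] at hx ⊢
    refine ⟨hx.1, fun hI => hx.2 ?_⟩
    have hs : ∑ r : Fin k, ((Sum.elim x z ((epsL hk').symm r) : ℚ) : ℂ) *
        t ^ (r : ℕ) = ζ + ∑ r : Fin k', (x r : ℂ) * t ^ (r : ℕ) := by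
      rw [← (epsL hk').sum_comp, Fintype.sum_sum_type]
      simp only [Equiv.symm_apply_apply, Sum.elim_inl, Sum.elim_inr]
      rw [add_comm, hζ]
      have e1 : ∀ r : Fin (d + 1), ((epsL hk' (Sum.inr r) : Fin k) : ℕ) = k' + r := fun r => by
        simp [epsL]
      have e2 : ∀ r : Fin k', ((epsL hk' (Sum.inl r) : Fin k) : ℕ) = r := fun r => by
        simp [epsL]
      simp only [e1, e2]
    rw [hs]
    refine indep_comp (fun e : Fin (d + 1) → Fin (D + 1) => fun j : Fin (2 * d + 1) =>
      if hj : (j : ℕ) < d + 1 then e ⟨j, hj⟩ else 0) ?_ ?_ hI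
    · intro e e' he
      funext l
      have h3 := congrFun he (emb l)
      simp only [emb] at h3
      rw [dif_pos l.isLt, dif_pos l.isLt] at h3
      exact h3
    · intro e
      symm
      rw [← Finset.prod_subset (Finset.subset_univ (Finset.univ.image emb))]
      · rw [Finset.prod_image (fun a _ b _ h => hemb h)]
        refine Finset.prod_congr rfl fun l _ => ?_
        rw [hval]
        simp only [emb]
        rw [dif_pos l.isLt, dif_pos l.isLt]
        congr 2
        ring
      · intro j _ hj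
        have hneg : ¬ (j : ℕ) < d + 1 := by
          intro hdj
          apply hj
          rw [Finset.mem_image]
          exact ⟨⟨j, hdj⟩, Finset.mem_univ _, Fin.ext rfl⟩
        simp only [dif_neg hneg]
        exact pow_zero _

end Pool.Agent.U534.PolyStep
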