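import Mathlib
import Pool.Agent.W245.MixedTuples

set_option autoImplicit false

/-!
# Polynomial relations over a field of constants
-/

namespace Pool.Agent.U534.RelK

open Module Finset
open Pool.Agent.W245 (IndepOver IndepT famExt famExt_finite)

variable {K : Type} [Field K] [Algebra K ℂ]

variable (K) in
/-- The numbers `x_i` satisfy no nonzero polynomial relation with coefficients in `K` of degree
at most `D` in each of them. -/
def NoRelation (D : ℕ) {ι : Type} (x : ι → ℂ) : Prop :=
  ∀ p : MvPolynomial ι K, (∀ i, p.degreeOf i ≤ D) → MvPolynomial.aeval x p = 0 → p = 0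

variable (K) in
/-- The space generated by the monomials of degree at most `D` in each variable. -/
noncomputable def monSpan (D : ℕ) {l : ℕ} (s : Fin l → ℂ) : Submodule K ℂ :=
  Submodule.span K (Set.range fun e : Fin l → Fin (D + 1) => ∏ i, s i ^ (e i : ℕ))

theorem monSpan_finite (D : ℕ) {l : ℕ} (s : Fin l → ℂ) : Module.Finite K (monSpan K D s) ∧
    finrank K (monSpan K D s) ≤ (D + 1) ^ l := by
  constructor
  · exact FiniteDimensional.span_of_finite K (Set.finite_range _)
  · refine (finrank_range_le_card _).trans ?_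
    rw [Fintype.card_fun, Fintype.card_fin, Fintype.card_fin]

theorem zero_of_noRelation {l D : ℕ} {s : Fin l → ℂ} (hs : NoRelation K D s)
    (c : (Fin l → Fin (D + 1)) → K)
    (h : ∑ e, algebraMap K ℂ (c e) * ∏ i, s i ^ (e i : ℕ) = 0) (e : Fin l → Fin (D + 1)) :
    c e = 0 := by
  classical
  let ex : (Fin l → Fin (D + 1)) → (Fin l →₀ ℕ) := fun e =>
    Finsupp.equivFunOnFinite.symm (fun i => (e i : ℕ))
  have hex : Function.Injective ex := by
    intro e e' he
    funext i
    exact Fin.ext (DFunLike.congr_fun he i)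
  let p : MvPolynomial (Fin l) K := ∑ e, MvPolynomial.monomial (ex e) (c e)
  have hcoef : ∀ M, p.coeff M = ∑ e, if ex e = M then c e else 0 := by
    intro M
    change MvPolynomial.coeff M (∑ e, MvPolynomial.monomial (ex e) (c e)) = _
    rw [MvPolynomial.coeff_sum]
    refine Finset.sum_congr rfl fun e _ => ?_
    rw [MvPolynomial.coeff_monomial]
  have hdeg : ∀ i, p.degreeOf i ≤ D := by
    intro i
    rw [MvPolynomial.degreeOf_le_iff]
    intro M hM
    rw [MvPolynomial.mem_support_iff, hcoef] at hM
    obtain ⟨e, _, he⟩ := Finset.exists_ne_zero_of_sum_ne_zero hM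
    by_cases h1 : ex e = M
    · rw [← h1]
      exact Nat.le_of_lt_succ (e i).2
    · rw [if_neg h1] at he
      exact absurd rfl he
  have hval : MvPolynomial.aeval s p = 0 := by
    change MvPolynomial.aeval s (∑ e, MvPolynomial.monomial (ex e) (c e)) = 0
    rw [map_sum, ← h]
    refine Finset.sum_congr rfl fun e _ => ?_
    rw [MvPolynomial.aeval_monomial]
    refine congrArg₂ (fun a b => a * b) rfl ?_
    rw [Finsupp.prod_fintype _ _ (fun i => pow_zero _)]
    rfl
  have hp := hs p hdeg hval
  have h2 := hcoef (ex e)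
  rw [hp, MvPolynomial.coeff_zero] at h2
  rw [Finset.sum_eq_single e] at h2
  · rw [if_pos rfl] at h2
    exact h2.symm
  · intro e' _ hne
    rw [if_neg (fun h3 => hne (hex h3))]
  · intro h3
    exact absurd (Finset.mem_univ _) h3

/-- Exponent vectors. -/
noncomputable def expo {l n D : ℕ}
    (s : (Fin l → Fin (D + 1)) × (Fin n → Fin (D + 1))) : (Fin l ⊕ Fin n) →₀ ℕ :=
  Finsupp.equivFunOnFinite.symm (Sum.elim (fun i => (s.1 i : ℕ)) (fun p => (s.2 p : ℕ)))

theorem expo_injective {l n D : ℕ} : Function.Injective (expo (l := l) (n := n) (D := D)) := by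
  intro s s' h
  refine Prod.ext ?_ ?_
  · funext i
    exact Fin.ext (DFunLike.congr_fun h (Sum.inl i))
  · funext j
    exact Fin.ext (DFunLike.congr_fun h (Sum.inr j))

/-- Independence of the powers over the space of the monomials in the `s_i`. -/
theorem noRelation_sum {l n D : ℕ} {s : Fin l → ℂ}
    (hs : NoRelation K D s) (y : Fin n → ℂ)
    (h : IndepT (monSpan K D s) (fun j (e : Fin (D + 1)) => y j ^ (e : ℕ))) :
    NoRelation K D (Sum.elim s y) := by
  classical
  intro p hdeg h0
  have hsupp : p.support ⊆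
      (univ : Finset ((Fin l → Fin (D + 1)) × (Fin n → Fin (D + 1)))).image expo := by
    intro M hM
    rw [Finset.mem_image]
    refine ⟨(fun i => ⟨M (Sum.inl i),
      Nat.lt_succ_of_le ((MvPolynomial.degreeOf_le_iff.1 (hdeg (Sum.inl i))) M hM)⟩,
      fun j => ⟨M (Sum.inr j),
      Nat.lt_succ_of_le ((MvPolynomial.degreeOf_le_iff.1 (hdeg (Sum.inr j))) M hM)⟩),
      Finset.mem_univ _, ?_⟩
    ext v
    rcases v with v | v
    · rfl
    · rfl
  have h1 : ∑ t : Fin n → Fin (D + 1), (∑ e : Fin l → Fin (D + 1),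
      algebraMap K ℂ (p.coeff (expo (e, t))) * ∏ i, s i ^ (e i : ℕ)) *
      ∏ j, y j ^ (t j : ℕ) = 0 := by
    rw [← h0, MvPolynomial.aeval_def, MvPolynomial.eval₂_eq']
    rw [Finset.sum_subset hsupp (by
      intro M _ hM
      rw [MvPolynomial.notMem_support_iff.1 hM, map_zero, zero_mul])]
    rw [Finset.sum_image (fun a _ b _ h => expo_injective h), Fintype.sum_prod_type_right]
    refine Finset.sum_congr rfl fun t _ => ?_
    rw [Finset.sum_mul]
    refine Finset.sum_congr rfl fun e _ => ?_
    rw [mul_assoc]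
    refine congrArg (fun z => algebraMap K ℂ (p.coeff (expo (e, t))) * z) ?_
    rw [Fintype.prod_sum_type]
    rfl
  have h2 := h _ (fun t => Submodule.sum_mem _ fun e _ => by
    have h3 := Submodule.smul_mem (monSpan K D s) (p.coeff (expo (e, t)))
      (Submodule.subset_span (Set.mem_range_self e))
    rw [Algebra.smul_def] at h3
    exact h3) h1
  have h4 : ∀ (e : Fin l → Fin (D + 1)) (t : Fin n → Fin (D + 1)),
      p.coeff (expo (e, t)) = 0 := fun e t =>
    zero_of_noRelation hs (fun e => p.coeff (expo (e, t))) (h2 t) e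
  ext1 M
  rw [MvPolynomial.coeff_zero]
  by_cases hM : M ∈ p.support
  · obtain ⟨e, _, rfl⟩ := Finset.mem_image.1 (hsupp hM)
    exact h4 e.1 e.2
  · exact MvPolynomial.notMem_support_iff.1 hM

/-- A number which is transcendental over `K`. -/
theorem noRelation_single {t : ℂ} (ht : Transcendental K t) (D : ℕ) :
    NoRelation K D (fun _ : Fin 1 => t) := by
  intro p _ h0
  have h1 : AlgebraicIndependent K (fun _ : Fin 1 => t) :=
    algebraicIndependent_unique_type_iff.2 ht
  exact (algebraicIndependent_iff.1 h1) p h0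

/-- Relations of smaller degree. -/
theorem NoRelation.mono {D D' : ℕ} {ι : Type} {x : ι → ℂ} (h : NoRelation K D x) (hD : D' ≤ D) :
    NoRelation K D' x := fun p hp h0 => h p (fun i => (hp i).trans hD) h0

/-- Exponent vectors. -/
noncomputable def expo1 {n D : ℕ} (s : Fin n → Fin (D + 1)) : Fin n →₀ ℕ :=
  Finsupp.equivFunOnFinite.symm (fun p => (s p : ℕ))

theorem expo1_injective {n D : ℕ} : Function.Injective (expo1 (n := n) (D := D)) := by
  intro s s' h
  funext j
  exact Fin.ext (DFunLike.congr_fun h j)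

/-- Polynomials with coefficients in a space. -/
theorem eq_zero_of_indepT {n D : ℕ} {W : Submodule K ℂ} {y : Fin n → ℂ}
    (h : IndepT W (fun j (e : Fin (D + 1)) => y j ^ (e : ℕ))) (p : MvPolynomial (Fin n) ℂ)
    (hW : ∀ M, p.coeff M ∈ W) (hdeg : ∀ i, p.degreeOf i ≤ D) (h0 : MvPolynomial.eval y p = 0) :
    p = 0 := by
  have hsupp : p.support ⊆ (univ : Finset (Fin n → Fin (D + 1))).image expo1 := by
    intro M hM
    rw [Finset.mem_image]
    refine ⟨fun j => ⟨M j,
      Nat.lt_succ_of_le ((MvPolynomial.degreeOf_le_iff.1 (hdeg j)) M hM)⟩,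
      Finset.mem_univ _, ?_⟩
    ext v
    rfl
  have h1 : ∑ s : Fin n → Fin (D + 1), p.coeff (expo1 s) * ∏ j, y j ^ (s j : ℕ) = 0 := by
    rw [← h0, MvPolynomial.eval_eq']
    rw [Finset.sum_subset hsupp (by
      intro M _ hM
      rw [MvPolynomial.notMem_support_iff.1 hM, zero_mul])]
    rw [Finset.sum_image (fun a _ b _ h => expo1_injective h)]
    rfl
  have h2 := h (fun s => p.coeff (expo1 s)) (fun s => hW _) h1
  ext M
  rw [MvPolynomial.coeff_zero]
  by_cases hM : M ∈ p.support
  · obtain ⟨s, _, rfl⟩ := Finset.mem_image.1 (hsupp hM)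
    exact h2 s
  · exact MvPolynomial.notMem_support_iff.1 hM

end Pool.Agent.U534.RelK
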