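import Mathlib
import Pool.Agent.U534.RelK
import Pool.Agent.Y918.QC.Tup
import Pool.Agent.TH818.SA.Sub

set_option autoImplicit false

/-!
# Random subset sums of odd zeta values
-/

namespace Pool.Agent.U534.Zeta

open Module Finset Filter
open Pool.Agent.W245 (IndepOver IndepT)
open Pool.Agent.Y918.QC (Rich pwr sub_tuples)

/-- The odd numbers `i` with `3 ≤ i ≤ n`. -/
def odds (n : ℕ) : Finset ℕ := (Finset.Icc 3 n).filter Odd

/-- `ζ(i)` -/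
noncomputable def zv (i : ℕ) : ℝ := ∑' n : ℕ, 1 / ((n : ℝ) + 1) ^ i

theorem size (B Q : ℕ) (hB : 1 ≤ B) : ∃ n₀ : ℕ, ∀ n ≥ n₀,
    (B : ℝ) ≤ (1 / 2000) * Real.log (Real.log n) ∧
    ((Q * ⌈(n : ℝ) ^ (1 / 4 : ℝ)⌉₊ : ℕ) : ℝ) ≤
      (1 / 2000) / B * Real.sqrt (n * Real.log (Real.log n) / Real.log n) := by
  have h1 : Tendsto (fun n : ℕ => Real.log (Real.log n)) atTop atTop :=
    Real.tendsto_log_atTop.comp (Real.tendsto_log_atTop.comp tendsto_natCast_atTop_atTop)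
  have h2 : Tendsto (fun n : ℕ => (n : ℝ) ^ (1 / 8 : ℝ)) atTop atTop :=
    (tendsto_rpow_atTop (by norm_num)).comp tendsto_natCast_atTop_atTop
  have h3 := (h1.eventually_ge_atTop (2000 * (B : ℝ))).and
    ((h2.eventually_ge_atTop (8000 * (Q : ℝ) * B + 1)).and (eventually_ge_atTop 3))
  obtain ⟨n₀, hn₀⟩ := Filter.eventually_atTop.1 h3
  refine ⟨n₀, fun n hn => ?_⟩
  obtain ⟨ha, hb, hn3⟩ := hn₀ n hn
  have hB' : (1 : ℝ) ≤ B := by exact_mod_cast hB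
  have hn0 : (3 : ℝ) ≤ n := by exact_mod_cast hn3
  refine ⟨by linarith, ?_⟩
  set x : ℝ := (n : ℝ) ^ (1 / 8 : ℝ) with hx
  have hQ : (0 : ℝ) ≤ Q := Nat.cast_nonneg Q
  have hx1 : 1 ≤ x := le_trans (by nlinarith) hb
  have hx0 : 0 < x := by linarith
  have e1 : (n : ℝ) ^ (1 / 4 : ℝ) = x ^ 2 := by
    rw [hx, ← Real.rpow_natCast, ← Real.rpow_mul (by linarith)]
    norm_num
  have e2 : (n : ℝ) = x ^ 8 := by
    rw [hx, ← Real.rpow_natCast, ← Real.rpow_mul (by linarith)]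
    norm_num
  have hlog : Real.log n ≤ 4 * x ^ 2 := by
    have := Real.log_le_rpow_div (x := (n : ℝ)) (by linarith) (ε := 1 / 4) (by norm_num)
    rw [e1] at this
    linarith
  have hlogpos : 0 < Real.log n := Real.log_pos (by linarith)
  have hll : 1 ≤ Real.log (Real.log n) := by linarith
  have h4 : (x ^ 3 / 2) ^ 2 ≤ n * Real.log (Real.log n) / Real.log n := by
    rw [le_div_iff₀ hlogpos]
    calc (x ^ 3 / 2) ^ 2 * Real.log n ≤ (x ^ 3 / 2) ^ 2 * (4 * x ^ 2) :=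
          mul_le_mul_of_nonneg_left hlog (by positivity)
      _ = x ^ 8 * 1 := by ring
      _ ≤ n * Real.log (Real.log n) := by
          rw [← e2]
          exact mul_le_mul_of_nonneg_left hll (by linarith)
  have h5 : x ^ 3 / 2 ≤ Real.sqrt (n * Real.log (Real.log n) / Real.log n) :=
    Real.le_sqrt_of_sq_le h4
  have h6 : ((Q * ⌈(n : ℝ) ^ (1 / 4 : ℝ)⌉₊ : ℕ) : ℝ) ≤ 2 * Q * x ^ 2 := by
    push_cast
    rw [e1]
    have h7 := (Nat.ceil_lt_add_one (show (0 : ℝ) ≤ x ^ 2 by positivity)).le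
    have h8 : 1 ≤ x ^ 2 := one_le_pow₀ hx1
    nlinarith
  refine h6.trans ((?_ : _ ≤ (1 / 2000) / B * (x ^ 3 / 2)).trans
    (mul_le_mul_of_nonneg_left h5 (by positivity)))
  rw [div_mul_eq_mul_div, le_div_iff₀ (by linarith)]
  have h9 : 8000 * (Q : ℝ) * B ≤ x := by linarith
  have h10 := mul_le_mul_of_nonneg_right h9 (show 0 ≤ x ^ 2 by positivity)
  nlinarith

/-- The odd zeta values are rich. -/
theorem rich (B Q : ℕ) : ∃ n₀ : ℕ, ∀ n ≥ n₀,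
    Rich (fun i : ℕ => ((zv i : ℝ) : ℂ)) (odds n) B (Q * ⌈(n : ℝ) ^ (1 / 4 : ℝ)⌉₊) := by
  classical
  obtain ⟨s₀, hs₀⟩ := Pool.Agent.TH818.SA.t_sub
  obtain ⟨n₀, hn₀⟩ := size (B + 1) Q (Nat.le_add_left 1 B)
  refine ⟨max s₀ n₀, fun n hn V hV hVB => ?_⟩
  obtain ⟨h1, h2⟩ := hn₀ n (le_trans (le_max_right _ _) hn)
  let f : ℝ →ₗ[ℚ] ℂ := Complex.ofRealCLM.toLinearMap.restrictScalars ℚ
  have hf : ∀ x : ℝ, f x = (x : ℂ) := fun x => rfl
  have hfi : Function.Injective f := fun x y h => Complex.ofReal_injective h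
  let V' : Submodule ℚ ℝ := V.comap f
  let g : V' →ₗ[ℚ] V := f.restrict (fun x hx => hx)
  have hg : Function.Injective g := by
    intro x y h
    apply Subtype.ext
    exact hfi (congrArg Subtype.val h)
  have hV'f : FiniteDimensional ℚ V' := Module.Finite.of_injective g hg
  have hV' : finrank ℚ V' ≤ B + 1 :=
    (LinearMap.finrank_le_finrank_of_injective hg).trans (by omega)
  have h3 := hs₀ n (le_trans (le_max_left _ _) hn) (B + 1) (Nat.le_add_left 1 B) h1 V' hV'f hV'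
  have h4 := h2.trans h3
  have h5 : ({i : ℕ | 3 ≤ i ∧ i ≤ n ∧ Odd i ∧ (∑' n : ℕ, 1 / ((n : ℝ) + 1) ^ i) ∉ V'} : Set ℕ) =
      (((odds n).filter (fun i => ((zv i : ℝ) : ℂ) ∉ V) : Finset ℕ) : Set ℕ) := by
    ext i
    rw [Set.mem_setOf_eq, Finset.mem_coe, Finset.mem_filter, odds, Finset.mem_filter,
      Finset.mem_Icc]
    constructor
    · rintro ⟨a, b, c, d⟩
      exact ⟨⟨⟨a, b⟩, c⟩, d⟩
    · rintro ⟨⟨⟨a, b⟩, c⟩, d⟩
      exact ⟨a, b, c, d⟩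
  rw [h5, Set.ncard_coe_finset] at h4
  exact_mod_cast h4

open Classical in
/-- **Random subset sums of odd zeta values.** -/
theorem main (D k N : ℕ) : ∃ (M ε : ℝ), 0 < M ∧ 0 < ε ∧ ∀ n : ℕ, 1 ≤ n →
    ∀ W : Submodule ℚ ℂ, Module.Finite ℚ W → finrank ℚ W ≤ N → ∀ y : Fin k → ℂ,
    (((Fintype.piFinset fun _ : Fin k => (odds n).powerset).filter
      (fun S => ¬ IndepT W (fun j => pwr D (y j + ∑ i ∈ S j, ((zv i : ℝ) : ℂ))))).card : ℝ) ≤
      M * (n : ℝ) ^ (-ε) * ((2 : ℝ) ^ (odds n).card) ^ k := by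
  obtain ⟨B, Q, M, ε, hM, hε, h⟩ := sub_tuples D k N
  obtain ⟨n₀, hn₀⟩ := rich B Q
  refine ⟨M + (n₀ + 1 : ℝ) ^ (ε / 4), ε / 4, by positivity, by positivity,
    fun n hn W hW hWN y => ?_⟩
  have hcard : (((odds n).powerset.card : ℕ) : ℝ) = (2 : ℝ) ^ (odds n).card := by
    rw [Finset.card_powerset]
    push_cast
    rfl
  have hn1 : (1 : ℝ) ≤ n := by exact_mod_cast hn
  have hn0 : (0 : ℝ) < n := by linarith
  rcases Nat.lt_or_ge n n₀ with hlt | hge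
  · have h1 : (((Fintype.piFinset fun _ : Fin k => (odds n).powerset).filter
        (fun S => ¬ IndepT W (fun j => pwr D (y j + ∑ i ∈ S j, ((zv i : ℝ) : ℂ))))).card : ℝ) ≤
        ((2 : ℝ) ^ (odds n).card) ^ k := by
      refine (Nat.cast_le.2 (Finset.card_le_card (Finset.filter_subset _ _))).trans ?_
      rw [Fintype.card_piFinset_const, Nat.cast_pow, hcard]
    have h2 : (1 : ℝ) ≤ (M + (n₀ + 1 : ℝ) ^ (ε / 4)) * (n : ℝ) ^ (-(ε / 4)) := by
      rw [Real.rpow_neg hn0.le, ← div_eq_mul_inv, le_div_iff₀ (Real.rpow_pos_of_pos hn0 _), one_mul]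
      have h3 : (n : ℝ) ^ (ε / 4) ≤ (n₀ + 1 : ℝ) ^ (ε / 4) := by
        apply Real.rpow_le_rpow hn0.le _ (by positivity)
        have : (n : ℝ) ≤ n₀ := by exact_mod_cast hlt.le
        linarith
      linarith
    calc _ ≤ ((2 : ℝ) ^ (odds n).card) ^ k := h1
      _ = 1 * ((2 : ℝ) ^ (odds n).card) ^ k := (one_mul _).symm
      _ ≤ _ := mul_le_mul_of_nonneg_right h2 (by positivity)
  · set P : ℕ := ⌈(n : ℝ) ^ (1 / 4 : ℝ)⌉₊ with hP
    have hPpos : 0 < P := Nat.ceil_pos.2 (Real.rpow_pos_of_pos hn0 _)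
    have hPle : (n : ℝ) ^ (1 / 4 : ℝ) ≤ P := Nat.le_ceil _
    have h1 := h ℕ (odds n) (fun i : ℕ => ((zv i : ℝ) : ℂ)) P hPpos (hn₀ n hge) W hW hWN y
    refine h1.trans ?_
    rw [hcard]
    apply mul_le_mul_of_nonneg_right _ (by positivity)
    have h2 : (P : ℝ) ^ (-ε) ≤ (n : ℝ) ^ (-(ε / 4)) := by
      have h3 : (n : ℝ) ^ (-(ε / 4)) = ((n : ℝ) ^ (1 / 4 : ℝ)) ^ (-ε) := by
        rw [← Real.rpow_mul hn0.le]
        congr 1
        ring
      rw [h3]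
      exact Real.rpow_le_rpow_of_nonpos (Real.rpow_pos_of_pos hn0 _) hPle (by linarith)
    calc M * (P : ℝ) ^ (-ε) ≤ M * (n : ℝ) ^ (-(ε / 4)) := mul_le_mul_of_nonneg_left h2 hM
      _ ≤ (M + (n₀ + 1 : ℝ) ^ (ε / 4)) * (n : ℝ) ^ (-(ε / 4)) := by
          apply mul_le_mul_of_nonneg_right _ (by positivity)
          have : (0 : ℝ) ≤ (n₀ + 1 : ℝ) ^ (ε / 4) := by positivity
          linarith

end Pool.Agent.U534.Zeta
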