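import Mathlib
import Pool.Agent.Y918.EL.Second
import Pool.Agent.W245.EB.App
import Pool.Agent.W245.Extend

set_option autoImplicit false

/-!
# Random split 1-motives
-/

noncomputable section

namespace Pool.Agent.U534.OneMot

open Module Finset
open scoped PeriodPair
open Pool.Agent.Y918.EL
open Pool.Agent.W245.EB (EL EllFam zt NoRelTot pow_mono_of_one)

/-- Counting pairs. -/
theorem joint {X Y : Type} [DecidableEq X] [DecidableEq Y] (Xs : Finset X) (Ys : Finset Y)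
    (bad : X → Prop) (bad' : X × Y → Prop) [DecidablePred bad] [DecidablePred bad'] (α β : ℝ)
    (h1 : ((Xs.filter bad).card : ℝ) ≤ α)
    (h2 : ∀ x ∈ Xs, ¬ bad x → ((Ys.filter (fun y => bad' (x, y))).card : ℝ) ≤ β) (hβ : 0 ≤ β) :
    (((Xs ×ˢ Ys).filter bad').card : ℝ) ≤ α * Ys.card + Xs.card * β := by
  have h3 : ((Xs ×ˢ Ys).filter bad').card =
      ∑ x ∈ Xs, (((Xs ×ˢ Ys).filter bad').filter (fun p => p.1 = x)).card := by
    apply Finset.card_eq_sum_card_fiberwise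
    intro p hp
    exact (Finset.mem_product.1 (Finset.mem_filter.1 hp).1).1
  have h4 : ∀ x ∈ Xs, (((Xs ×ˢ Ys).filter bad').filter (fun p => p.1 = x)).card ≤
      (Ys.filter (fun y => bad' (x, y))).card := by
    intro x _
    refine Finset.card_le_card_of_injOn Prod.snd ?_ ?_
    · intro p hp
      rw [Finset.mem_coe, Finset.mem_filter, Finset.mem_filter, Finset.mem_product] at hp
      obtain ⟨⟨⟨_, hp2⟩, hp3⟩, hp4⟩ := hp
      rw [Finset.mem_coe, Finset.mem_filter]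
      refine ⟨hp2, ?_⟩
      rw [← hp4]
      exact hp3
    · intro p hp q hq hpq
      rw [Finset.mem_coe, Finset.mem_filter] at hp hq
      exact Prod.ext (hp.2.trans hq.2.symm) hpq
  rw [h3]
  push_cast
  rw [← Finset.sum_filter_add_sum_filter_not Xs bad]
  apply add_le_add
  · refine (Finset.sum_le_sum (fun x hx => (Nat.cast_le.2 ((h4 x (Finset.mem_filter.1 hx).1).trans
      (Finset.card_le_card (Finset.filter_subset _ _))) : _ ≤ ((Ys.card : ℕ) : ℝ)))).trans ?_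
    rw [Finset.sum_const, nsmul_eq_mul]
    exact mul_le_mul_of_nonneg_right h1 (Nat.cast_nonneg _)
  · refine (Finset.sum_le_sum (fun x hx => ((Nat.cast_le.2 (h4 x (Finset.mem_filter.1 hx).1)).trans
      (h2 x (Finset.mem_filter.1 hx).1 (Finset.mem_filter.1 hx).2) : _ ≤ β))).trans ?_
    rw [Finset.sum_const, nsmul_eq_mul]
    exact mul_le_mul_of_nonneg_right (Nat.cast_le.2 (Finset.card_le_card
      (Finset.filter_subset _ _))) hβ

/-- The numbers `p`, `ζ(p)` of the curves with complex multiplication. -/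
def cmn {n k : ℕ} (d : Fin n → CM) (b : Fin n → ℂ) (u : Fin n → Fin k → ℂ)
    (m : Fin n → Fin k × Fin 2 → ℤ) : Fin n ⊕ Fin n → ℂ :=
  Sum.elim (pt d b u m) (fun j => zt (d j).L (pt d b u m j))

/-- The logarithms and the integrals of the second kind. -/
def skn {s n k : ℕ} (d : Fin n → SK) (τ : Fin s → ℂ) (b : Fin n → ℂ) (a : Fin s → Fin k → ℂ)
    (u : Fin n → Fin k → ℂ) (m : Fin s ⊕ Fin n → Fin k → ℤ) : Fin s ⊕ Fin n → ℂ :=
  Sum.elim (lg2 τ a m) (fun j => (d j).J (pt2 b u m j))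

/-- The conclusion. -/
def GoodM {s n c k : ℕ} (d : Fin n → SK) (τ : Fin s → ℂ) (b : Fin n → ℂ) (a : Fin s → Fin k → ℂ)
    (u : Fin n → Fin k → ℂ) (d' : Fin c → CM) (b' : Fin c → ℂ) (u' : Fin c → Fin k → ℂ)
    (W : Submodule Qb ℂ) (D : ℕ)
    (p : (Fin c → Fin k × Fin 2 → ℤ) × (Fin s ⊕ Fin n → Fin k → ℤ)) : Prop :=
  (∀ j, pt2 b u p.2 j ∉ (d j).L.lattice ∧ pt2 b u p.2 j ∈ EL (d j).L) ∧
  (∀ j, pt d' b' u' p.1 j ∉ (d' j).L.lattice ∧ pt d' b' u' p.1 j ∈ EL (d' j).L) ∧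
    NoRelTot W D (Sum.elim (cmn d' b' u' p.1) (skn d τ b a u p.2))

/-- The enlarged space. -/
def big {c : ℕ} (W : Submodule Qb ℂ) (x : Fin c ⊕ Fin c → ℂ) : Submodule Qb ℂ :=
  ext W (fun o : Option (Fin c ⊕ Fin c) => o.elim 1 x)

open Classical in
/-- **Random split 1-motives.** -/
theorem main (s n c D N : ℕ) : ∃ (k₀ C : ℕ) (δ : ℝ), 0 < δ ∧ ∀ k ≥ k₀,
    ∀ a : Fin s → Fin k → ℂ, (∀ l, LinearIndependent Qb (a l)) →
    ∀ (d : Fin n → SK) (u : Fin n → Fin k → ℂ), (∀ j, EllFam (d j).L (u j)) →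
    ∀ (τ : Fin s → ℂ) (b : Fin n → ℂ), (∀ j, b j ∈ EL (d j).L) →
    ∀ (d' : Fin c → CM) (u' : Fin c → Fin k → ℂ), (∀ j, EllFam (d' j).L (u' j)) →
    ∀ b' : Fin c → ℂ, (∀ j, b' j ∈ EL (d' j).L) →
    ∀ A : Finset ℤ, A.Nonempty →
    ∀ W : Submodule Qb ℂ, Module.Finite Qb W → finrank Qb W ≤ N →
    ((((Fintype.piFinset fun _ : Fin c => Fintype.piFinset fun _ : Fin k × Fin 2 => A) ×ˢ
      (Fintype.piFinset fun _ : Fin s ⊕ Fin n => Fintype.piFinset fun _ : Fin k => A)).filter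
      (fun p => ¬ GoodM d τ b a u d' b' u' W D p)).card : ℝ) ≤
      C * (A.card : ℝ) ^ (((s + n + 2 * c) * k : ℝ) - δ * k) := by
  obtain ⟨k₁, C₁, δ₁, hδ₁, h₁⟩ := cmpoints c D N
  obtain ⟨N', hN'⟩ : ∃ N', N' = (N + Fintype.card (Option (Fin c ⊕ Fin c))) ^ (1 + D) := ⟨_, rfl⟩
  obtain ⟨k₂, C₂, δ₂, hδ₂, h₂⟩ := second s n D N'
  refine ⟨k₁ + k₂, C₁ + C₂, min δ₁ δ₂, lt_min hδ₁ hδ₂, ?_⟩
  intro k hk a ha d u hu τ b hb d' u' hu' b' hb' A hA W hW hWN
  obtain ⟨y, hy⟩ : ∃ y : ℝ, y = (A.card : ℝ) := ⟨_, rfl⟩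
  have hy1 : 1 ≤ y := by
    rw [hy]
    exact_mod_cast hA.card_pos
  have hy0 : 0 < y := by linarith
  set Xs : Finset (Fin c → Fin k × Fin 2 → ℤ) :=
    Fintype.piFinset fun _ : Fin c => Fintype.piFinset fun _ : Fin k × Fin 2 => A with hXs
  set Ys : Finset (Fin s ⊕ Fin n → Fin k → ℤ) :=
    Fintype.piFinset fun _ : Fin s ⊕ Fin n => Fintype.piFinset fun _ : Fin k => A with hYs
  have hXc : (Xs.card : ℝ) = y ^ (2 * c * k : ℝ) := by
    simp only [hXs, Fintype.card_piFinset, Finset.prod_const, Finset.card_univ, hy,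
      Fintype.card_prod, Fintype.card_fin, ← pow_mul]
    push_cast
    rw [← Real.rpow_natCast]
    congr 1
    push_cast
    ring
  have hYc : (Ys.card : ℝ) = y ^ ((s + n) * k : ℝ) := by
    simp only [hYs, Fintype.card_piFinset, Finset.prod_const, Finset.card_univ, hy,
      Fintype.card_sum, Fintype.card_fin, ← pow_mul]
    push_cast
    rw [← Real.rpow_natCast]
    congr 1
    push_cast
    ring
  have key := joint Xs Ys (fun m => ¬ Good d' b' u' W D m)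
    (fun p => ¬ GoodM d τ b a u d' b' u' W D p) (C₁ * y ^ ((2 * c * k : ℝ) - δ₁ * k))
    (C₂ * y ^ (((s + n) * k : ℝ) - δ₂ * k)) (by
      rw [hy]
      exact h₁ k (by omega) d' u' hu' b' hb' A hA W hW hWN) (by
      intro m _ hm
      rw [not_not] at hm
      obtain ⟨x, hx⟩ : ∃ x, x = cmn d' b' u' m := ⟨_, rfl⟩
      have hfin : Module.Finite Qb (big W x) := ext_finite W _
      have hrk : finrank Qb (big W x) ≤ N + Fintype.card (Option (Fin c ⊕ Fin c)) :=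
        (ext_finrank W _).trans (Nat.add_le_add_right hWN _)
      obtain ⟨hf', hr'⟩ := Pool.Agent.W245.finrank_pow_le (big W x) _ hrk (1 + D)
      rw [← hN'] at hr'
      have h3 := h₂ k (by omega) a ha d u hu τ b hb A hA (big W x ^ (1 + D)) hf' hr'
      rw [← hy] at h3
      refine le_trans (Nat.cast_le.2 (Finset.card_le_card ?_)) h3
      intro m' hm'
      rw [Finset.mem_filter] at hm' ⊢
      refine ⟨hm'.1, fun hG => hm'.2 ?_⟩
      have h1 : (1 : ℂ) ∈ big W x := mem_ext W _ none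
      have hWA : W ≤ big W x ^ 1 := by
        rw [pow_one]
        exact le_ext W _
      refine ⟨hG.1, hm.1, ?_⟩
      refine Pool.Agent.W245.EB.NoRelTot.append (A := big W x) (a := 1) h1 hWA ?_ ?_ hG.2
      · intro i
        change cmn d' b' u' m i ∈ _
        rw [← hx]
        exact mem_ext W _ (some i)
      · exact hm.2) (by positivity)
  refine key.trans ?_
  rw [hXc, hYc, ← hy]
  have e1 : C₁ * y ^ ((2 * c * k : ℝ) - δ₁ * k) * y ^ ((s + n) * k : ℝ) =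
      C₁ * y ^ (((s + n + 2 * c) * k : ℝ) - δ₁ * k) := by
    rw [mul_assoc, ← Real.rpow_add hy0]
    congr 2
    ring
  have e2 : y ^ (2 * c * k : ℝ) * (C₂ * y ^ (((s + n) * k : ℝ) - δ₂ * k)) =
      C₂ * y ^ (((s + n + 2 * c) * k : ℝ) - δ₂ * k) := by
    rw [mul_left_comm, ← Real.rpow_add hy0]
    congr 2
    ring
  rw [e1, e2]
  have hk0 : (0 : ℝ) ≤ k := Nat.cast_nonneg k
  have e3 : y ^ (((s + n + 2 * c) * k : ℝ) - δ₁ * k) ≤
      y ^ (((s + n + 2 * c) * k : ℝ) - min δ₁ δ₂ * k) := by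
    apply Real.rpow_le_rpow_of_exponent_le hy1
    have := mul_le_mul_of_nonneg_right (min_le_left δ₁ δ₂) hk0
    linarith
  have e4 : y ^ (((s + n + 2 * c) * k : ℝ) - δ₂ * k) ≤
      y ^ (((s + n + 2 * c) * k : ℝ) - min δ₁ δ₂ * k) := by
    apply Real.rpow_le_rpow_of_exponent_le hy1
    have := mul_le_mul_of_nonneg_right (min_le_right δ₁ δ₂) hk0
    linarith
  have e5 := add_le_add (mul_le_mul_of_nonneg_left e3 (Nat.cast_nonneg (α := ℝ) C₁))
    (mul_le_mul_of_nonneg_left e4 (Nat.cast_nonneg (α := ℝ) C₂))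
  refine e5.trans (le_of_eq ?_)
  rw [← add_mul, Nat.cast_add]

end Pool.Agent.U534.OneMot
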