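import Pool.Agent.U534.PredSeq
import Pool.Agent.U534.ModInt
import Pool.Agent.U534.CountInt

/-!
# The modular instance: every sequence outside of predictable exceptional sets
-/

set_option autoImplicit false
set_option linter.unusedSectionVars false

open Pool.Agent.TH21.MS (jj)
open Pool.Agent.Y120.J Pool.Agent.Y120.K

namespace Pool.Agent.U534.Tens

/-- at most `C j` elements in short windows far away -/
def SparseZ (C : ℕ → ℕ) (E : ∀ j, (Fin j → ℤ) → Set ℤ) : Prop :=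
  ∀ (j : ℕ) (τ : Fin j → ℤ) (a : ℤ) (H : ℕ), (∀ t ∈ Set.Icc a (a + H), ((H : ℤ) + 2) ^ C j ≤ |t|) →
    (E j τ ∩ Set.Icc a (a + H)).ncard ≤ C j

/-- the envelope spaces -/
noncomputable def Um (δ : ℕ → ℕ) (j : ℕ) (t : ℤ) : Submodule ℚ ℂ := monSp (3 * (δ j * 8)) (Zt t)

theorem modular_pred {δ : ℕ → ℕ} (hδ : Monotone δ) (ρ : ℕ → ℕ) : ∃ C : ℕ → ℕ, ∀ V : ℕ → Submodule ℚ ℂ,
    (∀ j, Module.Finite ℚ (V j)) → Monotone V → (∀ j, Module.finrank ℚ (V j) ≤ ρ j) →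
    ∃ E : ∀ j, (Fin j → ℤ) → Set ℤ, SparseZ C E ∧ ∀ (t : ℕ → ℤ) (j₀ : ℕ), (∀ j, j₀ ≤ j → t j ∉ E j fun a => t a) →
      ∀ y : ℕ → Fin 3 → ℂ, (∀ j, j₀ ≤ j → y j ∈ Yt (t j)) → ∀ l : ℕ, j₀ ≤ l →
      ∀ K : IntermediateField ℚ ℂ, FiniteDimensional ℚ K → Module.finrank ℚ K ≤ δ l →
      ∀ P : MvPolynomial (ℕ × Fin 3) ℂ, P ≠ 0 → (∀ v ∈ P.vars, l ≤ v.1) → (∀ v, P.degreeOf v ≤ δ l) →
        (∀ s, P.coeff s ∈ Submodule.span K (V l : Set ℂ)) → MvPolynomial.eval (fun v => y v.1 v.2) P ≠ 0 := by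
  classical
  choose T hT using fun j => hUY (δ j)
  set q : ℕ → ℕ := fun j => ρ j * ∏ i ∈ Finset.range j, (3 * (δ i * 8) + 1) ^ 3 with hq
  choose E₀ hE₀ using fun j => hwin (q j) 1 (δ j)
  refine ⟨fun j => E₀ j + (q j + 2) + T j, fun V hVf hV hVρ => ?_⟩
  set U : ℕ → ℤ → Submodule ℚ ℂ := Um δ with hU
  have hUf : ∀ j s, Module.Finite ℚ (U j s) := fun j s => monSp_fin _ _
  have hU1 : ∀ j s, (1 : ℂ) ∈ U j s := fun j s => monSp_one _ _
  refine ⟨fun j τ => {x | |x| < (T j : ℤ)} ∪ {x | BadT Yt U V δ j (extd τ) x}, ?_, ?_⟩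
  · intro j τ a H hH
    have hp1 : ∀ t ∈ Set.Icc a (a + H), ((H : ℤ) + 2) ^ E₀ j ≤ |t| := fun t ht =>
      (pow_le_pow_right₀ (by omega) (show E₀ j ≤ E₀ j + (q j + 2) + T j by omega)).trans (hH t ht)
    have hp2 : ∀ t ∈ Set.Icc a (a + H), (T j : ℤ) ≤ |t| := fun t ht => by
      have h1 : ((T j : ℕ) : ℤ) ≤ ((2 : ℕ) : ℤ) ^ (T j) := by exact_mod_cast (Nat.lt_two_pow_self (n := T j)).le
      have h2 : ((2 : ℕ) : ℤ) ^ (T j) ≤ ((H : ℤ) + 2) ^ (T j) := pow_le_pow_left₀ (by norm_num) (by push_cast; omega) _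
      have h3 : ((H : ℤ) + 2) ^ (T j) ≤ ((H : ℤ) + 2) ^ (E₀ j + (q j + 2) + T j) := pow_le_pow_right₀ (by omega) (by omega)
      exact h1.trans (h2.trans (h3.trans (hH t ht)))
    have hPf := PU_fin (t := extd τ) hUf j
    have hVj := hVf j
    have hWr : Module.finrank ℚ (V j * PU U (extd τ) j : Submodule ℚ ℂ) ≤ q j :=
      ((Pool.Agent.Y113.finrank_mul_le (V j) (PU U (extd τ) j)).2).trans
        (Nat.mul_le_mul (hVρ j) (finrank_PU hUf (u := fun i => (3 * (δ i * 8) + 1) ^ 3) (fun i s => monSp_rank _ _) j))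
    obtain ⟨S, hS1, hS2⟩ := hE₀ j a H hp1 (V j * PU U (extd τ) j)
      (Pool.Agent.Y113.finrank_mul_le (V j) (PU U (extd τ) j)).1 hWr
    have hsub : ({x | |x| < (T j : ℤ)} ∪ {x | BadT Yt U V δ j (extd τ) x}) ∩ Set.Icc a (a + H) ⊆ (S : Set ℤ) := by
      rintro x ⟨hx, hxw⟩
      rcases hx with hx | hx
      · exact absurd (hp2 x hxw) (not_le.2 hx)
      · by_contra hxS
        obtain ⟨K, hK, hKD, y, hy, hr⟩ := hx
        exact hS2 (fun _ : Fin 1 => x) (fun a b _ => Subsingleton.elim a b) (fun _ => ⟨hxw, fun h => hxS (Finset.mem_coe.2 h)⟩)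
          K hK hKD (fun _ => y) (fun _ => hy) hr
    calc (({x | |x| < (T j : ℤ)} ∪ {x | BadT Yt U V δ j (extd τ) x}) ∩ Set.Icc a (a + H)).ncard
        ≤ (S : Set ℤ).ncard := Set.ncard_le_ncard hsub (Finset.finite_toSet _)
      _ = S.card := Set.ncard_coe_finset _
      _ ≤ q j + 2 := hS1
      _ ≤ E₀ j + (q j + 2) + T j := by omega
  · intro t j₀ ht y hy l hl K hK hKD P hP hPv hPd hPc
    refine pred_seq Yt (U := U) hU1 hV hδ t j₀ (fun j hj => ?_) (fun j hj hbad => ?_) y hy l hl K hK hKD P hP hPv hPd hPc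
    · have h1 : ¬ |t j| < (T j : ℤ) := fun h => ht j hj (Or.inl h)
      exact hT j (t j) (not_lt.1 h1)
    · refine ht j hj (Or.inr ?_)
      obtain ⟨K, hK, hKD, y, hy, hr⟩ := hbad
      refine ⟨K, hK, hKD, y, hy, ?_⟩
      rwa [PU_congr (extd_eq t j)]

/-- **Countable sets of constants.** -/
theorem modular_count (F : Set ℂ) (hF : F.Countable) : ∃ (C : ℕ → ℕ) (E : ∀ j, (Fin j → ℤ) → Set ℤ), SparseZ C E ∧
    ∀ (n : ℕ) (P : MvPolynomial (Fin n × Fin 3) ℂ), P ≠ 0 → (∀ s, P.coeff s ∈ F) → ∃ l : ℕ, ∀ (t : ℕ → ℤ) (j₀ : ℕ),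
      (∀ j, j₀ ≤ j → t j ∉ E j fun a => t a) → ∀ y : ℕ → Fin 3 → ℂ, (∀ j, j₀ ≤ j → y j ∈ Yt (t j)) →
      ∀ s : Fin n → ℕ, Function.Injective s → (∀ i, j₀ ≤ s i ∧ l ≤ s i) →
        MvPolynomial.eval (fun v => y (s v.1) v.2) P ≠ 0 := by
  classical
  obtain ⟨V, hVf, hV, hVF⟩ := exhaust F hF
  obtain ⟨C, hC⟩ := modular_pred (δ := fun j => j + 1) (fun a b hab => Nat.succ_le_succ hab) (fun j => Module.finrank ℚ (V j))
  obtain ⟨E, hE, hmain⟩ := hC V hVf hV (fun _ => le_rfl)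
  refine ⟨C, E, hE, fun n P hP hPc => ?_⟩
  obtain ⟨j₁, hj₁⟩ := hVF (Submodule.span ℚ (P.support.image fun s => P.coeff s : Finset ℂ)) (by
    rw [Submodule.span_le]
    intro z hz
    obtain ⟨s, -, rfl⟩ := Finset.mem_image.1 (Finset.mem_coe.1 hz)
    exact Submodule.subset_span (hPc s)) (Module.Finite.span_of_finite ℚ (Finset.finite_toSet _))
  refine ⟨max j₁ P.totalDegree, fun t j₀ ht y hy s hs hsl => ?_⟩
  set l := max j₀ (max j₁ P.totalDegree) with hl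
  set f : Fin n × Fin 3 → ℕ × Fin 3 := fun v => (s v.1, v.2) with hf
  have hfinj : Function.Injective f := by
    intro v w hvw
    have h1 : s v.1 = s w.1 := (Prod.ext_iff.1 hvw).1
    have h2 : v.2 = w.2 := (Prod.ext_iff.1 hvw).2
    exact Prod.ext (hs h1) h2
  have h1 := hmain t j₀ ht y hy l (le_max_left _ _) ⊥ inferInstance (by
    rw [IntermediateField.finrank_bot]
    omega) (MvPolynomial.rename f P) (fun h0 => hP (MvPolynomial.rename_injective f hfinj (by rw [h0, map_zero])))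
    (fun v hv => by
      obtain ⟨w, -, hw⟩ := Finset.mem_image.1 (MvPolynomial.vars_rename f P hv)
      rw [← hw]
      exact max_le (hsl w.1).1 (hsl w.1).2)
    (fun v => by
      have h2 := (MvPolynomial.degreeOf_le_totalDegree (MvPolynomial.rename f P) v).trans (MvPolynomial.totalDegree_rename_le f P)
      have h3 : P.totalDegree ≤ l := (le_max_right _ _).trans (le_max_right _ _)
      show _ ≤ l + 1
      omega)
    (fun s => by
      by_cases hs : ∃ u : Fin n × Fin 3 →₀ ℕ, u.mapDomain f = s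
      · obtain ⟨u, rfl⟩ := hs
        rw [MvPolynomial.coeff_rename_mapDomain f hfinj]
        by_cases hu : P.coeff u = 0
        · rw [hu]
          exact Submodule.zero_mem _
        · refine Submodule.subset_span (hV ((le_max_left j₁ _).trans (le_max_right _ _)) (hj₁ (Submodule.subset_span ?_)))
          exact Finset.mem_coe.2 (Finset.mem_image_of_mem _ (MvPolynomial.mem_support_iff.2 hu))
      · push Not at hs
        rw [MvPolynomial.coeff_rename_eq_zero f P s fun u hu => absurd hu (hs u)]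
        exact Submodule.zero_mem _)
  rw [MvPolynomial.eval_rename] at h1
  exact h1

end Pool.Agent.U534.Tens
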