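import Pool.Agent.U534.BlockSeq

/-!
# Every sequence outside of predictable exceptional sets
-/

set_option autoImplicit false
set_option linter.unusedSectionVars false

namespace Pool.Agent.U534.Tens

section pred
variable {ι α : Type} [Inhabited ι] [Fintype α] [DecidableEq α]

/-- the extension of a finite sequence -/
def extd {j : ℕ} (τ : Fin j → ι) : ℕ → ι := fun i => if h : i < j then τ ⟨i, h⟩ else default

theorem extd_eq (t : ℕ → ι) (j : ℕ) : ∀ i < j, extd (fun a : Fin j => t a) i = t i := by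
  intro i hi
  unfold extd
  rw [dif_pos hi]

/-- there is a relation -/
def BadT (Y : ι → Set (α → ℂ)) (U : ℕ → ι → Submodule ℚ ℂ) (V : ℕ → Submodule ℚ ℂ) (δ : ℕ → ℕ) (j : ℕ) (t : ℕ → ι) (x : ι) :
    Prop :=
  ∃ K : IntermediateField ℚ ℂ, FiniteDimensional ℚ K ∧ Module.finrank ℚ K ≤ δ j ∧ ∃ y ∈ Y x,
    Rel K (V j * PU U t j) (mon (δ j) fun _ : Fin 1 => y)

theorem PU_shift {U : ℕ → ι → Submodule ℚ ℂ} (hU1 : ∀ j s, (1 : ℂ) ∈ U j s) (t : ℕ → ι) (l i : ℕ) :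
    PU (fun i => U (l + i)) (fun i => t (l + i)) i ≤ PU U t (l + i) := by
  induction i with
  | zero =>
    show (1 : Submodule ℚ ℂ) ≤ _
    exact Submodule.one_le.2 (PU_one hU1 _)
  | succ i ih => exact mul_le_mul' ih le_rfl

theorem Rel.mono {β : Type} [Fintype β] {K : IntermediateField ℚ ℂ} {V V' : Submodule ℚ ℂ} (h : V ≤ V') {x : β → ℂ}
    (hr : Rel K V x) : Rel K V' x := by
  obtain ⟨v, h1, h2, h3⟩ := hr
  exact ⟨v, fun b => Submodule.span_mono h (h1 b), h2, h3⟩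

/-- **Every sequence outside of the exceptional sets.** -/
theorem pred_seq (Y : ι → Set (α → ℂ)) {U : ℕ → ι → Submodule ℚ ℂ} (hU1 : ∀ j s, (1 : ℂ) ∈ U j s)
    {V : ℕ → Submodule ℚ ℂ} (hV : Monotone V) {δ : ℕ → ℕ} (hδ : Monotone δ) (t : ℕ → ι) (j₀ : ℕ)
    (hUY : ∀ j, j₀ ≤ j → ∀ y ∈ Y (t j), ∃ m : ℂ, m ≠ 0 ∧ ∀ e : α → Fin (δ j + 1), m * ∏ a, y a ^ (e a : ℕ) ∈ U j (t j))
    (hE : ∀ j, j₀ ≤ j → ¬ BadT Y U V δ j t (t j)) (y : ℕ → α → ℂ) (hy : ∀ j, j₀ ≤ j → y j ∈ Y (t j)) (l : ℕ) (hl : j₀ ≤ l)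
    (K : IntermediateField ℚ ℂ) (hK : FiniteDimensional ℚ K) (hKD : Module.finrank ℚ K ≤ δ l)
    (P : MvPolynomial (ℕ × α) ℂ) (hP : P ≠ 0) (hPv : ∀ v ∈ P.vars, l ≤ v.1) (hPd : ∀ v, P.degreeOf v ≤ δ l)
    (hPc : ∀ s, P.coeff s ∈ Submodule.span K (V l : Set ℂ)) :
    MvPolynomial.eval (fun v => y v.1 v.2) P ≠ 0 := by
  classical
  choose m hm0 hm using fun i : ℕ => hUY (l + i) (hl.trans (Nat.le_add_right l i)) (y (l + i)) (hy _ (hl.trans (Nat.le_add_right l i)))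
  have key := fun N => products2 (τ := ι) (β := fun i => Fin 1 → α → Fin (δ (l + i) + 1)) (U := fun i => U (l + i))
    (t := fun i => t (l + i)) (x := fun i => mon (δ (l + i)) fun _ : Fin 1 => y (l + i)) (M := m)
    (fun j s => hU1 _ s) hm0 (fun i b => by
      unfold mon
      rw [Fin.prod_univ_one]
      exact hm i (b 0)) (V := fun i => V (l + i)) (fun a b hab => hV (Nat.add_le_add_left hab l))
    (D := fun i => δ (l + i)) (fun a b hab => hδ (Nat.add_le_add_left hab l)) (fun j K hK hKD hr =>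
      hE (l + j) (hl.trans (Nat.le_add_right l j)) ⟨K, hK, hKD, y (l + j), hy _ (hl.trans (Nat.le_add_right l j)),
        hr.mono (mul_le_mul' le_rfl (PU_shift hU1 t l j))⟩) 0 N K hK hKD
  obtain ⟨N, hN⟩ : ∃ N : ℕ, ∀ v ∈ P.vars, v.1 < l + N := by
    refine ⟨P.vars.sup Prod.fst + 1, fun v hv => ?_⟩
    have h1 : v.1 ≤ P.vars.sup Prod.fst := Finset.le_sup (f := Prod.fst) hv
    omega
  set Φ : ((Σ _ : Fin N, Fin 1) × α) → ℕ × α := fun v => (l + v.1.1, v.2) with hΦ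
  have hΦinj : Function.Injective Φ := by
    rintro ⟨⟨i, κ⟩, a⟩ ⟨⟨i', κ'⟩, a'⟩ h
    have h1 : l + (i : ℕ) = l + i' := congrArg Prod.fst h
    have h2 : a = a' := congrArg Prod.snd h
    have h3 : i = i' := Fin.ext (by omega)
    subst h3
    rw [Subsingleton.elim κ κ', h2]
  obtain ⟨Q, hQ⟩ := MvPolynomial.exists_rename_eq_of_vars_subset_range P Φ hΦinj (by
    intro v hv
    obtain ⟨i, hi⟩ := Nat.exists_eq_add_of_le (hPv v hv)
    have h2 := hN v hv
    exact ⟨(⟨⟨i, by omega⟩, 0⟩, v.2), Prod.ext hi.symm rfl⟩)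
  have h1 := poly_of (N := N) (k := fun _ => 1) (δ := fun i => δ (l + i)) (fun a b hab => hδ (Nat.add_le_add_left hab l))
    (l := 0) (K := K) (V := V (l + 0)) (y := fun j _ => y (l + j)) (key N)
    Q (by
      rintro rfl
      exact hP (by rw [← hQ, map_zero])) (fun v => by
      have h2 := MvPolynomial.degreeOf_rename_of_injective (p := Q) hΦinj v
      rw [← h2, hQ]
      exact hPd _) (fun s => by
      have h2 := MvPolynomial.coeff_rename_mapDomain Φ hΦinj Q s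
      rw [← h2, hQ]
      exact hPc _)
  intro h0
  apply h1
  rw [← hQ, MvPolynomial.eval_rename] at h0
  rw [← h0]
  congr 2
  funext v
  show y (l + (0 + (v.1.1 : ℕ))) v.2 = y (l + (v.1.1 : ℕ)) v.2
  rw [zero_add]

end pred

end Pool.Agent.U534.Tens
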