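import Pool.Agent.U534.GenLog
import Pool.Agent.U534.CountInt
import Pool.Agent.Y916.Sl.Fin
import Pool.Agent.Y916.Sl.Lim

/-!
# Generalised logarithms above almost full windows of algebraic numbers
-/

set_option autoImplicit false
set_option linter.unusedSectionVars false

namespace Pool.Agent.U534.Tens

section
variable {σ υ : Type} [Fintype σ] [DecidableEq σ] [Fintype υ]

/-- the main theorem with points in a given domain -/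
theorem genlogD {x : ℂ → σ → ℂ} {Dm : ℂ → Prop} {c : υ → ℂ} (hW : WinY x Dm c) {m A : ℕ → ℕ} {Ξ : ℕ → Set ℂ}
    (hΞ : ∀ j N : ℕ, ∃ ξ ∈ Ξ j, (N : ℝ) ≤ ‖ξ‖ ∧ HtC (m j) (A j) ξ ∧ ∀ g : ℕ, Dm (ξ + g))
    {V : ℕ → Submodule ℚ ℂ} (hVf : ∀ j, Module.Finite ℚ (V j)) (hV : Monotone V) {δ : ℕ → ℕ} (hδ : Monotone δ) :
    ∃ T : ℕ → Finset ℂ, (FullC Ξ T ∧ ∀ j, ∀ t ∈ T j, Dm t) ∧
      ∀ y : ℂ → σ → ℂ, (∀ j, ∀ t ∈ T j, y t ∈ Det x Dm c t) →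
      ∀ (l : ℕ) (K : IntermediateField ℚ ℂ), FiniteDimensional ℚ K → Module.finrank ℚ K ≤ δ l →
      ∀ P : MvPolynomial (ℂ × σ) ℂ, P ≠ 0 → (∀ v ∈ P.vars, ∃ j ≥ l, v.1 ∈ T j) →
        (∀ v, P.degreeOf v ≤ δ l) → (∀ s, P.coeff s ∈ Submodule.span K (V l : Set ℂ)) →
        MvPolynomial.eval (fun v => y v.1 v.2) P ≠ 0 := by
  obtain ⟨T, h1, h2⟩ := genlog hW (m := m) (A := A) (Ξ := fun j => {ξ ∈ Ξ j | ∀ g : ℕ, Dm (ξ + g)})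
    (fun j N => by
      obtain ⟨ξ, h1, h2, h3, h4⟩ := hΞ j N
      exact ⟨ξ, ⟨h1, h4⟩, h2, h3⟩) hVf hV hδ
  refine ⟨T, ⟨⟨h1.1, fun j => ?_⟩, fun j t ht => ?_⟩, h2⟩
  · obtain ⟨ξ, h3, H, h4⟩ := h1.2 j
    exact ⟨ξ, h3.1, H, h4⟩
  · obtain ⟨ξ, h3, H, h4, -⟩ := h1.2 j
    obtain ⟨-, g, -, -, rfl⟩ := h4 t ht
    exact h3.2 g

end

end Pool.Agent.U534.Tens
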