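import Pool.Agent.U534.BigD
import Pool.Agent.Y122.HPDar

/-!
# Points of symplectic groups over a field are dense; linear sections of the torsors of similitudes
-/

set_option autoImplicit false
set_option linter.unusedSectionVars false

open Matrix Module

namespace Pool.Agent.U534.Sym

open Pool.Agent.TH127.PT Pool.Agent.Y123.GN Pool.Agent.Y113

section KS

/-- a subfield as a rational vector space -/
def KS (K : Subfield ℂ) : Submodule ℚ ℂ where
  carrier := K
  add_mem' := fun ha hb => K.add_mem ha hb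
  zero_mem' := K.zero_mem
  smul_mem' := fun q x hx => by
    rw [Algebra.smul_def]
    exact K.mul_mem (by rw [eq_ratCast]; exact SubfieldClass.ratCast_mem _ _) hx

theorem KS_mul (K : Subfield ℂ) (m : ℕ) : KS K * KS K ^ m ≤ KS K := by
  have h1 : KS K * KS K ≤ KS K := Submodule.mul_le.2 fun a ha b hb => K.mul_mem ha hb
  induction m with
  | zero => rw [pow_zero, mul_one]
  | succ m ih =>
    rw [pow_succ, ← mul_assoc]
    exact (Submodule.mul_le.2 fun a ha b hb => Submodule.mul_mem_mul (ih ha) hb).trans h1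

theorem dc_C {K : Subfield ℂ} {τ : Type} {a : ℂ} (ha : a ∈ K) : DC 1 (KS K) (MvPolynomial.C a : MvPolynomial τ ℂ) := by
  classical
  refine ⟨by rw [MvPolynomial.totalDegree_C]; exact Nat.zero_le _, fun s => ?_⟩
  rw [MvPolynomial.coeff_C]
  split_ifs
  · exact ha
  · exact (KS K).zero_mem

theorem dc_X {K : Subfield ℂ} {τ : Type} (i : τ) : DC 1 (KS K) (MvPolynomial.X i : MvPolynomial τ ℂ) := by
  classical
  refine ⟨by rw [MvPolynomial.totalDegree_X], fun s => ?_⟩
  rw [MvPolynomial.coeff_X]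
  split_ifs
  · exact K.one_mem
  · exact (KS K).zero_mem

theorem dc_CX {K : Subfield ℂ} {τ : Type} {a : ℂ} (ha : a ∈ K) (i : τ) :
    DC 1 (KS K) (MvPolynomial.C a * MvPolynomial.X i : MvPolynomial τ ℂ) := by
  classical
  refine ⟨(MvPolynomial.totalDegree_mul _ _).trans (by
    rw [MvPolynomial.totalDegree_C, MvPolynomial.totalDegree_X]), fun s => ?_⟩
  rw [MvPolynomial.coeff_C_mul]
  exact K.mul_mem ha ((dc_X i).2 s)

theorem dc_add {K : Subfield ℂ} {τ : Type} {d : ℕ} {p q : MvPolynomial τ ℂ} (hp : DC d (KS K) p) (hq : DC d (KS K) q) :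
    DC d (KS K) (p + q) :=
  ⟨(MvPolynomial.totalDegree_add _ _).trans (max_le hp.1 hq.1), fun s => by
    rw [MvPolynomial.coeff_add]
    exact (KS K).add_mem (hp.2 s) (hq.2 s)⟩

/-- substitutions of polynomials of degree at most one -/
theorem dc_sub {K : Subfield ℂ} {ι τ : Type} [Fintype ι] {d : ℕ} {g : ι → MvPolynomial τ ℂ} (hg : ∀ i, DC 1 (KS K) (g i))
    {P : MvPolynomial ι ℂ} (hP : DC d (KS K) P) : DC d (KS K) (MvPolynomial.aeval g P) := by
  have h1 := DC.subst' (W := KS K) K.one_mem g hg hP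
  exact ⟨h1.1, fun s => KS_mul K d (h1.2 s)⟩

end KS

section dense

variable {n : ℕ}

/-- polynomial functions -/
def Pf (f : Matrix (Fin n) (Fin n) ℂ → ℂ) : Prop :=
  ∃ q : MvPolynomial (Fin n × Fin n) ℂ, ∀ x : Matrix (Fin n) (Fin n) ℂ,
    MvPolynomial.aeval (fun b : Fin n × Fin n => x b.1 b.2) q = f x

theorem Pf.const (c : ℂ) : Pf (fun _ : Matrix (Fin n) (Fin n) ℂ => c) := ⟨MvPolynomial.C c, fun x => by simp⟩

theorem Pf.entry (a b : Fin n) : Pf (fun x : Matrix (Fin n) (Fin n) ℂ => x a b) := ⟨MvPolynomial.X (a, b), fun x => by simp⟩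

theorem Pf.add {f g : Matrix (Fin n) (Fin n) ℂ → ℂ} (hf : Pf f) (hg : Pf g) : Pf fun x => f x + g x := by
  obtain ⟨q, h1⟩ := hf
  obtain ⟨q', h2⟩ := hg
  exact ⟨q + q', fun x => by rw [map_add, h1, h2]⟩

theorem Pf.mul {f g : Matrix (Fin n) (Fin n) ℂ → ℂ} (hf : Pf f) (hg : Pf g) : Pf fun x => f x * g x := by
  obtain ⟨q, h1⟩ := hf
  obtain ⟨q', h2⟩ := hg
  exact ⟨q * q', fun x => by rw [map_mul, h1, h2]⟩

theorem Pf.sum {α : Type*} (s : Finset α) {f : α → Matrix (Fin n) (Fin n) ℂ → ℂ} (hf : ∀ a ∈ s, Pf (f a)) :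
    Pf fun x => ∑ a ∈ s, f a x := by
  classical
  induction s using Finset.induction_on with
  | empty =>
    simp only [Finset.sum_empty]
    exact Pf.const 0
  | insert a s ha ih =>
    simp only [Finset.sum_insert ha]
    exact (hf a (Finset.mem_insert_self _ _)).add (ih fun b hb => hf b (Finset.mem_insert_of_mem hb))

theorem Pf.poly {κ : Type*} {f : κ → Matrix (Fin n) (Fin n) ℂ → ℂ} (hf : ∀ v, Pf (f v)) (p : MvPolynomial κ ℂ) :
    Pf fun x => MvPolynomial.aeval (fun v => f v x) p := by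
  induction p using MvPolynomial.induction_on with
  | C a =>
    simp only [MvPolynomial.aeval_C]
    exact Pf.const _
  | add p q hp hq =>
    simp only [map_add]
    exact hp.add hq
  | mul_X p v hp =>
    simp only [map_mul, MvPolynomial.aeval_X]
    exact hp.mul (hf v)

/-- entries of products -/
theorem Pf.mulL (A : Matrix (Fin n) (Fin n) ℂ) (a b : Fin n) : Pf fun x : Matrix (Fin n) (Fin n) ℂ => (A * x) a b := by
  simp only [Matrix.mul_apply]
  exact Pf.sum _ fun c _ => (Pf.const _).mul (Pf.entry c b)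

theorem Pf.mulR (A : Matrix (Fin n) (Fin n) ℂ) (a b : Fin n) : Pf fun x : Matrix (Fin n) (Fin n) ℂ => (x * A) a b := by
  simp only [Matrix.mul_apply]
  exact Pf.sum _ fun c _ => (Pf.entry a c).mul (Pf.const _)

/-- composition -/
theorem Pf.comp {f : Matrix (Fin n) (Fin n) ℂ → ℂ} (hf : Pf f) {G : Matrix (Fin n) (Fin n) ℂ → Matrix (Fin n) (Fin n) ℂ}
    (hG : ∀ a b, Pf fun x => G x a b) : Pf fun x => f (G x) := by
  obtain ⟨q, hq⟩ := hf
  have h1 := Pf.poly (f := fun (b : Fin n × Fin n) x => G x b.1 b.2) (fun v => hG v.1 v.2) q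
  refine (congrArg Pf ?_).mp h1
  funext x
  exact hq (G x)

/-- the points over `K` -/
def Gam (K : Subfield ℂ) (J : Matrix (Fin n) (Fin n) ℂ) : Set (Matrix (Fin n) (Fin n) ℂ) :=
  {g | (∀ a b, g a b ∈ K) ∧ gᵀ * J * g = J}

theorem Gam_mul {K : Subfield ℂ} {J g h : Matrix (Fin n) (Fin n) ℂ} (hg : g ∈ Gam K J) (hh : h ∈ Gam K J) :
    g * h ∈ Gam K J := by
  refine ⟨fun a b => ?_, ?_⟩
  · rw [Matrix.mul_apply]
    exact Subfield.sum_mem _ fun c _ => K.mul_mem (hg.1 _ _) (hh.1 _ _)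
  · rw [transpose_mul]
    calc hᵀ * gᵀ * J * (g * h) = hᵀ * (gᵀ * J * g) * h := by simp only [Matrix.mul_assoc]
      _ = J := by rw [hg.2, hh.2]

/-- the closure -/
def ClG (K : Subfield ℂ) (J : Matrix (Fin n) (Fin n) ℂ) : Set (Matrix (Fin n) (Fin n) ℂ) :=
  {x | ∀ f : Matrix (Fin n) (Fin n) ℂ → ℂ, Pf f → (∀ g ∈ Gam K J, f g = 0) → f x = 0}

theorem ClG_mul {K : Subfield ℂ} {J x y : Matrix (Fin n) (Fin n) ℂ} (hx : x ∈ ClG K J) (hy : y ∈ ClG K J) :
    x * y ∈ ClG K J := by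
  have h1 : ∀ g ∈ Gam K J, g * y ∈ ClG K J := by
    intro g hg f hf h0
    exact hy (fun z => f (g * z)) (hf.comp fun a b => Pf.mulL g a b) fun h hh => h0 _ (Gam_mul hg hh)
  intro f hf h0
  exact hx (fun z => f (z * y)) (hf.comp fun a b => Pf.mulR y a b) fun g hg => h1 g hg f hf h0

theorem infinite_K (K : Subfield ℂ) : (K : Set ℂ).Infinite := by
  have h1 : (Set.range fun n : ℕ => (n : ℂ)) ⊆ (K : Set ℂ) := by
    rintro _ ⟨n, rfl⟩
    exact natCast_mem K n
  exact (Set.infinite_range_of_injective Nat.cast_injective).mono h1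

/-- the transvections are in the closure -/
theorem ClG_exp {K : Subfield ℂ} {J : Matrix (Fin n) (Fin n) ℂ} (hJK : ∀ a b, J a b ∈ K) (hJ : Jᵀ = -J)
    (v : Fin n → ℂ) (s : ℂ) : IsNilpotent.exp (s • nv J v) ∈ ClG K J := by
  classical
  intro f hf h0
  obtain ⟨q, hq⟩ := hf
  let G : Fin n × Fin n → MvPolynomial (Option (Fin n)) ℂ := fun b =>
    MvPolynomial.C ((1 : Matrix (Fin n) (Fin n) ℂ) b.1 b.2) + MvPolynomial.X none *
      (MvPolynomial.X (some b.1) * ∑ c, MvPolynomial.X (some c) * MvPolynomial.C (J c b.2))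
  have hG : ∀ (w : Option (Fin n) → ℂ) (b : Fin n × Fin n), MvPolynomial.eval w (G b) =
      (IsNilpotent.exp (w none • nv J fun i => w (some i))) b.1 b.2 := by
    intro w b
    rw [nv_exp hJ]
    simp only [G, map_add, map_mul, map_sum, MvPolynomial.eval_C, MvPolynomial.eval_X, Matrix.add_apply, Matrix.smul_apply,
      smul_eq_mul, nv, vecMulVec_apply, vecMul, dotProduct]
  have hfG : ∀ w : Option (Fin n) → ℂ, f (IsNilpotent.exp (w none • nv J fun i => w (some i))) =
      MvPolynomial.eval w (MvPolynomial.aeval G q) := by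
    intro w
    rw [← hq]
    have h1 := aeval_comp G q w
    rw [MvPolynomial.aeval_eq_eval] at h1
    refine Eq.trans ?_ h1.symm
    rw [MvPolynomial.aeval_eq_eval]
    congr 1
    congr 1
    funext b
    exact (hG w b).symm
  have h2 : MvPolynomial.aeval G q = 0 := by
    refine MvPolynomial.funext_set (fun _ : Option (Fin n) => (K : Set ℂ)) (fun _ => infinite_K K) fun w hw => ?_
    rw [← hfG, map_zero]
    have hw' : ∀ o, w o ∈ K := fun o => hw o (Set.mem_univ o)
    refine h0 _ ⟨fun a b => ?_, nv_isom hJ _ _⟩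
    rw [nv_exp hJ, Matrix.add_apply, Matrix.smul_apply, smul_eq_mul]
    refine K.add_mem ?_ (K.mul_mem (hw' none) ?_)
    · rw [Matrix.one_apply]
      split_ifs
      · exact K.one_mem
      · exact K.zero_mem
    · show vecMulVec (fun i => w (some i)) ((fun i => w (some i)) ᵥ* J) a b ∈ K
      rw [vecMulVec_apply]
      refine K.mul_mem (hw' _) ?_
      simp only [vecMul, dotProduct]
      exact Subfield.sum_mem _ fun c _ => K.mul_mem (hw' _) (hJK _ _)
  have h3 := hfG (fun o => o.elim s v)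
  rw [h2, map_zero] at h3
  exact h3

/-- **the points over `K` are dense** -/
theorem dense {K : Subfield ℂ} {J : Matrix (Fin n) (Fin n) ℂ} (hJK : ∀ a b, J a b ∈ K) (hJ : Spf J)
    {f : Matrix (Fin n) (Fin n) ℂ → ℂ} (hf : Pf f)
    (h0 : ∀ g : Matrix (Fin n) (Fin n) ℂ, (∀ a b, g a b ∈ K) → g * J * gᵀ = J → f g = 0)
    {g : Matrix (Fin n) (Fin n) ℂ} (hg : g * J * gᵀ = J) : f g = 0 := by
  let S : Submonoid (Matrix (Fin n) (Fin n) ℂ) :=
    { carrier := ClG K J
      one_mem' := fun f hf h0 => h0 1 ⟨fun a b => by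
        rw [Matrix.one_apply]
        split_ifs
        · exact K.one_mem
        · exact K.zero_mem, by simp⟩
      mul_mem' := fun ha hb => ClG_mul ha hb }
  have h1 : gᵀ ∈ S := by
    refine sp_gen' hJ.2 ((Matrix.isUnit_iff_isUnit_det _).1 hJ.1).ne_zero S (fun v s => ClG_exp hJK hJ.2 v s) _ ?_
    rw [transpose_transpose]
    exact hg
  have h2 := h1 (fun x => f xᵀ) (hf.comp fun a b => Pf.entry b a) fun γ hγ => by
    refine h0 _ (fun a b => hγ.1 b a) ?_
    rw [transpose_transpose]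
    exact hγ.2
  rwa [transpose_transpose] at h2

end dense

section sect

variable {K : Subfield ℂ} {m : ℕ}

theorem exists_mapM (A : Matrix (Fin m) (Fin m) ℂ) (h : ∀ a b, A a b ∈ K) :
    ∃ A0 : Matrix (Fin m) (Fin m) K, A0.map (algebraMap K ℂ) = A :=
  ⟨Matrix.of fun a b => ⟨A a b, h a b⟩, by ext a b; rfl⟩

theorem skew_K {A : Matrix (Fin m) (Fin m) ℂ} {A0 : Matrix (Fin m) (Fin m) K} (hA : Spf A)
    (hA0 : A0.map (algebraMap K ℂ) = A) : A0.transpose = -A0 ∧ (∀ i, A0 i i = 0) ∧ A0.det ≠ 0 := by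
  have hinj : Function.Injective (algebraMap K ℂ) := (algebraMap K ℂ).injective
  have h1 : A0.transpose = -A0 := by
    ext a b
    have h2 := congrFun (congrFun hA.2 a) b
    rw [← hA0] at h2
    have h3 : algebraMap K ℂ (A0.transpose a b) = algebraMap K ℂ ((-A0) a b) := by
      rw [Matrix.transpose_apply, Matrix.neg_apply, map_neg]
      exact h2
    exact congrArg Subtype.val (hinj h3)
  refine ⟨h1, fun i => ?_, ?_⟩
  · have h2 := congrFun (congrFun h1 i) i
    rw [Matrix.transpose_apply, Matrix.neg_apply] at h2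
    have h3 : A0 i i + A0 i i = 0 := by
      nth_rewrite 1 [h2]
      exact neg_add_cancel _
    have h4 : (2 : K) * A0 i i = 0 := by rw [two_mul]; exact h3
    exact (mul_eq_zero.1 h4).resolve_left two_ne_zero
  · intro h0
    have h2 : A.det = 0 := by
      rw [← hA0, ← RingHom.mapMatrix_apply, ← RingHom.map_det, h0, map_zero]
    exact ((Matrix.isUnit_iff_isUnit_det _).1 hA.1).ne_zero h2

/-- linear families of similitudes over the field of the forms (as in `Pool.Agent.U757.HG.sect`) -/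
theorem sect {B Q : Matrix (Fin m) (Fin m) ℂ} (hB : Spf B) (hQ : Spf Q) (hBK : ∀ a b, B a b ∈ K)
    (hQK : ∀ a b, Q a b ∈ K) : ∃ A₁ A₂ : Matrix (Fin m) (Fin m) ℂ, (∀ a b, A₁ a b ∈ K) ∧ (∀ a b, A₂ a b ∈ K) ∧
      ∀ c : ℂ, (c • A₁ + A₂) * Q * (c • A₁ + A₂)ᵀ = c • B := by
  obtain ⟨B0, hB0⟩ := exists_mapM B hBK
  obtain ⟨Q0, hQ0⟩ := exists_mapM Q hQK
  obtain ⟨b1, b2, b3⟩ := skew_K hB hB0
  obtain ⟨q1, q2, q3⟩ := skew_K hQ hQ0
  obtain ⟨m1, h, U, hU, hUQ⟩ := Pool.Agent.Y122.HPDar.canon Q0 q1 q2 q3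
  obtain ⟨m2, h', V, hV, hVB⟩ := Pool.Agent.Y122.HPDar.canon B0 b1 b2 b3
  obtain rfl : m1 = m2 := by omega
  set e := Pool.Agent.Y122.HPDar.en h with he
  set P1 : Matrix (Fin m) (Fin m) K := reindex e e (fromBlocks 1 0 0 0) with hP1
  set P2 : Matrix (Fin m) (Fin m) K := reindex e e (fromBlocks 0 0 0 1) with hP2
  set φ := algebraMap K ℂ with hφ
  have hmm : ∀ X Y : Matrix (Fin m) (Fin m) K, (X * Y).map φ = X.map φ * Y.map φ := fun X Y => Matrix.map_mul
  have hVu : IsUnit V.det := isUnit_iff_ne_zero.2 hV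
  set W := (V⁻¹).map φ with hW
  set U' := U.map φ with hU'
  set V' := V.map φ with hV'
  have hWV : W * V' = 1 := by
    rw [hW, hV', ← hmm, Matrix.nonsing_inv_mul _ hVu]
    exact Matrix.map_one φ (map_zero φ) (map_one φ)
  have hJ : (reindex e e (Pool.Agent.Y122.HPDar.jj K m1)).map φ = reindex e e (Pool.Agent.Y122.HPDar.jj ℂ m1) := by
    ext a b
    simp only [Matrix.map_apply, reindex_apply, submatrix_apply, Pool.Agent.Y122.HPDar.jj]
    rcases e.symm a with i | i <;> rcases e.symm b with j | j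
    · simp
    · simp only [fromBlocks_apply₁₂, Matrix.one_apply]
      split_ifs <;> simp
    · simp only [fromBlocks_apply₂₁, Matrix.neg_apply, Matrix.one_apply]
      split_ifs <;> simp
    · simp
  have hU1 : U' * Q * U'ᵀ = reindex e e (Pool.Agent.Y122.HPDar.jj ℂ m1) := by
    rw [← hJ, ← hUQ, hmm, hmm, ← hQ0, hU', Matrix.transpose_map]
  have hV1 : V' * B * V'ᵀ = reindex e e (Pool.Agent.Y122.HPDar.jj ℂ m1) := by
    rw [← hJ, ← hVB, hmm, hmm, ← hB0, hV', Matrix.transpose_map]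
  have hD : ∀ c : ℂ, c • P1.map φ + P2.map φ = reindex e e (fromBlocks (c • 1) 0 0 1) := by
    intro c
    ext a b
    simp only [hP1, hP2, Matrix.add_apply, Matrix.smul_apply, Matrix.map_apply, reindex_apply, submatrix_apply]
    rcases e.symm a with i | i <;> rcases e.symm b with j | j
    · simp only [fromBlocks_apply₁₁, Matrix.smul_apply, Matrix.one_apply, Matrix.zero_apply, map_zero, add_zero]
      split_ifs <;> simp
    · simp
    · simp
    · simp only [fromBlocks_apply₂₂, Matrix.one_apply, Matrix.zero_apply, map_zero, smul_zero, zero_add]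
      split_ifs <;> simp
  have hDJ : ∀ c : ℂ, (c • P1.map φ + P2.map φ) * reindex e e (Pool.Agent.Y122.HPDar.jj ℂ m1) *
      (c • P1.map φ + P2.map φ)ᵀ = c • reindex e e (Pool.Agent.Y122.HPDar.jj ℂ m1) := by
    intro c
    rw [hD]
    simp only [reindex_apply, transpose_submatrix, submatrix_mul_equiv]
    have h1 : fromBlocks (c • (1 : Matrix (Fin m1) (Fin m1) ℂ)) 0 0 1 * Pool.Agent.Y122.HPDar.jj ℂ m1 *
        (fromBlocks (c • (1 : Matrix (Fin m1) (Fin m1) ℂ)) 0 0 1)ᵀ = c • Pool.Agent.Y122.HPDar.jj ℂ m1 := by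
      unfold Pool.Agent.Y122.HPDar.jj
      rw [fromBlocks_transpose, fromBlocks_multiply, fromBlocks_multiply, fromBlocks_smul]
      simp
    rw [h1]
    rfl
  refine ⟨(V⁻¹ * P1 * U).map φ, (V⁻¹ * P2 * U).map φ, fun a b => ((V⁻¹ * P1 * U) a b).2,
    fun a b => ((V⁻¹ * P2 * U) a b).2, fun c => ?_⟩
  have h1 : c • (V⁻¹ * P1 * U).map φ + (V⁻¹ * P2 * U).map φ = W * (c • P1.map φ + P2.map φ) * U' := by
    rw [hmm, hmm, hmm, hmm, Matrix.mul_add, Matrix.add_mul, Matrix.mul_smul, Matrix.smul_mul]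
  rw [h1]
  have hB1 : B = W * reindex e e (Pool.Agent.Y122.HPDar.jj ℂ m1) * Wᵀ := by
    have h2 : V'ᵀ * Wᵀ = 1 := by rw [← Matrix.transpose_mul, hWV, Matrix.transpose_one]
    calc B = (W * V') * B * (V'ᵀ * Wᵀ) := by rw [hWV, h2, Matrix.one_mul, Matrix.mul_one]
      _ = W * (V' * B * V'ᵀ) * Wᵀ := by simp only [Matrix.mul_assoc]
      _ = _ := by rw [hV1]
  calc W * (c • P1.map φ + P2.map φ) * U' * Q * (W * (c • P1.map φ + P2.map φ) * U')ᵀ =
      W * ((c • P1.map φ + P2.map φ) * (U' * Q * U'ᵀ) * (c • P1.map φ + P2.map φ)ᵀ) * Wᵀ := by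
        rw [Matrix.transpose_mul, Matrix.transpose_mul]
        simp only [Matrix.mul_assoc]
    _ = c • B := by
        rw [hU1, hDJ, Matrix.mul_smul, Matrix.smul_mul, ← hB1]

end sect

end Pool.Agent.U534.Sym
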