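import Pool.Agent.U534.SymA

/-!
# Polynomial relations of bounded degree: adding one block after the other
-/

set_option autoImplicit false
set_option linter.unusedSectionVars false

open Matrix Module

namespace Pool.Agent.U534.Sym

open Pool.Agent.TH127.PT Pool.Agent.Y123.GN Pool.Agent.Y113 Pool.Agent.Y120.R PowerSeries

/-- the values of all variables -/
def vl {A : Type} (c : A → ℂ) {k : ℕ} {n : Fin k → ℕ} (Z : ∀ l, Matrix (Fin (n l)) (Fin (n l)) ℂ) :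
    A ⊕ (Σ l, Fin (n l) × Fin (n l)) → ℂ := Sum.elim c fun v => Z v.1 v.2.1 v.2.2

/-- all relations over `K` of degree at most `d` are implied by the relations `Y Q Yᵀ = ϖ B` and those of the constants -/
def Rel1 (K : Subfield ℂ) (d : ℕ) {A : Type} (c : A → ℂ) (ϖ : ℂ) {k : ℕ} {n : Fin k → ℕ}
    (Z Q B : ∀ l, Matrix (Fin (n l)) (Fin (n l)) ℂ) : Prop :=
  ∀ F : MvPolynomial (A ⊕ Σ l, Fin (n l) × Fin (n l)) ℂ, DC d (KS K) F → MvPolynomial.aeval (vl c Z) F = 0 →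
    ∀ Y : ∀ l, Matrix (Fin (n l)) (Fin (n l)) ℂ, (∀ l, Y l * Q l * (Y l)ᵀ = ϖ • B l) → MvPolynomial.aeval (vl c Y) F = 0

theorem rel1_zero (K : Subfield ℂ) (d : ℕ) {A : Type} (c : A → ℂ) (ϖ : ℂ) {n : Fin 0 → ℕ}
    (Z Q B : ∀ l, Matrix (Fin (n l)) (Fin (n l)) ℂ) : Rel1 K d c ϖ Z Q B := by
  intro F _ h0 Y _
  rw [Subsingleton.elim Y Z]
  exact h0

/-- the last block apart -/
def sp1 (A : Type) {k : ℕ} (n : Fin (k + 1) → ℕ) : A ⊕ (Σ l, Fin (n l) × Fin (n l)) →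
    (A ⊕ Σ l : Fin k, Fin (n l.castSucc) × Fin (n l.castSucc)) ⊕ (Fin (n (Fin.last k)) × Fin (n (Fin.last k))) :=
  Sum.elim (fun a => Sum.inl (Sum.inl a)) fun q => Fin.lastCases
    (motive := fun i => Fin (n i) × Fin (n i) →
      (A ⊕ Σ l : Fin k, Fin (n l.castSucc) × Fin (n l.castSucc)) ⊕ (Fin (n (Fin.last k)) × Fin (n (Fin.last k))))
    (fun a => Sum.inr a) (fun i a => Sum.inl (Sum.inr ⟨i, a⟩)) q.1 q.2

/-- the values after the separation of the last block -/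
def vl1 {A : Type} (c : A → ℂ) {k : ℕ} {n : Fin (k + 1) → ℕ} (Y : ∀ l : Fin k, Matrix (Fin (n l.castSucc)) (Fin (n l.castSucc)) ℂ)
    (X : Matrix (Fin (n (Fin.last k))) (Fin (n (Fin.last k))) ℂ) :
    (A ⊕ Σ l : Fin k, Fin (n l.castSucc) × Fin (n l.castSucc)) ⊕ (Fin (n (Fin.last k)) × Fin (n (Fin.last k))) → ℂ :=
  Sum.elim (vl c Y) fun v => X v.1 v.2

theorem sp1_vl {A : Type} (c : A → ℂ) {k : ℕ} {n : Fin (k + 1) → ℕ} (Y : ∀ l, Matrix (Fin (n l)) (Fin (n l)) ℂ)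
    (v : A ⊕ (Σ l, Fin (n l) × Fin (n l))) :
    vl1 c (fun l => Y l.castSucc) (Y (Fin.last k)) (sp1 A n v) = vl c Y v := by
  rcases v with a | ⟨i, a⟩
  · rfl
  · induction i using Fin.lastCases with
    | last => simp [sp1, vl1, vl]
    | cast i => simp [sp1, vl1, vl]

theorem aeval_eval {B σ : Type} (Φ : B → MvPolynomial σ ℂ) (P : MvPolynomial B ℂ) (z : σ → ℂ) :
    MvPolynomial.aeval z (MvPolynomial.aeval Φ P) = MvPolynomial.aeval (fun b => MvPolynomial.aeval z (Φ b)) P := by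
  rw [aeval_comp, MvPolynomial.aeval_eq_eval, MvPolynomial.aeval_eq_eval]

theorem rel1_succ {K : Subfield ℂ} {d : ℕ} {A : Type} [Fintype A] {c : A → ℂ} {ϖ : ℂ} (hϖ : ϖ ≠ 0) (a₀ : A) (ha₀ : c a₀ = ϖ)
    {k : ℕ} {n : Fin (k + 1) → ℕ} {Z Q B : ∀ l, Matrix (Fin (n l)) (Fin (n l)) ℂ} (hQ : ∀ l a b, Q l a b ∈ K)
    (hB : ∀ l a b, B l a b ∈ K) (hsp : Spf (B (Fin.last k))) (hZ : Z (Fin.last k) * Q (Fin.last k) * (Z (Fin.last k))ᵀ =
      ϖ • B (Fin.last k))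
    (ih : Rel1 K d c ϖ (fun l : Fin k => Z l.castSucc) (fun l => Q l.castSucc) fun l => B l.castSucc)
    (hst : ∀ F : MvPolynomial ((A ⊕ Σ l : Fin k, Fin (n l.castSucc) × Fin (n l.castSucc)) ⊕
        (Fin (n (Fin.last k)) × Fin (n (Fin.last k)))) ℂ, DC d (KS K) F →
      MvPolynomial.aeval (vl1 c (fun l => Z l.castSucc) (Z (Fin.last k))) F = 0 → ∀ g ∈ GB (B (Fin.last k)),
      MvPolynomial.aeval (vl1 c (fun l => Z l.castSucc) ((g : Matrix _ _ ℂ) * Z (Fin.last k))) F = 0) :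
    Rel1 K d c ϖ Z Q B := by
  intro F hF h0 Y hY
  set F₁ := MvPolynomial.aeval (fun v => (MvPolynomial.X (sp1 A n v) : MvPolynomial _ ℂ)) F with hF₁
  have hF₁d : DC d (KS K) F₁ := dc_sub (fun v => dc_X _) hF
  have hev : ∀ Y : ∀ l, Matrix (Fin (n l)) (Fin (n l)) ℂ,
      MvPolynomial.aeval (vl1 c (fun l => Y l.castSucc) (Y (Fin.last k))) F₁ = MvPolynomial.aeval (vl c Y) F := by
    intro Y
    rw [hF₁, aeval_eval]
    congr 2
    funext v
    rw [MvPolynomial.aeval_X]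
    exact sp1_vl c Y v
  have hBu := hsp.1
  -- the matrix `Z` is invertible and `Q` is symplectic
  have hBd : IsUnit (B (Fin.last k)).det := (Matrix.isUnit_iff_isUnit_det _).1 hBu
  have hZd : IsUnit (Z (Fin.last k)).det := by
    have h1 := congrArg Matrix.det hZ
    rw [det_mul, det_mul, det_smul] at h1
    have h2 : IsUnit ((Z (Fin.last k)).det * ((Q (Fin.last k)).det * ((Z (Fin.last k))ᵀ).det)) := by
      rw [← mul_assoc, h1]
      exact (Ne.isUnit (pow_ne_zero _ hϖ)).mul hBd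
    exact isUnit_of_mul_isUnit_left h2
  have hQd : IsUnit (Q (Fin.last k)).det := by
    have h1 := congrArg Matrix.det hZ
    rw [det_mul, det_mul, det_smul] at h1
    have h2 : IsUnit ((Q (Fin.last k)).det * ((Z (Fin.last k)).det * ((Z (Fin.last k))ᵀ).det)) := by
      have h3 : (Q (Fin.last k)).det * ((Z (Fin.last k)).det * ((Z (Fin.last k))ᵀ).det) =
          (Z (Fin.last k)).det * (Q (Fin.last k)).det * ((Z (Fin.last k))ᵀ).det := by ring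
      rw [h3, h1]
      exact (Ne.isUnit (pow_ne_zero _ hϖ)).mul hBd
    exact isUnit_of_mul_isUnit_left h2
  have hZu : IsUnit (Z (Fin.last k)) := (Matrix.isUnit_iff_isUnit_det _).2 hZd
  have hQs : Spf (Q (Fin.last k)) := by
    refine ⟨(Matrix.isUnit_iff_isUnit_det _).2 hQd, ?_⟩
    have h1 : (Z (Fin.last k))⁻¹ * Z (Fin.last k) = 1 := Matrix.nonsing_inv_mul _ hZd
    have h2 : (Z (Fin.last k))ᵀ * ((Z (Fin.last k))⁻¹)ᵀ = 1 := by rw [← transpose_mul, h1, transpose_one]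
    have h3 : Q (Fin.last k) = (Z (Fin.last k))⁻¹ * (ϖ • B (Fin.last k)) * ((Z (Fin.last k))⁻¹)ᵀ := by
      rw [← hZ]
      calc Q (Fin.last k) = ((Z (Fin.last k))⁻¹ * Z (Fin.last k)) * Q (Fin.last k) *
            ((Z (Fin.last k))ᵀ * ((Z (Fin.last k))⁻¹)ᵀ) := by rw [h1, h2, Matrix.one_mul, Matrix.mul_one]
        _ = _ := by simp only [Matrix.mul_assoc]
    have h4 : (Q (Fin.last k))ᵀ = (Z (Fin.last k))⁻¹ * (ϖ • (B (Fin.last k))ᵀ) * ((Z (Fin.last k))⁻¹)ᵀ := by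
      conv_lhs => rw [h3]
      rw [transpose_mul, transpose_mul, transpose_transpose, transpose_smul, Matrix.mul_assoc]
    rw [h4, hsp.2]
    conv_rhs => rw [h3]
    rw [smul_neg, Matrix.mul_neg, Matrix.neg_mul]
  obtain ⟨A₁, A₂, hA₁, hA₂, hA⟩ := sect hsp hQs (hB _) (hQ _)
  -- all points of the last torsor
  have hlast : ∀ X : Matrix (Fin (n (Fin.last k))) (Fin (n (Fin.last k))) ℂ,
      X * Q (Fin.last k) * Xᵀ = ϖ • B (Fin.last k) →
      MvPolynomial.aeval (vl1 c (fun l => Z l.castSucc) X) F₁ = 0 := by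
    intro X hX
    obtain ⟨g, hg, hgX⟩ := quot_GB hϖ hZu hZ hX (Or.inl hsp)
    rw [← hgX]
    refine hst F₁ hF₁d ?_ g hg
    rw [hev]
    exact h0
  -- the points over `K`
  have hK : ∀ h : Matrix (Fin (n (Fin.last k))) (Fin (n (Fin.last k))) ℂ, (∀ a b, h a b ∈ K) →
      h * Q (Fin.last k) * hᵀ = Q (Fin.last k) →
      MvPolynomial.aeval (vl1 c (fun l => Y l.castSucc) ((ϖ • A₁ + A₂) * h)) F₁ = 0 := by
    intro h hhK hh
    have hM₁ : ∀ a b, (A₁ * h) a b ∈ K := fun a b => by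
      rw [Matrix.mul_apply]
      exact Subfield.sum_mem _ fun c _ => K.mul_mem (hA₁ _ _) (hhK _ _)
    have hM₂ : ∀ a b, (A₂ * h) a b ∈ K := fun a b => by
      rw [Matrix.mul_apply]
      exact Subfield.sum_mem _ fun c _ => K.mul_mem (hA₂ _ _) (hhK _ _)
    have hMM : (ϖ • A₁ + A₂) * h = A₂ * h + ϖ • (A₁ * h) := by
      rw [Matrix.add_mul, Matrix.smul_mul, add_comm]
    set G : (A ⊕ Σ l : Fin k, Fin (n l.castSucc) × Fin (n l.castSucc)) ⊕ (Fin (n (Fin.last k)) × Fin (n (Fin.last k))) →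
        MvPolynomial (A ⊕ Σ l : Fin k, Fin (n l.castSucc) × Fin (n l.castSucc)) ℂ :=
      Sum.elim MvPolynomial.X fun v => MvPolynomial.C ((A₂ * h) v.1 v.2) + MvPolynomial.C ((A₁ * h) v.1 v.2) *
        MvPolynomial.X (Sum.inl a₀) with hG
    have hGd : ∀ v, DC 1 (KS K) (G v) := by
      rintro (v | v)
      · exact dc_X _
      · exact dc_add (dc_C (hM₂ _ _)) (dc_CX (hM₁ _ _) _)
    have hGev : ∀ Y' : ∀ l : Fin k, Matrix (Fin (n l.castSucc)) (Fin (n l.castSucc)) ℂ,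
        MvPolynomial.aeval (vl c Y') (MvPolynomial.aeval G F₁) =
          MvPolynomial.aeval (vl1 c Y' ((ϖ • A₁ + A₂) * h)) F₁ := by
      intro Y'
      rw [aeval_eval]
      congr 2
      funext v
      rcases v with v | v
      · show MvPolynomial.aeval (vl c Y') (MvPolynomial.X v) = vl c Y' v
        rw [MvPolynomial.aeval_X]
      · show MvPolynomial.aeval (vl c Y') (MvPolynomial.C ((A₂ * h) v.1 v.2) + MvPolynomial.C ((A₁ * h) v.1 v.2) *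
          MvPolynomial.X (Sum.inl a₀)) = ((ϖ • A₁ + A₂) * h) v.1 v.2
        rw [hMM, map_add, map_mul, MvPolynomial.aeval_X, MvPolynomial.aeval_C, MvPolynomial.aeval_C, Matrix.add_apply,
          Matrix.smul_apply, smul_eq_mul]
        show (A₂ * h) v.1 v.2 + (A₁ * h) v.1 v.2 * c a₀ = _
        rw [ha₀, mul_comm ϖ]
    rw [← hGev]
    refine ih _ (dc_sub hGd hF₁d) ?_ (fun l => Y l.castSucc) fun l => hY l.castSucc
    rw [hGev]
    refine hlast _ ?_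
    rw [transpose_mul]
    calc (ϖ • A₁ + A₂) * h * Q (Fin.last k) * (hᵀ * (ϖ • A₁ + A₂)ᵀ) =
        (ϖ • A₁ + A₂) * (h * Q (Fin.last k) * hᵀ) * (ϖ • A₁ + A₂)ᵀ := by simp only [Matrix.mul_assoc]
      _ = _ := by rw [hh, hA]
  -- all points
  have hall : ∀ h : Matrix (Fin (n (Fin.last k))) (Fin (n (Fin.last k))) ℂ,
      h * Q (Fin.last k) * hᵀ = Q (Fin.last k) →
      MvPolynomial.aeval (vl1 c (fun l => Y l.castSucc) ((ϖ • A₁ + A₂) * h)) F₁ = 0 := by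
    intro h hh
    refine dense (K := K) (hQ _) hQs (f := fun h => MvPolynomial.aeval (vl1 c (fun l => Y l.castSucc)
      ((ϖ • A₁ + A₂) * h)) F₁) ?_ hK hh
    refine Pf.poly (f := fun v h => vl1 c (fun l => Y l.castSucc) ((ϖ • A₁ + A₂) * h) v) (fun v => ?_) F₁
    rcases v with v | v
    · exact Pf.const _
    · exact Pf.mulL _ _ _
  -- conclusion
  have hS := hA ϖ
  have hSd : IsUnit (ϖ • A₁ + A₂).det := by
    have h1 := congrArg Matrix.det hS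
    rw [det_mul, det_mul, det_smul] at h1
    have h2 : IsUnit ((ϖ • A₁ + A₂).det * ((Q (Fin.last k)).det * ((ϖ • A₁ + A₂)ᵀ).det)) := by
      rw [← mul_assoc, h1]
      exact (Ne.isUnit (pow_ne_zero _ hϖ)).mul hBd
    exact isUnit_of_mul_isUnit_left h2
  have e1 : (ϖ • A₁ + A₂)⁻¹ * (ϖ • A₁ + A₂) = 1 := Matrix.nonsing_inv_mul _ hSd
  have e2 : (ϖ • A₁ + A₂) * (ϖ • A₁ + A₂)⁻¹ = 1 := Matrix.mul_nonsing_inv _ hSd
  have e3 : (ϖ • A₁ + A₂) * ((ϖ • A₁ + A₂)⁻¹ * Y (Fin.last k)) = Y (Fin.last k) := by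
    rw [← Matrix.mul_assoc, e2, Matrix.one_mul]
  have h1 := hall ((ϖ • A₁ + A₂)⁻¹ * Y (Fin.last k)) (by
    rw [transpose_mul]
    have h2 : (ϖ • A₁ + A₂)ᵀ * ((ϖ • A₁ + A₂)⁻¹)ᵀ = 1 := by rw [← transpose_mul, e1, transpose_one]
    calc (ϖ • A₁ + A₂)⁻¹ * Y (Fin.last k) * Q (Fin.last k) * ((Y (Fin.last k))ᵀ * ((ϖ • A₁ + A₂)⁻¹)ᵀ) =
        (ϖ • A₁ + A₂)⁻¹ * (Y (Fin.last k) * Q (Fin.last k) * (Y (Fin.last k))ᵀ) * ((ϖ • A₁ + A₂)⁻¹)ᵀ := by
          simp only [Matrix.mul_assoc]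
      _ = (ϖ • A₁ + A₂)⁻¹ * ((ϖ • A₁ + A₂) * Q (Fin.last k) * (ϖ • A₁ + A₂)ᵀ) * ((ϖ • A₁ + A₂)⁻¹)ᵀ := by
          rw [hY, hS]
      _ = ((ϖ • A₁ + A₂)⁻¹ * (ϖ • A₁ + A₂)) * Q (Fin.last k) * ((ϖ • A₁ + A₂)ᵀ * ((ϖ • A₁ + A₂)⁻¹)ᵀ) := by
          simp only [Matrix.mul_assoc]
      _ = Q (Fin.last k) := by rw [e1, h2, Matrix.one_mul, Matrix.mul_one])
  rw [e3, hev] at h1
  exact h1

end Pool.Agent.U534.Sym
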