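import Pool.Agent.U534.SymB

/-!
# Polynomial relations of bounded degree at the members of sequences outside of predictable exceptional sets
-/

set_option autoImplicit false
set_option linter.unusedSectionVars false

open Matrix Module

namespace Pool.Agent.U534.Sym

open Pool.Agent.TH127.PT Pool.Agent.Y123.GN Pool.Agent.Y123.SR Pool.Agent.Y113 Pool.Agent.Y113.GG Pool.Agent.Y120.R PowerSeries
open Pool.Agent.U534.Big (rs fr)

/-- relations over `L` of degree at most `d` are inherited by the translates under the differential Galois group -/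
def Stg (L : Subfield ℂ) (d : ℕ) {A : Type} (c : A → ℂ) {ρ m : ℕ} (h : Fin ρ → ℚ⟦X⟧)
    (P : Fin m → Fin m → MvPolynomial (Option (Fin ρ)) ℂ) (x : ℕ) : Prop :=
  ∀ F : MvPolynomial (A ⊕ (Fin m × Fin m)) ℂ, DC d (KS L) F →
    MvPolynomial.aeval (Sum.elim c fun v : Fin m × Fin m => pM h P (x : ℝ) v.1 v.2) F = 0 → ∀ g ∈ Gs h P,
    MvPolynomial.aeval (Sum.elim c fun v : Fin m × Fin m =>
      ((g : Matrix (Fin m) (Fin m) ℂ) * pM h P (x : ℝ)) v.1 v.2) F = 0

/-- counting for one new fibre -/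
theorem count_rel (d e D R ρ m : ℕ) (h : Fin ρ → ℚ⟦X⟧) (hF : ∀ δ, Fam δ h) :
    ∃ c C : ℝ, 0 < c ∧ 0 ≤ C ∧ ∀ P : Fin m → Fin m → MvPolynomial (Option (Fin ρ)) ℂ,
    (∀ a b, (P a b).totalDegree ≤ e) → ∀ (A : Type) [Fintype A], Fintype.card A ≤ R →
    ∀ L : Subfield ℂ, FiniteDimensional ℚ L → finrank ℚ L ≤ D → ∀ (c' : A → ℂ) (x N : ℕ), 1 ≤ N → ∀ S : Finset ℕ,
    (∀ t ∈ S, (x < t ∧ t ≤ x + N) ∧ ¬ Stg L d c' h P t) → (S.card : ℝ) ≤ C * (1 + N / ((x : ℝ) + N) ^ c) := by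
  classical
  obtain ⟨c, C, hc, hC, hmain⟩ := gx (k := 1) (r := fun _ => ρ) (ν := fun _ => Fin m × Fin m) (h := fun _ => h) d e
    ((D + R + 1) ^ (d + 1)) (fun _ => hF _)
  refine ⟨c, C, hc, hC, ?_⟩
  intro P hP A _ hA L hL hLD c' x N hN S hS
  obtain ⟨W, hW1, hW2, hKW, hW3⟩ := exists_W' L c'
  obtain ⟨hp1, hp2⟩ := finrank_pow_le W (d + 1)
  have hWD : Module.finrank ℚ W ≤ D + R + 1 := hW2.trans (by omega)
  have h1W : (1 : ℂ) ∈ W := hKW 1 L.one_mem
  have h1 := hmain (fun _ v => P v.1 v.2) (fun _ v => hP v.1 v.2) (W ^ (d + 1)) (hp2.trans (Nat.pow_le_pow_left hWD _))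
    (fun _ => x) N hN (S.image fun t => fun _ : Fin 1 => t) (by
      intro t ht
      obtain ⟨y, hy, rfl⟩ := Finset.mem_image.1 ht
      obtain ⟨h2, h3⟩ := hS y hy
      refine ⟨fun _ => h2, ?_⟩
      by_contra hcon
      apply h3
      intro F hF h0 g hg
      set G : A ⊕ (Fin m × Fin m) → MvPolynomial (Σ _ : Fin 1, Fin m × Fin m) ℂ :=
        Sum.elim (fun a => MvPolynomial.C (c' a)) fun v => MvPolynomial.X ⟨0, v⟩ with hG
      have hGd : ∀ v, DC 1 W (G v) := by
        rintro (a | v)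
        · refine ⟨by show (MvPolynomial.C (c' a)).totalDegree ≤ 1; rw [MvPolynomial.totalDegree_C]; exact Nat.zero_le _,
            fun s => ?_⟩
          show (MvPolynomial.C (c' a)).coeff s ∈ W
          rw [MvPolynomial.coeff_C]
          split_ifs
          · exact hW3 a
          · exact W.zero_mem
        · refine ⟨by show (MvPolynomial.X _).totalDegree ≤ 1; rw [MvPolynomial.totalDegree_X], fun s => ?_⟩
          show (MvPolynomial.X _).coeff s ∈ W
          rw [MvPolynomial.coeff_X]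
          split_ifs
          · exact h1W
          · exact W.zero_mem
      have hFW : DC d W F := ⟨hF.1, fun s => hKW _ (hF.2 s)⟩
      have hDC : DC d (W * W ^ d) (MvPolynomial.aeval G F) := DC.subst' h1W G hGd hFW
      have hWW : W * W ^ d = W ^ (d + 1) := by rw [pow_succ, mul_comm]
      rw [hWW] at hDC
      have hev : ∀ X : Matrix (Fin m) (Fin m) ℂ,
          MvPolynomial.aeval (fun v : Σ _ : Fin 1, Fin m × Fin m => X v.2.1 v.2.2) (MvPolynomial.aeval G F) =
            MvPolynomial.aeval (Sum.elim c' fun v : Fin m × Fin m => X v.1 v.2) F := by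
        intro X
        rw [aeval_eval]
        congr 2
        funext v
        rcases v with a | v
        · show MvPolynomial.aeval _ (MvPolynomial.C (c' a)) = c' a
          rw [MvPolynomial.aeval_C]
          rfl
        · show MvPolynomial.aeval _ (MvPolynomial.X _) = X v.1 v.2
          rw [MvPolynomial.aeval_X]
      by_contra hne
      refine hcon ⟨MvPolynomial.aeval G F, hDC.1, hDC.2, ?_, fun _ => tl P g, fun _ => Prs_sat hg.1, ?_⟩
      · rw [← hev, MvPolynomial.aeval_eq_eval] at h0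
        exact h0
      · intro h4
        apply hne
        rw [← hev, MvPolynomial.aeval_eq_eval]
        refine Eq.trans ?_ h4
        congr 2
        funext v
        exact (tl_eval h P g _ v.2).symm)
  rw [Finset.card_image_of_injective _ (fun a b hab => congrFun hab 0), Nat.sub_self, pow_zero, mul_one,
    Fin.sum_univ_one] at h1
  exact h1

section desc

/-- **Descent of relations along a polynomial curve**, for general variables -/
theorem desc_var {V : Type} {K : Subfield ℂ} {D d : ℕ} (hf : FiniteDimensional ℚ K) (hD : finrank ℚ K ≤ D)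
    (G : V → Polynomial ℂ) (hrel : ∀ (s : ℂ) (P : MvPolynomial V ℂ), DC (d * D ^ D) (KS ⊥) P →
      MvPolynomial.aeval (fun b => (G b).eval 0) P = 0 → MvPolynomial.aeval (fun b => (G b).eval s) P = 0)
    {P : MvPolynomial V ℂ} (hP : DC d (KS K) P) (hP0 : MvPolynomial.aeval (fun b => (G b).eval 0) P = 0) (s : ℂ) :
    MvPolynomial.aeval (fun b => (G b).eval s) P = 0 := by
  obtain ⟨L, hKL, hgal, hfin, hfr⟩ := exists_gal hf hD
  have key := desc_gal (d := d) (L := L) G (by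
    intro P hP h0
    refine Polynomial.funext fun s => ?_
    rw [aeval_eval_poly, Polynomial.eval_zero]
    rw [aeval_eval_poly] at h0
    have h1 := hrel s (MvPolynomial.map (algebraMap ℚ ℂ) P) ⟨?_, fun m => ?_⟩ (by
      rw [MvPolynomial.aeval_eq_eval]
      exact h0)
    · rw [MvPolynomial.aeval_eq_eval] at h1
      exact h1
    · exact (Finset.sup_mono (MvPolynomial.support_map_subset _ _)).trans (hP.trans (Nat.mul_le_mul_left d hfr))
    · rw [MvPolynomial.coeff_map, eq_ratCast]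
      exact SubfieldClass.ratCast_mem (⊥ : Subfield ℂ) _)
  obtain ⟨P', rfl⟩ : P ∈ Set.range (MvPolynomial.map (algebraMap L ℂ)) := by
    rw [MvPolynomial.mem_range_map_iff_coeffs_subset]
    intro z hz
    rw [Finset.mem_coe, MvPolynomial.mem_coeffs_iff] at hz
    obtain ⟨m, -, rfl⟩ := hz
    exact ⟨⟨_, hKL _ (hP.2 m)⟩, rfl⟩
  have h1 := key P' (by
    refine (Finset.sup_mono ?_).trans hP.1
    intro m hm
    rw [MvPolynomial.mem_support_iff] at hm ⊢
    rw [MvPolynomial.coeff_map]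
    intro h
    exact hm ((_root_.map_eq_zero _).1 h)) (by
    rw [aeval_eval_poly, ← MvPolynomial.aeval_eq_eval]
    exact hP0)
  have h2 := aeval_eval_poly G P' s
  rw [h1, Polynomial.eval_zero] at h2
  rw [MvPolynomial.aeval_eq_eval]
  exact h2.symm

/-- relations over all number fields of bounded degree at once -/
theorem stg_all {D d m : ℕ} {A : Type} {c : A → ℂ} {Z : Matrix (Fin m) (Fin m) ℂ}
    {𝒢 : Subgroup (Matrix (Fin m) (Fin m) ℂ)ˣ}
    (hrel : ∀ F : MvPolynomial (A ⊕ (Fin m × Fin m)) ℂ, DC (d * D ^ D) (KS ⊥) F →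
      MvPolynomial.aeval (Sum.elim c fun v : Fin m × Fin m => Z v.1 v.2) F = 0 → ∀ g ∈ 𝒢,
      MvPolynomial.aeval (Sum.elim c fun v : Fin m × Fin m => ((g : Matrix (Fin m) (Fin m) ℂ) * Z) v.1 v.2) F = 0)
    {K : Subfield ℂ} (hf : FiniteDimensional ℚ K) (hD : finrank ℚ K ≤ D) {F : MvPolynomial (A ⊕ (Fin m × Fin m)) ℂ}
    (hF : DC d (KS K) F) (h0 : MvPolynomial.aeval (Sum.elim c fun v : Fin m × Fin m => Z v.1 v.2) F = 0)
    {g : (Matrix (Fin m) (Fin m) ℂ)ˣ} (hg : g ∈ Ug 𝒢) :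
    MvPolynomial.aeval (Sum.elim c fun v : Fin m × Fin m => ((g : Matrix (Fin m) (Fin m) ℂ) * Z) v.1 v.2) F = 0 := by
  obtain ⟨γ, γ', h1, h2, h3, h4⟩ := Ug_curve hg
  set G : A ⊕ (Fin m × Fin m) → Polynomial ℂ := Sum.elim (fun a => Polynomial.C (c a))
    fun v => (γ * Z.map Polynomial.C) v.1 v.2 with hG
  have hGe : ∀ s : ℂ, (fun b => (G b).eval s) = Sum.elim c fun v : Fin m × Fin m => (ev s γ * Z) v.1 v.2 := by
    intro s
    funext b
    rcases b with a | v
    · show (Polynomial.C (c a)).eval s = c a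
      rw [Polynomial.eval_C]
    · have h5 : ev s (γ * Z.map Polynomial.C) = ev s γ * Z := by rw [Pool.Agent.Y123.GN.ev_mul, Pool.Agent.Y123.GN.ev_C]
      exact congrFun (congrFun h5 v.1) v.2
  have h5 := desc_var (K := K) (D := D) (d := d) hf hD G (fun s P hP hP0 => by
    rw [hGe] at hP0 ⊢
    obtain ⟨v, hv, hv'⟩ := h4 s
    rw [h2, Matrix.one_mul] at hP0
    rw [← hv']
    exact hrel P hP hP0 v (Ug_le _ hv)) hF (by
    rw [hGe, h2, Matrix.one_mul]
    exact h0) 1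
  rw [hGe, h3] at h5
  exact h5

end desc

/-- all constants which are known at time `j` -/
abbrev AC (r n : ℕ → ℕ) (j : ℕ) : Type :=
  Option (Σ i : Fin (j + 1), Fin (r i) × Fin (r i)) ⊕ Σ l : Fin j, Fin (n l) × Fin (n l)

section
variable {n ρ : ℕ → ℕ} (h : ∀ j, (Fin j → ℕ) → Fin (ρ j) → ℚ⟦X⟧)
  (P : ∀ j, (Fin j → ℕ) → Fin (n j) → Fin (n j) → MvPolynomial (Option (Fin (ρ j))) ℂ)
  {r : ℕ → ℕ} (C : ∀ i, (Fin i → ℕ) → Matrix (Fin (r i)) (Fin (r i)) ℂ) (ϖ : ℂ)

/-- their values -/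
noncomputable def cAll (j : ℕ) (τ : Fin j → ℕ) : AC r n j → ℂ :=
  Sum.elim (fun o => o.elim ϖ fun v => C v.1 (rs τ (Nat.le_of_lt_succ v.1.2)) v.2.1 v.2.2)
    fun v => pM (h v.1 (rs τ v.1.2.le)) (P v.1 (rs τ v.1.2.le)) (τ v.1 : ℝ) v.2.1 v.2.2

/-- the exceptional set for the next parameter -/
def ExR (j : ℕ) (τ : Fin j → ℕ) : Set ℕ := {x | ¬ Stg ⊥ (j * j ^ j) (cAll h P C ϖ j τ) (h j τ) (P j τ) x}

end

theorem exR_count (n ρ : ℕ → ℕ) (e : ∀ j, (Fin j → ℕ) → ℕ)
    (h : ∀ j, (Fin j → ℕ) → Fin (ρ j) → ℚ⟦X⟧) (hF : ∀ j τ δ, Fam δ (h j τ)) (r : ℕ → ℕ) (ϖ : ℂ) :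
    ∃ c M : ∀ j, (Fin j → ℕ) → ℝ, (∀ j τ, 0 < c j τ) ∧ (∀ j τ, 0 ≤ M j τ) ∧
      ∀ P : (∀ j, (Fin j → ℕ) → Fin (n j) → Fin (n j) → MvPolynomial (Option (Fin (ρ j))) ℂ),
      (∀ j τ a b, (P j τ a b).totalDegree ≤ e j τ) → ∀ C : (∀ i, (Fin i → ℕ) → Matrix (Fin (r i)) (Fin (r i)) ℂ),
      ∀ (j : ℕ) (τ : Fin j → ℕ) (x N : ℕ), 1 ≤ N →
      ((ExR h P C ϖ j τ ∩ Set.Ioc x (x + N)).ncard : ℝ) ≤ M j τ * (1 + N / ((x : ℝ) + N) ^ c j τ) := by
  classical
  have h0 := fun (j : ℕ) (τ : Fin j → ℕ) => count_rel (j * j ^ j) (e j τ) 1 (Fintype.card (AC r n j)) (ρ j) (n j)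
    (h j τ) (hF j τ)
  choose c M hc hM hmain using h0
  refine ⟨c, M, hc, hM, ?_⟩
  intro P hP C j τ x N hN
  have hfin : (ExR h P C ϖ j τ ∩ Set.Ioc x (x + N)).Finite := (Set.finite_Ioc x (x + N)).subset Set.inter_subset_right
  rw [Set.ncard_eq_toFinset_card _ hfin]
  refine hmain j τ (P j τ) (hP j τ) (AC r n j) le_rfl ⊥ bot_fin.1 bot_fin.2 (cAll h P C ϖ j τ) x N hN hfin.toFinset
    fun t ht => ?_
  obtain ⟨h1, h2⟩ := hfin.mem_toFinset.1 ht
  exact ⟨h2, h1⟩

/-- the constants of one object -/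
noncomputable def cst {r : ℕ} (ϖ : ℂ) (C : Matrix (Fin r) (Fin r) ℂ) : Option (Fin r × Fin r) → ℂ :=
  fun o => o.elim ϖ fun v => C v.1 v.2

/-- **every sequence outside of the exceptional sets** -/
theorem seqR {n ρ : ℕ → ℕ} {h : ∀ j, (Fin j → ℕ) → Fin (ρ j) → ℚ⟦X⟧}
    {P : ∀ j, (Fin j → ℕ) → Fin (n j) → Fin (n j) → MvPolynomial (Option (Fin (ρ j))) ℂ}
    {r : ℕ → ℕ} {C : ∀ i, (Fin i → ℕ) → Matrix (Fin (r i)) (Fin (r i)) ℂ} {ϖ : ℂ} (hϖ : ϖ ≠ 0) {t : ℕ → ℕ} {j₀ : ℕ}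
    (hE : ∀ j, j₀ ≤ j → t j ∉ ExR h P C ϖ j (fr t j)) {K : Subfield ℂ} (hK : FiniteDimensional ℚ K) (d i : ℕ) :
    ∀ (k : ℕ) (s : Fin k → ℕ), StrictMono s → (∀ l, j₀ ≤ s l) → (∀ l, finrank ℚ K ≤ s l) → (∀ l, d ≤ s l) → (∀ l, i ≤ s l) →
      ∀ Q B : (∀ l, Matrix (Fin (n (s l))) (Fin (n (s l))) ℂ), (∀ l a b, Q l a b ∈ K) → (∀ l a b, B l a b ∈ K) →
      (∀ l, Spf (B l)) → (∀ l, GB (B l) ≤ Gs (h (s l) (fr t (s l))) (P (s l) (fr t (s l)))) →
      (∀ l, pM (h (s l) (fr t (s l))) (P (s l) (fr t (s l))) (t (s l) : ℝ) * Q l *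
        (pM (h (s l) (fr t (s l))) (P (s l) (fr t (s l))) (t (s l) : ℝ))ᵀ = ϖ • B l) →
      Rel1 K d (cst ϖ (C i (fr t i))) ϖ (n := fun l => n (s l))
        (fun l => pM (h (s l) (fr t (s l))) (P (s l) (fr t (s l))) (t (s l) : ℝ)) Q B := by
  intro k
  induction k with
  | zero =>
    intro s _ _ _ _ _ Q B _ _ _ _ _
    exact rel1_zero _ _ _ _ _ _ _
  | succ k ih =>
    intro s hs h0 hKd hd hi Q B hQ hB hsp hGB hr
    refine rel1_succ (n := fun l => n (s l)) hϖ none rfl hQ hB (hsp _) (hr _) ?_ ?_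
    · exact ih (fun l => s l.castSucc) (fun l l' h => hs (Fin.castSucc_lt_castSucc_iff.2 h)) (fun l => h0 _)
        (fun l => hKd _) (fun l => hd _) (fun l => hi _) (fun l => Q l.castSucc) (fun l => B l.castSucc) (fun l => hQ _) (fun l => hB _)
        (fun l => hsp _) (fun l => hGB _) (fun l => hr _)
    · have hlt : ∀ l : Fin k, s l.castSucc < s (Fin.last k) := fun l => hs (Fin.castSucc_lt_last l)
      have hSt : Stg ⊥ (s (Fin.last k) * s (Fin.last k) ^ s (Fin.last k)) (cAll h P C ϖ (s (Fin.last k)) (fr t (s (Fin.last k))))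
          (h (s (Fin.last k)) (fr t (s (Fin.last k)))) (P (s (Fin.last k)) (fr t (s (Fin.last k)))) (t (s (Fin.last k))) := by
        by_contra hcon
        exact hE _ (h0 _) hcon
      intro F hF hF0 g hg
      set φ : (Option (Fin (r i) × Fin (r i)) ⊕ Σ l : Fin k, Fin (n (s l.castSucc)) × Fin (n (s l.castSucc))) →
          AC r n (s (Fin.last k)) := Sum.elim (fun o => Sum.inl (o.map fun v => ⟨⟨i, Nat.lt_succ_of_le (hi _)⟩, v⟩))
            (fun v => Sum.inr ⟨⟨s v.1.castSucc, hlt v.1⟩, v.2⟩) with hφ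
      have hφv : ∀ v, cAll h P C ϖ (s (Fin.last k)) (fr t (s (Fin.last k))) (φ v) =
          vl (n := fun l : Fin k => n (s l.castSucc)) (cst ϖ (C i (fr t i))) (fun l : Fin k =>
            pM (h (s l.castSucc) (fr t (s l.castSucc))) (P (s l.castSucc) (fr t (s l.castSucc))) (t (s l.castSucc) : ℝ)) v := by
        rintro ((_ | v) | v)
        · rfl
        · rfl
        · rfl
      set G : ((Option (Fin (r i) × Fin (r i)) ⊕ Σ l : Fin k, Fin (n (s l.castSucc)) × Fin (n (s l.castSucc))) ⊕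
          (Fin (n (s (Fin.last k))) × Fin (n (s (Fin.last k))))) → MvPolynomial (AC r n (s (Fin.last k)) ⊕
          (Fin (n (s (Fin.last k))) × Fin (n (s (Fin.last k))))) ℂ :=
        Sum.elim (fun v => MvPolynomial.X (Sum.inl (φ v))) (fun v => MvPolynomial.X (Sum.inr v)) with hG
      have hGd : ∀ v, DC 1 (KS K) (G v) := by
        rintro (v | v)
        · exact dc_X _
        · exact dc_X _
      have hF' := dc_sub hGd hF
      have hF'' : DC (s (Fin.last k)) (KS K) (MvPolynomial.aeval G F) := ⟨hF'.1.trans (hd _), hF'.2⟩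
      have hev : ∀ X : Matrix (Fin (n (s (Fin.last k)))) (Fin (n (s (Fin.last k)))) ℂ,
          MvPolynomial.aeval (Sum.elim (cAll h P C ϖ (s (Fin.last k)) (fr t (s (Fin.last k))))
            fun v : Fin (n (s (Fin.last k))) × Fin (n (s (Fin.last k))) => X v.1 v.2) (MvPolynomial.aeval G F) =
          MvPolynomial.aeval (vl1 (n := fun l => n (s l)) (cst ϖ (C i (fr t i))) (fun l : Fin k =>
            pM (h (s l.castSucc) (fr t (s l.castSucc))) (P (s l.castSucc) (fr t (s l.castSucc))) (t (s l.castSucc) : ℝ))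
              X) F := by
        intro X
        rw [aeval_eval]
        congr 2
        funext v
        rcases v with v | v
        · show MvPolynomial.aeval _ (MvPolynomial.X _) = _
          rw [MvPolynomial.aeval_X]
          exact hφv v
        · show MvPolynomial.aeval _ (MvPolynomial.X _) = _
          rw [MvPolynomial.aeval_X]
          rfl
      rw [← hev]
      have hgU : g ∈ Ug (Gs (h (s (Fin.last k)) (fr t (s (Fin.last k)))) (P (s (Fin.last k)) (fr t (s (Fin.last k))))) := by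
        have h1 := cl_perf (Or.inr (Or.inl (hsp (Fin.last k)))) hg
        have h2 : g ∈ Ug (GB (B (Fin.last k))) := (Subgroup.commutator_le.2 fun a ha b hb => by
          rw [commutatorElement_def]
          exact Subgroup.mul_mem _ (Subgroup.mul_mem _ (Subgroup.mul_mem _ ha hb) (Subgroup.inv_mem _ ha))
            (Subgroup.inv_mem _ hb)) h1
        exact Ug_mono (hGB _) h2
      refine stg_all (𝒢 := Gs (h (s (Fin.last k)) (fr t (s (Fin.last k)))) (P (s (Fin.last k)) (fr t (s (Fin.last k)))))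
        (D := s (Fin.last k)) (d := s (Fin.last k)) hSt hK (hKd _) hF'' ?_ hgU
      rw [hev]
      exact hF0

end Pool.Agent.U534.Sym
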