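import Pool.Agent.U534.SymD

/-!
# Numbers and the periods of the members of a sequence: consequences of the relations of bounded degree
-/

set_option autoImplicit false
set_option linter.unusedSectionVars false

open Matrix Module

namespace Pool.Agent.U534.Sym

open Pool.Agent.TH127.PT Pool.Agent.Y123.GN Pool.Agent.Y113

variable {k : ℕ} {n : Fin k → ℕ} {K : Subfield ℂ}

/-- the values of `2πi` (or `z`) and of the numbers `ζ a` -/
def cz {i : ℕ} (z : ℂ) (ζ : Fin i → ℂ) : Option (Fin i) → ℂ := fun o => o.elim z ζ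

/-- the inclusion of the variables -/
def iz (i : ℕ) : Option (Σ l, Fin (n l) × Fin (n l)) → Option (Fin i) ⊕ Σ l, Fin (n l) × Fin (n l) :=
  fun o => o.elim (Sum.inl none) Sum.inr

theorem vl_iz {i : ℕ} (z : ℂ) (ζ : Fin i → ℂ) (Y : ∀ l, Matrix (Fin (n l)) (Fin (n l)) ℂ)
    (o : Option (Σ l, Fin (n l) × Fin (n l))) : vl (cz z ζ) Y (iz i o) = vz z Y o := by
  rcases o with _ | v
  · rfl
  · rfl

/-- the polynomial in the larger set of variables -/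
noncomputable def lift (i : ℕ) (R : MvPolynomial (Option (Σ l, Fin (n l) × Fin (n l))) ℂ) :
    MvPolynomial (Option (Fin i) ⊕ Σ l, Fin (n l) × Fin (n l)) ℂ :=
  MvPolynomial.aeval (fun o => (MvPolynomial.X (iz i o) : MvPolynomial (Option (Fin i) ⊕ Σ l, Fin (n l) × Fin (n l)) ℂ)) R

theorem lift_eval {i : ℕ} (z : ℂ) (ζ : Fin i → ℂ) (Y : ∀ l, Matrix (Fin (n l)) (Fin (n l)) ℂ)
    (R : MvPolynomial (Option (Σ l, Fin (n l) × Fin (n l))) ℂ) :
    MvPolynomial.aeval (vl (cz z ζ) Y) (lift i R) = MvPolynomial.aeval (vz z Y) R := by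
  unfold lift
  rw [aeval_eval]
  congr 2
  funext o
  rw [MvPolynomial.aeval_X]
  exact vl_iz z ζ Y o

theorem lift_dc {i d : ℕ} {R : MvPolynomial (Option (Σ l, Fin (n l) × Fin (n l))) ℂ} (hR : DC d (KS K) R) :
    DC d (KS K) (lift i R) := dc_sub (fun _ => dc_X _) hR

theorem dc_mul1 {σ : Type} {d : ℕ} {p q : MvPolynomial σ ℂ} (hp : DC 1 (KS K) p) (hq : DC d (KS K) q) :
    DC (1 + d) (KS K) (p * q) := by
  have h1 := hp.mul hq
  exact ⟨h1.1, fun s => (Submodule.mul_le.2 fun a ha b hb => K.mul_mem ha hb : KS K * KS K ≤ KS K) (h1.2 s)⟩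

theorem dc_sum {σ ι : Type} {d : ℕ} (s : Finset ι) {p : ι → MvPolynomial σ ℂ} (hp : ∀ a, DC d (KS K) (p a)) :
    DC d (KS K) (∑ a ∈ s, p a) := by
  classical
  induction s using Finset.induction_on with
  | empty =>
    rw [Finset.sum_empty]
    exact ⟨by simp, fun s => by rw [MvPolynomial.coeff_zero]; exact K.zero_mem⟩
  | insert a s ha ih =>
    rw [Finset.sum_insert ha]
    exact dc_add (hp a) ih

/-- linear relations between numbers hold on the torsor -/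
theorem lin_rel {i d r : ℕ} {ϖ : ℂ} {ζ : Fin i → ℂ} {Z Q B : ∀ l, Matrix (Fin (n l)) (Fin (n l)) ℂ}
    (hrel : Rel1 K (1 + d) (cz ϖ ζ) ϖ Z Q B) (ι : Fin r → Fin i)
    {R : Fin r → MvPolynomial (Option (Σ l, Fin (n l) × Fin (n l))) ℂ} (hR : ∀ a, DC d (KS K) (R a))
    (h0 : ∑ a, ζ (ι a) * MvPolynomial.aeval (vz ϖ Z) (R a) = 0) {Y : ∀ l, Matrix (Fin (n l)) (Fin (n l)) ℂ}
    (hY : ∀ l, Y l * Q l * (Y l)ᵀ = ϖ • B l) : ∑ a, ζ (ι a) * MvPolynomial.aeval (vz ϖ Y) (R a) = 0 := by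
  set F : MvPolynomial (Option (Fin i) ⊕ Σ l, Fin (n l) × Fin (n l)) ℂ :=
    ∑ a, MvPolynomial.X (Sum.inl (some (ι a))) * lift i (R a) with hF
  have hFd : DC (1 + d) (KS K) F := dc_sum _ fun a => dc_mul1 (dc_X _) (lift_dc (hR a))
  have hev : ∀ Y : ∀ l, Matrix (Fin (n l)) (Fin (n l)) ℂ, MvPolynomial.aeval (vl (cz ϖ ζ) Y) F =
      ∑ a, ζ (ι a) * MvPolynomial.aeval (vz ϖ Y) (R a) := by
    intro Y
    rw [hF, map_sum]
    refine Finset.sum_congr rfl fun a _ => ?_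
    rw [map_mul, MvPolynomial.aeval_X, lift_eval]
    rfl
  rw [← hev] at h0 ⊢
  exact hrel F hFd h0 Y hY

/-- the value of a polynomial over `K` at a line is a polynomial over `K` -/
theorem line_poly {σ : Type} {G : MvPolynomial σ ℂ} (hG : ∀ m, G.coeff m ∈ K) {u v : σ → ℂ} (hu : ∀ i, u i ∈ K)
    (hv : ∀ i, v i ∈ K) : ∃ p : Polynomial K, ∀ z : ℂ, Polynomial.aeval z p = MvPolynomial.aeval (fun i => z * u i + v i) G := by
  classical
  obtain ⟨G₀, hG₀⟩ : ∃ G₀ : MvPolynomial σ K, MvPolynomial.map (algebraMap K ℂ) G₀ = G := by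
    have h1 : G ∈ Set.range (MvPolynomial.map (σ := σ) (algebraMap K ℂ)) := by
      rw [MvPolynomial.mem_range_map_iff_coeffs_subset]
      intro x hx
      rw [Finset.mem_coe, MvPolynomial.mem_coeffs_iff] at hx
      obtain ⟨m, -, rfl⟩ := hx
      exact ⟨⟨_, hG m⟩, rfl⟩
    exact h1
  let U : σ → K := fun i => ⟨u i, hu i⟩
  let V : σ → K := fun i => ⟨v i, hv i⟩
  refine ⟨MvPolynomial.aeval (fun i => Polynomial.X * Polynomial.C (U i) + Polynomial.C (V i)) G₀, fun z => ?_⟩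
  rw [← hG₀, MvPolynomial.aeval_map_algebraMap]
  have h1 : Polynomial.aeval z (MvPolynomial.aeval (fun i => Polynomial.X * Polynomial.C (U i) + Polynomial.C (V i)) G₀) =
      ((Polynomial.aeval z).comp (MvPolynomial.aeval fun i => Polynomial.X * Polynomial.C (U i) + Polynomial.C (V i))) G₀ := rfl
  rw [h1, MvPolynomial.comp_aeval]
  congr 2
  funext i
  rw [map_add, map_mul, Polynomial.aeval_X, Polynomial.aeval_C, Polynomial.aeval_C]
  rfl

/-- the point `(z, (z A₁ + A₂) h)` -/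
theorem vz_line (A₁ A₂ h : ∀ l, Matrix (Fin (n l)) (Fin (n l)) ℂ) (z : ℂ) :
    (vz z fun l => (z • A₁ l + A₂ l) * h l) = fun o : Option (Σ l, Fin (n l) × Fin (n l)) =>
      z * (o.elim 1 fun v => (A₁ v.1 * h v.1) v.2.1 v.2.2) + o.elim 0 fun v => (A₂ v.1 * h v.1) v.2.1 v.2.2 := by
  funext o
  rcases o with _ | v
  · show z = z * 1 + 0
    rw [mul_one, add_zero]
  · show ((z • A₁ v.1 + A₂ v.1) * h v.1) v.2.1 v.2.2 = z * (A₁ v.1 * h v.1) v.2.1 v.2.2 + (A₂ v.1 * h v.1) v.2.1 v.2.2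
    rw [Matrix.add_mul, Matrix.smul_mul, Matrix.add_apply, Matrix.smul_apply, smul_eq_mul]

theorem mulK {A h : ∀ l, Matrix (Fin (n l)) (Fin (n l)) ℂ} (hA : ∀ l a b, A l a b ∈ K) (hh : ∀ l a b, h l a b ∈ K) (l : Fin k)
    (a b : Fin (n l)) : (A l * h l) a b ∈ K := by
  rw [Matrix.mul_apply]
  exact Subfield.sum_mem _ fun c _ => K.mul_mem (hA _ _ _) (hh _ _ _)

theorem line_poly' {A₁ A₂ h : ∀ l, Matrix (Fin (n l)) (Fin (n l)) ℂ} (hA₁ : ∀ l a b, A₁ l a b ∈ K)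
    (hA₂ : ∀ l a b, A₂ l a b ∈ K) (hh : ∀ l a b, h l a b ∈ K)
    {G : MvPolynomial (Option (Σ l, Fin (n l) × Fin (n l))) ℂ} (hG : ∀ m, G.coeff m ∈ K) :
    ∃ p : Polynomial K, ∀ z : ℂ, Polynomial.aeval z p = MvPolynomial.aeval (vz z fun l => (z • A₁ l + A₂ l) * h l) G := by
  obtain ⟨p, hp⟩ := line_poly hG (u := fun o : Option (Σ l, Fin (n l) × Fin (n l)) =>
    o.elim 1 fun v => (A₁ v.1 * h v.1) v.2.1 v.2.2) (v := fun o => o.elim 0 fun v => (A₂ v.1 * h v.1) v.2.1 v.2.2) (by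
      rintro (_ | v)
      · exact K.one_mem
      · exact mulK hA₁ hh _ _ _) (by
      rintro (_ | v)
      · exact K.zero_mem
      · exact mulK hA₂ hh _ _ _)
  refine ⟨p, fun z => ?_⟩
  rw [hp, vz_line]

/-- translates of sections -/
theorem tr_tor {Q B S h : ∀ l, Matrix (Fin (n l)) (Fin (n l)) ℂ} {z : ℂ} (hS : ∀ l, S l * Q l * (S l)ᵀ = z • B l)
    (hh : ∀ l, SpK K (Q l) (h l)) (l : Fin k) : (S l * h l) * Q l * (S l * h l)ᵀ = z • B l := by
  rw [transpose_mul]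
  calc S l * h l * Q l * ((h l)ᵀ * (S l)ᵀ) = S l * (h l * Q l * (h l)ᵀ) * (S l)ᵀ := by simp only [Matrix.mul_assoc]
    _ = _ := by rw [(hh l).2, hS]

/-- vanishing on the torsor from vanishing at the translates of a section over `K` -/
theorem van_tor' {Q B : ∀ l, Matrix (Fin (n l)) (Fin (n l)) ℂ} (hQK : ∀ l a b, Q l a b ∈ K)
    (hQ : ∀ l, Spf (Q l)) (hB : ∀ l, Spf (B l)) {z : ℂ} (hz : z ≠ 0)
    {S : ∀ l, Matrix (Fin (n l)) (Fin (n l)) ℂ} (hS : ∀ l, S l * Q l * (S l)ᵀ = z • B l)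
    {R : MvPolynomial (Option (Σ l, Fin (n l) × Fin (n l))) ℂ}
    (h0 : ∀ h : (∀ l, Matrix (Fin (n l)) (Fin (n l)) ℂ), (∀ l, SpK K (Q l) (h l)) →
      MvPolynomial.aeval (vz z fun l => S l * h l) R = 0)
    {Y : ∀ l, Matrix (Fin (n l)) (Fin (n l)) ℂ} (hY : ∀ l, Y l * Q l * (Y l)ᵀ = z • B l) :
    MvPolynomial.aeval (vz z Y) R = 0 := by
  rw [← aeval_oz]
  refine van_tor (K := K) hQK hQ hB (fun _ : Unit => z) hz hS (fun h hh => ?_) hY
  rw [aeval_oz]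
  exact h0 h hh

section main
variable {i d r : ℕ} {ϖ : ℂ} {ζ : Fin i → ℂ} {Z Q B : ∀ l, Matrix (Fin (n l)) (Fin (n l)) ℂ}

/-- **linear independence over `K(ϖ)`** -/
theorem indep_pi (hϖ : ϖ ≠ 0) (hQK : ∀ l a b, Q l a b ∈ K) (hBK : ∀ l a b, B l a b ∈ K) (hQ : ∀ l, Spf (Q l))
    (hB : ∀ l, Spf (B l)) (hrel : Rel1 K (1 + d) (cz ϖ ζ) ϖ Z Q B) (ι : Fin r → Fin i)
    (hι : ∀ p : Fin r → Polynomial K, ∑ a, ζ (ι a) * Polynomial.aeval ϖ (p a) = 0 → ∀ a, Polynomial.aeval ϖ (p a) = 0)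
    {R : Fin r → MvPolynomial (Option (Σ l, Fin (n l) × Fin (n l))) ℂ} (hR : ∀ a, DC d (KS K) (R a))
    (h0 : ∑ a, ζ (ι a) * MvPolynomial.aeval (vz ϖ Z) (R a) = 0) (a : Fin r) {Y : ∀ l, Matrix (Fin (n l)) (Fin (n l)) ℂ}
    (hY : ∀ l, Y l * Q l * (Y l)ᵀ = ϖ • B l) : MvPolynomial.aeval (vz ϖ Y) (R a) = 0 := by
  choose A₁ A₂ hA₁ hA₂ hA using fun l => sect (hB l) (hQ l) (hBK l) (hQK l)
  refine van_tor' hQK hQ hB hϖ (S := fun l => ϖ • A₁ l + A₂ l) (fun l => hA l ϖ) (fun h hh => ?_) hY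
  choose p hp using fun a => line_poly' hA₁ hA₂ (fun l => (hh l).1) (G := R a) (fun m => (hR a).2 m)
  have h1 := lin_rel hrel ι hR h0 (fun l => tr_tor (S := fun l => ϖ • A₁ l + A₂ l) (fun l => hA l ϖ) hh l)
  simp only [← hp] at h1
  rw [← hp]
  exact hι p h1 a

/-- the weights: `2` for `2πi` and `1` for the periods -/
def wt : Option (Σ l, Fin (n l) × Fin (n l)) → ℕ := fun o => o.elim 2 fun _ => 1

/-- scaling -/
theorem scale {R : MvPolynomial (Option (Σ l, Fin (n l) × Fin (n l))) ℂ} {w : ℕ}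
    (hR : R.IsWeightedHomogeneous (wt (n := n)) w) (q z : ℂ) (Y : ∀ l, Matrix (Fin (n l)) (Fin (n l)) ℂ) :
    MvPolynomial.aeval (vz (q ^ 2 * z) fun l => q • Y l) R = q ^ w * MvPolynomial.aeval (vz z Y) R := by
  classical
  rw [MvPolynomial.aeval_def, MvPolynomial.aeval_def, MvPolynomial.eval₂_eq', MvPolynomial.eval₂_eq', Finset.mul_sum]
  refine Finset.sum_congr rfl fun m hm => ?_
  have h1 := hR (MvPolynomial.mem_support_iff.1 hm)
  have h2 : ∀ o, vz (q ^ 2 * z) (fun l => q • Y l) o = q ^ (wt o) * vz z Y o := by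
    rintro (_ | v)
    · rfl
    · show (q • Y v.1) v.2.1 v.2.2 = q ^ 1 * Y v.1 v.2.1 v.2.2
      rw [pow_one, Matrix.smul_apply, smul_eq_mul]
  have h3 : ∏ o, vz (q ^ 2 * z) (fun l => q • Y l) o ^ m o = q ^ w * ∏ o, vz z Y o ^ m o := by
    rw [← h1, Finsupp.weight_apply, Finsupp.sum_fintype _ _ (by simp), ← Finset.prod_pow_eq_pow_sum,
      ← Finset.prod_mul_distrib]
    refine Finset.prod_congr rfl fun o _ => ?_
    rw [h2, mul_pow, ← pow_mul, smul_eq_mul, mul_comm (m o)]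
  rw [h3]
  ring

/-- **linear independence over the homogeneous polynomials** -/
theorem indep_hom (hϖ : ϖ ≠ 0) (hQK : ∀ l a b, Q l a b ∈ K) (hBK : ∀ l a b, B l a b ∈ K) (hQ : ∀ l, Spf (Q l))
    (hB : ∀ l, Spf (B l)) (hrel : Rel1 K (1 + d) (cz ϖ ζ) ϖ Z Q B) (ι : Fin r → Fin i)
    (hι : ∀ κ : Fin r → ℂ, (∀ a, κ a ∈ K) → ∑ a, ζ (ι a) * κ a = 0 → ∀ a, κ a = 0)
    {R : Fin r → MvPolynomial (Option (Σ l, Fin (n l) × Fin (n l))) ℂ} (hR : ∀ a, DC d (KS K) (R a)) {w : ℕ}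
    (hw : ∀ a, (R a).IsWeightedHomogeneous (wt (n := n)) w)
    (h0 : ∑ a, ζ (ι a) * MvPolynomial.aeval (vz ϖ Z) (R a) = 0) (a : Fin r) {Y : ∀ l, Matrix (Fin (n l)) (Fin (n l)) ℂ}
    (hY : ∀ l, Y l * Q l * (Y l)ᵀ = ϖ • B l) : MvPolynomial.aeval (vz ϖ Y) (R a) = 0 := by
  choose A₁ A₂ hA₁ hA₂ hA using fun l => sect (hB l) (hQ l) (hBK l) (hQK l)
  obtain ⟨q, hq⟩ : ∃ q : ℂ, q ^ 2 = ϖ := IsAlgClosed.exists_pow_nat_eq ϖ (by norm_num)
  have hq0 : q ≠ 0 := by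
    rintro rfl
    apply hϖ
    rw [← hq]
    norm_num
  have hA1 : ∀ l, (A₁ l + A₂ l) * Q l * (A₁ l + A₂ l)ᵀ = B l := fun l => by
    have h1 := hA l 1
    rwa [one_smul, one_smul] at h1
  have hS : ∀ l, (q • (A₁ l + A₂ l)) * Q l * (q • (A₁ l + A₂ l))ᵀ = ϖ • B l := fun l => by
    rw [transpose_smul, Matrix.smul_mul, Matrix.smul_mul, Matrix.mul_smul, smul_smul, hA1, ← hq, pow_two]
  refine van_tor' hQK hQ hB hϖ (S := fun l => q • (A₁ l + A₂ l)) hS (fun h hh => ?_) hY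
  have hA12 : ∀ l a b, (A₁ l + A₂ l) a b ∈ K := fun l a b => by
    rw [Matrix.add_apply]
    exact K.add_mem (hA₁ _ _ _) (hA₂ _ _ _)
  have hval : ∀ a, MvPolynomial.aeval (vz 1 fun l => (A₁ l + A₂ l) * h l) (R a) ∈ K := by
    intro a
    rw [MvPolynomial.aeval_def, MvPolynomial.eval₂_eq']
    refine Subfield.sum_mem _ fun m _ => K.mul_mem ((hR a).2 m) ?_
    refine Subfield.prod_mem _ fun o _ => K.pow_mem ?_ _
    rcases o with _ | v
    · exact K.one_mem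
    · exact mulK hA12 (fun l => (hh l).1) _ _ _
  have hsc : ∀ a, MvPolynomial.aeval (vz ϖ fun l => (q • (A₁ l + A₂ l)) * h l) (R a) =
      q ^ w * MvPolynomial.aeval (vz 1 fun l => (A₁ l + A₂ l) * h l) (R a) := by
    intro a
    have h1 := scale (hw a) q 1 (fun l => (A₁ l + A₂ l) * h l)
    rw [mul_one, hq] at h1
    simp only [Matrix.smul_mul]
    exact h1
  have h1 := lin_rel hrel ι hR h0 (fun l => tr_tor (S := fun l => q • (A₁ l + A₂ l)) hS hh l)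
  simp only [hsc] at h1
  have h2 : q ^ w * ∑ a, ζ (ι a) * MvPolynomial.aeval (vz 1 fun l => (A₁ l + A₂ l) * h l) (R a) = 0 := by
    rw [Finset.mul_sum, ← h1]
    refine Finset.sum_congr rfl fun a _ => ?_
    ring
  have h3 := hι _ hval ((mul_eq_zero.1 h2).resolve_left (pow_ne_zero _ hq0)) a
  rw [hsc, h3, mul_zero]

/-- **values** -/
theorem value (hQK : ∀ l a b, Q l a b ∈ K) (hBK : ∀ l a b, B l a b ∈ K) (hQ : ∀ l, Spf (Q l))
    (hB : ∀ l, Spf (B l)) (hZ : ∀ l, Z l * Q l * (Z l)ᵀ = ϖ • B l) (hrel : Rel1 K (1 + d) (cz ϖ ζ) ϖ Z Q B)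
    (a : Fin i) {κ : ℂ} (hκ : κ ∈ K) (hκ0 : κ ≠ 0)
    {R : MvPolynomial (Option (Σ l, Fin (n l) × Fin (n l))) ℂ} (hR : DC (1 + d) (KS K) R)
    (h0 : κ * ζ a = MvPolynomial.aeval (vz ϖ Z) R) :
    (∃ p : Polynomial K, Polynomial.aeval ϖ p = ζ a) ∧
    ((∀ m, R.coeff m ≠ 0 → Odd (Finsupp.weight (wt (n := n)) m)) → ζ a = 0) := by
  have hκC : DC (1 + d) (KS K) (MvPolynomial.C κ * MvPolynomial.X (Sum.inl (some a)) :
      MvPolynomial (Option (Fin i) ⊕ Σ l, Fin (n l) × Fin (n l)) ℂ) :=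
    ⟨(dc_CX hκ _).1.trans (by omega), (dc_CX hκ _).2⟩
  have hneg : DC (1 + d) (KS K) (-lift i R) :=
    ⟨by rw [MvPolynomial.totalDegree_neg]; exact (lift_dc hR).1, fun m => by
      rw [MvPolynomial.coeff_neg]; exact K.neg_mem ((lift_dc hR).2 m)⟩
  have hev : ∀ Y : ∀ l, Matrix (Fin (n l)) (Fin (n l)) ℂ, MvPolynomial.aeval (vl (cz ϖ ζ) Y)
      (MvPolynomial.C κ * MvPolynomial.X (Sum.inl (some a)) + -lift i R) = κ * ζ a - MvPolynomial.aeval (vz ϖ Y) R := by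
    intro Y
    rw [map_add, map_neg, map_mul, MvPolynomial.aeval_C, MvPolynomial.aeval_X, lift_eval]
    show κ * ζ a + -_ = _
    ring
  have hall : ∀ Y : ∀ l, Matrix (Fin (n l)) (Fin (n l)) ℂ, (∀ l, Y l * Q l * (Y l)ᵀ = ϖ • B l) →
      κ * ζ a = MvPolynomial.aeval (vz ϖ Y) R := by
    intro Y hY
    have h1 := hrel _ (dc_add hκC hneg) (by rw [hev, h0, sub_self]) Y hY
    rw [hev] at h1
    exact sub_eq_zero.1 h1
  refine ⟨?_, fun hodd => ?_⟩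
  · choose A₁ A₂ hA₁ hA₂ hA using fun l => sect (hB l) (hQ l) (hBK l) (hQK l)
    obtain ⟨p, hp⟩ := line_poly' hA₁ hA₂ (h := fun l => 1) (fun l a b => by
      rw [Matrix.one_apply]
      split_ifs
      · exact K.one_mem
      · exact K.zero_mem) (G := R) (fun m => hR.2 m)
    have h1 := hall (fun l => (ϖ • A₁ l + A₂ l) * 1) (fun l => by rw [Matrix.mul_one]; exact hA l ϖ)
    refine ⟨Polynomial.C (⟨κ, hκ⟩⁻¹ : K) * p, ?_⟩
    rw [map_mul, Polynomial.aeval_C, hp, ← h1]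
    show (((⟨κ, hκ⟩⁻¹ : K) : K) : ℂ) * (κ * ζ a) = ζ a
    have h2 : (((⟨κ, hκ⟩⁻¹ : K) : K) : ℂ) = κ⁻¹ := rfl
    rw [h2, inv_mul_cancel_left₀ hκ0]
  · have h2 : MvPolynomial.aeval (vz ϖ fun l => -Z l) R = -MvPolynomial.aeval (vz ϖ Z) R := by
      classical
      rw [MvPolynomial.aeval_def, MvPolynomial.aeval_def, MvPolynomial.eval₂_eq', MvPolynomial.eval₂_eq',
        ← Finset.sum_neg_distrib]
      refine Finset.sum_congr rfl fun m hm => ?_
      have h3 := hodd m (MvPolynomial.mem_support_iff.1 hm)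
      have h4 : ∏ o, vz ϖ (fun l => -Z l) o ^ m o = (-1) ^ (Finsupp.weight (wt (n := n)) m) * ∏ o, vz ϖ Z o ^ m o := by
        rw [Finsupp.weight_apply, Finsupp.sum_fintype _ _ (by simp), ← Finset.prod_pow_eq_pow_sum,
          ← Finset.prod_mul_distrib]
        refine Finset.prod_congr rfl fun o _ => ?_
        have h5 : vz ϖ (fun l => -Z l) o = (-1) ^ (wt (n := n) o) * vz ϖ Z o := by
          rcases o with _ | v
          · show ϖ = (-1) ^ 2 * ϖ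
            norm_num
          · show -(Z v.1) v.2.1 v.2.2 = (-1) ^ 1 * Z v.1 v.2.1 v.2.2
            ring
        rw [h5, mul_pow, ← pow_mul, smul_eq_mul, mul_comm (m o)]
      rw [h4, h3.neg_one_pow]
      ring
    have h3 := hall (fun l => -Z l) (fun l => by
      rw [transpose_neg, Matrix.neg_mul, Matrix.neg_mul, Matrix.mul_neg, neg_neg]
      exact hZ l)
    rw [h2, ← h0] at h3
    have h4 : κ * ζ a = 0 := by linear_combination h3 / 2
    exact (mul_eq_zero.1 h4).resolve_left hκ0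

end main

end Pool.Agent.U534.Sym
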