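import Pool.Agent.U534.SymE
import Pool.Agent.Y123.SR.R7

/-!
# Sequences of hyperelliptic curves outside of predictable exceptional sets: relations of bounded degree between the
# periods and arbitrary numbers
-/

set_option autoImplicit false
set_option linter.unusedSectionVars false

open Matrix Module Polynomial

namespace Pool.Agent.U534.SymF

open Pool.Agent.TH127.PT Pool.Agent.Y123.GN Pool.Agent.Y113 Pool.Agent.U534.Sym Pool.Agent.Y118.HP Pool.Agent.Y118.HG
open Pool.Agent.U534.Big (rs fr)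

/-- the branch points: `t` inserted at place `m` in the sequence of the `a i` -/
noncomputable def branch {n : ℕ} (a : Fin n → ℝ) (m : Fin (n + 1)) (t : ℝ) : Fin (n + 1) → ℝ :=
  Fin.insertNth (α := fun _ => ℝ) m t a

/-- the period `∮ x^j dx / y`, `y² = ∏ (x - e i)`, over the loop around the segment `[e l, e (l + 1)]`, that is twice
the integral over the segment (principal branch of the square root) -/
noncomputable def period {n : ℕ} (e : Fin (n + 1) → ℝ) (l j : Fin n) : ℂ :=
  2 * ∫ x in (e l.castSucc)..(e l.succ), (x : ℂ) ^ (j : ℕ) / (((∏ i, (x - e i) : ℝ) : ℂ) ^ (1 / 2 : ℂ))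

/-- the polarisation in terms of the forms `x^j dx / y`, `y² = F(x) = ∑ c_k x^k`: entries `(i - j)/2 * c_(i+j+2)` -/
noncomputable def polDR (n : ℕ) (F : ℚ[X]) : Matrix (Fin n) (Fin n) ℚ :=
  Matrix.of fun i j => (((i : ℕ) : ℚ) - ((j : ℕ) : ℚ)) / 2 * F.coeff ((i : ℕ) + (j : ℕ) + 2)

/-- the alternating form with entries `2 (-1)^r` at `(r, s)`, `|r - s| = 1`, the intersection form of the loops -/
def polB (n : ℕ) : Matrix (Fin n) (Fin n) ℚ :=
  Matrix.of fun r s => if (r : ℕ) = s + 1 ∨ (s : ℕ) = r + 1 then 2 * (-1) ^ (r : ℕ) else 0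

/-- A family of hyperelliptic curves of genus `g`: `y² = f(x) (x - 1 / t)`, where `f ∈ ℚ[X]` is monic of degree `2 g` with
the distinct real roots `a i ≠ 0` in increasing order; `0` is at place `m` among them. -/
structure Family where
  /-- the genus -/
  g : ℕ
  /-- the genus is positive -/
  pos : 0 < g
  /-- the polynomial -/
  f : ℚ[X]
  /-- the roots -/
  a : Fin (2 * g) → ℝ
  /-- the place of `0` -/
  m : Fin (2 * g + 1)
  /-- `f = ∏ (X - a i)` -/
  eq : f.map (algebraMap ℚ ℝ) = ∏ i, (X - C (a i))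
  /-- the roots and `0` are in increasing order -/
  sorted : StrictMono (branch a m 0)

/-- the period matrix of the curve `y² = f(x) (x - 1 / t)` -/
noncomputable def Family.per (F : Family) (t : ℕ) : Matrix (Fin (2 * F.g)) (Fin (2 * F.g)) ℂ :=
  Matrix.of (period (branch F.a F.m (1 / (t : ℝ))))

/-- the polarisation of the curve `y² = f(x) (x - 1 / t)` -/
noncomputable def Family.pol (F : Family) (t : ℕ) : Matrix (Fin (2 * F.g)) (Fin (2 * F.g)) ℂ :=
  (polDR (2 * F.g) (F.f * (X - C (1 / (t : ℚ))))).map (algebraMap ℚ ℂ)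

/-- the complex points of the torsor of the Riemann relations of the curve: `Y polDR Yᵀ = 2πi polB` -/
def Family.Tor (F : Family) (t : ℕ) : Set (Matrix (Fin (2 * F.g)) (Fin (2 * F.g)) ℂ) :=
  {Y | Y * F.pol t * Yᵀ = (2 * Real.pi * Complex.I : ℂ) • (polB (2 * F.g)).map (algebraMap ℚ ℂ)}

/-- the form `-1/2 pol` -/
noncomputable def Family.q (F : Family) (t : ℕ) : Matrix (Fin (2 * F.g)) (Fin (2 * F.g)) ℂ := (-1 / 2 : ℂ) • F.pol t

theorem tor_iff (F : Family) (t : ℕ) (Y : Matrix (Fin (2 * F.g)) (Fin (2 * F.g)) ℂ) :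
    Y ∈ F.Tor t ↔ Y * F.q t * Yᵀ = (2 * Real.pi * Complex.I : ℂ) • jm ℂ (2 * F.g) := Pool.Agent.Y123.ST.rel_iff

theorem jm_spf (g : ℕ) : Spf (jm ℂ (2 * g)) :=
  ⟨(Matrix.isUnit_iff_isUnit_det _).2 (Ne.isUnit (jm_det (even_two_mul g))), jm_transpose⟩

theorem q_mem (F : Family) (t : ℕ) (K : Subfield ℂ) (a b : Fin (2 * F.g)) : F.q t a b ∈ K :=
  Pool.Agent.Y123.ST.half_mem (K := K) (N := 1) (Q := fun _ => F.pol t)
      (fun _ _ _ => SubfieldClass.ratCast_mem K _) 0 a b

theorem jm_mem (n : ℕ) (K : Subfield ℂ) (a b : Fin n) : jm ℂ n a b ∈ K := by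
  show (if (a : ℕ) = b + 1 ∨ (b : ℕ) = a + 1 then -(-1 : ℂ) ^ (a : ℕ) else 0) ∈ K
  split_ifs
  · exact K.neg_mem (K.pow_mem (K.neg_mem K.one_mem) _)
  · exact K.zero_mem

/-- the good parameters: the curve is not degenerate and the relations over `ℚ` of degree at most `d` between the numbers
`c` and the periods hold on the torsor -/
def Gd (F : Family) (d : ℕ) {A : Type} (c : A → ℂ) (x : ℕ) : Prop :=
  StrictMono (branch F.a F.m (1 / (x : ℝ))) ∧ F.per x ∈ F.Tor x ∧
    ∀ G : MvPolynomial (A ⊕ (Fin (2 * F.g) × Fin (2 * F.g))) ℂ, DC d (KS ⊥) G →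
      MvPolynomial.aeval (Sum.elim c fun v : Fin (2 * F.g) × Fin (2 * F.g) => F.per x v.1 v.2) G = 0 →
      ∀ Y ∈ F.Tor x, MvPolynomial.aeval (Sum.elim c fun v : Fin (2 * F.g) × Fin (2 * F.g) => Y v.1 v.2) G = 0

theorem count_hyp (F : Family) (d R : ℕ) :
    ∃ c M : ℝ, 0 < c ∧ ∀ (A : Type) [Fintype A], Fintype.card A ≤ R → ∀ c' : A → ℂ, ∀ T : ℕ, 1 ≤ T →
      (({x | ¬ Gd F d c' x} ∩ Set.Icc 1 T).ncard : ℝ) ≤ M * (T : ℝ) ^ (1 - c) := by
  classical
  have hn : Even (2 * F.g) := even_two_mul _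
  have ha : StrictMono F.a := (inGap_of_er F.sorted).1
  have hg0 : InGap F.a F.m 0 := (inGap_of_er F.sorted).2
  obtain ⟨c, hc, M, hM, hmain⟩ := vver (N := 1) hn (fun _ => F.a) (fun _ => ha) (fun _ => F.m) (fun _ => F.f)
    (fun _ => hg0) (fun _ => F.eq) ((1 + R + 1) ^ (d + 1)) d
  refine ⟨c, M, hc, ?_⟩
  intro A _ hA c' T hT
  obtain ⟨W, hW1, hW2, hKW, hW3⟩ := @exists_W' (⊥ : Subfield ℂ) bot_fin.1 A _ c'
  obtain ⟨hp1, hp2⟩ := finrank_pow_le W (d + 1)
  have hWD : Module.finrank ℚ W ≤ 1 + R + 1 := hW2.trans (by have := bot_fin.2; omega)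
  have h1W : (1 : ℂ) ∈ W := hKW 1 (⊥ : Subfield ℂ).one_mem
  obtain ⟨S, hS1, hS2⟩ := hmain (W ^ (d + 1)) hp1 (hp2.trans (Nat.pow_le_pow_left hWD _)) T hT
  have hsub : ({x | ¬ Gd F d c' x} ∩ Set.Icc 1 T) ⊆ ((S.image fun t => t 0 : Finset ℕ) : Set ℕ) := by
    rintro x ⟨hx, hx1, hx2⟩
    by_contra hxS
    apply hx
    have hnot : (fun _ : Fin 1 => x) ∉ S := fun h => hxS (Finset.mem_coe.2 (Finset.mem_image.2 ⟨_, h, rfl⟩))
    obtain ⟨hgap, hP⟩ := hS2 (fun _ => x) (fun _ => ⟨hx1, hx2⟩) hnot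
    have hcast : (((1 / (x : ℚ) : ℚ)) : ℝ) = 1 / (x : ℝ) := by push_cast; rfl
    have hper : F.per x = CM F.a F.m (((1 / (x : ℚ) : ℚ)) : ℝ) := by
      rw [hcast]
      rfl
    have hQe : F.q x = (-1 / 2 : ℂ) • (Qp (2 * F.g) F.f).map (aeval ((1 / (x : ℚ) : ℚ) : ℂ)) := by
      unfold Family.q
      congr 1
      exact qm_eq _ _
    refine ⟨?_, ?_, ?_⟩
    · have := er_of_inGap ha (hgap 0)
      rwa [hcast] at this
    · rw [tor_iff, hQe, hper]
      exact CM_mem hn ha F.eq (hgap 0)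
    · intro G hG h0 Y hY
      set L : A ⊕ (Fin (2 * F.g) × Fin (2 * F.g)) → MvPolynomial (Fin 1 × Fin (2 * F.g) × Fin (2 * F.g)) ℂ :=
        Sum.elim (fun a => MvPolynomial.C (c' a)) fun v => MvPolynomial.X (0, v) with hL
      have hLd : ∀ v, DC 1 W (L v) := by
        rintro (a | v)
        · refine ⟨by show (MvPolynomial.C (c' a)).totalDegree ≤ 1; rw [MvPolynomial.totalDegree_C]; exact Nat.zero_le _,
            fun s => ?_⟩
          show (MvPolynomial.C (c' a)).coeff s ∈ W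
          rw [MvPolynomial.coeff_C]
          split_ifs
          · exact hW3 a
          · exact W.zero_mem
        · refine ⟨by show (MvPolynomial.X _).totalDegree ≤ 1; rw [MvPolynomial.totalDegree_X], fun s => ?_⟩
          show (MvPolynomial.X _).coeff s ∈ W
          rw [MvPolynomial.coeff_X]
          split_ifs
          · exact h1W
          · exact W.zero_mem
      have hGW : DC d W G := ⟨hG.1, fun s => hKW _ (hG.2 s)⟩
      have hDC : DC d (W * W ^ d) (MvPolynomial.aeval L G) := DC.subst' h1W L hLd hGW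
      have hWW : W * W ^ d = W ^ (d + 1) := by rw [pow_succ, mul_comm]
      rw [hWW] at hDC
      have hev : ∀ X : Matrix (Fin (2 * F.g)) (Fin (2 * F.g)) ℂ,
          MvPolynomial.aeval (px fun _ : Fin 1 => X) (MvPolynomial.aeval L G) =
            MvPolynomial.aeval (Sum.elim c' fun v : Fin (2 * F.g) × Fin (2 * F.g) => X v.1 v.2) G := by
        intro X
        rw [aeval_eval]
        congr 2
        funext v
        rcases v with a | v
        · show MvPolynomial.aeval _ (MvPolynomial.C (c' a)) = c' a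
          rw [MvPolynomial.aeval_C]
          rfl
        · show MvPolynomial.aeval _ (MvPolynomial.X _) = X v.1 v.2
          rw [MvPolynomial.aeval_X]
          rfl
      rw [← hev]
      rw [← hev, hper] at h0
      refine hP (MvPolynomial.aeval L G) hDC.1 hDC.2 h0 (fun _ => Y) fun j => ?_
      have hY' := (tor_iff F x Y).1 hY
      rw [hQe] at hY'
      exact hY'
  have h1 : ({x | ¬ Gd F d c' x} ∩ Set.Icc 1 T).ncard ≤ (S.image fun t => t 0).card := by
    rw [← Set.ncard_coe_finset]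
    exact Set.ncard_le_ncard hsub (Finset.finite_toSet _)
  calc (({x | ¬ Gd F d c' x} ∩ Set.Icc 1 T).ncard : ℝ) ≤ ((S.image fun t => t 0).card : ℝ) := by exact_mod_cast h1
    _ ≤ S.card := by exact_mod_cast Finset.card_image_le
    _ ≤ _ := by
        refine hS1.trans (le_of_eq ?_)
        norm_num

section seq

variable (F : ∀ j, (Fin j → ℕ) → Family)

/-- all constants which are known at time `j` -/
abbrev AH (j : ℕ) (τ : Fin j → ℕ) : Type :=
  Option (Fin j) ⊕ Σ l : Fin j, Fin (2 * (F l (rs τ l.2.le)).g) × Fin (2 * (F l (rs τ l.2.le)).g)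

/-- their values: `2πi`, the first `j` numbers `z a` and the periods of the earlier curves -/
noncomputable def cH (z : ℕ → ℂ) (j : ℕ) (τ : Fin j → ℕ) : AH F j τ → ℂ :=
  Sum.elim (fun o => o.elim (2 * Real.pi * Complex.I) fun a => z a)
    fun v => (F v.1 (rs τ v.1.2.le)).per (τ v.1) v.2.1 v.2.2

/-- the exceptional set for the next parameter -/
def ExH (z : ℕ → ℂ) (j : ℕ) (τ : Fin j → ℕ) : Set ℕ := {x | ¬ Gd (F j τ) (j * j ^ j) (cH F z j τ) x}

theorem exH_count : ∃ c M : ∀ j, (Fin j → ℕ) → ℝ, (∀ j τ, 0 < c j τ) ∧ ∀ (z : ℕ → ℂ) (j : ℕ) (τ : Fin j → ℕ) (T : ℕ),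
    1 ≤ T → ((ExH F z j τ ∩ Set.Icc 1 T).ncard : ℝ) ≤ M j τ * (T : ℝ) ^ (1 - c j τ) := by
  classical
  choose c M hc hmain using fun (j : ℕ) (τ : Fin j → ℕ) => count_hyp (F j τ) (j * j ^ j) (Fintype.card (AH F j τ))
  exact ⟨c, M, hc, fun z j τ T hT => hmain j τ (AH F j τ) le_rfl (cH F z j τ) T hT⟩

/-- the numbers `z 0, …, z (i - 1)` -/
def zi (z : ℕ → ℂ) (i : ℕ) : Fin i → ℂ := fun a => z a

/-- **every sequence outside of the exceptional sets** -/
theorem seqH {z : ℕ → ℂ} {t : ℕ → ℕ} {j₀ : ℕ}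
    (hE : ∀ j, j₀ ≤ j → t j ∉ ExH F z j (fr t j)) {K : Subfield ℂ} (hK : FiniteDimensional ℚ K) (d i : ℕ) :
    ∀ (k : ℕ) (s : Fin k → ℕ), StrictMono s → (∀ l, j₀ ≤ s l) → (∀ l, finrank ℚ K ≤ s l) → (∀ l, d ≤ s l) → (∀ l, i ≤ s l) →
      Rel1 K d (cz (2 * Real.pi * Complex.I) (zi z i)) (2 * Real.pi * Complex.I)
        (n := fun l => 2 * (F (s l) (fr t (s l))).g)
        (fun l => (F (s l) (fr t (s l))).per (t (s l))) (fun l => (F (s l) (fr t (s l))).q (t (s l)))
        (fun l => jm ℂ (2 * (F (s l) (fr t (s l))).g)) := by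
  intro k
  induction k with
  | zero =>
    intro s _ _ _ _ _
    exact rel1_zero _ _ _ _ _ _ _
  | succ k ih =>
    intro s hs h0 hKd hd hi
    have hG : ∀ l, Gd (F (s l) (fr t (s l))) (s l * s l ^ s l) (cH F z (s l) (fr t (s l))) (t (s l)) := by
      intro l
      by_contra hcon
      exact hE _ (h0 l) hcon
    refine rel1_succ (n := fun l => 2 * (F (s l) (fr t (s l))).g) Pool.Agent.Y123.GN.tpi_ne none rfl
      (fun l a b => q_mem _ _ K a b) (fun l a b => jm_mem _ K a b) (jm_spf _) ((tor_iff _ _ _).1 (hG _).2.1) ?_ ?_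
    · exact ih (fun l => s l.castSucc) (fun l l' h => hs (Fin.castSucc_lt_castSucc_iff.2 h)) (fun l => h0 _)
        (fun l => hKd _) (fun l => hd _) (fun l => hi _)
    · have hlt : ∀ l : Fin k, s l.castSucc < s (Fin.last k) := fun l => hs (Fin.castSucc_lt_last l)
      intro G₀ hG₀ hG0 g hg
      set φ : (Option (Fin i) ⊕ Σ l : Fin k, Fin (2 * (F (s l.castSucc) (fr t (s l.castSucc))).g) ×
          Fin (2 * (F (s l.castSucc) (fr t (s l.castSucc))).g)) → AH F (s (Fin.last k)) (fr t (s (Fin.last k))) :=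
        Sum.elim (fun o => Sum.inl (o.map (Fin.castLE (hi _))))
          (fun v => Sum.inr ⟨⟨s v.1.castSucc, hlt v.1⟩, v.2⟩) with hφ
      have hφv : ∀ v, cH F z (s (Fin.last k)) (fr t (s (Fin.last k))) (φ v) =
          vl (n := fun l : Fin k => 2 * (F (s l.castSucc) (fr t (s l.castSucc))).g)
            (cz (2 * Real.pi * Complex.I) (zi z i)) (fun l : Fin k =>
              (F (s l.castSucc) (fr t (s l.castSucc))).per (t (s l.castSucc))) v := by
        rintro ((_ | v) | v)
        · rfl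
        · rfl
        · rfl
      set L : ((Option (Fin i) ⊕ Σ l : Fin k, Fin (2 * (F (s l.castSucc) (fr t (s l.castSucc))).g) ×
          Fin (2 * (F (s l.castSucc) (fr t (s l.castSucc))).g)) ⊕
          (Fin (2 * (F (s (Fin.last k)) (fr t (s (Fin.last k)))).g) ×
            Fin (2 * (F (s (Fin.last k)) (fr t (s (Fin.last k)))).g))) →
          MvPolynomial (AH F (s (Fin.last k)) (fr t (s (Fin.last k))) ⊕
          (Fin (2 * (F (s (Fin.last k)) (fr t (s (Fin.last k)))).g) ×
            Fin (2 * (F (s (Fin.last k)) (fr t (s (Fin.last k)))).g))) ℂ :=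
        Sum.elim (fun v => MvPolynomial.X (Sum.inl (φ v))) (fun v => MvPolynomial.X (Sum.inr v)) with hL
      have hLd : ∀ v, DC 1 (KS K) (L v) := by
        rintro (v | v)
        · exact dc_X _
        · exact dc_X _
      have hF' := dc_sub hLd hG₀
      have hF'' : DC (s (Fin.last k)) (KS K) (MvPolynomial.aeval L G₀) := ⟨hF'.1.trans (hd _), hF'.2⟩
      have hev : ∀ X : Matrix (Fin (2 * (F (s (Fin.last k)) (fr t (s (Fin.last k)))).g))
            (Fin (2 * (F (s (Fin.last k)) (fr t (s (Fin.last k)))).g)) ℂ,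
          MvPolynomial.aeval (Sum.elim (cH F z (s (Fin.last k)) (fr t (s (Fin.last k))))
            fun v : Fin (2 * (F (s (Fin.last k)) (fr t (s (Fin.last k)))).g) ×
              Fin (2 * (F (s (Fin.last k)) (fr t (s (Fin.last k)))).g) => X v.1 v.2) (MvPolynomial.aeval L G₀) =
          MvPolynomial.aeval (vl1 (n := fun l => 2 * (F (s l) (fr t (s l))).g)
            (cz (2 * Real.pi * Complex.I) (zi z i)) (fun l : Fin k =>
              (F (s l.castSucc) (fr t (s l.castSucc))).per (t (s l.castSucc))) X) G₀ := by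
        intro X
        rw [aeval_eval]
        congr 2
        funext v
        rcases v with v | v
        · show MvPolynomial.aeval _ (MvPolynomial.X _) = _
          rw [MvPolynomial.aeval_X]
          exact hφv v
        · show MvPolynomial.aeval _ (MvPolynomial.X _) = _
          rw [MvPolynomial.aeval_X]
          rfl
      rw [← hev]
      have hgU : g ∈ Ug (GB (jm ℂ (2 * (F (s (Fin.last k)) (fr t (s (Fin.last k)))).g))) := by
        have h1 := cl_perf (Or.inr (Or.inl (jm_spf _))) hg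
        exact (Subgroup.commutator_le.2 fun a ha b hb => by
          rw [commutatorElement_def]
          exact Subgroup.mul_mem _ (Subgroup.mul_mem _ (Subgroup.mul_mem _ ha hb) (Subgroup.inv_mem _ ha))
            (Subgroup.inv_mem _ hb)) h1
      refine stg_all (𝒢 := GB (jm ℂ (2 * (F (s (Fin.last k)) (fr t (s (Fin.last k)))).g)))
        (D := s (Fin.last k)) (d := s (Fin.last k)) (fun G hGd hG0 γ hγ => ?_) hK (hKd _) hF'' ?_ hgU
      · refine (hG (Fin.last k)).2.2 G hGd hG0 _ ?_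
        rw [tor_iff]
        have h2 := (tor_iff _ _ _).1 (hG (Fin.last k)).2.1
        rw [transpose_mul]
        calc (γ : Matrix _ _ ℂ) * (F (s (Fin.last k)) (fr t (s (Fin.last k)))).per (t (s (Fin.last k))) *
              (F (s (Fin.last k)) (fr t (s (Fin.last k)))).q (t (s (Fin.last k))) *
              (((F (s (Fin.last k)) (fr t (s (Fin.last k)))).per (t (s (Fin.last k))))ᵀ * (γ : Matrix _ _ ℂ)ᵀ) =
            (γ : Matrix _ _ ℂ) * ((F (s (Fin.last k)) (fr t (s (Fin.last k)))).per (t (s (Fin.last k))) *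
              (F (s (Fin.last k)) (fr t (s (Fin.last k)))).q (t (s (Fin.last k))) *
              ((F (s (Fin.last k)) (fr t (s (Fin.last k)))).per (t (s (Fin.last k))))ᵀ) * (γ : Matrix _ _ ℂ)ᵀ := by
              simp only [Matrix.mul_assoc]
          _ = _ := by rw [h2, Matrix.mul_smul, Matrix.smul_mul, hγ.2]
      · rw [hev]
        exact hG0

end seq

end Pool.Agent.U534.SymF
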