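import Pool.Agent.U534.SymF

/-!
# Polynomials in given numbers and the periods of the members of a sequence
-/

set_option autoImplicit false
set_option linter.unusedSectionVars false

open Matrix Module

namespace Pool.Agent.U534.Sym

open Pool.Agent.TH127.PT Pool.Agent.Y123.GN Pool.Agent.Y113

variable {k : ℕ} {n : Fin k → ℕ} {K : Subfield ℂ}

/-- a polynomial in the numbers, in the larger set of variables -/
noncomputable def liftZ (n : Fin k → ℕ) {i : ℕ} (P : MvPolynomial (Fin i) ℂ) :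
    MvPolynomial (Option (Fin i) ⊕ Σ l, Fin (n l) × Fin (n l)) ℂ :=
  MvPolynomial.aeval (fun a => (MvPolynomial.X (Sum.inl (some a)) :
    MvPolynomial (Option (Fin i) ⊕ Σ l, Fin (n l) × Fin (n l)) ℂ)) P

theorem liftZ_eval {i : ℕ} (z : ℂ) (ζ : Fin i → ℂ) (Y : ∀ l, Matrix (Fin (n l)) (Fin (n l)) ℂ)
    (P : MvPolynomial (Fin i) ℂ) : MvPolynomial.aeval (vl (cz z ζ) Y) (liftZ n P) = MvPolynomial.aeval ζ P := by
  unfold liftZ
  rw [aeval_eval]
  congr 2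
  funext o
  rw [MvPolynomial.aeval_X]
  rfl

theorem liftZ_dc {i d : ℕ} {P : MvPolynomial (Fin i) ℂ} (hP : DC d (KS K) P) : DC d (KS K) (liftZ n P) :=
  dc_sub (fun _ => dc_X _) hP

theorem dc_mul2 {σ : Type} {a b d : ℕ} {p q : MvPolynomial σ ℂ} (hp : DC a (KS K) p) (hq : DC b (KS K) q) (h : a + b ≤ d) :
    DC d (KS K) (p * q) := by
  have h1 := hp.mul hq
  exact ⟨h1.1.trans h, fun s => (Submodule.mul_le.2 fun a ha b hb => K.mul_mem ha hb : KS K * KS K ≤ KS K) (h1.2 s)⟩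

/-- relations between polynomials in the numbers and in the periods hold on the torsor -/
theorem lin_relZ {i d r : ℕ} {ϖ : ℂ} {ζ : Fin i → ℂ} {Z Q B : ∀ l, Matrix (Fin (n l)) (Fin (n l)) ℂ}
    (hrel : Rel1 K d (cz ϖ ζ) ϖ Z Q B) {a b : Fin r → ℕ} (hab : ∀ j, a j + b j ≤ d) {P : Fin r → MvPolynomial (Fin i) ℂ}
    {R : Fin r → MvPolynomial (Option (Σ l, Fin (n l) × Fin (n l))) ℂ} (hP : ∀ j, DC (a j) (KS K) (P j))
    (hR : ∀ j, DC (b j) (KS K) (R j))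
    (h0 : ∑ j, MvPolynomial.aeval ζ (P j) * MvPolynomial.aeval (vz ϖ Z) (R j) = 0)
    {Y : ∀ l, Matrix (Fin (n l)) (Fin (n l)) ℂ}
    (hY : ∀ l, Y l * Q l * (Y l)ᵀ = ϖ • B l) :
    ∑ j, MvPolynomial.aeval ζ (P j) * MvPolynomial.aeval (vz ϖ Y) (R j) = 0 := by
  set F : MvPolynomial (Option (Fin i) ⊕ Σ l, Fin (n l) × Fin (n l)) ℂ := ∑ j, liftZ n (P j) * lift i (R j) with hF
  have hFd : DC d (KS K) F := dc_sum _ fun j => dc_mul2 (liftZ_dc (hP j)) (lift_dc (hR j)) (hab j)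
  have hev : ∀ Y : ∀ l, Matrix (Fin (n l)) (Fin (n l)) ℂ, MvPolynomial.aeval (vl (cz ϖ ζ) Y) F =
      ∑ j, MvPolynomial.aeval ζ (P j) * MvPolynomial.aeval (vz ϖ Y) (R j) := by
    intro Y
    rw [hF, map_sum]
    refine Finset.sum_congr rfl fun j _ => ?_
    rw [map_mul, liftZ_eval, lift_eval]
  rw [← hev] at h0 ⊢
  exact hrel F hFd h0 Y hY

section main
variable {r : ℕ} {ϖ : ℂ} {Z Q B : ∀ l, Matrix (Fin (n l)) (Fin (n l)) ℂ}

/-- **linear independence over `K(ϖ)`** -/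
theorem indep_pi2 (hϖ : ϖ ≠ 0) (hQK : ∀ l a b, Q l a b ∈ K) (hBK : ∀ l a b, B l a b ∈ K) (hQ : ∀ l, Spf (Q l))
    (hB : ∀ l, Spf (B l)) (w : Fin r → ℂ)
    (hι : ∀ p : Fin r → Polynomial K, ∑ a, w a * Polynomial.aeval ϖ (p a) = 0 → ∀ a, Polynomial.aeval ϖ (p a) = 0)
    {R : Fin r → MvPolynomial (Option (Σ l, Fin (n l) × Fin (n l))) ℂ} (hR : ∀ a m, (R a).coeff m ∈ K)
    (h0 : ∀ Y : (∀ l, Matrix (Fin (n l)) (Fin (n l)) ℂ), (∀ l, Y l * Q l * (Y l)ᵀ = ϖ • B l) →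
      ∑ a, w a * MvPolynomial.aeval (vz ϖ Y) (R a) = 0) (a : Fin r) {Y : ∀ l, Matrix (Fin (n l)) (Fin (n l)) ℂ}
    (hY : ∀ l, Y l * Q l * (Y l)ᵀ = ϖ • B l) : MvPolynomial.aeval (vz ϖ Y) (R a) = 0 := by
  choose A₁ A₂ hA₁ hA₂ hA using fun l => sect (hB l) (hQ l) (hBK l) (hQK l)
  refine van_tor' hQK hQ hB hϖ (S := fun l => ϖ • A₁ l + A₂ l) (fun l => hA l ϖ) (fun h hh => ?_) hY
  choose p hp using fun a => line_poly' hA₁ hA₂ (fun l => (hh l).1) (G := R a) (fun m => hR a m)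
  have h1 := h0 _ (fun l => tr_tor (S := fun l => ϖ • A₁ l + A₂ l) (fun l => hA l ϖ) hh l)
  simp only [← hp] at h1
  rw [← hp]
  exact hι p h1 a

/-- **linear independence over the homogeneous polynomials** -/
theorem indep_hom2 (hϖ : ϖ ≠ 0) (hQK : ∀ l a b, Q l a b ∈ K) (hBK : ∀ l a b, B l a b ∈ K) (hQ : ∀ l, Spf (Q l))
    (hB : ∀ l, Spf (B l)) (w : Fin r → ℂ)
    (hι : ∀ κ : Fin r → ℂ, (∀ a, κ a ∈ K) → ∑ a, w a * κ a = 0 → ∀ a, κ a = 0)
    {R : Fin r → MvPolynomial (Option (Σ l, Fin (n l) × Fin (n l))) ℂ} (hR : ∀ a m, (R a).coeff m ∈ K) {v : ℕ}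
    (hw : ∀ a, (R a).IsWeightedHomogeneous (wt (n := n)) v)
    (h0 : ∀ Y : (∀ l, Matrix (Fin (n l)) (Fin (n l)) ℂ), (∀ l, Y l * Q l * (Y l)ᵀ = ϖ • B l) →
      ∑ a, w a * MvPolynomial.aeval (vz ϖ Y) (R a) = 0) (a : Fin r) {Y : ∀ l, Matrix (Fin (n l)) (Fin (n l)) ℂ}
    (hY : ∀ l, Y l * Q l * (Y l)ᵀ = ϖ • B l) : MvPolynomial.aeval (vz ϖ Y) (R a) = 0 := by
  choose A₁ A₂ hA₁ hA₂ hA using fun l => sect (hB l) (hQ l) (hBK l) (hQK l)
  obtain ⟨q, hq⟩ : ∃ q : ℂ, q ^ 2 = ϖ := IsAlgClosed.exists_pow_nat_eq ϖ (by norm_num)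
  have hq0 : q ≠ 0 := by
    rintro rfl
    apply hϖ
    rw [← hq]
    norm_num
  have hA1 : ∀ l, (A₁ l + A₂ l) * Q l * (A₁ l + A₂ l)ᵀ = B l := fun l => by
    have h1 := hA l 1
    rwa [one_smul, one_smul] at h1
  have hS : ∀ l, (q • (A₁ l + A₂ l)) * Q l * (q • (A₁ l + A₂ l))ᵀ = ϖ • B l := fun l => by
    rw [transpose_smul, Matrix.smul_mul, Matrix.smul_mul, Matrix.mul_smul, smul_smul, hA1, ← hq, pow_two]
  refine van_tor' hQK hQ hB hϖ (S := fun l => q • (A₁ l + A₂ l)) hS (fun h hh => ?_) hY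
  have hA12 : ∀ l a b, (A₁ l + A₂ l) a b ∈ K := fun l a b => by
    rw [Matrix.add_apply]
    exact K.add_mem (hA₁ _ _ _) (hA₂ _ _ _)
  have hval : ∀ a, MvPolynomial.aeval (vz 1 fun l => (A₁ l + A₂ l) * h l) (R a) ∈ K := by
    intro a
    rw [MvPolynomial.aeval_def, MvPolynomial.eval₂_eq']
    refine Subfield.sum_mem _ fun m _ => K.mul_mem (hR a m) ?_
    refine Subfield.prod_mem _ fun o _ => K.pow_mem ?_ _
    rcases o with _ | v
    · exact K.one_mem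
    · exact mulK hA12 (fun l => (hh l).1) _ _ _
  have hsc : ∀ a, MvPolynomial.aeval (vz ϖ fun l => (q • (A₁ l + A₂ l)) * h l) (R a) =
      q ^ v * MvPolynomial.aeval (vz 1 fun l => (A₁ l + A₂ l) * h l) (R a) := by
    intro a
    have h1 := scale (hw a) q 1 (fun l => (A₁ l + A₂ l) * h l)
    rw [mul_one, hq] at h1
    simp only [Matrix.smul_mul]
    exact h1
  have h1 := h0 _ (fun l => tr_tor (S := fun l => q • (A₁ l + A₂ l)) hS hh l)
  simp only [hsc] at h1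
  have h2 : q ^ v * ∑ a, w a * MvPolynomial.aeval (vz 1 fun l => (A₁ l + A₂ l) * h l) (R a) = 0 := by
    rw [Finset.mul_sum, ← h1]
    refine Finset.sum_congr rfl fun a _ => ?_
    ring
  have h3 := hι _ hval ((mul_eq_zero.1 h2).resolve_left (pow_ne_zero _ hq0)) a
  rw [hsc, h3, mul_zero]

/-- `1/π` is not integral over `K[2πi]` -/
theorem not_int (hK : ∀ x ∈ K, IsAlgebraic ℚ x) {m : ℕ} (p : Fin m → Polynomial K)
    (h : (1 / (Real.pi : ℂ)) ^ m + ∑ b : Fin m, (1 / (Real.pi : ℂ)) ^ (b : ℕ) *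
      Polynomial.aeval (2 * Real.pi * Complex.I : ℂ) (p b) = 0) : False := by
  classical
  obtain ⟨A, hAalg, hKA, h2i⟩ : ∃ A : Subfield ℂ, (∀ x ∈ A, IsAlgebraic ℚ x) ∧ K ≤ A ∧ (2 * Complex.I) ∈ A := by
    refine ⟨(algebraicClosure ℚ ℂ).toSubfield, fun x hx => mem_algebraicClosure_iff.1 hx,
      fun x hx => mem_algebraicClosure_iff.2 (hK x hx), mem_algebraicClosure_iff.2 ?_⟩
    refine ⟨Polynomial.X ^ 2 + Polynomial.C 4, Polynomial.X_pow_add_C_ne_zero (by norm_num) _, ?_⟩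
    rw [map_add, map_pow, Polynomial.aeval_X, Polynomial.aeval_C, mul_pow, Complex.I_sq]
    norm_num
  let u : A := ⟨2 * Complex.I, h2i⟩
  have hu : (u : ℂ) = 2 * Complex.I := rfl
  let q : Polynomial A := Polynomial.C (u ^ m) + ∑ b : Fin m, Polynomial.C (u ^ (b : ℕ)) * Polynomial.X ^ (m - (b : ℕ)) *
    (p b).map (Subfield.inclusion hKA)
  have hpi : (Real.pi : ℂ) ≠ 0 := by exact_mod_cast Real.pi_ne_zero
  have htp : (2 * Real.pi * Complex.I : ℂ) = (Real.pi : ℂ) * (2 * Complex.I) := by ring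
  have hmap : ∀ b, Polynomial.aeval (2 * Real.pi * Complex.I : ℂ) ((p b).map (Subfield.inclusion hKA)) =
      Polynomial.aeval (2 * Real.pi * Complex.I : ℂ) (p b) := by
    intro b
    rw [Polynomial.aeval_def, Polynomial.eval₂_map, Polynomial.aeval_def]
    rfl
  have hq : Polynomial.aeval (2 * Real.pi * Complex.I : ℂ) q = (2 * Real.pi * Complex.I : ℂ) ^ m *
      ((1 / (Real.pi : ℂ)) ^ m + ∑ b : Fin m, (1 / (Real.pi : ℂ)) ^ (b : ℕ) *
      Polynomial.aeval (2 * Real.pi * Complex.I : ℂ) (p b)) := by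
    show Polynomial.aeval (2 * Real.pi * Complex.I : ℂ) (Polynomial.C (u ^ m) + ∑ b : Fin m, Polynomial.C (u ^ (b : ℕ)) *
      Polynomial.X ^ (m - (b : ℕ)) * (p b).map (Subfield.inclusion hKA)) = _
    rw [map_add, map_sum, mul_add, Finset.mul_sum, Polynomial.aeval_C]
    congr 1
    · show ((u ^ m : A) : ℂ) = _
      rw [SubmonoidClass.coe_pow, hu, htp, ← mul_pow]
      congr 1
      field_simp
    · refine Finset.sum_congr rfl fun b _ => ?_
      rw [map_mul, map_mul, Polynomial.aeval_X_pow, Polynomial.aeval_C, hmap]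
      show ((u ^ (b : ℕ) : A) : ℂ) * _ * _ = _
      rw [SubmonoidClass.coe_pow, hu]
      obtain ⟨e, he⟩ := Nat.exists_eq_add_of_le b.2.le
      have h1 : m - (b : ℕ) = e := by omega
      have h2 : (2 * Real.pi * Complex.I : ℂ) ^ m = (2 * Real.pi * Complex.I : ℂ) ^ (b : ℕ) * (2 * Real.pi * Complex.I : ℂ) ^ e := by
        rw [← pow_add, ← he]
      rw [h1, h2]
      have h3 : (2 * Complex.I) ^ (b : ℕ) = (2 * Real.pi * Complex.I : ℂ) ^ (b : ℕ) * (1 / (Real.pi : ℂ)) ^ (b : ℕ) := by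
        rw [← mul_pow]
        congr 1
        field_simp
      rw [h3]
      ring
  rw [h, mul_zero] at hq
  have hq0 : q = 0 := by
    by_contra hne
    exact Pool.Agent.Y123.GN.tpi_tr hAalg ⟨q, hne, hq⟩
  have h1 : q.eval 0 = u ^ m := by
    show (Polynomial.C (u ^ m) + ∑ b : Fin m, Polynomial.C (u ^ (b : ℕ)) *
      Polynomial.X ^ (m - (b : ℕ)) * (p b).map (Subfield.inclusion hKA)).eval 0 = _
    rw [Polynomial.eval_add, Polynomial.eval_C, Polynomial.eval_finset_sum, Finset.sum_eq_zero, add_zero]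
    intro b _
    have h2 := b.2
    rw [Polynomial.eval_mul, Polynomial.eval_mul, Polynomial.eval_pow, Polynomial.eval_X, zero_pow (by omega), mul_zero,
      zero_mul]
  rw [hq0, Polynomial.eval_zero] at h1
  have h2 : (u ^ m : A) ≠ 0 := pow_ne_zero _ fun h3 => by
    have h4 : ((u : A) : ℂ) = 0 := by rw [h3]; rfl
    rw [hu] at h4
    exact (mul_ne_zero two_ne_zero Complex.I_ne_zero) h4
  exact h2 h1.symm

/-- the value with changed signs -/
theorem flip_eval (z : ℂ) (Y : ∀ l, Matrix (Fin (n l)) (Fin (n l)) ℂ) (ε : Fin k → ℂ)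
    (R : MvPolynomial (Option (Σ l, Fin (n l) × Fin (n l))) ℂ) :
    MvPolynomial.aeval (vz z fun l => ε l • Y l) R = ∑ m ∈ R.support, R.coeff m *
      ((∏ l, ε l ^ (∑ v : Fin (n l) × Fin (n l), m (some ⟨l, v⟩))) * ∏ o, vz z Y o ^ m o) := by
  classical
  rw [MvPolynomial.aeval_def, MvPolynomial.eval₂_eq']
  refine Finset.sum_congr rfl fun m _ => ?_
  congr 1
  rw [Fintype.prod_option, Fintype.prod_option, Fintype.prod_sigma, Fintype.prod_sigma]
  have h1 : ∀ l, ∏ v : Fin (n l) × Fin (n l), vz z (fun l => ε l • Y l) (some ⟨l, v⟩) ^ m (some ⟨l, v⟩) =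
      ε l ^ (∑ v : Fin (n l) × Fin (n l), m (some ⟨l, v⟩)) * ∏ v : Fin (n l) × Fin (n l), vz z Y (some ⟨l, v⟩) ^ m (some ⟨l, v⟩) := by
    intro l
    rw [← Finset.prod_pow_eq_pow_sum, ← Finset.prod_mul_distrib]
    refine Finset.prod_congr rfl fun v _ => ?_
    rw [← mul_pow]
    rfl
  rw [Finset.prod_congr rfl fun l _ => h1 l, Finset.prod_mul_distrib]
  show z ^ m none * _ = _ * (z ^ m none * _)
  ring

/-- the sum of the values with changed signs -/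
theorem flip_sum (z : ℂ) (Y : ∀ l, Matrix (Fin (n l)) (Fin (n l)) ℂ)
    {R : MvPolynomial (Option (Σ l, Fin (n l) × Fin (n l))) ℂ}
    (hodd : ∀ m, R.coeff m ≠ 0 → ∃ l, Odd (∑ v : Fin (n l) × Fin (n l), m (some ⟨l, v⟩))) :
    ∑ ε ∈ Fintype.piFinset (fun _ : Fin k => ({1, -1} : Finset ℂ)), MvPolynomial.aeval (vz z fun l => ε l • Y l) R = 0 := by
  classical
  simp only [flip_eval]
  rw [Finset.sum_comm]
  refine Finset.sum_eq_zero fun m hm => ?_
  obtain ⟨l, hl⟩ := hodd m (MvPolynomial.mem_support_iff.1 hm)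
  have h1 := Finset.prod_univ_sum (fun _ : Fin k => ({1, -1} : Finset ℂ))
    (fun l x => x ^ (∑ v : Fin (n l) × Fin (n l), m (some ⟨l, v⟩)))
  rw [← Finset.mul_sum, ← Finset.sum_mul, ← h1, Finset.prod_eq_zero (Finset.mem_univ l), zero_mul, mul_zero]
  rw [Finset.sum_pair (by norm_num), one_pow, hl.neg_one_pow, add_neg_cancel]

/-- **odd polynomials** -/
theorem odd_zero (z x : ℂ) (hZ : ∀ l, Z l * Q l * (Z l)ᵀ = ϖ • B l)
    {R : MvPolynomial (Option (Σ l, Fin (n l) × Fin (n l))) ℂ}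
    (hodd : ∀ m, R.coeff m ≠ 0 → ∃ l, Odd (∑ v : Fin (n l) × Fin (n l), m (some ⟨l, v⟩)))
    (hall : ∀ Y : (∀ l, Matrix (Fin (n l)) (Fin (n l)) ℂ), (∀ l, Y l * Q l * (Y l)ᵀ = ϖ • B l) →
      x = MvPolynomial.aeval (vz z Y) R) : x = 0 := by
  classical
  have h1 := flip_sum z Z hodd
  have h2 : ∀ ε ∈ Fintype.piFinset (fun _ : Fin k => ({1, -1} : Finset ℂ)),
      MvPolynomial.aeval (vz z fun l => ε l • Z l) R = x := by
    intro ε hε
    refine (hall _ fun l => ?_).symm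
    have h3 : ε l * ε l = 1 := by
      have h4 := Fintype.mem_piFinset.1 hε l
      rcases Finset.mem_insert.1 h4 with h5 | h5
      · rw [h5, one_mul]
      · rw [Finset.mem_singleton.1 h5]
        norm_num
    rw [transpose_smul, Matrix.smul_mul, Matrix.smul_mul, Matrix.mul_smul, smul_smul, h3, one_smul, hZ]
  rw [Finset.sum_congr rfl h2, Finset.sum_const, nsmul_eq_mul] at h1
  rcases mul_eq_zero.1 h1 with h3 | h3
  · exfalso
    have h4 : (Fintype.piFinset (fun _ : Fin k => ({1, -1} : Finset ℂ))).card = 0 := by exact_mod_cast h3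
    rw [Fintype.card_piFinset, Finset.prod_eq_zero_iff] at h4
    obtain ⟨l, -, hl⟩ := h4
    rw [Finset.card_eq_zero] at hl
    exact absurd hl (Finset.insert_ne_empty _ _)
  · exact h3

end main

end Pool.Agent.U534.Sym
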