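import Pool.Agent.U534.SymG

/-!
# Given numbers and the periods of the curves of a sequence: consequences of the relations of bounded degree
-/

set_option autoImplicit false
set_option linter.unusedSectionVars false

open Matrix Module

namespace Pool.Agent.U534.SymH

open Pool.Agent.U534.SymF Pool.Agent.U534.Sym Pool.Agent.TH127.PT Pool.Agent.Y123.GN Pool.Agent.Y113 Pool.Agent.Y118.HP
open Pool.Agent.Y118.HG

/-- the value of a polynomial at `2πi` (the variable `none`) and at the matrices `Y l` -/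
noncomputable def ev {K : Subfield ℂ} {k : ℕ} {n : Fin k → ℕ} (Y : ∀ l, Matrix (Fin (n l)) (Fin (n l)) ℂ)
    (R : MvPolynomial (Option (Σ l, Fin (n l) × Fin (n l))) K) : ℂ :=
  MvPolynomial.aeval (fun o => o.elim (2 * Real.pi * Complex.I : ℂ) fun v => Y v.1 v.2.1 v.2.2) R

/-- the value of a polynomial at `2πi` (the variable `none`), the numbers `z a` and the matrices `Y l` -/
noncomputable def evz {K : Subfield ℂ} {i k : ℕ} {n : Fin k → ℕ} (z : ℕ → ℂ) (Y : ∀ l, Matrix (Fin (n l)) (Fin (n l)) ℂ)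
    (G : MvPolynomial (Option (Fin i) ⊕ Σ l, Fin (n l) × Fin (n l)) K) : ℂ :=
  MvPolynomial.aeval (Sum.elim (fun o : Option (Fin i) => o.elim (2 * Real.pi * Complex.I : ℂ) fun a => z a)
    fun v => Y v.1 v.2.1 v.2.2) G

/-- homogeneous polynomials of the weight `w`: `2πi` has the weight `2`, the entries of the matrices have the weight `1` -/
def Hom {K : Subfield ℂ} {k : ℕ} {n : Fin k → ℕ} (w : ℕ) (R : MvPolynomial (Option (Σ l, Fin (n l) × Fin (n l))) K) : Prop :=
  R.IsWeightedHomogeneous (fun o => o.elim 2 fun _ => 1) w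

theorem dc_map {L : Subfield ℂ} {σ : Type} {d : ℕ} {F : MvPolynomial σ L} (hF : F.totalDegree ≤ d) :
    DC d (KS L) (MvPolynomial.map (algebraMap L ℂ) F) :=
  ⟨(Finset.sup_mono (MvPolynomial.support_map_subset _ _)).trans hF, fun s => by
    rw [MvPolynomial.coeff_map]
    exact (F.coeff s).2⟩

theorem alg_of {K : Subfield ℂ} (hKf : FiniteDimensional ℚ K) : ∀ x ∈ K, IsAlgebraic ℚ x := by
  intro x hx
  have : NumberField K := { to_charZero := inferInstance, to_finiteDimensional := hKf }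
  have h6 : IsAlgebraic ℚ (⟨x, hx⟩ : K) := Algebra.IsAlgebraic.isAlgebraic _
  exact h6.algebraMap (A := ℂ)

theorem ev_map {K : Subfield ℂ} {k : ℕ} {n : Fin k → ℕ} (Y : ∀ l, Matrix (Fin (n l)) (Fin (n l)) ℂ)
    (R : MvPolynomial (Option (Σ l, Fin (n l) × Fin (n l))) K) :
    MvPolynomial.aeval (vz (2 * Real.pi * Complex.I : ℂ) Y) (MvPolynomial.map (algebraMap K ℂ) R) = ev Y R := by
  rw [MvPolynomial.aeval_map_algebraMap]
  rfl

theorem hom_map {K : Subfield ℂ} {k : ℕ} {n : Fin k → ℕ} {w : ℕ} {R : MvPolynomial (Option (Σ l, Fin (n l) × Fin (n l))) K}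
    (h : Hom w R) : (MvPolynomial.map (algebraMap K ℂ) R).IsWeightedHomogeneous (wt (n := n)) w := by
  intro m hm
  refine h (d := m) fun h0 => hm ?_
  rw [MvPolynomial.coeff_map, h0, map_zero]

section
variable {k : ℕ} {C : Fin k → Family} {u : Fin k → ℕ} {K : Subfield ℂ} {d i : ℕ} {z : ℕ → ℂ}

/-- the hypothesis: all relations of degree at most `d` hold on the torsors -/
abbrev RelH (C : Fin k → Family) (u : Fin k → ℕ) (K : Subfield ℂ) (d i : ℕ) (z : ℕ → ℂ) : Prop :=
  Rel1 K d (cz (2 * Real.pi * Complex.I) (zi z i)) (2 * Real.pi * Complex.I)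
        (n := fun l => 2 * (C l).g) (fun l => (C l).per (u l)) (fun l => (C l).q (u l)) (fun l => jm ℂ (2 * (C l).g))

theorem relK (hrel : RelH C u K d i z) (G : MvPolynomial (Option (Fin i) ⊕ Σ l, Fin (2 * (C l).g) × Fin (2 * (C l).g)) K)
    (hG : G.totalDegree ≤ d) (h0 : evz z (fun l => (C l).per (u l)) G = 0)
    (Y : ∀ l, Matrix (Fin (2 * (C l).g)) (Fin (2 * (C l).g)) ℂ) (hY : ∀ l, Y l ∈ (C l).Tor (u l)) : evz z Y G = 0 := by
  have h1 := hrel (MvPolynomial.map (algebraMap K ℂ) G) (dc_map hG) (by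
    rw [MvPolynomial.aeval_map_algebraMap]
    exact h0) Y (fun l => (tor_iff _ _ _).1 (hY l))
  rw [MvPolynomial.aeval_map_algebraMap] at h1
  exact h1

theorem lin (hrel : RelH C u K d i z) {r : ℕ} (N : Fin r → MvPolynomial (Fin i) K)
      (R : Fin r → MvPolynomial (Option (Σ l, Fin (2 * (C l).g) × Fin (2 * (C l).g))) K)
      (hd : ∀ a, (N a).totalDegree + (R a).totalDegree ≤ d)
      (h0 : ∑ a, MvPolynomial.aeval (fun b : Fin i => z b) (N a) * ev (fun l => (C l).per (u l)) (R a) = 0)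
      (Y : ∀ l, Matrix (Fin (2 * (C l).g)) (Fin (2 * (C l).g)) ℂ) (hY : ∀ l, Y l ∈ (C l).Tor (u l)) :
        ∑ a, MvPolynomial.aeval (fun b : Fin i => z b) (N a) * ev Y (R a) = 0 := by
  have h1 := lin_relZ hrel (a := fun a => (N a).totalDegree) (b := fun a => (R a).totalDegree) hd
    (P := fun a => MvPolynomial.map (algebraMap K ℂ) (N a)) (R := fun a => MvPolynomial.map (algebraMap K ℂ) (R a))
    (fun a => dc_map le_rfl) (fun a => dc_map le_rfl) (by
      simp only [MvPolynomial.aeval_map_algebraMap]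
      exact h0) (fun l => (tor_iff _ _ _).1 (hY l))
  simp only [MvPolynomial.aeval_map_algebraMap] at h1
  exact h1

theorem spf_q (hP : ∀ l, (C l).per (u l) ∈ (C l).Tor (u l)) (l : Fin k) : Spf ((C l).q (u l)) :=
  (spf_of Pool.Agent.Y123.GN.tpi_ne (jm_spf _) ((tor_iff _ _ _).1 (hP l))).1

/-- **homogeneous polynomials** -/
theorem homI (hP : ∀ l, (C l).per (u l) ∈ (C l).Tor (u l)) {r w : ℕ} (c : Fin r → ℂ)
    (hc : ∀ κ : Fin r → ℂ, (∀ a, κ a ∈ K) → ∑ a, c a * κ a = 0 → ∀ a, κ a = 0)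
    (R : Fin r → MvPolynomial (Option (Σ l, Fin (2 * (C l).g) × Fin (2 * (C l).g))) K) (hw : ∀ b, Hom w (R b))
    (h0 : ∀ Y : (∀ l, Matrix (Fin (2 * (C l).g)) (Fin (2 * (C l).g)) ℂ), (∀ l, Y l ∈ (C l).Tor (u l)) →
      ∑ a, c a * ev Y (R a) = 0) (b : Fin r)
    (Y : ∀ l, Matrix (Fin (2 * (C l).g)) (Fin (2 * (C l).g)) ℂ) (hY : ∀ l, Y l ∈ (C l).Tor (u l)) : ev Y (R b) = 0 := by
  have h1 := indep_hom2 (K := K) (ϖ := (2 * Real.pi * Complex.I : ℂ)) Pool.Agent.Y123.GN.tpi_ne (fun l a b => q_mem _ _ K a b) (fun l a b => jm_mem _ K a b)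
    (spf_q hP) (fun l => jm_spf (C l).g) c (v := w) hc
    (R := fun a => MvPolynomial.map (algebraMap K ℂ) (R a)) (fun a m => (dc_map (F := R a) le_rfl).2 m)
    (fun a => hom_map (hw a)) (fun Y hY => by
      simp only [ev_map]
      exact h0 Y fun l => (tor_iff _ _ _).2 (hY l)) b (Y := Y) (fun l => (tor_iff _ _ _).1 (hY l))
  rw [ev_map] at h1
  exact h1

/-- **all polynomials** -/
theorem freeI (hP : ∀ l, (C l).per (u l) ∈ (C l).Tor (u l)) {r : ℕ} (c : Fin r → ℂ)
    (hc : ∀ p : Fin r → Polynomial K, ∑ a, c a * Polynomial.aeval (2 * Real.pi * Complex.I : ℂ) (p a) = 0 →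
      ∀ a, Polynomial.aeval (2 * Real.pi * Complex.I : ℂ) (p a) = 0)
    (R : Fin r → MvPolynomial (Option (Σ l, Fin (2 * (C l).g) × Fin (2 * (C l).g))) K)
    (h0 : ∀ Y : (∀ l, Matrix (Fin (2 * (C l).g)) (Fin (2 * (C l).g)) ℂ), (∀ l, Y l ∈ (C l).Tor (u l)) →
      ∑ a, c a * ev Y (R a) = 0) (b : Fin r)
    (Y : ∀ l, Matrix (Fin (2 * (C l).g)) (Fin (2 * (C l).g)) ℂ) (hY : ∀ l, Y l ∈ (C l).Tor (u l)) : ev Y (R b) = 0 := by
  have h1 := indep_pi2 (K := K) (ϖ := (2 * Real.pi * Complex.I : ℂ)) Pool.Agent.Y123.GN.tpi_ne (fun l a b => q_mem _ _ K a b) (fun l a b => jm_mem _ K a b)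
    (spf_q hP) (fun l => jm_spf (C l).g) c hc
    (R := fun a => MvPolynomial.map (algebraMap K ℂ) (R a)) (fun a m => (dc_map (F := R a) le_rfl).2 m)
    (fun Y hY => by
      simp only [ev_map]
      exact h0 Y fun l => (tor_iff _ _ _).2 (hY l)) b (Y := Y) (fun l => (tor_iff _ _ _).1 (hY l))
  rw [ev_map] at h1
  exact h1

/-- **integral numbers** -/
theorem intI (hrel : RelH C u K d i z) (hP : ∀ l, (C l).per (u l) ∈ (C l).Tor (u l)) (a : Fin i) {m : ℕ}
    (R : Fin m → MvPolynomial (Option (Σ l, Fin (2 * (C l).g) × Fin (2 * (C l).g))) K) (hm : m ≤ d)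
    (hR : ∀ b : Fin m, (b : ℕ) + (R b).totalDegree ≤ d)
    (h0 : z a ^ m + ∑ b : Fin m, z a ^ (b : ℕ) * ev (fun l => (C l).per (u l)) (R b) = 0) :
    ∃ p : Fin m → Polynomial K,
        z a ^ m + ∑ b : Fin m, z a ^ (b : ℕ) * Polynomial.aeval (2 * Real.pi * Complex.I : ℂ) (p b) = 0 := by
  classical
  have hall := lin hrel (fun b : Fin (m + 1) => MvPolynomial.X a ^ (b : ℕ)) (Fin.snoc (α := fun _ =>
    MvPolynomial (Option (Σ l, Fin (2 * (C l).g) × Fin (2 * (C l).g))) K) R 1) (fun b => by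
      refine Fin.lastCases ?_ (fun b => ?_) b
      · rw [Fin.snoc_last, MvPolynomial.totalDegree_one, MvPolynomial.totalDegree_X_pow]
        simpa using hm
      · rw [Fin.snoc_castSucc, MvPolynomial.totalDegree_X_pow]
        exact hR b) (by
      rw [Fin.sum_univ_castSucc]
      simp only [Fin.snoc_castSucc, Fin.snoc_last, map_pow, MvPolynomial.aeval_X, Fin.val_castSucc, Fin.val_last]
      have h1 : ev (K := K) (fun l => (C l).per (u l)) 1 = 1 := map_one _
      rw [h1, mul_one, add_comm]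
      exact h0)
  choose A₁ A₂ hA₁ hA₂ hA using fun l => sect (jm_spf (C l).g) (spf_q hP l) (fun a b => jm_mem _ K a b)
    (fun a b => q_mem (C l) (u l) K a b)
  choose p hp using fun b => line_poly' hA₁ hA₂ (h := fun l => 1) (fun l a b => by
    rw [Matrix.one_apply]
    split_ifs
    · exact K.one_mem
    · exact K.zero_mem) (G := MvPolynomial.map (algebraMap K ℂ) (R b)) (fun m => (dc_map (F := R b) le_rfl).2 m)
  have h1 := hall (fun l => ((2 * Real.pi * Complex.I : ℂ) • A₁ l + A₂ l) * 1) (fun l => by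
    rw [Matrix.mul_one]
    exact (tor_iff _ _ _).2 (hA l _))
  rw [Fin.sum_univ_castSucc] at h1
  simp only [Fin.snoc_castSucc, Fin.snoc_last, map_pow, MvPolynomial.aeval_X, Fin.val_castSucc, Fin.val_last] at h1
  have h2 : ev (K := K) (fun l => ((2 * Real.pi * Complex.I : ℂ) • A₁ l + A₂ l) * 1) 1 = 1 := map_one _
  rw [h2, mul_one, add_comm] at h1
  refine ⟨p, ?_⟩
  rw [← h1]
  congr 1
  refine Finset.sum_congr rfl fun b _ => ?_
  rw [hp, ev_map]

/-- **odd polynomials** -/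
theorem oddI (hrel : RelH C u K d i z) (hP : ∀ l, (C l).per (u l) ∈ (C l).Tor (u l)) (a : Fin i)
    (R : MvPolynomial (Option (Σ l, Fin (2 * (C l).g) × Fin (2 * (C l).g))) K) (hd1 : 1 ≤ d) (hR : R.totalDegree ≤ d)
    (hodd : ∀ m, R.coeff m ≠ 0 → ∃ l, Odd (∑ v : Fin (2 * (C l).g) × Fin (2 * (C l).g), m (some ⟨l, v⟩)))
    (h0 : z a = ev (fun l => (C l).per (u l)) R) : z a = 0 := by
  classical
  have hall := lin hrel ![MvPolynomial.X a, -1] ![1, R] (fun b => by
      fin_cases b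
      · show (MvPolynomial.X a : MvPolynomial (Fin i) K).totalDegree + (1 : MvPolynomial _ K).totalDegree ≤ d
        rw [MvPolynomial.totalDegree_X, MvPolynomial.totalDegree_one]
        exact hd1
      · show (-1 : MvPolynomial (Fin i) K).totalDegree + R.totalDegree ≤ d
        rw [MvPolynomial.totalDegree_neg, MvPolynomial.totalDegree_one, zero_add]
        exact hR) (by
      rw [Fin.sum_univ_two]
      simp only [Matrix.cons_val_zero, Matrix.cons_val_one, MvPolynomial.aeval_X, map_neg, map_one]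
      have h1 : ev (K := K) (fun l => (C l).per (u l)) 1 = 1 := map_one _
      rw [h1, ← h0]
      ring)
  refine odd_zero (Z := fun l => (C l).per (u l)) (2 * Real.pi * Complex.I : ℂ) (z a)
    (fun l => (tor_iff _ _ _).1 (hP l))
    (R := MvPolynomial.map (algebraMap K ℂ) R) (fun m hm => hodd m fun h1 => hm ?_) (fun Y hY => ?_)
  · rw [MvPolynomial.coeff_map, h1, map_zero]
  · have h1 := hall Y (fun l => (tor_iff _ _ _).2 (hY l))
    rw [Fin.sum_univ_two] at h1
    simp only [Matrix.cons_val_zero, Matrix.cons_val_one, MvPolynomial.aeval_X, map_neg, map_one] at h1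
    have h2 : ev (K := K) Y 1 = 1 := map_one _
    rw [h2] at h1
    rw [ev_map]
    linear_combination h1

end

end Pool.Agent.U534.SymH
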