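import Pool.Agent.U534.TensorSeq

/-!
# Infinite tensor products, over number fields and for all points of the fibres
-/

set_option autoImplicit false
set_option linter.unusedSectionVars false

namespace Pool.Agent.U534.Tens

/-- a nontrivial linear relation with coefficients in the `K`-span of `V` -/
def Rel {β : Type} [Fintype β] (K : IntermediateField ℚ ℂ) (V : Submodule ℚ ℂ) (x : β → ℂ) : Prop :=
  ∃ v : β → ℂ, (∀ b, v b ∈ Submodule.span K (V : Set ℂ)) ∧ v ≠ 0 ∧ ∑ b, v b * x b = 0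

theorem span_mul {K : IntermediateField ℚ ℂ} {V P : Submodule ℚ ℂ} {v p : ℂ} (hv : v ∈ Submodule.span K (V : Set ℂ))
    (hp : p ∈ P) : v * p ∈ Submodule.span K ((V * P : Submodule ℚ ℂ) : Set ℂ) := by
  induction hv using Submodule.span_induction with
  | mem v hv => exact Submodule.subset_span (Submodule.mul_mem_mul hv hp)
  | zero =>
    rw [zero_mul]
    exact Submodule.zero_mem _
  | add a b _ _ ha hb =>
    rw [add_mul]
    exact Submodule.add_mem _ ha hb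
  | smul c a _ ha =>
    rw [smul_mul_assoc]
    exact Submodule.smul_mem _ c ha

section
variable {τ : Type} {β : ℕ → Type} [∀ j, Fintype (β j)]

/-- the spaces generated by the products of the numbers before `j` -/
noncomputable def PU (U : ℕ → τ → Submodule ℚ ℂ) (t : ℕ → τ) : ℕ → Submodule ℚ ℂ
  | 0 => 1
  | j + 1 => PU U t j * U j (t j)

variable {U : ℕ → τ → Submodule ℚ ℂ} {t : ℕ → τ}

theorem PU_congr {t' : ℕ → τ} {j : ℕ} (h : ∀ i < j, t i = t' i) : PU U t j = PU U t' j := by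
  induction j with
  | zero => rfl
  | succ j ih =>
    show PU U t j * _ = PU U t' j * _
    rw [ih fun i hi => h i (by omega), h j (Nat.lt_succ_self j)]

theorem PU_fin (hU : ∀ j s, Module.Finite ℚ (U j s)) (j : ℕ) : Module.Finite ℚ (PU U t j) := by
  induction j with
  | zero =>
    show Module.Finite ℚ (1 : Submodule ℚ ℂ)
    rw [Submodule.one_eq_span]
    infer_instance
  | succ j ih =>
    have h2 := hU j (t j)
    exact (Pool.Agent.Y113.finrank_mul_le _ _).1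

theorem PU_one (hU1 : ∀ j s, (1 : ℂ) ∈ U j s) (j : ℕ) : (1 : ℂ) ∈ PU U t j := by
  induction j with
  | zero => exact Submodule.one_le.1 le_rfl
  | succ j ih =>
    have h2 := Submodule.mul_mem_mul ih (hU1 j (t j))
    rw [mul_one] at h2
    exact h2

theorem prod_mem2 (hU1 : ∀ j s, (1 : ℂ) ∈ U j s) {x : ∀ j, β j → ℂ} {M : ℕ → ℂ} (hM : ∀ j b, M j * x j b ∈ U j (t j))
    (l N : ℕ) (b : (i : Fin N) → β (l + i)) :
    (∏ i : Fin N, M (l + i)) * ∏ i : Fin N, x (l + i) (b i) ∈ PU U t (l + N) := by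
  induction N with
  | zero =>
    rw [Fin.prod_univ_zero, Fin.prod_univ_zero, mul_one]
    exact PU_one hU1 l
  | succ N ih =>
    rw [Fin.prod_univ_castSucc, Fin.prod_univ_castSucc, mul_mul_mul_comm]
    exact Submodule.mul_mem_mul (ih fun i => b i.castSucc) (hM _ _)

/-- **Independence of the products.** -/
theorem products2 (hU1 : ∀ j s, (1 : ℂ) ∈ U j s) {x : ∀ j, β j → ℂ} {M : ℕ → ℂ} (hM0 : ∀ j, M j ≠ 0)
    (hM : ∀ j b, M j * x j b ∈ U j (t j)) {V : ℕ → Submodule ℚ ℂ} (hV : Monotone V) {D : ℕ → ℕ} (hD : Monotone D)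
    (h : ∀ (j : ℕ) (K : IntermediateField ℚ ℂ), FiniteDimensional ℚ K → Module.finrank ℚ K ≤ D j →
      ¬ Rel K (V j * PU U t j) (x j)) (l N : ℕ) (K : IntermediateField ℚ ℂ) (hK : FiniteDimensional ℚ K)
    (hKD : Module.finrank ℚ K ≤ D l) :
    ¬ Rel K (V l) (fun b : (i : Fin N) → β (l + i) => ∏ i : Fin N, x (l + i) (b i)) := by
  induction N with
  | zero =>
    rintro ⟨v, -, h2, h3⟩
    apply h2
    funext b
    rw [Fintype.sum_unique] at h3
    beta_reduce at h3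
    rw [Fin.prod_univ_zero, mul_one] at h3
    rw [Subsingleton.elim b default, h3]
    rfl
  | succ N ih =>
    rintro ⟨v, h1, h2, h3⟩
    set e := Fin.snocEquiv (fun i : Fin (N + 1) => β (l + i)) with he
    have h4 : ∑ c : β (l + N), (∑ b : (i : Fin N) → β (l + i), v (e (c, b)) *
        ∏ i : Fin N, x (l + i) (b i)) * x (l + N) c = 0 := by
      rw [← h3, ← e.sum_comp, Fintype.sum_prod_type]
      refine Finset.sum_congr rfl fun c _ => ?_
      rw [Finset.sum_mul]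
      refine Finset.sum_congr rfl fun b _ => ?_
      beta_reduce
      rw [Fin.prod_univ_castSucc, mul_assoc]
      congr 2
      · refine Finset.prod_congr rfl fun i _ => ?_
        congr 1
        rw [he]
        simp [Fin.snocEquiv]
      · have : e (c, b) (Fin.last N) = c := by
          rw [he]
          simp [Fin.snocEquiv]
        rw [this]
        rfl
    set MM : ℂ := ∏ i : Fin N, M (l + i) with hMM
    have hMM0 : MM ≠ 0 := Finset.prod_ne_zero_iff.2 fun i _ => hM0 _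
    have h5 : ∀ c : β (l + N), ∑ b : (i : Fin N) → β (l + i), v (e (c, b)) *
        ∏ i : Fin N, x (l + i) (b i) = 0 := by
      by_contra hne
      push Not at hne
      obtain ⟨c, hc⟩ := hne
      refine h (l + N) K hK (hKD.trans (hD (Nat.le_add_right l N))) ⟨fun c => MM * ∑ b : (i : Fin N) → β (l + i), v (e (c, b)) *
        ∏ i : Fin N, x (l + i) (b i), fun c => ?_, fun h0 => mul_ne_zero hMM0 hc (congrFun h0 c), ?_⟩
      · beta_reduce
        rw [Finset.mul_sum]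
        refine Submodule.sum_mem _ fun b _ => ?_
        rw [mul_left_comm]
        exact span_mul (Submodule.span_mono (hV (Nat.le_add_right l N)) (h1 _)) (prod_mem2 hU1 hM l N b)
      · simp only [mul_assoc]
        rw [← Finset.mul_sum, h4, mul_zero]
    apply h2
    funext b
    obtain ⟨⟨c, b'⟩, rfl⟩ := e.surjective b
    by_contra hne
    exact ih ⟨fun b => v (e (c, b)), fun b => h1 _, fun h0 => hne (congrFun h0 b'), h5 c⟩

end

/-- **Main theorem, general form** -/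
theorem main2 {τ : Type} [Inhabited τ] {β : ℕ → Type} [∀ j, Fintype (β j)] {U : ℕ → τ → Submodule ℚ ℂ}
    (hUf : ∀ j s, Module.Finite ℚ (U j s)) (hU1 : ∀ j s, (1 : ℂ) ∈ U j s) (X : ∀ j, τ → Set (β j → ℂ))
    (R : ℕ → (ℕ → τ) → τ → Prop) (hR : ∀ j t t' s, (∀ i < j, t i = t' i) → R j t s → R j t' s)
    {V : ℕ → Submodule ℚ ℂ} (hVf : ∀ j, Module.Finite ℚ (V j)) (hV : Monotone V) {D : ℕ → ℕ} (hD : Monotone D)
    (hS : ∀ (j : ℕ) (t : ℕ → τ) (W : Submodule ℚ ℂ), Module.Finite ℚ W → ∃ s, R j t s ∧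
      (∀ x ∈ X j s, ∃ M : ℂ, M ≠ 0 ∧ ∀ b, M * x b ∈ U j s) ∧
      ∀ K : IntermediateField ℚ ℂ, FiniteDimensional ℚ K → Module.finrank ℚ K ≤ D j → ∀ x ∈ X j s, ¬ Rel K W x) :
    ∃ t : ℕ → τ, (∀ j, R j t (t j)) ∧ ∀ x : ∀ j, β j → ℂ, (∀ j, x j ∈ X j (t j)) → ∀ (l N : ℕ)
      (K : IntermediateField ℚ ℂ), FiniteDimensional ℚ K → Module.finrank ℚ K ≤ D l →
      ¬ Rel K (V l) (fun b : (i : Fin N) → β (l + i) => ∏ i : Fin N, x (l + i) (b i)) := by
  classical
  obtain ⟨t, ht⟩ := exists_seq (α := τ) (fun j t s => R j t s ∧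
      (∀ x ∈ X j s, ∃ M : ℂ, M ≠ 0 ∧ ∀ b, M * x b ∈ U j s) ∧
      ∀ K : IntermediateField ℚ ℂ, FiniteDimensional ℚ K → Module.finrank ℚ K ≤ D j → ∀ x ∈ X j s,
        ¬ Rel K (V j * PU U t j) x)
    (by
      rintro j t t' s htt ⟨h3, h4, h6⟩
      refine ⟨hR j t t' s htt h3, h4, ?_⟩
      rw [← PU_congr htt]
      exact h6)
    (by
      intro j t
      have h1 := hVf j
      have h2 := PU_fin (t := t) hUf j
      exact hS j t _ (Pool.Agent.Y113.finrank_mul_le (V j) (PU U t j)).1)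
  refine ⟨t, fun j => (ht j).1, fun x hx => ?_⟩
  choose M hM0 hM using fun j => (ht j).2.1 (x j) (hx j)
  exact products2 hU1 hM0 hM hV hD fun j K hK hKD => (ht j).2.2 K hK hKD (x j) (hx j)

/-- few exceptions in short windows, for all number fields of bounded degree -/
def WinK {β : Type} [Fintype β] (X : ℕ → Set (β → ℂ)) : Prop :=
  ∀ d D : ℕ, ∃ E M : ℕ, ∀ H t : ℕ, (H + 2) ^ E ≤ t → ∀ V : Submodule ℚ ℂ, Module.Finite ℚ V → Module.finrank ℚ V ≤ d →
    ∃ S : Finset ℕ, S.card ≤ M ∧ ∀ u : ℕ, t ≤ u + H → u ≤ t → u ∉ S → ∀ K : IntermediateField ℚ ℂ,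
      FiniteDimensional ℚ K → Module.finrank ℚ K ≤ D → ∀ x ∈ X u, ¬ Rel K V x

theorem avail {β : Type} [Fintype β] {X : ℕ → Set (β → ℂ)} (hX : WinK X) {A : Set ℕ} (hA : Clustered A) (D N : ℕ)
    (W : Submodule ℚ ℂ) (hW : Module.Finite ℚ W) : ∃ s ∈ A, N < s ∧ ∀ K : IntermediateField ℚ ℂ,
      FiniteDimensional ℚ K → Module.finrank ℚ K ≤ D → ∀ x ∈ X s, ¬ Rel K W x := by
  classical
  obtain ⟨E, M, hEM⟩ := hX (Module.finrank ℚ W) D
  obtain ⟨H, t, hs1, hs2, hs3⟩ := hA E M N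
  obtain ⟨S, hS, hS2⟩ := hEM H t hs1 W hW le_rfl
  have hfin : (A ∩ Set.Icc (t - H) t).Finite := (Set.finite_Icc _ _).subset Set.inter_subset_right
  have hex : ∃ u ∈ A ∩ Set.Icc (t - H) t, u ∉ S := by
    by_contra hcon
    push Not at hcon
    have h4 : hfin.toFinset ⊆ S := fun u hu => hcon u (hfin.mem_toFinset.1 hu)
    have h5 := Finset.card_le_card h4
    rw [← Set.ncard_eq_toFinset_card _ hfin] at h5
    omega
  obtain ⟨u, ⟨huA, hu1, hu2⟩, hu3⟩ := hex
  exact ⟨u, huA, by omega, hS2 u (by omega) hu2 hu3⟩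

/-- **Main theorem, for integers in clustered sets** -/
theorem main3 {β : ℕ → Type} [∀ j, Fintype (β j)] {U : ℕ → ℕ → Submodule ℚ ℂ}
    (hUf : ∀ j s, Module.Finite ℚ (U j s)) (hU1 : ∀ j s, (1 : ℂ) ∈ U j s) (X : ∀ j, ℕ → Set (β j → ℂ)) (T : ℕ → ℕ)
    (hXU : ∀ j s, T j ≤ s → ∀ x ∈ X j s, ∃ M : ℂ, M ≠ 0 ∧ ∀ b, M * x b ∈ U j s)
    (hX : ∀ j, WinK (X j)) {A : ℕ → Set ℕ} (hA : ∀ j, Clustered (A j))
    {V : ℕ → Submodule ℚ ℂ} (hVf : ∀ j, Module.Finite ℚ (V j)) (hV : Monotone V) {D : ℕ → ℕ} (hD : Monotone D) :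
    ∃ t : ℕ → ℕ, StrictMono t ∧ (∀ j, t j ∈ A j) ∧ ∀ x : ∀ j, β j → ℂ, (∀ j, x j ∈ X j (t j)) → ∀ (l N : ℕ)
      (K : IntermediateField ℚ ℂ), FiniteDimensional ℚ K → Module.finrank ℚ K ≤ D l →
      ¬ Rel K (V l) (fun b : (i : Fin N) → β (l + i) => ∏ i : Fin N, x (l + i) (b i)) := by
  classical
  obtain ⟨t, h1, h2⟩ := main2 (τ := ℕ) hUf hU1 X (fun j t s => s ∈ A j ∧ ∀ i < j, t i < s)
    (by
      rintro j t t' s htt ⟨h3, h4⟩
      refine ⟨h3, fun i hi => ?_⟩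
      rw [← htt i hi]
      exact h4 i hi) hVf hV hD
    (by
      intro j t W hW
      set X0 := (∑ i ∈ Finset.range j, t i) + T j with hX0
      obtain ⟨s, hs1, hs2, hs3⟩ := avail (hX j) (hA j) (D j) X0 W hW
      refine ⟨s, ⟨hs1, fun i hi => ?_⟩, hXU j s (by omega), hs3⟩
      have h1 : t i ≤ ∑ i ∈ Finset.range j, t i :=
        Finset.single_le_sum (f := t) (fun _ _ => Nat.zero_le _) (Finset.mem_range.2 hi)
      omega)
  exact ⟨t, strictMono_nat_of_lt_succ fun j => (h1 (j + 1)).2 j (Nat.lt_succ_self j), fun j => (h1 j).1, h2⟩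

end Pool.Agent.U534.Tens
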