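import Pool.Agent.U534.UnivFlat

/-!
# Adding one block after the other
-/

set_option autoImplicit false
set_option linter.unusedSectionVars false

open Matrix

namespace Pool.Agent.U534.Univ

open Pool.Agent.TH127.PT Pool.Agent.Y118.HP Pool.Agent.Y123.ST Pool.Agent.Y123.SR

variable {B₀ : Type} [Fintype B₀] [DecidableEq B₀] {K : Subfield ℂ}

theorem ES_unit {k : ℕ} {n : Fin k → ℕ} {x : Matrix B₀ B₀ ℂ} (hx : IsUnit x)
    {X : ∀ i, Matrix (Fin (n i)) (Fin (n i)) ℂ} (hX : ∀ i, IsUnit (X i).det) : IsUnit (ES x X) := by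
  have h1 : ES x X * ES x⁻¹ (fun i => (X i)⁻¹) = 1 := by
    unfold ES
    rw [fromBlocks_multiply, ← blockDiagonal'_mul, mul_nonsing_inv _ ((Matrix.isUnit_iff_isUnit_det x).1 hx),
      show (fun i => X i * (X i)⁻¹) = (1 : ∀ i, Matrix (Fin (n i)) (Fin (n i)) ℂ) from
        funext fun i => mul_nonsing_inv _ (hX i), blockDiagonal'_one]
    simp
  exact IsUnit.of_mul_eq_one _ h1

theorem Rs_det {k : ℕ} {n : Fin k → ℕ} (hn : ∀ i, Even (n i)) {Q X : ∀ i, Matrix (Fin (n i)) (Fin (n i)) ℂ} {μ : ℂ}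
    (h : Rs Q X μ) (i : Fin k) : IsUnit (X i).det := (tor_det (hn i) h.1 (h.2 i)).1

theorem cm_ES {k : ℕ} {n : Fin k → ℕ} {b₀ : B₀} {x : Matrix B₀ B₀ ℂ} (hx : Cm b₀ x)
    (X : ∀ i, Matrix (Fin (n i)) (Fin (n i)) ℂ) : Cm (Sum.inl b₀) (ES x X) := by
  rintro (b | q) hb
  · exact hx b fun h => hb (by rw [h])
  · exact ⟨rfl, rfl⟩

theorem ES_00 {k : ℕ} {n : Fin k → ℕ} (b₀ : B₀) (x : Matrix B₀ B₀ ℂ)
    (X : ∀ i, Matrix (Fin (n i)) (Fin (n i)) ℂ) : (ES x X) (Sum.inl b₀) (Sum.inl b₀) = x b₀ b₀ := rfl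

theorem cm_of_ES {k : ℕ} {n : Fin k → ℕ} {b₀ : B₀} {x : Matrix B₀ B₀ ℂ}
    {X : ∀ i, Matrix (Fin (n i)) (Fin (n i)) ℂ} (hx : Cm (Sum.inl b₀) (ES x X)) : Cm b₀ x := by
  intro b hb
  exact hx (Sum.inl b) fun h => hb (Sum.inl_injective h)

/-- append a block -/
noncomputable def sn {k : ℕ} {n : Fin (k + 1) → ℕ} (X : ∀ i : Fin k, Matrix (Fin (n i.castSucc)) (Fin (n i.castSucc)) ℂ)
    (Y : Matrix (Fin (n (Fin.last k))) (Fin (n (Fin.last k))) ℂ) : ∀ i, Matrix (Fin (n i)) (Fin (n i)) ℂ :=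
  Fin.snoc (α := fun i => Matrix (Fin (n i)) (Fin (n i)) ℂ) X Y

theorem eqv_sn {k : ℕ} {n : Fin (k + 1) → ℕ} (x : Matrix B₀ B₀ ℂ)
    (X : ∀ i : Fin k, Matrix (Fin (n i.castSucc)) (Fin (n i.castSucc)) ℂ)
    (Y : Fin 1 → Matrix (Fin (n (Fin.last k))) (Fin (n (Fin.last k))) ℂ) :
    Matrix.reindex (eqv B₀ n) (eqv B₀ n) (E2 (ES x X) Y) = ES x (sn X (Y 0)) := by
  rw [← eqv_ES]
  congr 3
  · funext i
    unfold sn
    rw [Fin.snoc_castSucc]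
  · funext j
    unfold sn
    rw [Fin.snoc_last, Subsingleton.elim j 0]

theorem fs_iff {k : ℕ} {n : Fin (k + 1) → ℕ} (Q : ∀ i, Matrix (Fin (n i)) (Fin (n i)) ℂ) (b₀ : B₀)
    (S : Set (Matrix B₀ B₀ ℂ)) (y : Matrix (I2 (JX B₀ (fun i : Fin k => n i.castSucc)) (n (Fin.last k)) 1)
      (I2 (JX B₀ (fun i : Fin k => n i.castSucc)) (n (Fin.last k)) 1) ℂ) :
    Matrix.reindex (eqv B₀ n) (eqv B₀ n) y ∈ FS Q b₀ S ↔
      y ∈ FP (fun _ => Q (Fin.last k)) (Sum.inl b₀) (FS (fun i : Fin k => Q i.castSucc) b₀ S) := by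
  constructor
  · rintro ⟨x, X, h1, h2, h3, h4⟩
    rw [← eqv_ES] at h4
    have h5 := (Matrix.reindex (eqv B₀ n) (eqv B₀ n)).injective h4
    refine ⟨ES x fun i : Fin k => X i.castSucc, fun _ => X (Fin.last k), ⟨x, _, h1, h2, ⟨h3.1, fun i => h3.2 _⟩, rfl⟩,
      cm_ES h2 _, ?_, h5⟩
    rw [ES_00]
    exact ⟨h3.1, fun _ => h3.2 _⟩
  · rintro ⟨z, Y, ⟨x, X, h1, h2, h3, rfl⟩, h4, h5, rfl⟩
    rw [eqv_sn]
    refine ⟨x, sn X (Y 0), h1, h2, ⟨h3.1, fun i => ?_⟩, rfl⟩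
    rw [ES_00] at h5
    induction i using Fin.lastCases with
    | last =>
      unfold sn
      rw [Fin.snoc_last]
      exact h5.2 0
    | cast i =>
      unfold sn
      rw [Fin.snoc_castSucc]
      exact h3.2 i

/-- the bijection for no blocks -/
def e00 (B₀ : Type) (n : Fin 0 → ℕ) : JX B₀ n ≃ I2 B₀ 0 0 :=
  (Equiv.refl B₀).sumCongr (Equiv.equivOfIsEmpty _ _)

theorem e00_ES (n : Fin 0 → ℕ) (x : Matrix B₀ B₀ ℂ) (X : ∀ i : Fin 0, Matrix (Fin (n i)) (Fin (n i)) ℂ)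
    (Y : Fin 0 → Matrix (Fin 0) (Fin 0) ℂ) : Matrix.reindex (e00 B₀ n) (e00 B₀ n) (ES x X) = E2 x Y := by
  ext p q
  rcases p with b | q1
  · rcases q with b' | q2
    · rfl
    · exact q2.1.elim0
  · exact q1.1.elim0

theorem fs_sub : ∀ (k : ℕ) (n : Fin k → ℕ) (_ : ∀ i, Even (n i)) (Q : ∀ i, Matrix (Fin (n i)) (Fin (n i)) ℂ)
    (_ : ∀ i a b, Q i a b ∈ K) (b₀ : B₀) (S : Set (Matrix B₀ B₀ ℂ)), IsSubtorsor K S → IsSubtorsor K (FS Q b₀ S) := by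
  intro k
  induction k with
  | zero =>
    intro n hn Q hQ b₀ S hS
    have h1 := fp_sub (K := K) (n := 0) (N := 0) Even.zero (Q := fun _ => 0) (fun j => j.elim0) b₀ hS
    have h2 := sub_reindex (e00 B₀ n) h1
    have h3 : {y : Matrix (JX B₀ n) (JX B₀ n) ℂ | Matrix.reindex (e00 B₀ n) (e00 B₀ n) y ∈
        FP (fun _ : Fin 0 => (0 : Matrix (Fin 0) (Fin 0) ℂ)) b₀ S} = FS Q b₀ S := by
      ext y
      constructor
      · rintro ⟨x, Y, h4, h5, h6, h7⟩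
        rw [← e00_ES n x (fun i => i.elim0) Y] at h7
        exact ⟨x, fun i => i.elim0, h4, h5, ⟨h6.1, fun i => i.elim0⟩, (Matrix.reindex _ _).injective h7⟩
      · rintro ⟨x, X, h4, h5, h6, rfl⟩
        exact ⟨x, fun i => i.elim0, h4, h5, ⟨h6.1, fun i => i.elim0⟩, e00_ES n x X _⟩
    rw [← h3]
    exact h2
  | succ k ih =>
    intro n hn Q hQ b₀ S hS
    have h1 := ih (fun i => n i.castSucc) (fun i => hn _) (fun i => Q i.castSucc) (fun i => hQ _) b₀ S hS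
    have h2 := fp_sub (K := K) (N := 1) (hn (Fin.last k)) (Q := fun _ => Q (Fin.last k)) (fun _ => hQ _)
      (Sum.inl b₀) h1
    have h3 := sub_reindex (eqv B₀ n).symm h2
    have h4 : {z : Matrix (JX B₀ n) (JX B₀ n) ℂ | Matrix.reindex (eqv B₀ n).symm (eqv B₀ n).symm z ∈
        FP (fun _ : Fin 1 => Q (Fin.last k)) (Sum.inl b₀) (FS (fun i : Fin k => Q i.castSucc) b₀ S)} = FS Q b₀ S := by
      ext z
      rw [Set.mem_setOf_eq, ← fs_iff]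
      have h5 : Matrix.reindex (eqv B₀ n) (eqv B₀ n) (Matrix.reindex (eqv B₀ n).symm (eqv B₀ n).symm z) = z := by
        rw [← Matrix.reindex_symm]
        exact Equiv.apply_symm_apply _ _
      rw [h5]
    rw [← h4]
    exact h3

theorem units_mem {k : ℕ} {n : Fin k → ℕ} (hn : ∀ i, Even (n i)) {Q : ∀ i, Matrix (Fin (n i)) (Fin (n i)) ℂ} {b₀ : B₀}
    {y : Matrix (JX B₀ n) (JX B₀ n) ℂ} (hy : y ∈ FS Q b₀ {x | IsUnit x}) : IsUnit y := by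
  obtain ⟨x, X, h1, h2, h3, rfl⟩ := hy
  exact ES_unit h1 (Rs_det hn h3)

/-- all subtorsors are fibre products -/
def AllS (K : Subfield ℂ) (b₀ : B₀) (c₀ : Matrix B₀ B₀ ℂ) {k : ℕ} {n : Fin k → ℕ}
    (Q c : ∀ i, Matrix (Fin (n i)) (Fin (n i)) ℂ) : Prop :=
  ∀ T : Set (Matrix (JX B₀ n) (JX B₀ n) ℂ), IsSubtorsor K T → ES c₀ c ∈ T → T ⊆ FS Q b₀ {x | IsUnit x} →
    IsSubtorsor K (PS T) ∧ T = FS Q b₀ (PS T)

/-- all subtorsors for one more block are fibre products -/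
def Ext (K : Subfield ℂ) (b₀ : B₀) (c₀ : Matrix B₀ B₀ ℂ) {n : ℕ} (Q c : Matrix (Fin n) (Fin n) ℂ) : Prop :=
  ∀ T : Set (Matrix (I2 B₀ n 1) (I2 B₀ n 1) ℂ), IsSubtorsor K T → E2 c₀ (fun _ => c) ∈ T →
    T ⊆ FP (fun _ => Q) b₀ {x | IsUnit x} →
    IsSubtorsor K {x : Matrix B₀ B₀ ℂ | ∃ X, E2 x X ∈ T} ∧
      T = FP (fun _ => Q) b₀ {x : Matrix B₀ B₀ ℂ | ∃ X, E2 x X ∈ T}

/-- the bijection for no blocks -/
def e0 (B₀ : Type) (n : Fin 0 → ℕ) : B₀ ≃ JX B₀ n := (Equiv.sumEmpty B₀ (Σ i : Fin 0, Fin (n i))).symm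

theorem e0_ES (n : Fin 0 → ℕ) (x : Matrix B₀ B₀ ℂ) (X : ∀ i : Fin 0, Matrix (Fin (n i)) (Fin (n i)) ℂ) :
    Matrix.reindex (e0 B₀ n) (e0 B₀ n) x = ES x X := by
  ext p q
  rcases p with b | q1
  · rcases q with b' | q2
    · rfl
    · exact q2.1.elim0
  · exact q1.1.elim0

theorem all_zero (K : Subfield ℂ) (b₀ : B₀) (c₀ : Matrix B₀ B₀ ℂ) {n : Fin 0 → ℕ}
    (Q c : ∀ i, Matrix (Fin (n i)) (Fin (n i)) ℂ) : AllS K b₀ c₀ Q c := by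
  intro T hT hcT hTF
  have h1 : PS T = {x | Matrix.reindex (e0 B₀ n) (e0 B₀ n) x ∈ T} := by
    ext x
    constructor
    · rintro ⟨X, hX⟩
      show Matrix.reindex (e0 B₀ n) (e0 B₀ n) x ∈ T
      rw [e0_ES n x X]
      exact hX
    · intro hx
      refine ⟨fun i => i.elim0, ?_⟩
      rw [← e0_ES n x]
      exact hx
  refine ⟨by rw [h1]; exact sub_reindex (e0 B₀ n) hT, Set.Subset.antisymm (fun y hy => ?_) ?_⟩
  · obtain ⟨x, X, h2, h3, h4, rfl⟩ := hTF hy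
    exact ⟨x, X, ⟨X, hy⟩, h3, h4, rfl⟩
  · rintro _ ⟨x, X, ⟨X', h2⟩, h3, h4, rfl⟩
    rw [Subsingleton.elim X X']
    exact h2

theorem all_succ {K : Subfield ℂ} {b₀ : B₀} {c₀ : Matrix B₀ B₀ ℂ} {k : ℕ} {n : Fin (k + 1) → ℕ} (hn : ∀ i, Even (n i))
    {Q c : ∀ i, Matrix (Fin (n i)) (Fin (n i)) ℂ}
    (h : AllS K b₀ c₀ (fun i : Fin k => Q i.castSucc) (fun i : Fin k => c i.castSucc))
    (hE : Ext K (Sum.inl b₀) (ES c₀ fun i : Fin k => c i.castSucc) (Q (Fin.last k)) (c (Fin.last k))) :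
    AllS K b₀ c₀ Q c := by
  intro T hT hcT hTF
  set T' : Set (Matrix (I2 (JX B₀ (fun i : Fin k => n i.castSucc)) (n (Fin.last k)) 1)
      (I2 (JX B₀ (fun i : Fin k => n i.castSucc)) (n (Fin.last k)) 1) ℂ) :=
    {y | Matrix.reindex (eqv B₀ n) (eqv B₀ n) y ∈ T} with hT'
  have hT's : IsSubtorsor K T' := sub_reindex (eqv B₀ n) hT
  have hcT' : E2 (ES c₀ fun i : Fin k => c i.castSucc) (fun _ => c (Fin.last k)) ∈ T' := by
    show Matrix.reindex _ _ _ ∈ T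
    rw [eqv_ES]
    exact hcT
  have hT'F : T' ⊆ FP (fun _ => Q (Fin.last k)) (Sum.inl b₀) (FS (fun i : Fin k => Q i.castSucc) b₀ {x | IsUnit x}) :=
    fun y hy => (fs_iff Q b₀ _ y).1 (hTF hy)
  obtain ⟨h1, h2⟩ := hE T' hT's hcT' (by
    intro y hy
    obtain ⟨z, Y, h3, h4, h5, rfl⟩ := hT'F hy
    exact ⟨z, Y, units_mem (fun i => hn _) h3, h4, h5, rfl⟩)
  set P := {x : Matrix (JX B₀ (fun i : Fin k => n i.castSucc)) (JX B₀ (fun i : Fin k => n i.castSucc)) ℂ |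
    ∃ X, E2 x X ∈ T'} with hP
  have hPF : P ⊆ FS (fun i : Fin k => Q i.castSucc) b₀ {x | IsUnit x} := by
    rintro z ⟨Y, hY⟩
    obtain ⟨z', Y', h3, h4, h5, h6⟩ := hT'F hY
    obtain ⟨h7, -⟩ := E2_inj h6
    rw [h7]
    exact h3
  obtain ⟨h3, h4⟩ := h P h1 ⟨_, hcT'⟩ hPF
  have h5 : PS T = PS P := by
    ext x
    constructor
    · rintro ⟨X, hX⟩
      refine ⟨fun i => X i.castSucc, fun _ => X (Fin.last k), ?_⟩
      show Matrix.reindex _ _ _ ∈ T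
      rw [eqv_ES]
      exact hX
    · rintro ⟨X, Y, hY⟩
      refine ⟨sn X (Y 0), ?_⟩
      rw [← eqv_sn]
      exact hY
  rw [h5]
  refine ⟨h3, ?_⟩
  ext z
  have h6 : Matrix.reindex (eqv B₀ n) (eqv B₀ n) (Matrix.reindex (eqv B₀ n).symm (eqv B₀ n).symm z) = z := by
    rw [← Matrix.reindex_symm]
    exact Equiv.apply_symm_apply _ _
  rw [← h6, fs_iff, ← h4, ← h2]
  rfl

/-- the smallest subtorsor -/
theorem om_flat {b₀ : B₀} {c₀ : Matrix B₀ B₀ ℂ} {k : ℕ} {n : Fin k → ℕ} (hn : ∀ i, Even (n i))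
    {Q c : ∀ i, Matrix (Fin (n i)) (Fin (n i)) ℂ} (hQ : ∀ i a b, Q i a b ∈ K) (hu : IsUnit c₀)
    (hcm : Cm b₀ c₀) (htor : Rs Q c (c₀ b₀ b₀)) (h : AllS K b₀ c₀ Q c)
    {Ω₀ : Set (Matrix B₀ B₀ ℂ)} (hΩ : Om K c₀ Ω₀) : Om K (ES c₀ c) (FS Q b₀ Ω₀) := by
  obtain ⟨hΩ1, hΩ2, hΩ3⟩ := hΩ
  refine ⟨?_, ⟨c₀, c, hΩ2, hcm, htor, rfl⟩, fun T hT hcT => ?_⟩
  · rw [subT_iff]
    exact fs_sub k n hn Q hQ b₀ _ (subT_iff.1 hΩ1)
  · have hI := inter_sub (fs_sub (K := K) k n hn Q hQ b₀ _ (units_sub (B₀ := B₀))) (subT_iff.1 hT)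
    have hcI : ES c₀ c ∈ FS Q b₀ {x | IsUnit x} ∩ T := ⟨⟨c₀, c, hu, hcm, htor, rfl⟩, hcT⟩
    obtain ⟨h1, h2⟩ := h _ hI hcI Set.inter_subset_left
    have h3 := hΩ3 _ (subT_iff.2 h1) ⟨c, hcI⟩
    rintro _ ⟨x, X, h4, h5, h6, rfl⟩
    have h7 : ES x X ∈ FS Q b₀ (PS (FS Q b₀ {x | IsUnit x} ∩ T)) := ⟨x, X, h3 h4, h5, h6, rfl⟩
    rw [← h2] at h7
    exact h7.2

end Pool.Agent.U534.Univ
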