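import Pool.Agent.U534.BlockSeq

/-!
# Almost full windows of integers

A family of numbers attached to the integers `t`, with few exceptions in short windows, is independent on a set which
contains almost all elements of arbitrarily long windows.
-/

set_option autoImplicit false
set_option linter.unusedSectionVars false

namespace Pool.Agent.U534.Tens

/-- `A` is clustered: for all `E`, `M`, `N` there is a window `[a, a + H]` of integers of absolute value at least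
`(H + 2) ^ E + N` which contains more than `M` elements of `A` -/
def ClusteredZ (A : Set ℤ) : Prop :=
  ∀ E M N : ℕ, ∃ (a : ℤ) (H : ℕ), (∀ t ∈ Set.Icc a (a + H), ((H : ℤ) + 2) ^ E + N ≤ |t|) ∧ M < (A ∩ Set.Icc a (a + H)).ncard

/-- windows with a given number of elements of `A` -/
theorem exact_window (A : Set ℤ) (a : ℤ) (m : ℕ) (hm : 1 ≤ m) (H : ℕ) (h : m ≤ (A ∩ Set.Icc a (a + H)).ncard) :
    ∃ h ≤ H, (A ∩ Set.Icc a (a + h)).ncard = m := by
  classical
  induction H with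
  | zero =>
    refine ⟨0, le_rfl, le_antisymm ?_ h⟩
    have h1 : (A ∩ Set.Icc a (a + (0 : ℕ))).ncard ≤ ({a} : Set ℤ).ncard := by
      refine Set.ncard_le_ncard ?_ (Set.finite_singleton a)
      rintro x ⟨-, hx1, hx2⟩
      simp only [Nat.cast_zero, add_zero] at hx2
      exact le_antisymm hx2 hx1
    rw [Set.ncard_singleton] at h1
    omega
  | succ H ih =>
    by_cases h0 : (A ∩ Set.Icc a (a + (H + 1 : ℕ))).ncard = m
    · exact ⟨H + 1, le_rfl, h0⟩
    · have h1 : (A ∩ Set.Icc a (a + (H + 1 : ℕ))).ncard ≤ (A ∩ Set.Icc a (a + H)).ncard + 1 := by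
        have h2 : A ∩ Set.Icc a (a + (H + 1 : ℕ)) ⊆ insert (a + (H + 1 : ℕ)) (A ∩ Set.Icc a (a + H)) := by
          rintro x ⟨hxA, hx1, hx2⟩
          by_cases hx3 : x = a + (H + 1 : ℕ)
          · exact Or.inl hx3
          · refine Or.inr ⟨hxA, hx1, ?_⟩
            push_cast at hx2 hx3
            omega
        have h3 : (A ∩ Set.Icc a (a + H)).Finite := (Set.finite_Icc _ _).subset Set.inter_subset_right
        exact (Set.ncard_le_ncard h2 (h3.insert _)).trans (Set.ncard_insert_le _ _)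
      obtain ⟨h2, h3, h4⟩ := ih (by omega)
      exact ⟨h2, by omega, h4⟩

section univ
variable {α : Type} [Fintype α] [DecidableEq α]

/-- **Main theorem for families indexed by the integers.** -/
theorem universal (Y : ℤ → Set (α → ℂ)) (U : ℕ → ℤ → Submodule ℚ ℂ) (hUf : ∀ δ t, Module.Finite ℚ (U δ t))
    (hU1 : ∀ δ t, (1 : ℂ) ∈ U δ t) (u : ℕ → ℕ) (hu : ∀ δ t, Module.finrank ℚ (U δ t) ≤ u δ)
    (hUY : ∀ δ : ℕ, ∃ T : ℕ, ∀ t : ℤ, (T : ℤ) ≤ |t| → ∀ y ∈ Y t, ∃ m : ℂ, m ≠ 0 ∧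
      ∀ e : α → Fin (δ + 1), m * ∏ a, y a ^ (e a : ℕ) ∈ U δ t)
    (hwin : ∀ q k δ : ℕ, ∃ E : ℕ, ∀ (a : ℤ) (H : ℕ), (∀ t ∈ Set.Icc a (a + H), ((H : ℤ) + 2) ^ E ≤ |t|) →
      ∀ W : Submodule ℚ ℂ, Module.Finite ℚ W → Module.finrank ℚ W ≤ q → ∃ S : Finset ℤ, S.card ≤ q + 2 ∧
      ∀ n : Fin k → ℤ, Function.Injective n → (∀ κ, n κ ∈ Set.Icc a (a + H) ∧ n κ ∉ S) →
      ∀ K : IntermediateField ℚ ℂ, FiniteDimensional ℚ K → Module.finrank ℚ K ≤ δ →
      ∀ y : Fin k → α → ℂ, (∀ κ, y κ ∈ Y (n κ)) → ¬ Rel K W (mon δ y))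
    {A : ℕ → Set ℤ} (hA : ∀ j, ClusteredZ (A j)) {V : ℕ → Submodule ℚ ℂ} (hVf : ∀ j, Module.Finite ℚ (V j))
    (hV : Monotone V) {δ : ℕ → ℕ} (hδ : Monotone δ) :
    ∃ (a b : ℕ → ℤ) (T : ℕ → Finset ℤ),
      (∀ j, (∀ t ∈ Set.Icc (a j) (b j), (j : ℤ) ≤ |t|) ∧ (T j : Set ℤ) ⊆ A j ∩ Set.Icc (a j) (b j) ∧ j ≤ (T j).card ∧
        (j + 1) * ((A j ∩ Set.Icc (a j) (b j)) \ T j).ncard ≤ (A j ∩ Set.Icc (a j) (b j)).ncard) ∧
      (∀ i j, i ≠ j → Disjoint (T i) (T j)) ∧
      ∀ y : ℤ → α → ℂ, (∀ j, ∀ t ∈ T j, y t ∈ Y t) →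
      ∀ (l : ℕ) (K : IntermediateField ℚ ℂ), FiniteDimensional ℚ K → Module.finrank ℚ K ≤ δ l →
      ∀ P : MvPolynomial (ℤ × α) ℂ, P ≠ 0 → (∀ v ∈ P.vars, ∃ j ≥ l, v.1 ∈ T j) →
        (∀ v, P.degreeOf v ≤ δ l) → (∀ s, P.coeff s ∈ Submodule.span K (V l : Set ℂ)) →
        MvPolynomial.eval (fun v => y v.1 v.2) P ≠ 0 := by
  classical
  -- the sizes of the blocks
  set qf : (ℕ → ℕ) → ℕ → ℕ := fun k j => Module.finrank ℚ (V j) * ∏ i ∈ Finset.range j, u (δ i) ^ k i with hqf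
  set mf : (ℕ → ℕ) → ℕ → ℕ := fun k j => (j + 1) * (qf k j + 2) + j with hmf
  obtain ⟨k, hk⟩ := exists_seq (α := ℕ) (fun j k x => x = mf k j - (qf k j + 2))
    (by
      intro j k k' x hkk hx
      have h1 : qf k j = qf k' j := by
        rw [hqf]
        beta_reduce
        congr 1
        exact Finset.prod_congr rfl fun i hi => by rw [hkk i (Finset.mem_range.1 hi)]
      have h2 : mf k j = mf k' j := by
        rw [hmf]
        beta_reduce
        rw [h1]
      rw [← h1, ← h2]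
      exact hx)
    (fun j k => ⟨_, rfl⟩)
  have hmk : ∀ j, mf k j = k j + (qf k j + 2) := by
    intro j
    have h1 := hk j
    have h2 : qf k j + 2 ≤ mf k j := by
      show qf k j + 2 ≤ (j + 1) * (qf k j + 2) + j
      nlinarith
    omega
  have hkj : ∀ j, j ≤ k j := by
    intro j
    have h1 := hmk j
    have h2 : mf k j = (j + 1) * (qf k j + 2) + j := rfl
    have h3 : (j + 1) * (qf k j + 2) = j * (qf k j + 2) + (qf k j + 2) := by ring
    rw [h2, h3] at h1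
    omega
  have hm1 : ∀ j, 1 ≤ mf k j := by
    intro j
    have := hmk j
    omega
  set R : ℕ → (ℕ → ℕ → ℤ) → (ℕ → ℤ) → Prop := fun j t s => ∃ a b : ℤ, (∀ x ∈ Set.Icc a b, (j : ℤ) ≤ |x| ∧ ∀ i < j, ∀ κ < k i, |t i κ| < |x|) ∧
    (∀ κ < k j, s κ ∈ A j ∩ Set.Icc a b) ∧ (∀ κ < k j, ∀ κ' < k j, s κ = s κ' → κ = κ') ∧
    (A j ∩ Set.Icc a b).ncard = mf k j with hR
  obtain ⟨t, ht1, ht2⟩ := blocks (ι := ℤ) (α := α) (k := k) hδ (fun _ => Y) (U := fun j t => U (δ j) t) (fun j t => hUf _ t)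
    (fun j t => hU1 _ t) (u := fun j => u (δ j)) (fun j t => hu _ t) hVf hV R
    (by
      rintro j t t' s htt ⟨a, b, h1, h2, h3, h4⟩
      refine ⟨a, b, fun x hx => ⟨(h1 x hx).1, fun i hi κ hκ => ?_⟩, h2, h3, h4⟩
      rw [← htt i hi]
      exact (h1 x hx).2 i hi κ hκ)
    (by
      rintro t ht ⟨j, κ⟩ ⟨j', κ'⟩ h
      have h' : t j κ = t j' κ' := h
      have key : ∀ (i i' : ℕ) (κ : Fin (k i)) (κ' : Fin (k i')), i < i' → t i κ ≠ t i' κ' := by
        intro i i' κ κ' hi he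
        obtain ⟨a, b, h1, h2, h3, h4⟩ := ht i'
        have h5 := (h1 _ (h2 κ' κ'.2).2).2 i hi κ κ.2
        rw [he] at h5
        exact lt_irrefl _ h5
      rcases lt_trichotomy j j' with hj | hj | hj
      · exact absurd h' (key _ _ _ _ hj)
      · subst hj
        obtain ⟨a, b, h1, h2, h3, h4⟩ := ht j
        rw [Fin.ext (h3 κ κ.2 κ' κ'.2 h')]
      · exact absurd h'.symm (key _ _ _ _ hj))
    (by
      intro j t W hW hWd
      obtain ⟨T0, hT0⟩ := hUY (δ j)
      obtain ⟨E, hE⟩ := hwin (qf k j) (k j) (δ j)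
      set X0 : ℕ := (∑ i ∈ Finset.range j, ∑ κ ∈ Finset.range (k i), (t i κ).natAbs) + T0 + j with hX0
      obtain ⟨a, H, haH, hcard⟩ := hA j E (mf k j) X0
      obtain ⟨h, hh, hmh⟩ := exact_window (A j) a (mf k j) (hm1 j) H hcard.le
      have hsub : Set.Icc a (a + h) ⊆ Set.Icc a (a + H) := Set.Icc_subset_Icc le_rfl (by
        have : (h : ℤ) ≤ H := by exact_mod_cast hh
        omega)
      have hbig : ∀ x ∈ Set.Icc a (a + h), ((h : ℤ) + 2) ^ E ≤ |x| ∧ (X0 : ℤ) ≤ |x| := by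
        intro x hx
        have h1 := haH x (hsub hx)
        have h2 : ((h : ℤ) + 2) ^ E ≤ ((H : ℤ) + 2) ^ E := by
          have : (h : ℤ) ≤ H := by exact_mod_cast hh
          exact pow_le_pow_left₀ (by positivity) (by omega) _
        have h3 : 0 ≤ ((H : ℤ) + 2) ^ E := by positivity
        constructor <;> [skip; skip] <;> omega
      obtain ⟨S, hS1, hS2⟩ := hE a h (fun x hx => (hbig x hx).1) W hW hWd
      have hfin : (A j ∩ Set.Icc a (a + h)).Finite := (Set.finite_Icc _ _).subset Set.inter_subset_right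
      have hc1 : hfin.toFinset.card = mf k j := by
        rw [← Set.ncard_eq_toFinset_card _ hfin, hmh]
      have hc2 : k j ≤ (hfin.toFinset \ S).card := by
        have h1 := Finset.le_card_sdiff S hfin.toFinset
        have h2 := hmk j
        omega
      obtain ⟨B, hB1, hB2⟩ := Finset.exists_subset_card_eq hc2
      set f : Fin (k j) ≃ B := (Finset.equivFinOfCardEq hB2).symm with hf
      set s : ℕ → ℤ := fun κ => if hκ : κ < k j then (f ⟨κ, hκ⟩ : ℤ) else 0 with hs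
      have hsv : ∀ κ : Fin (k j), s κ = f κ := by
        intro κ
        show (if hκ : (κ : ℕ) < k j then (f ⟨κ, hκ⟩ : ℤ) else 0) = f κ
        rw [dif_pos κ.2]
      have hsB : ∀ κ : Fin (k j), s κ ∈ A j ∩ Set.Icc a (a + h) ∧ s κ ∉ S := by
        intro κ
        rw [hsv]
        have h1 := Finset.mem_sdiff.1 (hB1 (f κ).2)
        exact ⟨hfin.mem_toFinset.1 h1.1, h1.2⟩
      have hinj : Function.Injective fun κ : Fin (k j) => s κ := by
        intro κ κ' he
        simp only [hsv] at he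
        exact f.injective (Subtype.ext he)
      refine ⟨s, ⟨a, a + h, fun x hx => ⟨?_, fun i hi κ hκ => ?_⟩, fun κ hκ => (hsB ⟨κ, hκ⟩).1, fun κ hκ κ' hκ' he => ?_, hmh⟩,
        fun κ y hy => hT0 _ ?_ y hy, fun K hK hKD y hy => hS2 (fun κ => s κ) hinj (fun κ => ⟨(hsB κ).1.2, (hsB κ).2⟩) K hK hKD y hy⟩
      · have := (hbig x hx).2
        omega
      · have h1 := hbig x hx
        have h2 : (t i κ).natAbs ≤ ∑ i ∈ Finset.range j, ∑ κ ∈ Finset.range (k i), (t i κ).natAbs := by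
          refine le_trans ?_ (Finset.single_le_sum (f := fun i => ∑ κ ∈ Finset.range (k i), (t i κ).natAbs)
            (fun _ _ => Nat.zero_le _) (Finset.mem_range.2 hi))
          exact Finset.single_le_sum (f := fun κ => (t i κ).natAbs) (fun _ _ => Nat.zero_le _) (Finset.mem_range.2 hκ)
        rw [Int.abs_eq_natAbs (t i κ)]
        have h3 := h1.2
        have h4 : 1 ≤ j := by omega
        omega
      · exact congrArg Fin.val (hinj (a₁ := ⟨κ, hκ⟩) (a₂ := ⟨κ', hκ'⟩) he)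
      · have := (hbig _ (hsB κ).1.2).2
        omega)
  choose a b h1 h2 h3 h4 using ht1
  have hTc : ∀ j, ((Finset.range (k j)).image (t j)).card = k j := by
    intro j
    rw [Finset.card_image_of_injOn, Finset.card_range]
    intro κ hκ κ' hκ' he
    exact h3 j κ (Finset.mem_range.1 (Finset.mem_coe.1 hκ)) κ' (Finset.mem_range.1 (Finset.mem_coe.1 hκ')) he
  have hTs : ∀ j, ((Finset.range (k j)).image (t j) : Set ℤ) ⊆ A j ∩ Set.Icc (a j) (b j) := by
    intro j x hx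
    obtain ⟨κ, hκ, rfl⟩ := Finset.mem_image.1 (Finset.mem_coe.1 hx)
    exact h2 j κ (Finset.mem_range.1 hκ)
  refine ⟨a, b, fun j => (Finset.range (k j)).image (t j), fun j => ⟨fun x hx => (h1 j x hx).1, hTs j, ?_, ?_⟩,
    fun i j hij => ?_, fun y hy l K hK hKD P hP hPv hPd hPc => ?_⟩
  · rw [hTc]
    exact hkj j
  · have hfin : (A j ∩ Set.Icc (a j) (b j)).Finite := (Set.finite_Icc _ _).subset Set.inter_subset_right
    have h5 := Set.ncard_diff_add_ncard_of_subset (hTs j) hfin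
    rw [Set.ncard_coe_finset, hTc, h4] at h5
    rw [h4]
    have h6 := hmk j
    have h7 : ((A j ∩ Set.Icc (a j) (b j)) \ ((Finset.range (k j)).image (t j) : Set ℤ)).ncard = qf k j + 2 := by omega
    rw [h7]
    show (j + 1) * (qf k j + 2) ≤ (j + 1) * (qf k j + 2) + j
    omega
  · rw [Finset.disjoint_left]
    intro x hx hx'
    obtain ⟨κ, hκ, rfl⟩ := Finset.mem_image.1 hx
    obtain ⟨κ', hκ', he⟩ := Finset.mem_image.1 hx'
    rw [Finset.mem_range] at hκ hκ'
    rcases lt_or_gt_of_ne hij with hlt | hlt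
    · have h5 := (h1 j _ (h2 j κ' hκ').2).2 i hlt κ hκ
      rw [he] at h5
      exact lt_irrefl _ h5
    · have h5 := (h1 i _ (h2 i κ hκ).2).2 j hlt κ' hκ'
      rw [he] at h5
      exact lt_irrefl _ h5
  · refine ht2 y (fun j κ => hy j _ (Finset.mem_image_of_mem _ (Finset.mem_range.2 κ.2))) l K hK hKD P hP (fun v hv => ?_) hPd hPc
    obtain ⟨j, hj, hjv⟩ := hPv v hv
    obtain ⟨κ, hκ, he⟩ := Finset.mem_image.1 hjv
    exact ⟨j, hj, ⟨κ, Finset.mem_range.1 hκ⟩, he.symm⟩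

end univ

end Pool.Agent.U534.Tens
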