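import Pool.Agent.U534.UnivSeq

/-!
# Relations between infinitely many blocks

From relations for one block with coefficients in a space to relations for infinitely many blocks.
-/

set_option autoImplicit false
set_option linter.unusedSectionVars false

open Matrix Polynomial

namespace Pool.Agent.U534.Univ

open Pool.Agent.TH127.PT Pool.Agent.Y118.HP Pool.Agent.Y118.HG Pool.Agent.Y123.ST Pool.Agent.Y123.SR
open Pool.Agent.Y113 (DC pow_mono_sub)

section dc
variable {σ τ : Type} {V W : Submodule ℚ ℂ}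

theorem dc_prod (L : σ → MvPolynomial τ ℂ) (e : σ → ℕ) (s : Finset σ) (hL : ∀ i ∈ s, DC 1 W (L i)) :
    DC (∑ i ∈ s, e i) (W ^ (∑ i ∈ s, e i)) (∏ i ∈ s, L i ^ e i) := by
  classical
  induction s using Finset.induction_on with
  | empty =>
    rw [Finset.sum_empty, Finset.prod_empty, pow_zero]
    exact DC.one _ (Submodule.one_le.1 le_rfl)
  | insert a s ha ih =>
    rw [Finset.sum_insert ha, Finset.prod_insert ha, pow_add]
    have h2 := (hL a (Finset.mem_insert_self a s)).pow (e a)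
    rw [one_mul] at h2
    exact h2.mul (ih fun i hi => hL i (Finset.mem_insert_of_mem hi))

theorem dc_subst {m : ℕ} (h1 : (1 : ℂ) ∈ W) (L : σ → MvPolynomial τ ℂ)
    {P : MvPolynomial σ ℂ} (hL : ∀ i ∈ P.vars, DC 1 W (L i)) (hP : DC m V P) :
    DC m (V * W ^ m) (MvPolynomial.aeval L P) := by
  classical
  rw [MvPolynomial.aeval_def, MvPolynomial.eval₂_eq]
  refine DC.sum _ fun s hs => ?_
  have hs' : ∑ i ∈ s.support, s i ≤ m := (MvPolynomial.le_totalDegree hs).trans hP.1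
  have h2 : DC 0 V (MvPolynomial.C (MvPolynomial.coeff s P) : MvPolynomial τ ℂ) := by
    refine ⟨by simp, fun t => ?_⟩
    rw [MvPolynomial.coeff_C]
    split_ifs
    · exact hP.2 s
    · exact Submodule.zero_mem _
  have h3 := h2.mul (dc_prod (W := W) L s s.support fun i hi => hL i
    ((MvPolynomial.mem_vars i).2 ⟨s, hs, hi⟩))
  rw [zero_add] at h3
  refine h3.mono hs' ?_
  exact Submodule.mul_le.2 fun a ha b hb => Submodule.mul_mem_mul ha (pow_mono_sub h1 hs' hb)

end dc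

/-- the number `2πi` -/
noncomputable abbrev tpi : ℂ := 2 * Real.pi * Complex.I

/-- relations for one block with coefficients in `V` are trivial -/
def Gen (V : Submodule ℚ ℂ) {n : ℕ} (Q c : Matrix (Fin n) (Fin n) ℂ) (d : ℕ) : Prop :=
  ∀ P : MvPolynomial (Fin n × Fin n) ℂ, DC d V P → evM P c = 0 →
    ∀ X : Matrix (Fin n) (Fin n) ℂ, X * Q * Xᵀ = tpi • jm ℂ n → evM P X = 0

theorem Gen.mono {V V' : Submodule ℚ ℂ} {n : ℕ} {Q c : Matrix (Fin n) (Fin n) ℂ} {d d' : ℕ} (h : Gen V' Q c d')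
    (hV : V ≤ V') (hd : d ≤ d') : Gen V Q c d := fun P hP => h P (hP.mono hd hV)

section blocks
variable {n : ℕ → ℕ}

/-- the variables: `none` is the multiplier -/
abbrev Vr (n : ℕ → ℕ) : Type := Option (Σ j : ℕ, Fin (n j) × Fin (n j))

/-- the point -/
def pn (M : ∀ j, Matrix (Fin (n j)) (Fin (n j)) ℂ) (μ : ℂ) : Vr n → ℂ
  | none => μ
  | some q => M q.1 q.2.1 q.2.2

/-- the substitution of constants for all variables except for one block -/
noncomputable def sbv (j : ℕ) (M : ∀ j, Matrix (Fin (n j)) (Fin (n j)) ℂ) (μ : ℂ) :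
    Vr n → MvPolynomial (Fin (n j) × Fin (n j)) ℂ
  | none => MvPolynomial.C μ
  | some q => if h : q.1 = j then MvPolynomial.X (cast (by rw [h]) q.2) else MvPolynomial.C (M q.1 q.2.1 q.2.2)

/-- substitution of constants for all variables except for one block -/
noncomputable def sb (j : ℕ) (M : ∀ j, Matrix (Fin (n j)) (Fin (n j)) ℂ) (μ : ℂ) (P : MvPolynomial (Vr n) ℂ) :
    MvPolynomial (Fin (n j) × Fin (n j)) ℂ :=
  MvPolynomial.aeval (sbv j M μ) P

theorem sb_eval (j : ℕ) (M : ∀ j, Matrix (Fin (n j)) (Fin (n j)) ℂ) (μ : ℂ) (P : MvPolynomial (Vr n) ℂ)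
    (X : Matrix (Fin (n j)) (Fin (n j)) ℂ) :
    evM (sb j M μ P) X = MvPolynomial.eval (pn (Function.update M j X) μ) P := by
  unfold evM sb
  rw [MvPolynomial.aeval_def, MvPolynomial.algebraMap_eq, ← MvPolynomial.coe_eval₂Hom, MvPolynomial.eval,
    ← RingHom.comp_apply, MvPolynomial.comp_eval₂Hom]
  have h1 : ((MvPolynomial.eval₂Hom (RingHom.id ℂ) fun x : Fin (n j) × Fin (n j) => X x.1 x.2).comp
      MvPolynomial.C) = RingHom.id ℂ := by
    ext x
    simp
  rw [h1]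
  congr 2
  funext q
  rcases q with _ | ⟨i, a, b⟩
  · simp [pn, sbv]
  · by_cases h : i = j
    · subst h
      simp [pn, sbv]
    · simp [pn, sbv, h]

theorem sb_DC {V S : Submodule ℚ ℂ} (h1 : (1 : ℂ) ∈ S) {d j : ℕ} {M : ∀ j, Matrix (Fin (n j)) (Fin (n j)) ℂ} {μ : ℂ}
    (hμ : μ ∈ S) {P : MvPolynomial (Vr n) ℂ}
    (hM : ∀ q : (Σ j : ℕ, Fin (n j) × Fin (n j)), q.1 ≠ j → M q.1 q.2.1 q.2.2 ∈ S)
    (hP : DC d V P) : DC d (V * S ^ d) (sb j M μ P) := by
  classical
  have hC : ∀ z ∈ S, DC 1 S (MvPolynomial.C z : MvPolynomial (Fin (n j) × Fin (n j)) ℂ) := by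
    intro z hz
    refine ⟨by rw [MvPolynomial.totalDegree_C]; exact Nat.zero_le _, fun s => ?_⟩
    rw [MvPolynomial.coeff_C]
    split_ifs
    · exact hz
    · exact Submodule.zero_mem _
  have hX : ∀ q, DC 1 S (MvPolynomial.X q : MvPolynomial (Fin (n j) × Fin (n j)) ℂ) := by
    intro q
    refine ⟨by rw [MvPolynomial.totalDegree_X], fun s => ?_⟩
    rw [MvPolynomial.coeff_X']
    split_ifs
    · exact h1
    · exact Submodule.zero_mem _
  have hsb : ∀ q : Vr n, DC 1 S (sbv j M μ q) := by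
    intro q
    rcases q with _ | q
    · exact hC _ hμ
    · by_cases h : q.1 = j
      · have e1 : sbv j M μ (some q) = MvPolynomial.X (cast (by rw [h]) q.2) := dif_pos h
        rw [e1]
        exact hX _
      · have e1 : sbv j M μ (some q) = MvPolynomial.C (M q.1 q.2.1 q.2.2) := dif_neg h
        rw [e1]
        exact hC _ (hM q h)
  unfold sb
  exact dc_subst h1 _ (fun q _ => hsb q) hP

theorem eval_vars {P : MvPolynomial (Vr n) ℂ} {M M' : ∀ j, Matrix (Fin (n j)) (Fin (n j)) ℂ} {μ : ℂ}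
    (h : ∀ q, some q ∈ P.vars → M q.1 = M' q.1) : MvPolynomial.eval (pn M μ) P = MvPolynomial.eval (pn M' μ) P := by
  unfold MvPolynomial.eval
  refine MvPolynomial.eval₂Hom_congr' rfl (fun q hq _ => ?_) rfl
  rcases q with _ | q
  · rfl
  · show M q.1 q.2.1 q.2.2 = M' q.1 q.2.1 q.2.2
    rw [h q hq]

theorem exists_bound (P : MvPolynomial (Vr n) ℂ) : ∃ m, ∀ q, some q ∈ P.vars → q.1 < m := by
  classical
  refine ⟨(P.vars.sup fun q : Vr n => match q with
    | none => 0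
    | some q => q.1) + 1, fun q hq => Nat.lt_succ_of_le ?_⟩
  exact Finset.le_sup (f := fun q : Vr n => match q with
    | none => 0
    | some q => q.1) hq

/-- the standard points of the torsor -/
noncomputable def YP {n : ℕ} (μ : ℂ) (h : Matrix (Fin n) (Fin n) ℂ) (P0 : Matrix (Fin n) (Fin n) ℚ) :
    Matrix (Fin n) (Fin n) ℂ := Ds n μ * h * P0.map (algebraMap ℚ ℂ)

theorem YP_tor {n : ℕ} {μ : ℂ} {h Q : Matrix (Fin n) (Fin n) ℂ} {P0 : Matrix (Fin n) (Fin n) ℚ}
    (hP0 : P0.map (algebraMap ℚ ℂ) * Q * (P0.map (algebraMap ℚ ℂ))ᵀ = jm ℂ n) (hh : h ∈ SpS ℂ n) :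
    YP μ h P0 * Q * (YP μ h P0)ᵀ = μ • jm ℂ n := by
  unfold YP
  have h1 : h * jm ℂ n * hᵀ = jm ℂ n := hh
  rw [transpose_mul, transpose_mul]
  calc Ds n μ * h * P0.map (algebraMap ℚ ℂ) * Q * ((P0.map (algebraMap ℚ ℂ))ᵀ * (hᵀ * (Ds n μ)ᵀ)) =
      Ds n μ * (h * (P0.map (algebraMap ℚ ℂ) * Q * (P0.map (algebraMap ℚ ℂ))ᵀ) * hᵀ) * (Ds n μ)ᵀ := by
        simp only [Matrix.mul_assoc]
    _ = μ • jm ℂ n := by rw [hP0, h1, Ds_J]

theorem exists_YP {n : ℕ} (hn : Even n) {μ : ℂ} (hμ : μ ≠ 0) {X Q : Matrix (Fin n) (Fin n) ℂ}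
    {P0 : Matrix (Fin n) (Fin n) ℚ}
    (hP0 : P0.map (algebraMap ℚ ℂ) * Q * (P0.map (algebraMap ℚ ℂ))ᵀ = jm ℂ n) (hX : X * Q * Xᵀ = μ • jm ℂ n) :
    ∃ h ∈ SpS ℂ n, X = YP μ h P0 := by
  have h1 := YP_tor (μ := μ) hP0 SpS_one
  have h2 := quot_sp' (N := 1) hn (X := fun _ => X) (Z := fun _ => YP μ 1 P0) (Q := fun _ => Q) (μ := μ)
    ⟨hμ, fun _ => hX⟩ ⟨hμ, fun _ => h1⟩ 0
  obtain ⟨hdet, -⟩ := tor_det hn (Q := jm ℂ n) hμ (Ds_J (n := n) μ)
  have h3 : Ds n μ * (Ds n μ)⁻¹ = 1 := mul_nonsing_inv _ hdet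
  have h3' : (Ds n μ)⁻¹ * Ds n μ = 1 := nonsing_inv_mul _ hdet
  set g := X * (YP μ 1 P0)⁻¹ with hg
  have h5 : (Ds n μ)ᵀ * ((Ds n μ)⁻¹)ᵀ = 1 := by rw [← transpose_mul, h3', transpose_one]
  have h5' : ((Ds n μ)⁻¹)ᵀ * (Ds n μ)ᵀ = 1 := by rw [← transpose_mul, h3, transpose_one]
  refine ⟨(Ds n μ)⁻¹ * g * Ds n μ, ?_, ?_⟩
  · have h4 : g * jm ℂ n * gᵀ = jm ℂ n := h2.1
    show (Ds n μ)⁻¹ * g * Ds n μ * jm ℂ n * ((Ds n μ)⁻¹ * g * Ds n μ)ᵀ = jm ℂ n
    rw [transpose_mul, transpose_mul]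
    have h6 : (Ds n μ)⁻¹ * jm ℂ n * ((Ds n μ)⁻¹)ᵀ = μ⁻¹ • jm ℂ n := by
      have h7 : (Ds n μ)⁻¹ * (Ds n μ * jm ℂ n * (Ds n μ)ᵀ) * ((Ds n μ)⁻¹)ᵀ = jm ℂ n := by
        calc _ = ((Ds n μ)⁻¹ * Ds n μ) * jm ℂ n * ((Ds n μ)ᵀ * ((Ds n μ)⁻¹)ᵀ) := by simp only [Matrix.mul_assoc]
          _ = jm ℂ n := by rw [h3', h5, Matrix.one_mul, Matrix.mul_one]
      rw [Ds_J, Matrix.mul_smul, Matrix.smul_mul] at h7
      rw [← h7, smul_smul, inv_mul_cancel₀ hμ, one_smul, h7]
    calc (Ds n μ)⁻¹ * g * Ds n μ * jm ℂ n * ((Ds n μ)ᵀ * (gᵀ * ((Ds n μ)⁻¹)ᵀ)) =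
        (Ds n μ)⁻¹ * (g * (Ds n μ * jm ℂ n * (Ds n μ)ᵀ) * gᵀ) * ((Ds n μ)⁻¹)ᵀ := by simp only [Matrix.mul_assoc]
      _ = μ • ((Ds n μ)⁻¹ * (g * jm ℂ n * gᵀ) * ((Ds n μ)⁻¹)ᵀ) := by
          rw [Ds_J, Matrix.mul_smul, Matrix.smul_mul, Matrix.mul_smul, Matrix.smul_mul]
      _ = jm ℂ n := by rw [h4, h6, smul_smul, mul_inv_cancel₀ hμ, one_smul]
  · have h4 : g * YP μ 1 P0 = X := h2.2
    unfold YP at h4 ⊢
    rw [Matrix.mul_one] at h4
    calc X = g * (Ds n μ * P0.map (algebraMap ℚ ℂ)) := h4.symm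
      _ = (Ds n μ * (Ds n μ)⁻¹) * g * Ds n μ * P0.map (algebraMap ℚ ℂ) := by
          rw [h3, Matrix.one_mul]
          exact (Matrix.mul_assoc g _ _).symm
      _ = _ := by simp only [Matrix.mul_assoc]

/-- the entries of the rational standard points -/
theorem YP_mem {n : ℕ} {μ : ℂ} {S : Submodule ℚ ℂ} (h1 : (1 : ℂ) ∈ S) (hμ : μ ∈ S) (g P0 : Matrix (Fin n) (Fin n) ℚ)
    (a b : Fin n) : YP μ (g.map (algebraMap ℚ ℂ)) P0 a b ∈ S := by
  unfold YP
  rw [Matrix.mul_assoc, ← Matrix.map_mul]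
  unfold Ds
  rw [diagonal_mul, Matrix.map_apply]
  have h2 : ∀ z ∈ S, ∀ q : ℚ, z * algebraMap ℚ ℂ q ∈ S := by
    intro z hz q
    rw [mul_comm, ← Algebra.smul_def]
    exact Submodule.smul_mem _ _ hz
  split_ifs
  · exact h2 _ hμ _
  · exact h2 _ h1 _

/-- **Elimination of the blocks.** -/
theorem elim {Q c : ∀ j, Matrix (Fin (n j)) (Fin (n j)) ℂ} {P0 : ∀ j, Matrix (Fin (n j)) (Fin (n j)) ℚ}
    (hP0 : ∀ j, (P0 j).map (algebraMap ℚ ℂ) * Q j * ((P0 j).map (algebraMap ℚ ℂ))ᵀ = jm ℂ (n j)) {l d : ℕ}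
    {V : Submodule ℚ ℂ} {S : ℕ → Submodule ℚ ℂ} (hS1 : ∀ j, (1 : ℂ) ∈ S j) (hSl : ∀ j, tpi ∈ S j)
    (hSc : ∀ i j, i < j → ∀ a b, c i a b ∈ S j) (hgen : ∀ j, l ≤ j → Gen (V * (S j) ^ d) (Q j) (c j) d)
    (P : MvPolynomial (Vr n) ℂ) (hP : DC d V P) (hv : ∀ q, some q ∈ P.vars → l ≤ q.1)
    (h0 : MvPolynomial.eval (pn c tpi) P = 0) (g : ∀ j, Matrix (Fin (n j)) (Fin (n j)) ℚ) (hg : ∀ j, g j ∈ SpS ℚ (n j)) :
    MvPolynomial.eval (pn (fun j => YP tpi ((g j).map (algebraMap ℚ ℂ)) (P0 j)) tpi) P = 0 := by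
  classical
  set Y : ∀ j, Matrix (Fin (n j)) (Fin (n j)) ℂ := fun j => YP tpi ((g j).map (algebraMap ℚ ℂ)) (P0 j) with hY
  have hYt : ∀ j, Y j * Q j * (Y j)ᵀ = tpi • jm ℂ (n j) := fun j => YP_tor (hP0 j) (SpS_map (algebraMap ℚ ℂ) (hg j))
  set M : ℕ → ∀ j, Matrix (Fin (n j)) (Fin (n j)) ℂ := fun m j => if j < m then c j else Y j with hM
  have hstep : ∀ m, MvPolynomial.eval (pn (M (m + 1)) tpi) P = 0 → MvPolynomial.eval (pn (M m) tpi) P = 0 := by
    intro m h1
    by_cases hm : m < l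
    · rw [← h1]
      refine eval_vars fun q hq => ?_
      have h2 := hv q hq
      simp only [hM]
      rw [if_neg (by omega), if_neg (by omega)]
    · have e1 : M (m + 1) = Function.update (M m) m (c m) := by
        funext j
        by_cases hj : j = m
        · subst hj
          rw [Function.update_self]
          simp only [hM]
          rw [if_pos (Nat.lt_succ_self _)]
        · rw [Function.update_of_ne hj]
          simp only [hM]
          by_cases h3 : j < m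
          · rw [if_pos h3, if_pos (by omega)]
          · rw [if_neg h3, if_neg (by omega)]
      have e2 : M m = Function.update (M m) m (Y m) := by
        funext j
        by_cases hj : j = m
        · subst hj
          rw [Function.update_self]
          simp only [hM]
          rw [if_neg (lt_irrefl _)]
        · rw [Function.update_of_ne hj]
      have h2 := hgen m (not_lt.1 hm) (sb m (M m) tpi P) (sb_DC (hS1 m) (hSl m) (fun q hq => by
        simp only [hM]
        by_cases h3 : q.1 < m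
        · rw [if_pos h3]
          exact hSc _ _ h3 _ _
        · rw [if_neg h3]
          exact YP_mem (hS1 m) (hSl m) _ _ _ _) hP) (by rw [sb_eval, ← e1, h1]) (Y m) (hYt m)
      rw [sb_eval, ← e2] at h2
      exact h2
  obtain ⟨m, hm⟩ := exists_bound P
  have hall : ∀ m, MvPolynomial.eval (pn (M m) tpi) P = 0 → MvPolynomial.eval (pn (M 0) tpi) P = 0 := by
    intro m
    induction m with
    | zero => exact id
    | succ m ih => exact fun h => ih (hstep m h)
  have h1 : MvPolynomial.eval (pn (M m) tpi) P = 0 := by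
    rw [← h0]
    refine eval_vars fun q hq => ?_
    simp only [hM]
    rw [if_pos (hm q hq)]
  have h2 := hall m h1
  have h3 : M 0 = Y := by
    funext j
    simp only [hM]
    rw [if_neg (Nat.not_lt_zero _)]
  rw [h3] at h2
  exact h2

/-- **Density.** -/
theorem dense_all (hn : ∀ j, Even (n j)) {P0 : ∀ j, Matrix (Fin (n j)) (Fin (n j)) ℚ} {μ : ℂ} (P : MvPolynomial (Vr n) ℂ)
    (hg : ∀ g : ∀ j, Matrix (Fin (n j)) (Fin (n j)) ℚ, (∀ j, g j ∈ SpS ℚ (n j)) →
      MvPolynomial.eval (pn (fun j => YP μ ((g j).map (algebraMap ℚ ℂ)) (P0 j)) μ) P = 0)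
    (h : ∀ j, Matrix (Fin (n j)) (Fin (n j)) ℂ) (hh : ∀ j, h j ∈ SpS ℂ (n j)) :
    MvPolynomial.eval (pn (fun j => YP μ (h j) (P0 j)) μ) P = 0 := by
  classical
  set Z : ∀ j, Matrix (Fin (n j)) (Fin (n j)) ℂ → Matrix (Fin (n j)) (Fin (n j)) ℂ := fun j x => YP μ x (P0 j) with hZ
  set M : ℕ → (∀ j, Matrix (Fin (n j)) (Fin (n j)) ℚ) → ∀ j, Matrix (Fin (n j)) (Fin (n j)) ℂ :=
    fun m g j => if j < m then Z j (h j) else Z j ((g j).map (algebraMap ℚ ℂ)) with hM
  have hclaim : ∀ m, ∀ g : ∀ j, Matrix (Fin (n j)) (Fin (n j)) ℚ, (∀ j, g j ∈ SpS ℚ (n j)) →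
      MvPolynomial.eval (pn (M m g) μ) P = 0 := by
    intro m
    induction m with
    | zero =>
      intro g hg'
      have h3 : M 0 g = fun j => YP μ ((g j).map (algebraMap ℚ ℂ)) (P0 j) := by
        funext j
        simp only [hM]
        rw [if_neg (Nat.not_lt_zero _)]
      rw [h3]
      exact hg g hg'
    | succ m ih =>
      intro g hg'
      -- the polynomial in the block `m`
      set R : MvPolynomial (Fin (n m) × Fin (n m)) ℂ := MvPolynomial.bind₁ (fun x : Fin (n m) × Fin (n m) =>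
        ∑ k, ∑ k', MvPolynomial.C (Ds (n m) μ x.1 k) * MvPolynomial.X (k, k') *
          MvPolynomial.C ((P0 m).map (algebraMap ℚ ℂ) k' x.2)) (sb m (M m g) μ P) with hR
      have hRe : ∀ x : Matrix (Fin (n m)) (Fin (n m)) ℂ, evM R x =
          MvPolynomial.eval (pn (Function.update (M m g) m (Z m x)) μ) P := by
        intro x
        rw [← sb_eval]
        unfold evM
        rw [hR, ← MvPolynomial.coe_aeval_eq_eval, RingHom.coe_coe, MvPolynomial.aeval_bind₁,
          MvPolynomial.aeval_eq_eval]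
        congr 2
        funext p
        simp only [hZ, YP, Matrix.mul_apply, map_sum, map_mul, MvPolynomial.aeval_C, MvPolynomial.aeval_X,
          Finset.sum_mul, Algebra.algebraMap_self, RingHom.id_apply]
        rw [Finset.sum_comm]
      have hR0 : ∀ g' ∈ SpS ℚ (n m), evM R (g'.map (algebraMap ℚ ℂ)) = 0 := by
        intro g' hg''
        rw [hRe]
        have e1 : Function.update (M m g) m (Z m (g'.map (algebraMap ℚ ℂ))) = M m (Function.update g m g') := by
          funext j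
          by_cases hj : j = m
          · subst hj
            rw [Function.update_self]
            simp only [hM]
            rw [if_neg (lt_irrefl _), Function.update_self]
          · rw [Function.update_of_ne hj]
            simp only [hM]
            rw [Function.update_of_ne hj]
        rw [e1]
        refine ih _ fun j => ?_
        by_cases hj : j = m
        · subst hj
          rw [Function.update_self]
          exact hg''
        · rw [Function.update_of_ne hj]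
          exact hg' j
      have h1 := dense_rat (hn m) R hR0 (h m) (hh m)
      rw [hRe] at h1
      have e2 : Function.update (M m g) m (Z m (h m)) = M (m + 1) g := by
        funext j
        by_cases hj : j = m
        · subst hj
          rw [Function.update_self]
          simp only [hM]
          rw [if_pos (Nat.lt_succ_self _)]
        · rw [Function.update_of_ne hj]
          simp only [hM]
          by_cases h3 : j < m
          · rw [if_pos h3, if_pos (by omega)]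
          · rw [if_neg h3, if_neg (by omega)]
      rw [e2] at h1
      exact h1
  obtain ⟨m, hm⟩ := exists_bound P
  have h1 := hclaim m (fun _ => 1) (fun j => SpS_one)
  rw [← h1]
  refine eval_vars fun q hq => ?_
  simp only [hM]
  rw [if_pos (hm q hq)]

end blocks

end Pool.Agent.U534.Univ
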