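import Pool.Agent.U534.UnivRel

/-!
# Relations between infinitely many blocks: the sequence
-/

set_option autoImplicit false
set_option linter.unusedSectionVars false

open Matrix Polynomial

namespace Pool.Agent.U534.Univ

open Pool.Agent.TH127.PT Pool.Agent.Y118.HP Pool.Agent.Y118.HG Pool.Agent.Y123.ST Pool.Agent.Y123.SR
open Pool.Agent.Y113 (DC pow_mono_sub)

section vary
variable {n : ℕ → ℕ}

/-- the standard points over the polynomial ring -/
noncomputable def pK (K : Subfield ℂ) (g P0 : ∀ j, Matrix (Fin (n j)) (Fin (n j)) ℚ) : Vr n → K[X]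
  | none => X
  | some q => (if (q.2.1 : ℕ) % 2 = 1 then X else 1) * C (algebraMap ℚ K ((g q.1 * P0 q.1) q.2.1 q.2.2))

theorem YP_apply {n : ℕ} (μ : ℂ) (g P0 : Matrix (Fin n) (Fin n) ℚ) (a b : Fin n) :
    YP μ (g.map (algebraMap ℚ ℂ)) P0 a b = (if (a : ℕ) % 2 = 1 then μ else 1) * algebraMap ℚ ℂ ((g * P0) a b) := by
  unfold YP
  rw [Matrix.mul_assoc, ← Matrix.map_mul]
  unfold Ds
  rw [diagonal_mul, Matrix.map_apply]

theorem vary {K : Subfield ℂ} (hK : FiniteDimensional ℚ K) {g P0 : ∀ j, Matrix (Fin (n j)) (Fin (n j)) ℚ}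
    (P : MvPolynomial (Vr n) K)
    (h0 : MvPolynomial.eval (pn (fun j => YP tpi ((g j).map (algebraMap ℚ ℂ)) (P0 j)) tpi)
      (MvPolynomial.map (algebraMap K ℂ) P) = 0) (μ : ℂ) :
    MvPolynomial.eval (pn (fun j => YP μ ((g j).map (algebraMap ℚ ℂ)) (P0 j)) μ)
      (MvPolynomial.map (algebraMap K ℂ) P) = 0 := by
  have htr : Transcendental K tpi := by
    have : Algebra.IsAlgebraic ℚ K := Algebra.IsAlgebraic.of_finite ℚ K
    intro h1
    exact Pool.Agent.Y123.ST.transc_two_pi_I (h1.restrictScalars ℚ)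
  have key : ∀ μ : ℂ, Polynomial.aeval μ (MvPolynomial.aeval (pK K g P0) P) =
      MvPolynomial.eval (pn (fun j => YP μ ((g j).map (algebraMap ℚ ℂ)) (P0 j)) μ)
        (MvPolynomial.map (algebraMap K ℂ) P) := by
    intro μ
    rw [MvPolynomial.comp_aeval_apply, MvPolynomial.aeval_def, MvPolynomial.eval₂_eq_eval_map]
    congr 2
    funext q
    rcases q with _ | ⟨i, a, b⟩
    · show Polynomial.aeval μ (X : K[X]) = μ
      exact Polynomial.aeval_X μ
    · show Polynomial.aeval μ ((if (a : ℕ) % 2 = 1 then X else 1) * C (algebraMap ℚ K ((g i * P0 i) a b)) : K[X]) =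
        YP μ ((g i).map (algebraMap ℚ ℂ)) (P0 i) a b
      rw [YP_apply, map_mul, Polynomial.aeval_C]
      congr 1
      split_ifs
      · exact Polynomial.aeval_X μ
      · exact map_one _
  have hR : MvPolynomial.aeval (pK K g P0) P = (0 : K[X]) := by
    by_contra hne
    exact htr ⟨_, hne, by rw [key, h0]⟩
  rw [← key, hR, map_zero]

end vary

/-- the hypothesis on a family -/
def StepG {n : ℕ} (cc QQ : ℕ → Matrix (Fin n) (Fin n) ℂ) (OK : ℕ → Prop) : Prop :=
  ∀ (V : Submodule ℚ ℂ), Module.Finite ℚ V → ∀ d : ℕ, ∃ γ M : ℝ, 0 < γ ∧ ∀ T : ℕ, 1 ≤ T →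
    ∃ S : Finset ℕ, (S.card : ℝ) ≤ M * (T : ℝ) ^ (1 - γ) ∧
      ∀ x : ℕ, 1 ≤ x → x ≤ T → x ∉ S → OK x ∧ Gen V (QQ x) (cc x) d

theorem hyp_stepG {n : ℕ} (hn : Even n) (a : Fin n → ℝ) (f : ℚ[X])
    (hf : f.map (algebraMap ℚ ℝ) = ∏ i, (X - C (a i))) (m : Fin (n + 1)) (h0 : StrictMono (er a m 0)) :
    StepG (fun x => Matrix.of (cper (er a m (1 / (x : ℝ)))))
      (fun x => (-1 / 2 : ℂ) • (qm n (f * (X - C (1 / (x : ℚ))))).map (algebraMap ℚ ℂ))
      (fun x => StrictMono (er a m (1 / (x : ℝ))) ∧ Gd (fun x => Matrix.of (cper (er a m (1 / (x : ℝ)))))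
        (fun x => (-1 / 2 : ℂ) • (qm n (f * (X - C (1 / (x : ℚ))))).map (algebraMap ℚ ℂ)) x) := by
  classical
  intro V hV d
  have ha : StrictMono a := (inGap_of_er h0).1
  have hg0 : InGap a m 0 := (inGap_of_er h0).2
  obtain ⟨c, hc, M, hM, hmain⟩ := vver (N := 1) hn (fun _ => a) (fun _ => ha) (fun _ => m) (fun _ => f)
    (fun _ => hg0) (fun _ => hf) (Module.finrank ℚ V) d
  refine ⟨c, M, hc, fun T hT => ?_⟩
  obtain ⟨S, hS, h2⟩ := hmain V hV le_rfl T hT
  refine ⟨S.image fun t => t 0, ?_, fun x hx1 hx2 hxS => ?_⟩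
  · have h3 : ((S.image fun t => t 0).card : ℝ) ≤ S.card := by exact_mod_cast Finset.card_image_le
    refine h3.trans (hS.trans (le_of_eq ?_))
    norm_num
  · obtain ⟨h3, h4⟩ := h2 (fun _ => x) (fun _ => ⟨hx1, hx2⟩)
      (fun h => hxS (Finset.mem_image.2 ⟨_, h, rfl⟩))
    have hcast : (((1 / (x : ℚ) : ℚ)) : ℝ) = 1 / (x : ℝ) := by push_cast; rfl
    have hQe : (-1 / 2 : ℂ) • (qm n (f * (X - C (1 / (x : ℚ))))).map (algebraMap ℚ ℂ) =
        (-1 / 2 : ℂ) • (Qp n f).map (aeval ((1 / (x : ℚ) : ℚ) : ℂ)) := by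
      rw [qm_eq]
    have hpt : Matrix.of (cper (er a m (1 / (x : ℝ)))) = CM a m (((1 / (x : ℚ) : ℚ)) : ℝ) := by
      rw [hcast]
      rfl
    refine ⟨⟨?_, ?_⟩, fun P hP hPv X hX => ?_⟩
    · have := er_of_inGap ha (h3 0)
      rwa [hcast] at this
    · show Matrix.of (cper (er a m (1 / (x : ℝ)))) *
        ((-1 / 2 : ℂ) • (qm n (f * (X - C (1 / (x : ℚ))))).map (algebraMap ℚ ℂ)) *
        (Matrix.of (cper (er a m (1 / (x : ℝ)))))ᵀ = _
      rw [hQe, hpt]
      exact CM_mem hn ha hf (h3 0)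
    · set R : MvPolynomial (Fin 1 × Fin n × Fin n) ℂ := MvPolynomial.rename (fun p => ((0 : Fin 1), p)) P with hR
      have hinj : Function.Injective (fun p : Fin n × Fin n => ((0 : Fin 1), p)) := fun p q h => (Prod.mk.inj h).2
      have hev : ∀ Y : Fin 1 → Matrix (Fin n) (Fin n) ℂ, MvPolynomial.aeval (px Y) R = evM P (Y 0) := by
        intro Y
        rw [hR, MvPolynomial.aeval_rename]
        rfl
      have h5 := h4 R ((MvPolynomial.totalDegree_rename_le _ _).trans hP.1) (fun s => by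
        by_cases hs : R.coeff s = 0
        · rw [hs]
          exact Submodule.zero_mem _
        · obtain ⟨u, hu, -⟩ := MvPolynomial.coeff_rename_ne_zero _ _ _ hs
          rw [← hu, hR, MvPolynomial.coeff_rename_mapDomain _ hinj]
          exact hP.2 u) (by
        rw [hev, ← hpt]
        exact hPv) (fun _ => X) (fun _ => by
        rw [← hQe]
        exact hX)
      rw [hev] at h5
      exact h5

/-- the form is equivalent to the standard form over `ℚ` -/
theorem exists_P0 {n : ℕ} (hn : Even n) (F : ℚ[X]) {c : Matrix (Fin n) (Fin n) ℂ}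
    (hc : c * ((-1 / 2 : ℂ) • (qm n F).map (algebraMap ℚ ℂ)) * cᵀ = tpi • jm ℂ n) :
    ∃ P0 : Matrix (Fin n) (Fin n) ℚ, P0.map (algebraMap ℚ ℂ) * ((-1 / 2 : ℂ) • (qm n F).map (algebraMap ℚ ℂ)) *
      (P0.map (algebraMap ℚ ℂ))ᵀ = jm ℂ n := by
  set A : Matrix (Fin n) (Fin n) ℚ := (-1 / 2 : ℚ) • qm n F with hA
  have hAm : A.map (algebraMap ℚ ℂ) = (-1 / 2 : ℂ) • (qm n F).map (algebraMap ℚ ℂ) := by
    ext i j
    rw [Matrix.map_apply, hA, Matrix.smul_apply, Matrix.smul_apply, smul_eq_mul, smul_eq_mul, map_mul,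
      Matrix.map_apply]
    congr 1
    norm_num
  have hd : A.det ≠ 0 := by
    intro h0
    have h1 := congrArg Matrix.det hc
    rw [← hAm, Matrix.det_mul, Matrix.det_mul, show (A.map (algebraMap ℚ ℂ)).det = algebraMap ℚ ℂ A.det from
      (RingHom.map_det (algebraMap ℚ ℂ) A).symm, h0, map_zero, mul_zero, zero_mul, Matrix.det_smul] at h1
    exact mul_ne_zero (pow_ne_zero _ tpi_ne) (jm_det hn) h1.symm
  have hT : Aᵀ = -A := by
    ext i j
    rw [Matrix.transpose_apply, Matrix.neg_apply, hA, Matrix.smul_apply, Matrix.smul_apply, smul_eq_mul, smul_eq_mul]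
    unfold qm
    rw [Matrix.of_apply, Matrix.of_apply, show (j : ℕ) + (i : ℕ) + 2 = (i : ℕ) + (j : ℕ) + 2 by omega]
    ring
  have h00 : ∀ i, A i i = 0 := by
    intro i
    rw [hA, Matrix.smul_apply, smul_eq_mul]
    unfold qm
    rw [Matrix.of_apply]
    simp
  obtain ⟨U, -, hU⟩ := Pool.Agent.Y122.HPDar.darboux A (jm ℚ n) hT h00 hd jm_transpose (fun i => jm_diag i) (jm_det hn)
  refine ⟨U, ?_⟩
  rw [← hAm, ← Matrix.transpose_map, ← Matrix.map_mul, ← Matrix.map_mul, hU, jm_map]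

section seqG
variable {n : ℕ → ℕ} {cc QQ : ∀ j, ℕ → Matrix (Fin (n j)) (Fin (n j)) ℂ} {OK : ℕ → ℕ → Prop}

/-- the space of the previous periods -/
noncomputable def SS (cc : ∀ j, ℕ → Matrix (Fin (n j)) (Fin (n j)) ℂ) (t : ℕ → ℕ) (j : ℕ) : Submodule ℚ ℂ :=
  Submodule.span ℚ (insert 1 (insert tpi (⋃ i ∈ Set.Iio j, Set.range fun p : Fin (n i) × Fin (n i) =>
    cc i (t i) p.1 p.2)))

theorem SS_fin (t : ℕ → ℕ) (j : ℕ) : Module.Finite ℚ (SS cc t j) := by
  refine Module.Finite.span_of_finite ℚ (Set.Finite.insert _ (Set.Finite.insert _ ?_))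
  exact (Set.finite_Iio j).biUnion fun i _ => Set.finite_range _

theorem SS_one (t : ℕ → ℕ) (j : ℕ) : (1 : ℂ) ∈ SS cc t j := Submodule.subset_span (Set.mem_insert _ _)

theorem SS_tpi (t : ℕ → ℕ) (j : ℕ) : tpi ∈ SS cc t j :=
  Submodule.subset_span (Set.mem_insert_of_mem _ (Set.mem_insert _ _))

theorem SS_mem (t : ℕ → ℕ) {i j : ℕ} (h : i < j) (a b : Fin (n i)) : cc i (t i) a b ∈ SS cc t j := by
  refine Submodule.subset_span (Set.mem_insert_of_mem _ (Set.mem_insert_of_mem _ ?_))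
  exact Set.mem_biUnion (show i ∈ Set.Iio j from h) ⟨(a, b), rfl⟩

theorem SS_congr {t t' : ℕ → ℕ} {j : ℕ} (h : ∀ i < j, t i = t' i) : SS cc t j = SS cc t' j := by
  unfold SS
  congr 3
  refine Set.iUnion₂_congr fun i hi => ?_
  rw [h i hi]

theorem seqG (hstep : ∀ j, StepG (cc j) (QQ j) (OK j)) {A : ℕ → Set ℕ} (hA : ∀ j, Rich (A j))
    {VV : ℕ → Submodule ℚ ℂ} (hVV : ∀ j, Module.Finite ℚ (VV j)) :
    ∃ t : ℕ → ℕ, StrictMono t ∧ (∀ j, t j ∈ A j) ∧ (∀ j, OK j (t j)) ∧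
      ∀ j, Gen (VV j * (SS cc t j) ^ j) (QQ j (t j)) (cc j (t j)) j := by
  obtain ⟨t, ht⟩ := exists_seq (α := ℕ) (fun j t x => x ∈ A j ∧ (∀ i < j, t i < x) ∧ OK j x ∧
      Gen (VV j * (SS cc t j) ^ j) (QQ j x) (cc j x) j)
    (by
      rintro j t t' x htt ⟨h3, h4, h6, h7⟩
      refine ⟨h3, fun i hi => ?_, h6, ?_⟩
      · rw [← htt i hi]
        exact h4 i hi
      · rw [← SS_congr htt]
        exact h7)
    (by
      intro j t
      have := hVV j
      have := SS_fin (cc := cc) t j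
      have hp := (Pool.Agent.Y113.finrank_pow_le (SS cc t j) j).1
      have hp2 := (Pool.Agent.Y113.finrank_mul_le (VV j) ((SS cc t j) ^ j)).1
      obtain ⟨γ, M, hγ, hmain⟩ := hstep j _ hp2 j
      set X0 := ∑ i ∈ Finset.range j, t i with hX0
      obtain ⟨T, hT, hTA⟩ := hA j (min γ 1) (lt_min hγ one_pos) (|M| + (X0 + 1))
      obtain ⟨S, hS1, hS2⟩ := hmain T hT
      classical
      set Bad : Finset ℕ := S ∪ Finset.range (X0 + 1) with hBad
      have hTpos : (0 : ℝ) < T := by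
        have : (1 : ℝ) ≤ T := by exact_mod_cast hT
        linarith
      have hT1 : (1 : ℝ) ≤ T := by exact_mod_cast hT
      have hp1 : (T : ℝ) ^ (1 - γ) ≤ (T : ℝ) ^ (1 - min γ 1) :=
        Real.rpow_le_rpow_of_exponent_le hT1 (by linarith [min_le_left γ 1])
      have hp2 : (1 : ℝ) ≤ (T : ℝ) ^ (1 - min γ 1) := Real.one_le_rpow hT1 (by linarith [min_le_right γ 1])
      have hp3 : (0 : ℝ) ≤ (T : ℝ) ^ (1 - γ) := (Real.rpow_pos_of_pos hTpos _).le
      have hcard : (Bad.card : ℝ) ≤ (|M| + (X0 + 1)) * (T : ℝ) ^ (1 - min γ 1) := by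
        have h1 : (Bad.card : ℝ) ≤ (S.card : ℝ) + (X0 + 1) := by
          have := Finset.card_union_le S (Finset.range (X0 + 1))
          rw [Finset.card_range] at this
          exact_mod_cast this
        have h2 : (S.card : ℝ) ≤ |M| * (T : ℝ) ^ (1 - min γ 1) := by
          calc (S.card : ℝ) ≤ M * (T : ℝ) ^ (1 - γ) := hS1
            _ ≤ |M| * (T : ℝ) ^ (1 - γ) := mul_le_mul_of_nonneg_right (le_abs_self M) hp3
            _ ≤ |M| * (T : ℝ) ^ (1 - min γ 1) := mul_le_mul_of_nonneg_left hp1 (abs_nonneg M)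
        have h4 : ((X0 : ℝ) + 1) ≤ (X0 + 1) * (T : ℝ) ^ (1 - min γ 1) := by
          have : (0 : ℝ) ≤ (X0 : ℝ) + 1 := by positivity
          nlinarith
        nlinarith
      have hex : ∃ x ∈ A j ∩ Set.Icc 1 T, x ∉ Bad := by
        by_contra hcon
        push Not at hcon
        have h1 : (A j ∩ Set.Icc 1 T).ncard ≤ Bad.card := by
          rw [← Set.ncard_coe_finset]
          exact Set.ncard_le_ncard (fun x hx => hcon x hx) (Finset.finite_toSet _)
        have h2 : ((A j ∩ Set.Icc 1 T).ncard : ℝ) ≤ Bad.card := by exact_mod_cast h1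
        linarith
      obtain ⟨x, ⟨hxA, hx1, hx2⟩, hxB⟩ := hex
      have hxS : x ∉ S := fun hq => hxB (Finset.mem_union_left _ hq)
      have hxX : X0 + 1 ≤ x := by
        by_contra hlt
        exact hxB (Finset.mem_union_right _ (Finset.mem_range.2 (by omega)))
      obtain ⟨h5, h6⟩ := hS2 x hx1 hx2 hxS
      refine ⟨x, hxA, fun i hi => ?_, h5, h6⟩
      have h1 : t i ≤ X0 := Finset.single_le_sum (f := t) (fun _ _ => Nat.zero_le _) (Finset.mem_range.2 hi)
      omega)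
  exact ⟨t, strictMono_nat_of_lt_succ fun j => (ht (j + 1)).2.1 j (Nat.lt_succ_self j), fun j => (ht j).1,
    fun j => (ht j).2.2.1, fun j => (ht j).2.2.2⟩

/-- **All relations of bounded degree between infinitely many blocks are trivial**: relations with coefficients in the
spaces `VV j`. -/
theorem seqG_rel (hn : ∀ j, Even (n j)) (hstep : ∀ j, StepG (cc j) (QQ j) (OK j))
    (hP0 : ∀ j x, OK j x → ∃ P0 : Matrix (Fin (n j)) (Fin (n j)) ℚ,
      P0.map (algebraMap ℚ ℂ) * QQ j x * (P0.map (algebraMap ℚ ℂ))ᵀ = jm ℂ (n j))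
    {A : ℕ → Set ℕ} (hA : ∀ j, Rich (A j)) {VV : ℕ → Submodule ℚ ℂ} (hVV : ∀ j, Module.Finite ℚ (VV j))
    (hmono : Monotone VV) :
    ∃ t : ℕ → ℕ, StrictMono t ∧ (∀ j, t j ∈ A j) ∧ (∀ j, OK j (t j)) ∧
      (∀ (i d : ℕ) (P : MvPolynomial (Vr n) ℂ), DC d (VV i) P → (∀ q, some q ∈ P.vars → max i d ≤ q.1) →
        MvPolynomial.eval (pn (fun j => cc j (t j)) tpi) P = 0 →
        ∀ X : (∀ j, Matrix (Fin (n j)) (Fin (n j)) ℂ), (∀ j, X j * QQ j (t j) * (X j)ᵀ = tpi • jm ℂ (n j)) →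
          MvPolynomial.eval (pn X tpi) P = 0) ∧
      ∀ (K : Subfield ℂ), FiniteDimensional ℚ K → ∀ (i d : ℕ), (∀ z ∈ K, z ∈ VV i) → ∀ P : MvPolynomial (Vr n) K,
        P.totalDegree ≤ d → (∀ q, some q ∈ P.vars → max i d ≤ q.1) →
        MvPolynomial.eval (pn (fun j => cc j (t j)) tpi) (MvPolynomial.map (algebraMap K ℂ) P) = 0 →
        ∀ μ : ℂ, μ ≠ 0 → ∀ X : (∀ j, Matrix (Fin (n j)) (Fin (n j)) ℂ),
          (∀ j, X j * QQ j (t j) * (X j)ᵀ = μ • jm ℂ (n j)) →
          MvPolynomial.eval (pn X μ) (MvPolynomial.map (algebraMap K ℂ) P) = 0 := by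
  obtain ⟨t, h1, h2, h3, h4⟩ := seqG hstep hA hVV
  choose P0 hP0' using fun j => hP0 j (t j) (h3 j)
  have hel : ∀ (i d : ℕ) (P : MvPolynomial (Vr n) ℂ), DC d (VV i) P → (∀ q, some q ∈ P.vars → max i d ≤ q.1) →
      MvPolynomial.eval (pn (fun j => cc j (t j)) tpi) P = 0 →
      ∀ g : (∀ j, Matrix (Fin (n j)) (Fin (n j)) ℚ), (∀ j, g j ∈ SpS ℚ (n j)) →
        MvPolynomial.eval (pn (fun j => YP tpi ((g j).map (algebraMap ℚ ℂ)) (P0 j)) tpi) P = 0 := by
    intro i d P hP hv h0 g hg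
    refine elim (l := max i d) (S := SS cc t) hP0' (fun j => SS_one t j) (fun j => SS_tpi t j)
      (fun i j hij a b => SS_mem t hij a b) (fun j hj => ?_) P hP hv h0 g hg
    refine (h4 j).mono ?_ ((le_max_right i d).trans hj)
    exact Submodule.mul_le.2 fun a ha b hb => Submodule.mul_mem_mul (hmono ((le_max_left i d).trans hj) ha)
      (pow_mono_sub (SS_one t j) ((le_max_right i d).trans hj) hb)
  refine ⟨t, h1, h2, h3, ?_, ?_⟩
  · intro i d P hP hv h0 X hX
    choose h hh hXh using fun j => exists_YP (hn j) tpi_ne (hP0' j) (hX j)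
    have h5 := dense_all hn P (hel i d P hP hv h0) h hh
    have h6 : X = fun j => YP tpi (h j) (P0 j) := funext hXh
    rw [h6]
    exact h5
  · intro K hK i d hKV P hP hv h0 μ hμ X hX
    choose h hh hXh using fun j => exists_YP (hn j) hμ (hP0' j) (hX j)
    have hP' : DC d (VV i) (MvPolynomial.map (algebraMap K ℂ) P) := by
      refine ⟨?_, fun s => ?_⟩
      · refine le_trans ?_ hP
        exact Finset.sup_mono (MvPolynomial.support_map_subset _ _)
      rw [MvPolynomial.coeff_map]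
      exact hKV _ (MvPolynomial.coeff s P).2
    have hv' : ∀ q, some q ∈ (MvPolynomial.map (algebraMap K ℂ) P).vars → max i d ≤ q.1 := by
      intro q hq
      exact hv q (MvPolynomial.vars_map _ _ hq)
    have h5 := dense_all hn (MvPolynomial.map (algebraMap K ℂ) P)
      (fun g hg => vary hK P (hel i d _ hP' hv' h0 g hg) μ) h hh
    have h6 : X = fun j => YP μ (h j) (P0 j) := funext hXh
    rw [h6]
    exact h5

end seqG

/-- a sequence of spaces which exhaust the algebraic numbers and the span of a sequence -/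
theorem exists_VV (Ξ : ℕ → ℂ) : ∃ VV : ℕ → Submodule ℚ ℂ, (∀ j, Module.Finite ℚ (VV j)) ∧ Monotone VV ∧
    (∀ j, Submodule.span ℚ (Ξ '' Set.Iic j) ≤ VV j) ∧
    ∀ K : Subfield ℂ, FiniteDimensional ℚ K → ∃ i, ∀ z ∈ K, z ∈ VV i := by
  obtain ⟨α, hα⟩ := (Algebraic.countable ℚ ℂ).exists_eq_range ⟨0, isAlgebraic_zero⟩
  refine ⟨fun j => Submodule.span ℚ (Ξ '' Set.Iic j ∪ α '' Set.Iic j), fun j => ?_, fun i j hij => ?_, fun j => ?_, ?_⟩
  · exact Module.Finite.span_of_finite ℚ (((Set.finite_Iic j).image _).union ((Set.finite_Iic j).image _))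
  · exact Submodule.span_mono (Set.union_subset_union (Set.image_mono (Set.Iic_subset_Iic.2 hij))
      (Set.image_mono (Set.Iic_subset_Iic.2 hij)))
  · exact Submodule.span_mono Set.subset_union_left
  · intro K hK
    have : FiniteDimensional ℚ K := hK
    set b := Module.finBasis ℚ K with hb
    have hex : ∀ i, ∃ m, α m = (b i : ℂ) := by
      intro i
      have h6 : IsAlgebraic ℚ (b i) := Algebra.IsAlgebraic.isAlgebraic _
      have h7 : (b i : ℂ) ∈ {x : ℂ | IsAlgebraic ℚ x} := h6.algebraMap (A := ℂ)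
      rw [hα] at h7
      exact h7
    choose e he using hex
    refine ⟨Finset.univ.sup e, fun x hx => ?_⟩
    have h3 := b.sum_repr ⟨x, hx⟩
    have h4 := congrArg (fun z : K => (z : ℂ)) h3
    simp only at h4
    rw [← h4]
    have h5 : ((∑ i, (b.repr ⟨x, hx⟩) i • b i : K) : ℂ) = ∑ i, (b.repr ⟨x, hx⟩ i : ℚ) • (b i : ℂ) := by
      push_cast
      refine Finset.sum_congr rfl fun i _ => ?_
      rw [Algebra.smul_def]
    rw [h5]
    refine Submodule.sum_mem _ fun i _ => Submodule.smul_mem _ _ (Submodule.subset_span (Or.inr ⟨e i, ?_, he i⟩))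
    exact Finset.le_sup (f := e) (Finset.mem_univ i)

end Pool.Agent.U534.Univ
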