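import Pool.Agent.U534.UnivFlat2

/-!
# Universal sequences
-/

set_option autoImplicit false
set_option linter.unusedSectionVars false

open Matrix Polynomial

namespace Pool.Agent.U534.Univ

open Pool.Agent.TH127.PT Pool.Agent.Y118.HP Pool.Agent.Y118.HG Pool.Agent.Y123.ST Pool.Agent.Y123.SR

/-- The number fields in `ℂ` are countable. -/
theorem countable_nf : {K : Subfield ℂ | FiniteDimensional ℚ K}.Countable := by
  have h1 := Set.countable_setOf_finite_subset (Algebraic.countable ℚ ℂ)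
  refine (h1.image fun s => Subfield.closure s).mono ?_
  intro K hK
  have : FiniteDimensional ℚ K := hK
  set b := Module.finBasis ℚ K with hb
  refine ⟨Set.range fun i => (b i : ℂ), ⟨Set.finite_range _, ?_⟩, ?_⟩
  · rintro _ ⟨i, rfl⟩
    have h6 : IsAlgebraic ℚ (b i) := Algebra.IsAlgebraic.isAlgebraic _
    exact h6.algebraMap (A := ℂ)
  · refine le_antisymm (Subfield.closure_le.2 ?_) fun x hx => ?_
    · rintro _ ⟨i, rfl⟩
      exact (b i).2
    · have h3 := b.sum_repr ⟨x, hx⟩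
      have h4 := congrArg (fun z : K => (z : ℂ)) h3
      simp only at h4
      rw [← h4]
      have h5 : ((∑ i, (b.repr ⟨x, hx⟩) i • b i : K) : ℂ) = ∑ i, ((b.repr ⟨x, hx⟩ i : ℚ) : ℂ) * (b i : ℂ) := by
        push_cast
        refine Finset.sum_congr rfl fun i _ => ?_
        rw [Algebra.smul_def]
        rfl
      rw [h5]
      exact sum_mem fun i _ => mul_mem (SubfieldClass.ratCast_mem _ _) (Subfield.subset_closure ⟨i, rfl⟩)

theorem exists_enum : ∃ KK : ℕ → Subfield ℂ, (∀ a, FiniteDimensional ℚ (KK a)) ∧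
    ∀ K : Subfield ℂ, FiniteDimensional ℚ K → ∃ a, KK a = K := by
  have hne : {K : Subfield ℂ | FiniteDimensional ℚ K}.Nonempty := by
    refine ⟨(algebraMap ℚ ℂ).fieldRange, ?_⟩
    refine Module.Finite.of_surjective (Algebra.linearMap ℚ (algebraMap ℚ ℂ).fieldRange) ?_
    rintro ⟨_, q, rfl⟩
    exact ⟨q, rfl⟩
  obtain ⟨KK, hKK⟩ := countable_nf.exists_eq_range hne
  refine ⟨KK, fun a => ?_, fun K hK => ?_⟩
  · have : KK a ∈ {K : Subfield ℂ | FiniteDimensional ℚ K} := by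
      rw [hKK]
      exact ⟨a, rfl⟩
    exact this
  · have : K ∈ {K : Subfield ℂ | FiniteDimensional ℚ K} := hK
    rw [hKK] at this
    exact this

/-- recursive choice -/
theorem exists_seq {α : Type*} [Inhabited α] (P : ℕ → (ℕ → α) → α → Prop)
    (hP : ∀ j t t' x, (∀ i < j, t i = t' i) → P j t x → P j t' x) (h : ∀ j t, ∃ x, P j t x) :
    ∃ t : ℕ → α, ∀ j, P j t (t j) := by
  classical
  set F : ℕ → (ℕ → α) := fun j => Nat.rec (fun _ => default) (fun j t => Function.update t j (h j t).choose) j with hF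
  have hFs : ∀ j, F (j + 1) = Function.update (F j) j (h j (F j)).choose := fun j => rfl
  have h1 : ∀ i j, i < j → F j i = F (i + 1) i := by
    intro i j hij
    induction j with
    | zero => omega
    | succ j ih =>
      by_cases hj : i = j
      · rw [hj]
      · rw [hFs, Function.update_of_ne hj]
        exact ih (by omega)
  refine ⟨fun j => F (j + 1) j, fun j => ?_⟩
  have h2 : F (j + 1) j = (h j (F j)).choose := by
    rw [hFs, Function.update_self]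
  refine hP j (F j) _ _ (fun i hi => h1 i j hi) ?_
  show P j (F j) (F (j + 1) j)
  rw [h2]
  exact (h j (F j)).choose_spec

/-- `A` is rich: for all `ε > 0` the number of its elements up to `T` is not `O(T ^ (1 - ε))` -/
def Rich (A : Set ℕ) : Prop :=
  ∀ ε : ℝ, 0 < ε → ∀ C : ℝ, ∃ T : ℕ, 1 ≤ T ∧ C * (T : ℝ) ^ (1 - ε) < ((A ∩ Set.Icc 1 T).ncard : ℝ)

/-- the period matrix of `M ⊕ ℚ(-1)` -/
noncomputable def wT {r : ℕ} (x : Matrix (Fin r) (Fin r) ℂ) : Matrix (Fin r ⊕ Unit) (Fin r ⊕ Unit) ℂ :=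
  fromBlocks x 0 0 (Matrix.of fun _ _ => 2 * Real.pi * Complex.I)

theorem tpi_ne : (2 * Real.pi * Complex.I : ℂ) ≠ 0 := by
  have := Complex.I_ne_zero
  have h2 : (Real.pi : ℂ) ≠ 0 := by exact_mod_cast Real.pi_ne_zero
  exact mul_ne_zero (mul_ne_zero two_ne_zero h2) this

theorem wT_unit {r : ℕ} {x : Matrix (Fin r) (Fin r) ℂ} (hx : IsUnit x) : IsUnit (wT x) := by
  rw [Matrix.isUnit_iff_isUnit_det] at hx ⊢
  have h1 : (Matrix.of fun _ _ => (2 * Real.pi * Complex.I : ℂ) : Matrix Unit Unit ℂ).det = 2 * Real.pi * Complex.I := by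
    rw [Matrix.det_unique]
    rfl
  unfold wT
  rw [Matrix.det_fromBlocks_zero₂₁, h1]
  exact hx.mul (isUnit_iff_ne_zero.2 tpi_ne)

theorem wT_cm {r : ℕ} (x : Matrix (Fin r) (Fin r) ℂ) : Cm (Sum.inr ()) (wT x) := by
  rintro (k | ⟨⟩) hk
  · exact ⟨rfl, rfl⟩
  · exact absurd rfl hk

/-- the hypothesis on a family of blocks: for all but few parameters, all subtorsors for one more block are fibre
products -/
def StepH {n : ℕ} (cc QQ : ℕ → Matrix (Fin n) (Fin n) ℂ) (OK : ℕ → Prop) : Prop :=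
  ∀ D r : ℕ, ∃ γ M : ℝ, 0 < γ ∧ ∀ K : Subfield ℂ, FiniteDimensional ℚ K → Module.finrank ℚ K ≤ D →
    ∀ (B₀ : Type) [Fintype B₀] [DecidableEq B₀] (b₀ : B₀) (c₀ : Matrix B₀ B₀ ℂ), Fintype.card B₀ ≤ r → IsUnit c₀ →
      Cm b₀ c₀ → c₀ b₀ b₀ = 2 * Real.pi * Complex.I →
      ∀ T : ℕ, 1 ≤ T → ∃ S : Finset ℕ, (S.card : ℝ) ≤ M * (T : ℝ) ^ (1 - γ) ∧
        ∀ x : ℕ, 1 ≤ x → x ≤ T → x ∉ S → OK x ∧ Ext K b₀ c₀ (QQ x) (cc x)

/-- the good parameters -/
def Gd {n : ℕ} (cc QQ : ℕ → Matrix (Fin n) (Fin n) ℂ) (x : ℕ) : Prop :=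
  cc x * QQ x * (cc x)ᵀ = (2 * Real.pi * Complex.I : ℂ) • jm ℂ n

theorem hyp_step {n : ℕ} (hn : Even n) (hn0 : 0 < n) (a : Fin n → ℝ) (f : ℚ[X])
    (hf : f.map (algebraMap ℚ ℝ) = ∏ i, (X - C (a i))) (m : Fin (n + 1)) (h0 : StrictMono (er a m 0)) :
    StepH (fun x => Matrix.of (cper (er a m (1 / (x : ℝ)))))
      (fun x => (-1 / 2 : ℂ) • (qm n (f * (X - C (1 / (x : ℚ))))).map (algebraMap ℚ ℂ))
      (fun x => StrictMono (er a m (1 / (x : ℝ))) ∧ Gd (fun x => Matrix.of (cper (er a m (1 / (x : ℝ)))))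
        (fun x => (-1 / 2 : ℂ) • (qm n (f * (X - C (1 / (x : ℚ))))).map (algebraMap ℚ ℂ)) x) := by
  intro D r
  obtain ⟨c, M, hc, h1⟩ := rel_hyp_all n 1 hn hn0 (fun _ => a) (fun _ => f) (fun _ => hf) (fun _ => m) (fun _ => h0) D r
  refine ⟨c, M, hc, fun K hK hKD B₀ _ _ b₀ c₀ hr hu hcm hlam T hT => ?_⟩
  obtain ⟨S, hS, h2⟩ := h1 K hK hKD B₀ b₀ c₀ hr hu hcm hlam T hT
  refine ⟨S.image fun t => t 0, ?_, fun x hx1 hx2 hxS => ?_⟩
  · have h3 : ((S.image fun t => t 0).card : ℝ) ≤ S.card := by exact_mod_cast Finset.card_image_le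
    refine h3.trans (hS.trans (le_of_eq ?_))
    norm_num
  · obtain ⟨h3, h4, h5⟩ := h2 (fun _ => x) (fun _ => ⟨hx1, hx2⟩)
      (fun h => hxS (Finset.mem_image.2 ⟨_, h, rfl⟩))
    refine ⟨⟨h3 0, ?_⟩, h5⟩
    rw [hlam] at h4
    exact h4.2 0

section
variable {n : ℕ → ℕ} {cc QQ : ∀ j, ℕ → Matrix (Fin (n j)) (Fin (n j)) ℂ} {OK : ℕ → ℕ → Prop}

theorem step_exists (hn : ∀ j, Even (n j)) (hOK : ∀ j x, OK j x → Gd (cc j) (QQ j) x)
    (hstep : ∀ j, StepH (cc j) (QQ j) (OK j)) {A : ℕ → Set ℕ} (hA : ∀ j, Rich (A j))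
    {KK : ℕ → Subfield ℂ} (hKK : ∀ a, FiniteDimensional ℚ (KK a)) {ρ : ℕ → ℕ}
    {C : ∀ i, Matrix (Fin (ρ i)) (Fin (ρ i)) ℂ} (hC : ∀ i, IsUnit (C i)) (j : ℕ) (t : ℕ → ℕ)
    (ht : ∀ i < j, OK i (t i)) :
    ∃ x, x ∈ A j ∧ (∀ i < j, t i < x) ∧ 1 ≤ x ∧ OK j x ∧
      ∀ (a i : Fin (j + 1)) (k : Fin (j + 1)) (s : Fin (k : ℕ) → Fin j),
        Ext (KK a) (Sum.inl (Sum.inr ())) (ES (n := fun l => n (s l)) (wT (C i)) fun l => cc (s l) (t (s l)))
          (QQ j x) (cc j x) := by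
  classical
  set D := ∑ a ∈ Finset.range (j + 1), Module.finrank ℚ (KK a) with hD
  set R := ∑ i ∈ Finset.range (j + 1), (ρ i + 1) with hR
  set r := R + j * ∑ l ∈ Finset.range j, n l with hr
  obtain ⟨γ, M, hγ, hmain⟩ := hstep j D r
  set Ix := Fin (j + 1) × Fin (j + 1) × (Σ k : Fin (j + 1), (Fin (k : ℕ) → Fin j)) with hIx
  set X0 := ∑ i ∈ Finset.range j, t i with hX0
  obtain ⟨T, hT, hTA⟩ := hA j (min γ 1) (lt_min hγ one_pos) ((Fintype.card Ix : ℝ) * |M| + (X0 + 1))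
  have hcond : ∀ q : Ix, ∃ S : Finset ℕ, (S.card : ℝ) ≤ M * (T : ℝ) ^ (1 - γ) ∧ ∀ x : ℕ, 1 ≤ x → x ≤ T → x ∉ S →
      OK j x ∧ Ext (KK q.1) (Sum.inl (Sum.inr ()))
        (ES (n := fun l => n (q.2.2.2 l)) (wT (C q.2.1)) fun l => cc (q.2.2.2 l) (t (q.2.2.2 l))) (QQ j x) (cc j x) := by
    rintro ⟨a, i, k, s⟩
    have h1 : ∀ l : Fin (k : ℕ), cc (s l) (t (s l)) * QQ (s l) (t (s l)) * (cc (s l) (t (s l)))ᵀ =
        (2 * Real.pi * Complex.I : ℂ) • jm ℂ (n (s l)) := fun l => hOK _ _ (ht _ (s l).2)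
    refine hmain (KK a) (hKK a) ?_ _ _ _ ?_ ?_ ?_ ?_ T hT
    · exact Finset.single_le_sum (f := fun a => Module.finrank ℚ (KK a)) (fun _ _ => Nat.zero_le _)
        (Finset.mem_range.2 a.2)
    · rw [Fintype.card_sum, Fintype.card_sum, Fintype.card_sigma, Fintype.card_fin, Fintype.card_unit]
      have h2 : ρ i + 1 ≤ R := Finset.single_le_sum (f := fun i => ρ i + 1) (fun _ _ => Nat.zero_le _)
        (Finset.mem_range.2 i.2)
      have h3 : ∑ l : Fin (k : ℕ), Fintype.card (Fin (n (s l))) ≤ j * ∑ l ∈ Finset.range j, n l := by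
        calc ∑ l : Fin (k : ℕ), Fintype.card (Fin (n (s l))) ≤ ∑ _l : Fin (k : ℕ), ∑ l ∈ Finset.range j, n l := by
              refine Finset.sum_le_sum fun l _ => ?_
              rw [Fintype.card_fin]
              exact Finset.single_le_sum (f := fun l => n l) (fun _ _ => Nat.zero_le _) (Finset.mem_range.2 (s l).2)
          _ = k * ∑ l ∈ Finset.range j, n l := by
              rw [Finset.sum_const, Finset.card_univ, Fintype.card_fin, smul_eq_mul]
          _ ≤ _ := Nat.mul_le_mul_right _ (Nat.lt_succ_iff.1 k.2)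
      exact Nat.add_le_add h2 h3
    · exact ES_unit (wT_unit (hC i)) fun l => (tor_det (hn _) tpi_ne (h1 l)).1
    · exact cm_ES (wT_cm _) _
    · rfl
  choose S hS1 hS2 using hcond
  set Bad : Finset ℕ := Finset.univ.biUnion S ∪ Finset.range (X0 + 1) with hBad
  have hTpos : (0 : ℝ) < T := by
    have : (1 : ℝ) ≤ T := by exact_mod_cast hT
    linarith
  have hT1 : (1 : ℝ) ≤ T := by exact_mod_cast hT
  have hp1 : (T : ℝ) ^ (1 - γ) ≤ (T : ℝ) ^ (1 - min γ 1) :=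
    Real.rpow_le_rpow_of_exponent_le hT1 (by linarith [min_le_left γ 1])
  have hp2 : (1 : ℝ) ≤ (T : ℝ) ^ (1 - min γ 1) := Real.one_le_rpow hT1 (by linarith [min_le_right γ 1])
  have hp3 : (0 : ℝ) ≤ (T : ℝ) ^ (1 - γ) := (Real.rpow_pos_of_pos hTpos _).le
  have hcard : (Bad.card : ℝ) ≤ ((Fintype.card Ix : ℝ) * |M| + (X0 + 1)) * (T : ℝ) ^ (1 - min γ 1) := by
    have h1 : (Bad.card : ℝ) ≤ ((Finset.univ.biUnion S).card : ℝ) + (X0 + 1) := by
      have := Finset.card_union_le (Finset.univ.biUnion S) (Finset.range (X0 + 1))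
      rw [Finset.card_range] at this
      exact_mod_cast this
    have h2 : ((Finset.univ.biUnion S).card : ℝ) ≤ (Fintype.card Ix : ℝ) * (|M| * (T : ℝ) ^ (1 - min γ 1)) := by
      have h3 : ((Finset.univ.biUnion S).card : ℝ) ≤ ∑ q : Ix, ((S q).card : ℝ) := by
        exact_mod_cast Finset.card_biUnion_le
      refine h3.trans ((Finset.sum_le_sum (g := fun _ => |M| * (T : ℝ) ^ (1 - min γ 1)) fun q _ => ?_).trans ?_)
      · calc ((S q).card : ℝ) ≤ M * (T : ℝ) ^ (1 - γ) := hS1 q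
          _ ≤ |M| * (T : ℝ) ^ (1 - γ) := mul_le_mul_of_nonneg_right (le_abs_self M) hp3
          _ ≤ |M| * (T : ℝ) ^ (1 - min γ 1) := mul_le_mul_of_nonneg_left hp1 (abs_nonneg M)
      · rw [Finset.sum_const, Finset.card_univ, nsmul_eq_mul]
    have h4 : ((X0 : ℝ) + 1) ≤ (X0 + 1) * (T : ℝ) ^ (1 - min γ 1) := by
      have : (0 : ℝ) ≤ (X0 : ℝ) + 1 := by positivity
      nlinarith
    nlinarith
  have hex : ∃ x ∈ A j ∩ Set.Icc 1 T, x ∉ Bad := by
    by_contra hcon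
    push Not at hcon
    have h1 : (A j ∩ Set.Icc 1 T).ncard ≤ Bad.card := by
      rw [← Set.ncard_coe_finset]
      exact Set.ncard_le_ncard (fun x hx => hcon x hx) (Finset.finite_toSet _)
    have h2 : ((A j ∩ Set.Icc 1 T).ncard : ℝ) ≤ Bad.card := by exact_mod_cast h1
    linarith
  obtain ⟨x, ⟨hxA, hx1, hx2⟩, hxB⟩ := hex
  have hxS : ∀ q, x ∉ S q := fun q hq => hxB (Finset.mem_union_left _ (Finset.mem_biUnion.2 ⟨q, Finset.mem_univ q, hq⟩))
  have hxX : X0 + 1 ≤ x := by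
    by_contra hlt
    exact hxB (Finset.mem_union_right _ (Finset.mem_range.2 (by omega)))
  refine ⟨x, hxA, fun i hi => ?_, hx1, ?_, ?_⟩
  · have h1 : t i ≤ X0 := Finset.single_le_sum (f := t) (fun _ _ => Nat.zero_le _) (Finset.mem_range.2 hi)
    omega
  · exact (hS2 (0, 0, ⟨0, Fin.elim0⟩) x hx1 hx2 (hxS _)).1
  · intro a i k s
    exact (hS2 (a, i, ⟨k, s⟩) x hx1 hx2 (hxS _)).2

/-- the universal sequence -/
theorem seq (hn : ∀ j, Even (n j)) (hOK : ∀ j x, OK j x → Gd (cc j) (QQ j) x)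
    (hstep : ∀ j, StepH (cc j) (QQ j) (OK j)) {A : ℕ → Set ℕ} (hA : ∀ j, Rich (A j))
    {KK : ℕ → Subfield ℂ} (hKK : ∀ a, FiniteDimensional ℚ (KK a)) {ρ : ℕ → ℕ}
    {C : ∀ i, Matrix (Fin (ρ i)) (Fin (ρ i)) ℂ} (hC : ∀ i, IsUnit (C i)) :
    ∃ t : ℕ → ℕ, StrictMono t ∧ (∀ j, t j ∈ A j) ∧ (∀ j, OK j (t j)) ∧ ∀ (a i k : ℕ) (s : Fin k → ℕ), StrictMono s →
      (∀ l, a ≤ s l) → (∀ l, i ≤ s l) → AllS (KK a) (Sum.inr ()) (wT (C i)) (n := fun l => n (s l))
        (fun l => QQ (s l) (t (s l))) (fun l => cc (s l) (t (s l))) := by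
  obtain ⟨t, ht⟩ := exists_seq (α := ℕ) (fun j t x => (∀ i < j, OK i (t i)) → (x ∈ A j ∧ (∀ i < j, t i < x) ∧ 1 ≤ x ∧
      OK j x ∧ ∀ (a i : Fin (j + 1)) (k : Fin (j + 1)) (s : Fin (k : ℕ) → Fin j),
        Ext (KK a) (Sum.inl (Sum.inr ())) (ES (n := fun l => n (s l)) (wT (C i)) fun l => cc (s l) (t (s l)))
          (QQ j x) (cc j x)))
    (by
      intro j t t' x htt h1 h2
      obtain ⟨h3, h4, h5, h6, h7⟩ := h1 fun i hi => by
        rw [htt i hi]
        exact h2 i hi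
      refine ⟨h3, fun i hi => ?_, h5, h6, fun a i k s => ?_⟩
      · rw [← htt i hi]
        exact h4 i hi
      · have h8 : (fun l : Fin (k : ℕ) => cc (s l) (t' (s l))) = fun l => cc (s l) (t (s l)) := by
          funext l
          rw [htt _ (s l).2]
        rw [h8]
        exact h7 a i k s)
    (by
      intro j t
      by_cases h : ∀ i < j, OK i (t i)
      · obtain ⟨x, hx⟩ := step_exists hn hOK hstep hA hKK hC j t h
        exact ⟨x, fun _ => hx⟩
      · exact ⟨0, fun h' => absurd h' h⟩)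
  have hall : ∀ j, OK j (t j) := by
    intro j
    induction j using Nat.strong_induction_on with
    | _ j ih => exact (ht j ih).2.2.2.1
  have ht' := fun j => ht j fun i _ => hall i
  refine ⟨t, strictMono_nat_of_lt_succ fun j => (ht' (j + 1)).2.1 j (Nat.lt_succ_self j), fun j => (ht' j).1, hall, ?_⟩
  intro a i k
  induction k with
  | zero =>
    intro s _ _ _
    exact all_zero _ _ _ _ _
  | succ k ih =>
    intro s hs ha hi
    refine all_succ (n := fun l => n (s l)) (fun l => hn _) ?_ ?_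
    · exact ih (fun l => s l.castSucc) (fun l l' h => hs (Fin.castSucc_lt_castSucc_iff.2 h)) (fun l => ha _)
        (fun l => hi _)
    · set j := s (Fin.last k) with hj
      have hlt : ∀ l : Fin k, s l.castSucc < j := fun l => hs (Fin.castSucc_lt_last l)
      have hkj : k ≤ j := by
        have h1 : Function.Injective (fun l : Fin k => (⟨s l.castSucc, hlt l⟩ : Fin j)) := by
          intro l l' h
          have h2 : s l.castSucc = s l'.castSucc := congrArg Fin.val h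
          exact Fin.castSucc_injective _ (hs.injective h2)
        have h2 := Fintype.card_le_of_injective _ h1
        rwa [Fintype.card_fin, Fintype.card_fin] at h2
      exact (ht' j).2.2.2.2 ⟨a, Nat.lt_succ_of_le (ha _)⟩ ⟨i, Nat.lt_succ_of_le (hi _)⟩ ⟨k, Nat.lt_succ_of_le hkj⟩
        (fun l => ⟨s l.castSucc, hlt l⟩)

end

end Pool.Agent.U534.Univ
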